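import Mathlib

set_option autoImplicit false

/-! Polynomial functions on groups. -/

namespace Pool.Agent.R679.Cov

variable {G : Type} [Group G] {R : Type} [CommRing R]

/-- right translation of functions on a group -/
def rho : G →* Module.End R (G → R) where
  toFun g :=
    { toFun := fun φ y => φ (y * g)
      map_add' := fun _ _ => rfl
      map_smul' := fun _ _ => rfl }
  map_one' := by
    ext φ y
    simp
  map_mul' g h := by
    ext φ y
    simp [mul_assoc]

theorem rho_apply (g : G) (φ : G → R) (y : G) : (rho g : Module.End R (G → R)) φ y = φ (y * g) :=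
  rfl

variable (G R) in
/-- the polynomial functions of degree less than `k` -/
def P : ℕ → Submodule R (G → R)
  | 0 => ⊥
  | k + 1 => ⨅ h : G, (P k).comap (rho h - 1)

theorem mem_P_zero {φ : G → R} : φ ∈ P G R 0 ↔ φ = 0 := by
  unfold P
  exact Submodule.mem_bot R

theorem mem_P_succ {k : ℕ} {φ : G → R} :
    φ ∈ P G R (k + 1) ↔ ∀ h : G, (rho h - 1 : Module.End R (G → R)) φ ∈ P G R k := by
  rw [P, Submodule.mem_iInf]
  rfl

theorem sub_one_apply (h : G) (φ : G → R) :
    (rho h - 1 : Module.End R (G → R)) φ = fun g => φ (g * h) - φ g := rfl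

theorem P_le_succ (k : ℕ) : P G R k ≤ P G R (k + 1) := by
  induction k with
  | zero =>
    intro φ hφ
    rw [mem_P_zero] at hφ
    rw [hφ]
    exact Submodule.zero_mem _
  | succ k ih =>
    intro φ hφ
    rw [mem_P_succ] at hφ ⊢
    exact fun h => ih (hφ h)

theorem P_mono {k l : ℕ} (h : k ≤ l) : P G R k ≤ P G R l := by
  induction l, h using Nat.le_induction with
  | base => exact le_rfl
  | succ l _ ih => exact ih.trans (P_le_succ l)

theorem rho_mem {k : ℕ} {φ : G → R} (hφ : φ ∈ P G R k) (h : G) :
    (rho h : Module.End R (G → R)) φ ∈ P G R k := by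
  cases k with
  | zero =>
    rw [mem_P_zero] at hφ ⊢
    rw [hφ, map_zero]
  | succ k =>
    have h1 := P_le_succ k ((mem_P_succ.1 hφ) h)
    have h2 : (rho h : Module.End R (G → R)) φ = φ + (rho h - 1 : Module.End R (G → R)) φ := by
      rw [LinearMap.sub_apply, Module.End.one_apply]
      abel
    rw [h2]
    exact Submodule.add_mem _ hφ h1

/-- operators that lower the degree by `j` -/
def Dec (j : ℕ) : Set (Module.End R (G → R)) := {T | ∀ i, ∀ φ ∈ P G R i, T φ ∈ P G R (i - j)}

theorem dec_zero' (j : ℕ) : (0 : Module.End R (G → R)) ∈ Dec j := by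
  intro i φ _
  exact Submodule.zero_mem _

theorem dec_one : (1 : Module.End R (G → R)) ∈ Dec 0 := by
  intro i φ h
  exact h

theorem dec_add {j : ℕ} {S T : Module.End R (G → R)} (hS : S ∈ Dec j) (hT : T ∈ Dec j) :
    S + T ∈ Dec j := fun i φ h => Submodule.add_mem _ (hS i φ h) (hT i φ h)

theorem dec_mul {j l : ℕ} {S T : Module.End R (G → R)} (hS : S ∈ Dec j) (hT : T ∈ Dec l) :
    S * T ∈ Dec (j + l) := by
  intro i φ h
  have h1 := hS _ _ (hT i φ h)
  have h2 : i - l - j = i - (j + l) := by omega
  rw [h2] at h1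
  exact h1

theorem dec_succ {j : ℕ} {S : Module.End R (G → R)} (hS : S ∈ Dec (j + 1)) : S ∈ Dec j :=
  fun i φ h => P_mono (by omega) (hS i φ h)

theorem dec_rho (g : G) : (rho g : Module.End R (G → R)) ∈ Dec 0 := fun _ _ h => rho_mem h g

theorem dec_rho_sub (g : G) : (rho g - 1 : Module.End R (G → R)) ∈ Dec 1 := by
  intro i φ h
  cases i with
  | zero =>
    rw [mem_P_zero] at h
    rw [h, map_zero]
    exact Submodule.zero_mem _
  | succ i => exact (mem_P_succ.1 h) g

/-- operator-valued functions whose iterated differences lower the degree more and more -/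
def Fil : ℕ → ℕ → (G → Module.End R (G → R)) → Prop
  | 0, j, u => ∀ g, u g ∈ Dec j
  | m + 1, j, u => (∀ g, u g ∈ Dec j) ∧ ∀ h, Fil m (j + 1) (fun g => u (g * h) - u g)

theorem fil_zero' (m j : ℕ) : Fil m j (fun _ : G => (0 : Module.End R (G → R))) := by
  induction m generalizing j with
  | zero => exact fun _ => dec_zero' j
  | succ m ih =>
    refine ⟨fun _ => dec_zero' j, fun h => ?_⟩
    have := ih (j + 1)
    simpa using this

theorem fil_one (m : ℕ) : Fil m 0 (fun _ : G => (1 : Module.End R (G → R))) := by
  cases m with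
  | zero => exact fun _ => dec_one
  | succ m =>
    refine ⟨fun _ => dec_one, fun h => ?_⟩
    have := fil_zero' (G := G) (R := R) m (0 + 1)
    simpa using this

theorem fil_down {m j : ℕ} {u : G → Module.End R (G → R)} (h : Fil (m + 1) j u) : Fil m j u := by
  induction m generalizing j u with
  | zero => exact h.1
  | succ m ih => exact ⟨h.1, fun h' => ih (h.2 h')⟩

theorem fil_succ {m j : ℕ} {u : G → Module.End R (G → R)} (h : Fil m (j + 1) u) : Fil m j u := by
  induction m generalizing j u with
  | zero => exact fun g => dec_succ (h g)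
  | succ m ih => exact ⟨fun g => dec_succ (h.1 g), fun h' => ih (h.2 h')⟩

theorem fil_add {m j : ℕ} {u v : G → Module.End R (G → R)} (hu : Fil m j u) (hv : Fil m j v) :
    Fil m j (fun g => u g + v g) := by
  induction m generalizing j u v with
  | zero => exact fun g => dec_add (hu g) (hv g)
  | succ m ih =>
    refine ⟨fun g => dec_add (hu.1 g) (hv.1 g), fun h => ?_⟩
    have := ih (hu.2 h) (hv.2 h)
    have h2 : (fun g => (u (g * h) - u g) + (v (g * h) - v g)) =
        (fun g => u (g * h) + v (g * h) - (u g + v g)) := by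
      funext g
      abel
    rw [h2] at this
    exact this

theorem fil_mul {m j l : ℕ} {u v : G → Module.End R (G → R)} (hu : Fil m j u) (hv : Fil m l v) :
    Fil m (j + l) (fun g => u g * v g) := by
  induction m generalizing j l u v with
  | zero => exact fun g => dec_mul (hu g) (hv g)
  | succ m ih =>
    refine ⟨fun g => dec_mul (hu.1 g) (hv.1 g), fun h => ?_⟩
    have h1 := ih (hu.2 h) (hv.2 h)
    have h2 := ih (hu.2 h) (fil_down hv)
    have h3 := ih (fil_down hu) (hv.2 h)
    have e1 : j + 1 + (l + 1) = (j + l + 1) + 1 := by omega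
    have e2 : j + 1 + l = j + l + 1 := by omega
    have e3 : j + (l + 1) = j + l + 1 := by omega
    rw [e1] at h1
    rw [e2] at h2
    rw [e3] at h3
    have h4 := fil_add (fil_add (fil_succ h1) h2) h3
    have h5 : (fun g => (u (g * h) - u g) * (v (g * h) - v g) + (u (g * h) - u g) * v g +
        u g * (v (g * h) - v g)) = (fun g => u (g * h) * v (g * h) - u g * v g) := by
      funext g
      rw [sub_mul, sub_mul, mul_sub, mul_sub]
      abel
    rw [h5] at h4
    exact h4

theorem fil_rho_mul (m j : ℕ) {T : Module.End R (G → R)} (hT : T ∈ Dec j) :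
    Fil m j (fun g : G => rho g * T) := by
  induction m generalizing j T with
  | zero =>
    intro g
    have := dec_mul (dec_rho g) hT
    rwa [zero_add] at this
  | succ m ih =>
    refine ⟨fun g => ?_, fun h => ?_⟩
    · have := dec_mul (dec_rho g) hT
      rwa [zero_add] at this
    · have h1 := dec_mul (dec_rho_sub h) hT
      rw [add_comm] at h1
      have h2 := ih (j + 1) h1
      have h3 : (fun g : G => (rho (g * h) : Module.End R (G → R)) * T - rho g * T) =
          (fun g : G => rho g * ((rho h - 1) * T)) := by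
        funext g
        rw [map_mul, sub_mul, one_mul, mul_sub, mul_assoc]
      rw [h3]
      exact h2

theorem fil_rho (m : ℕ) : Fil m 0 (fun g : G => (rho g : Module.End R (G → R))) := by
  have := fil_rho_mul (G := G) (R := R) m 0 dec_one
  simpa using this

theorem fil_rho_pow (m n : ℕ) : Fil m 0 (fun g : G => (rho g : Module.End R (G → R)) ^ n) := by
  induction n with
  | zero =>
    have := fil_one (G := G) (R := R) m
    simpa using this
  | succ n ih =>
    have h1 := fil_mul ih (fil_rho (G := G) (R := R) m)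
    have h2 : (fun g : G => (rho g : Module.End R (G → R)) ^ (n + 1)) =
        (fun g : G => (rho g : Module.End R (G → R)) ^ n * rho g) := by
      funext g
      rw [pow_succ]
    rw [h2]
    exact h1

theorem fil_apply {k j : ℕ} {u : G → Module.End R (G → R)} (hu : Fil k j u) {φ : G → R}
    (hφ : φ ∈ P G R (j + k)) : (fun g => u g φ 1) ∈ P G R k := by
  induction k generalizing j u with
  | zero =>
    rw [mem_P_zero]
    funext g
    have h1 := hu g j φ hφ
    rw [Nat.sub_self, mem_P_zero] at h1
    rw [h1]
    rfl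
  | succ k ih =>
    rw [mem_P_succ]
    intro h
    have h1 := ih (hu.2 h) (by rwa [show j + 1 + k = j + (k + 1) by omega])
    exact h1

/-- if `φ` is polynomial, so is `φ (g ^ n)`, and of the same degree -/
theorem pow_mem_P {k : ℕ} {φ : G → R} (hφ : φ ∈ P G R k) (n : ℕ) :
    (fun g => φ (g ^ n)) ∈ P G R k := by
  have h1 := fil_apply (fil_rho_pow (G := G) (R := R) k n) (φ := φ) (by rwa [zero_add])
  have h2 : (fun g : G => ((rho g : Module.End R (G → R)) ^ n) φ 1) = (fun g => φ (g ^ n)) := by
    funext g
    rw [← map_pow, rho_apply, one_mul]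
  rwa [h2] at h1

theorem comp_mem_P {H : Type} [Group H] (α : H →* G) {k : ℕ} {φ : G → R} (hφ : φ ∈ P G R k) :
    (fun x => φ (α x)) ∈ P H R k := by
  induction k generalizing φ with
  | zero =>
    rw [mem_P_zero] at hφ ⊢
    rw [hφ]
    rfl
  | succ k ih =>
    rw [mem_P_succ] at hφ ⊢
    intro h
    have h1 := ih (hφ (α h))
    have h2 : (fun x => (rho (α h) - 1 : Module.End R (G → R)) φ (α x)) =
        (rho h - 1 : Module.End R (H → R)) (fun x => φ (α x)) := by
      funext x
      rw [sub_one_apply, sub_one_apply]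
      simp only [map_mul]
    rwa [h2] at h1

theorem mem_P_of_comp {H : Type} [Group H] (α : H →* G) (hα : Function.Surjective α) {k : ℕ}
    {φ : G → R} (hφ : (fun x => φ (α x)) ∈ P H R k) : φ ∈ P G R k := by
  induction k generalizing φ with
  | zero =>
    rw [mem_P_zero] at hφ ⊢
    funext g
    obtain ⟨x, rfl⟩ := hα g
    exact congrFun hφ x
  | succ k ih =>
    rw [mem_P_succ] at hφ ⊢
    intro g
    obtain ⟨h, rfl⟩ := hα g
    apply ih
    have h1 := hφ h
    have h2 : (rho h - 1 : Module.End R (H → R)) (fun x => φ (α x)) =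
        (fun x => (rho (α h) - 1 : Module.End R (G → R)) φ (α x)) := by
      funext x
      rw [sub_one_apply, sub_one_apply]
      simp only [map_mul]
    rwa [h2] at h1

/-- homomorphisms to the additive group of `R` are polynomial functions -/
theorem hom_mem_P (χ : G → R) (h : ∀ x y, χ (x * y) = χ x + χ y) : χ ∈ P G R 2 := by
  rw [mem_P_succ]
  intro a
  rw [mem_P_succ]
  intro b
  rw [mem_P_zero]
  funext g
  rw [sub_one_apply, sub_one_apply]
  simp only [h]
  change χ g + χ b + χ a - (χ g + χ b) - (χ g + χ a - χ g) = 0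
  ring

theorem iter_mem (g : G) {k : ℕ} {φ : G → R} (hφ : φ ∈ P G R k) (i : ℕ) :
    (((rho g - 1 : Module.End R (G → R)) ^ i) φ) ∈ P G R (k - i) := by
  induction i with
  | zero => simpa using hφ
  | succ i ih =>
    rw [pow_succ']
    have := dec_rho_sub g _ _ ih
    rwa [show k - i - 1 = k - (i + 1) by omega] at this

theorem iter_eq_zero (g : G) {k : ℕ} {φ : G → R} (hφ : φ ∈ P G R k) {i : ℕ} (hi : k ≤ i) :
    ((rho g - 1 : Module.End R (G → R)) ^ i) φ = 0 := by
  have := iter_mem g hφ i
  rwa [Nat.sub_eq_zero_of_le hi, mem_P_zero] at this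

end Pool.Agent.R679.Cov
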