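import Pool.Agent.R679.Cov1

set_option autoImplicit false

/-! Homogeneous polynomial functions on groups. -/

namespace Pool.Agent.R679.Cov

open Polynomial Finset

section binom

variable {R : Type} [CommRing R]

theorem natDegree_descPochhammer_le (n : ℕ) : (descPochhammer R n).natDegree ≤ n := by
  induction n with
  | zero => rw [descPochhammer_zero, natDegree_one]
  | succ n ih =>
    rw [descPochhammer_succ_right]
    refine natDegree_mul_le.trans ?_
    have h1 : ((X : R[X]) - (n : R[X])).natDegree ≤ 1 := by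
      refine (natDegree_sub_le _ _).trans ?_
      rw [natDegree_natCast]
      exact max_le natDegree_X_le (Nat.zero_le _)
    omega

theorem X_dvd_descPochhammer {n : ℕ} (hn : 1 ≤ n) : (X : R[X]) ∣ descPochhammer R n := by
  obtain ⟨m, rfl⟩ := Nat.exists_eq_add_of_le' hn
  rw [descPochhammer_succ_left]
  exact Dvd.intro _ rfl

theorem isUnit_factorial {K : ℕ} (hU : ∀ i : ℕ, 0 < i → i < K → IsUnit (i : R)) {i : ℕ}
    (hi : i < K) : IsUnit ((i.factorial : ℕ) : R) := by
  induction i with
  | zero => simp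
  | succ i ih =>
    rw [Nat.factorial_succ, Nat.cast_mul]
    exact (hU _ (Nat.succ_pos i) hi).mul (ih (by omega))

/-- binomial coefficients as polynomials -/
theorem exists_binom {K : ℕ} (hU : ∀ i : ℕ, 0 < i → i < K → IsUnit (i : R)) {i : ℕ}
    (hi : i < K) : ∃ q : R[X], q.natDegree ≤ i ∧ (∀ l : ℕ, ((l.choose i : ℕ) : R) = q.eval (l : R)) ∧
      (1 ≤ i → X ∣ q) := by
  obtain ⟨u, hu⟩ := isUnit_factorial hU hi
  refine ⟨C (↑u⁻¹ : R) * descPochhammer R i, ?_, ?_, ?_⟩
  · exact (natDegree_C_mul_le _ _).trans (natDegree_descPochhammer_le i)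
  · intro l
    rw [eval_mul, eval_C, descPochhammer_eval_eq_descFactorial, Nat.descFactorial_eq_factorial_mul_choose,
      Nat.cast_mul, ← hu, ← mul_assoc, Units.inv_mul, one_mul]
  · intro h
    exact Dvd.dvd.mul_left (X_dvd_descPochhammer h) _

/-- weights that extract the linear coefficient -/
theorem exists_weights (K : ℕ) (hU : ∀ i : ℕ, 0 < i → i < K → IsUnit (i : R)) :
    ∃ c : ℕ → R, ∀ q : R[X], q.natDegree < K →
      ∑ l ∈ range K, c l * q.eval (l : R) = q.coeff 1 := by
  rcases Nat.lt_or_ge K 2 with hK | hK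
  · refine ⟨fun _ => 0, ?_⟩
    intro q hq
    rw [coeff_eq_zero_of_natDegree_lt (by omega)]
    simp
  · set V := Matrix.vandermonde (fun i : Fin K => ((i : ℕ) : R)) with hV
    have hdet : IsUnit V.det := by
      rw [hV, Matrix.det_vandermonde]
      rw [IsUnit.prod_univ_iff]
      intro i
      rw [IsUnit.prod_iff]
      intro j hj
      rw [Finset.mem_Ioi] at hj
      have h1 : (((j : ℕ) : R) - ((i : ℕ) : R)) = ((j - i : ℕ) : R) := by
        rw [Nat.cast_sub (le_of_lt hj)]
      rw [h1]
      have h2 : (i : ℕ) < j := hj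
      exact hU _ (by omega) (by have := j.2; omega)
    have hinv := Matrix.nonsing_inv_mul V hdet
    let o : Fin K := ⟨1, by omega⟩
    refine ⟨fun l => if h : l < K then V⁻¹ o ⟨l, h⟩ else 0, ?_⟩
    intro q hq
    have hev : ∀ l : ℕ, q.eval (l : R) = ∑ m ∈ range K, q.coeff m * (l : R) ^ m :=
      fun l => eval_eq_sum_range' hq _
    have h1 : ∑ l ∈ range K, (if h : l < K then V⁻¹ o ⟨l, h⟩ else 0) * q.eval (l : R) =
        ∑ l : Fin K, V⁻¹ o l * ∑ m : Fin K, q.coeff m * ((l : ℕ) : R) ^ (m : ℕ) := by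
      rw [← Fin.sum_univ_eq_sum_range (fun l => (if h : l < K then V⁻¹ o ⟨l, h⟩ else 0) *
        q.eval (l : R)) K]
      apply Finset.sum_congr rfl
      intro l _
      rw [dif_pos l.2, hev, Fin.sum_univ_eq_sum_range (fun m => q.coeff m * ((l : ℕ) : R) ^ m) K]
    rw [h1]
    have h2 : ∑ l : Fin K, V⁻¹ o l * ∑ m : Fin K, q.coeff m * ((l : ℕ) : R) ^ (m : ℕ) =
        ∑ m : Fin K, q.coeff m * (V⁻¹ * V) o m := by
      simp only [Finset.mul_sum, Matrix.mul_apply]
      rw [Finset.sum_comm]
      apply Finset.sum_congr rfl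
      intro m _
      apply Finset.sum_congr rfl
      intro l _
      rw [hV, Matrix.vandermonde_apply]
      ring
    rw [h2, hinv, Finset.sum_eq_single o]
    · rw [Matrix.one_apply_eq, mul_one]
    · intro m _ hm
      rw [Matrix.one_apply_ne (Ne.symm hm), mul_zero]
    · intro h
      exact absurd (Finset.mem_univ _) h

end binom

section hom

variable {G : Type} [Group G] {R : Type} [CommRing R]

theorem one_add_pow {k : ℕ} (X : Module.End R (G → R)) (ψ : G → R) (h : ∀ i, k ≤ i → (X ^ i) ψ = 0)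
    (l : ℕ) : ((X + 1) ^ l) ψ = ∑ i ∈ range k, (l.choose i : R) • (X ^ i) ψ := by
  have h1 : ((X + 1) ^ l) = ∑ i ∈ range (l + 1), (l.choose i : R) • X ^ i := by
    rw [(Commute.one_right X).add_pow]
    apply Finset.sum_congr rfl
    intro i _
    rw [one_pow, mul_one, Nat.cast_smul_eq_nsmul, nsmul_eq_mul]
    exact (Nat.cast_commute _ _).symm.eq
  rw [h1, LinearMap.sum_apply]
  have h2 : ∀ i, ((l.choose i : R) • X ^ i) ψ = (l.choose i : R) • (X ^ i) ψ := fun i => rfl
  simp only [h2]
  rcases Nat.le_total k (l + 1) with hk | hk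
  · symm
    apply Finset.sum_subset (Finset.range_mono hk)
    intro i _ hi
    rw [Finset.mem_range, not_lt] at hi
    rw [h i hi, smul_zero]
  · apply Finset.sum_subset (Finset.range_mono hk)
    intro i _ hi
    rw [Finset.mem_range, not_lt] at hi
    rw [Nat.choose_eq_zero_of_lt (by omega), Nat.cast_zero, zero_smul]

theorem rho_pow_apply (g : G) {k : ℕ} {φ : G → R} (hφ : φ ∈ P G R k) (l : ℕ) :
    ((rho (g ^ l) : Module.End R (G → R)) φ) =
      ∑ i ∈ range k, (l.choose i : R) • ((rho g - 1 : Module.End R (G → R)) ^ i) φ := by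
  rw [map_pow]
  have h1 : (rho g : Module.End R (G → R)) = (rho g - 1) + 1 := by rw [sub_add_cancel]
  conv_lhs => rw [h1]
  exact one_add_pow _ _ (fun i hi => iter_eq_zero g hφ hi) l

/-- homogeneity of degree one -/
def Hom1 (φ : G → R) : Prop := ∀ (g : G) (l : ℕ), φ (g ^ l) = l * φ g

theorem Hom1.one {φ : G → R} (h : Hom1 φ) : φ 1 = 0 := by
  have := h 1 0
  rwa [pow_zero, Nat.cast_zero, zero_mul] at this

/-- the values along a cyclic subgroup are given by a polynomial -/
theorem exists_poly {K k : ℕ} (hU : ∀ i : ℕ, 0 < i → i < K → IsUnit (i : R)) (hk : k ≤ K)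
    (hK : 0 < K) {φ : G → R} (hφ : φ ∈ P G R k) (g : G) :
    ∃ q : R[X], q.natDegree < K ∧ ∀ l : ℕ, φ (g ^ l) = q.eval (l : R) := by
  have hb : ∀ i : ℕ, ∃ q : R[X], i < K → (q.natDegree ≤ i ∧
      (∀ l : ℕ, ((l.choose i : ℕ) : R) = q.eval (l : R)) ∧ (1 ≤ i → X ∣ q)) := by
    intro i
    by_cases hi : i < K
    · obtain ⟨q, hq⟩ := exists_binom hU hi
      exact ⟨q, fun _ => hq⟩
    · exact ⟨0, fun h => absurd h hi⟩
  choose b hb using hb
  refine ⟨∑ i ∈ range k, C (((rho g - 1 : Module.End R (G → R)) ^ i) φ 1) * b i, ?_, ?_⟩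
  · have h1 : (∑ i ∈ range k, C (((rho g - 1 : Module.End R (G → R)) ^ i) φ 1) * b i).natDegree ≤
        K - 1 := by
      apply natDegree_sum_le_of_forall_le
      intro i hi
      rw [Finset.mem_range] at hi
      refine (natDegree_C_mul_le _ _).trans ?_
      have := (hb i (by omega)).1
      omega
    omega
  · intro l
    have h1 := congrFun (rho_pow_apply g hφ l) 1
    rw [rho_apply, one_mul, Finset.sum_apply] at h1
    rw [h1, eval_finset_sum]
    apply Finset.sum_congr rfl
    intro i hi
    rw [Finset.mem_range] at hi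
    rw [eval_mul, eval_C, ← (hb i (by omega)).2.1 l, Pi.smul_apply, smul_eq_mul, mul_comm]

/-- the homogeneous part of degree one -/
def hpart (c : ℕ → R) (K : ℕ) (φ : G → R) : G → R := fun g => ∑ l ∈ range K, c l * φ (g ^ l)

theorem hpart_mem (c : ℕ → R) (K : ℕ) {k : ℕ} {φ : G → R} (hφ : φ ∈ P G R k) :
    hpart c K φ ∈ P G R k := by
  have h1 : hpart c K φ = ∑ l ∈ range K, c l • (fun g => φ (g ^ l)) := by
    funext g
    rw [Finset.sum_apply]
    rfl
  rw [h1]
  exact Submodule.sum_mem _ (fun l _ => Submodule.smul_mem _ _ (pow_mem_P hφ l))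

theorem hpart_hom {K k : ℕ} (hU : ∀ i : ℕ, 0 < i → i < K → IsUnit (i : R)) (hk : k ≤ K)
    (hK : 0 < K) {c : ℕ → R}
    (hc : ∀ q : R[X], q.natDegree < K → ∑ l ∈ range K, c l * q.eval (l : R) = q.coeff 1)
    {φ : G → R} (hφ : φ ∈ P G R k) : Hom1 (hpart c K φ) := by
  intro g n
  obtain ⟨q, hq, hq'⟩ := exists_poly hU hk hK hφ g
  have h1 : hpart c K φ (g ^ n) = (q.comp (C (n : R) * X)).coeff 1 := by
    rw [← hc]
    · apply Finset.sum_congr rfl
      intro l _
      rw [← pow_mul, hq', eval_comp, eval_mul, eval_C, eval_X, Nat.cast_mul]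
    · refine lt_of_le_of_lt (natDegree_comp_le) ?_
      have : (C (n : R) * (X : R[X])).natDegree ≤ 1 :=
        (natDegree_C_mul_le _ _).trans natDegree_X_le
      nlinarith
  have h2 : hpart c K φ g = q.coeff 1 := by
    rw [← hc q hq]
    apply Finset.sum_congr rfl
    intro l _
    rw [hq']
  rw [h1, h2, comp_C_mul_X_coeff, pow_one, mul_comm]

theorem hpart_eq {K : ℕ} (hK : 2 ≤ K) {c : ℕ → R}
    (hc : ∀ q : R[X], q.natDegree < K → ∑ l ∈ range K, c l * q.eval (l : R) = q.coeff 1)
    {φ : G → R} {g : G} (hg : ∀ l : ℕ, φ (g ^ l) = l * φ g) : hpart c K φ g = φ g := by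
  have h1 := hc (C (φ g) * X) (by
    refine lt_of_le_of_lt ((natDegree_C_mul_le _ _).trans natDegree_X_le) ?_
    omega)
  rw [coeff_C_mul, coeff_X_one, mul_one] at h1
  conv_rhs => rw [← h1]
  apply Finset.sum_congr rfl
  intro l _
  rw [hg, eval_mul, eval_C, eval_X, mul_comm (l : R)]

/-- homogeneous polynomial functions are additive on commuting elements -/
theorem add_of_commute {k : ℕ} (hU : ∀ i : ℕ, 0 < i → i < 2 * k → IsUnit (i : R))
    {φ : G → R} (hφ : φ ∈ P G R k) (hφ' : Hom1 φ) {g h : G} (hgh : Commute g h) :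
    φ (g * h) = φ g + φ h := by
  rcases Nat.eq_zero_or_pos k with rfl | hk
  · rw [mem_P_zero] at hφ
    rw [hφ]
    simp
  obtain ⟨c, hc⟩ := exists_weights (2 * k) hU
  have hb : ∀ i : ℕ, ∃ q : R[X], i < 2 * k → (q.natDegree ≤ i ∧
      (∀ l : ℕ, ((l.choose i : ℕ) : R) = q.eval (l : R)) ∧ (1 ≤ i → X ∣ q)) := by
    intro i
    by_cases hi : i < 2 * k
    · obtain ⟨q, hq⟩ := exists_binom hU hi
      exact ⟨q, fun _ => hq⟩
    · exact ⟨0, fun h => absurd h hi⟩
  choose b hb using hb
  -- the double expansion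
  let a : ℕ → ℕ → R := fun i j =>
    ((rho g - 1 : Module.End R (G → R)) ^ i) (((rho h - 1 : Module.End R (G → R)) ^ j) φ) 1
  have hexp : ∀ l m : ℕ, φ (g ^ l * h ^ m) =
      ∑ j ∈ range k, ∑ i ∈ range k, (l.choose i : R) * (m.choose j : R) * a i j := by
    intro l m
    have h1 : φ (g ^ l * h ^ m) = ((rho (g ^ l) : Module.End R (G → R))
        ((rho (h ^ m) : Module.End R (G → R)) φ)) 1 := by
      rw [rho_apply, rho_apply, one_mul]
    rw [h1, rho_pow_apply h hφ m, map_sum, Finset.sum_apply]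
    apply Finset.sum_congr rfl
    intro j _
    rw [map_smul, rho_pow_apply g (P_mono (Nat.sub_le k j) (iter_mem h hφ j)) l, Pi.smul_apply,
      Finset.sum_apply, smul_eq_mul, Finset.mul_sum]
    apply Finset.sum_congr rfl
    intro i _
    rw [Pi.smul_apply, smul_eq_mul]
    ring
  have hk0 : (0 : ℕ) ∈ range k := Finset.mem_range.2 hk
  have ha00 : a 0 0 = 0 := by
    change φ 1 = 0
    exact hφ'.one
  -- splitting off the terms with `i = 0` or `j = 0`
  have hsplit : ∀ l : ℕ, (l : R) * (φ (g * h) - φ g - φ h) =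
      ∑ j ∈ (range k).erase 0, ∑ i ∈ (range k).erase 0,
        (l.choose i : R) * (l.choose j : R) * a i j := by
    intro l
    have e1 := hexp l l
    have e2 := hexp l 0
    have e3 := hexp 0 l
    rw [pow_zero, mul_one, hφ'] at e2
    rw [pow_zero, one_mul, hφ'] at e3
    rw [← hgh.mul_pow, hφ'] at e1
    have e4 : (l : R) * (φ (g * h) - φ g - φ h) = l * φ (g * h) - l * φ g - l * φ h := by ring
    rw [e4, e1, e2, e3]
    have f2 : ∑ j ∈ range k, ∑ i ∈ range k, (l.choose i : R) * ((0 : ℕ).choose j : R) * a i j =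
        ∑ i ∈ range k, (l.choose i : R) * a i 0 := by
      rw [Finset.sum_eq_single 0]
      · apply Finset.sum_congr rfl
        intro i _
        simp
      · intro j _ hj
        apply Finset.sum_eq_zero
        intro i _
        rw [Nat.choose_eq_zero_of_lt (Nat.pos_of_ne_zero hj)]
        simp
      · intro h
        exact absurd hk0 h
    have f3 : ∑ j ∈ range k, ∑ i ∈ range k, ((0 : ℕ).choose i : R) * (l.choose j : R) * a i j =
        ∑ j ∈ range k, (l.choose j : R) * a 0 j := by
      apply Finset.sum_congr rfl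
      intro j _
      rw [Finset.sum_eq_single 0]
      · simp
      · intro i _ hi
        rw [Nat.choose_eq_zero_of_lt (Nat.pos_of_ne_zero hi)]
        simp
      · intro h
        exact absurd hk0 h
    rw [f2, f3, ← Finset.add_sum_erase _ _ hk0, ← Finset.add_sum_erase (range k)
      (fun j => (l.choose j : R) * a 0 j) hk0]
    simp only [Nat.choose_zero_right, Nat.cast_one, one_mul, mul_one, ha00, zero_add]
    have f4 : ∀ j, ∑ i ∈ range k, (l.choose i : R) * (l.choose j : R) * a i j =
        (l.choose j : R) * a 0 j + ∑ i ∈ (range k).erase 0,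
          (l.choose i : R) * (l.choose j : R) * a i j := by
      intro j
      rw [← Finset.add_sum_erase _ _ hk0]
      simp
    rw [Finset.sum_congr rfl (fun j _ => f4 j), Finset.sum_add_distrib]
    ring
  -- extraction of the linear coefficient
  have hzero : ∑ l ∈ range (2 * k), c l * ((l : R) * (φ (g * h) - φ g - φ h)) = 0 := by
    have e1 : ∀ l ∈ range (2 * k), c l * ((l : R) * (φ (g * h) - φ g - φ h)) =
        c l * (∑ j ∈ (range k).erase 0, ∑ i ∈ (range k).erase 0,
          C (a i j) * (b i * b j)).eval (l : R) := by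
      intro l _
      rw [hsplit l, eval_finset_sum]
      congr 1
      apply Finset.sum_congr rfl
      intro j hj
      rw [eval_finset_sum]
      apply Finset.sum_congr rfl
      intro i hi
      rw [Finset.mem_erase, Finset.mem_range] at hi hj
      rw [eval_mul, eval_mul, eval_C, ← (hb i (by omega)).2.1 l, ← (hb j (by omega)).2.1 l]
      ring
    rw [Finset.sum_congr rfl e1, hc]
    · rw [finset_sum_coeff]
      apply Finset.sum_eq_zero
      intro j hj
      rw [finset_sum_coeff]
      apply Finset.sum_eq_zero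
      intro i hi
      rw [Finset.mem_erase, Finset.mem_range] at hi hj
      obtain ⟨r, hr⟩ := (hb i (by omega)).2.2 (Nat.one_le_iff_ne_zero.2 hi.1)
      obtain ⟨s, hs⟩ := (hb j (by omega)).2.2 (Nat.one_le_iff_ne_zero.2 hj.1)
      have : C (a i j) * (b i * b j) = (C (a i j) * r * s) * X ^ 2 := by
        rw [hr, hs]
        ring
      rw [this, coeff_mul_X_pow']
      simp
    · have h1 : (∑ j ∈ (range k).erase 0, ∑ i ∈ (range k).erase 0,
          C (a i j) * (b i * b j)).natDegree ≤ 2 * k - 1 := by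
        apply natDegree_sum_le_of_forall_le
        intro j hj
        apply natDegree_sum_le_of_forall_le
        intro i hi
        rw [Finset.mem_erase, Finset.mem_range] at hi hj
        refine (natDegree_C_mul_le _ _).trans (natDegree_mul_le.trans ?_)
        have := (hb i (by omega)).1
        have := (hb j (by omega)).1
        omega
      omega
  have h1 := hc (C (φ (g * h) - φ g - φ h) * X) (by
    refine lt_of_le_of_lt ((natDegree_C_mul_le _ _).trans natDegree_X_le) ?_
    omega)
  rw [coeff_C_mul, coeff_X_one, mul_one] at h1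
  have h2 : ∑ l ∈ range (2 * k), c l * (C (φ (g * h) - φ g - φ h) * X).eval (l : R) =
      ∑ l ∈ range (2 * k), c l * ((l : R) * (φ (g * h) - φ g - φ h)) := by
    apply Finset.sum_congr rfl
    intro l _
    rw [eval_mul, eval_C, eval_X]
    ring
  rw [h2, hzero] at h1
  have h3 : φ (g * h) = (φ (g * h) - φ g - φ h) + φ g + φ h := by ring
  rw [h3, ← h1, zero_add]

end hom

end Pool.Agent.R679.Cov
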