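import Pool.Agent.R679.Cov2

set_option autoImplicit false

/-! Polynomial functions on finite `p`-groups: sizes and unipotent actions. -/

namespace Pool.Agent.R679.Cov

section size

variable {G : Type} [Group G] {R : Type} [CommRing R]

theorem card_P_succ [Finite G] [Finite R] (S : Finset G) (hS : Subgroup.closure (S : Set G) = ⊤)
    (k : ℕ) : Nat.card (P G R (k + 1)) ≤ Nat.card R * Nat.card (P G R k) ^ S.card := by
  classical
  have h1 : Nat.card (R × (S → P G R k)) = Nat.card R * Nat.card (P G R k) ^ S.card := by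
    rw [Nat.card_prod, Nat.card_fun, Nat.card_eq_fintype_card (α := S), Fintype.card_coe]
  rw [← h1]
  refine Nat.card_le_card_of_injective (fun φ : P G R (k + 1) =>
    ((φ : G → R) 1, fun s : S => (⟨(rho (s : G) - 1 : Module.End R (G → R)) φ,
      (mem_P_succ.1 φ.2) s⟩ : P G R k))) ?_
  intro φ ψ hφψ
  rw [Prod.mk.injEq] at hφψ
  obtain ⟨h2, h3⟩ := hφψ
  have h4 : ∀ s ∈ S, (rho s : Module.End R (G → R)) ((φ : G → R) - ψ) = (φ : G → R) - ψ := by
    intro s hs
    have h5 := congrArg Subtype.val (congrFun h3 ⟨s, hs⟩)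
    simp only at h5
    rw [LinearMap.sub_apply, LinearMap.sub_apply, Module.End.one_apply, Module.End.one_apply] at h5
    rw [map_sub]
    have h6 : (rho s : Module.End R (G → R)) (φ : G → R) =
        ((rho s : Module.End R (G → R)) (φ : G → R) - (φ : G → R)) + (φ : G → R) := by abel
    rw [h6, h5]
    abel
  have h5 : ∀ g ∈ Subgroup.closure (S : Set G),
      (rho g : Module.End R (G → R)) ((φ : G → R) - ψ) = (φ : G → R) - ψ := by
    intro g hg
    induction hg using Subgroup.closure_induction with
    | mem x hx => exact h4 x hx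
    | one => rw [map_one]; rfl
    | mul x y _ _ hx hy => rw [map_mul, Module.End.mul_apply, hy, hx]
    | inv x _ hx =>
      have h6 : (rho x⁻¹ : Module.End R (G → R)) ((rho x : Module.End R (G → R))
          ((φ : G → R) - ψ)) = (φ : G → R) - ψ := by
        rw [← Module.End.mul_apply, ← map_mul, inv_mul_cancel, map_one]
        rfl
      rwa [hx] at h6
  apply Subtype.ext
  funext g
  have h6 := congrFun (h5 g (by rw [hS]; exact Subgroup.mem_top g)) 1
  rw [rho_apply, one_mul, Pi.sub_apply, Pi.sub_apply] at h6
  rw [h2, sub_self] at h6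
  exact sub_eq_zero.1 h6

theorem exists_gens {p n : ℕ} [hp : Fact p.Prime] [Finite G] (hG : Nat.card G = p ^ n) :
    ∃ S : Finset G, Subgroup.closure (S : Set G) = ⊤ ∧ S.card ≤ n := by
  classical
  haveI := Fintype.ofFinite G
  -- a generating family with `p ^ |S| ≤ |⟨S⟩|` and `⟨S⟩` as large as possible
  obtain ⟨S, hS, hmax⟩ := Finset.exists_max_image
    ((Finset.univ : Finset (Finset G)).filter
      (fun S : Finset G => p ^ S.card ≤ Nat.card (Subgroup.closure (S : Set G))))
    (fun S : Finset G => Nat.card (Subgroup.closure (S : Set G)))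
    ⟨∅, by
      rw [Finset.mem_filter]
      refine ⟨Finset.mem_univ _, ?_⟩
      rw [Finset.card_empty, pow_zero]
      exact Nat.card_pos⟩
  rw [Finset.mem_filter] at hS
  have hpow : ∀ K : Subgroup G, ∃ a, Nat.card K = p ^ a := by
    intro K
    have h1 : Nat.card K ∣ p ^ n := by rw [← hG]; exact Subgroup.card_subgroup_dvd_card K
    obtain ⟨a, _, ha⟩ := (Nat.dvd_prime_pow hp.out).1 h1
    exact ⟨a, ha⟩
  have hp2 : 2 ≤ p := hp.out.two_le
  refine ⟨S, ?_, ?_⟩
  · by_contra hne
    obtain ⟨g, hg⟩ : ∃ g : G, g ∉ Subgroup.closure (S : Set G) := by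
      by_contra hall
      push Not at hall
      exact hne ((Subgroup.eq_top_iff' _).2 hall)
    set K := Subgroup.closure (S : Set G) with hK
    set K' := Subgroup.closure ((insert g S : Finset G) : Set G) with hK'
    have hle : K ≤ K' := by
      apply Subgroup.closure_mono
      exact_mod_cast Finset.subset_insert g S
    have hg' : g ∈ K' := by
      apply Subgroup.subset_closure
      exact_mod_cast Finset.mem_insert_self g S
    have hlt : Nat.card K < Nat.card K' := by
      apply lt_of_le_of_ne (Subgroup.card_le_of_le hle)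
      intro he
      have := Subgroup.eq_of_le_of_card_ge hle he.ge
      rw [this] at hg
      exact hg hg'
    obtain ⟨a, ha⟩ := hpow K
    obtain ⟨b, hb⟩ := hpow K'
    have hab : a < b := by
      rw [ha, hb] at hlt
      exact (Nat.pow_lt_pow_iff_right hp2).1 hlt
    have h1 : p ^ (insert g S).card ≤ Nat.card K' := by
      have h2 : S.card ≤ a := by
        have := hS.2
        rw [ha] at this
        exact (Nat.pow_le_pow_iff_right hp2).1 this
      rw [hb]
      apply Nat.pow_le_pow_right (by omega)
      have := Finset.card_insert_le g S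
      omega
    have h2 := hmax (insert g S) (by
      rw [Finset.mem_filter]
      exact ⟨Finset.mem_univ _, h1⟩)
    exact absurd h2 (not_le.2 hlt)
  · have h1 := hS.2.trans (Subgroup.card_le_card_group _)
    rw [hG] at h1
    exact (Nat.pow_le_pow_iff_right hp2).1 h1

/-- the exponent in the bound for the number of polynomial functions -/
def ee (M n : ℕ) : ℕ → ℕ
  | 0 => 0
  | k + 1 => M + n * ee M n k

theorem card_P_le {p n M : ℕ} [hp : Fact p.Prime] [Finite G] [Finite R]
    (hG : Nat.card G = p ^ n) (hR : Nat.card R = p ^ M) (k : ℕ) :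
    Nat.card (P G R k) ≤ p ^ ee M n k := by
  obtain ⟨S, hS, hSn⟩ := exists_gens hG
  induction k with
  | zero =>
    have : P G R 0 = ⊥ := rfl
    rw [this]
    simp [ee]
  | succ k ih =>
    refine (card_P_succ S hS k).trans ?_
    rw [hR, ee, pow_add]
    apply Nat.mul_le_mul_left
    refine (Nat.pow_le_pow_left ih _).trans ?_
    rw [← pow_mul]
    apply Nat.pow_le_pow_right hp.out.pos
    rw [mul_comm]
    exact Nat.mul_le_mul_right _ hSn

end size

section unip

variable {Q : Type} [Group Q] {R : Type} [CommRing R] {V : Type} [AddCommGroup V] [Module R V]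

/-- the upper central series of a representation -/
def U (τ : Q →* Module.End R V) : ℕ → Submodule R V
  | 0 => ⊥
  | k + 1 => ⨅ h : Q, (U τ k).comap (τ h - 1)

theorem mem_U_zero {τ : Q →* Module.End R V} {v : V} : v ∈ U τ 0 ↔ v = 0 := by
  unfold U
  exact Submodule.mem_bot R

theorem mem_U_succ {τ : Q →* Module.End R V} {k : ℕ} {v : V} :
    v ∈ U τ (k + 1) ↔ ∀ h : Q, (τ h - 1) v ∈ U τ k := by
  rw [U, Submodule.mem_iInf]
  rfl

theorem U_le_succ (τ : Q →* Module.End R V) (k : ℕ) : U τ k ≤ U τ (k + 1) := by
  induction k with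
  | zero =>
    intro v hv
    rw [mem_U_zero] at hv
    rw [hv]
    exact Submodule.zero_mem _
  | succ k ih =>
    intro v hv
    rw [mem_U_succ] at hv ⊢
    exact fun h => ih (hv h)

theorem U_mono (τ : Q →* Module.End R V) {k l : ℕ} (h : k ≤ l) : U τ k ≤ U τ l := by
  induction l, h using Nat.le_induction with
  | base => exact le_rfl
  | succ l _ ih => exact ih.trans (U_le_succ τ l)

theorem U_inv (τ : Q →* Module.End R V) {k : ℕ} {v : V} (hv : v ∈ U τ k) (h : Q) :
    τ h v ∈ U τ k := by
  cases k with
  | zero =>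
    rw [mem_U_zero] at hv ⊢
    rw [hv, map_zero]
  | succ k =>
    have h1 := U_le_succ τ k ((mem_U_succ.1 hv) h)
    have h2 : τ h v = v + (τ h - 1) v := by
      rw [LinearMap.sub_apply, Module.End.one_apply]
      abel
    rw [h2]
    exact Submodule.add_mem _ hv h1

/-- one step up -/
theorem U_step {p : ℕ} [hp : Fact p.Prime] (hQ : IsPGroup p Q) (τ : Q →* Module.End R V)
    (M : Submodule R V) [Finite M] {m : ℕ} (hM : Nat.card M = p ^ m)
    (hinv : ∀ h : Q, ∀ v ∈ M, τ h v ∈ M) (i : ℕ) (hne : ¬ M ≤ U τ i) :
    ∃ v ∈ M, v ∈ U τ (i + 1) ∧ v ∉ U τ i := by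
  classical
  set A : Submodule R M := (U τ i).comap M.subtype with hA
  let W := M ⧸ A
  haveI : Finite W := Quotient.finite _
  let res : Q → (M →ₗ[R] M) := fun h => (τ h).restrict (hinv h)
  have hres : ∀ h, A ≤ A.comap (res h) := by
    intro h v hv
    rw [hA, Submodule.mem_comap] at hv
    rw [Submodule.mem_comap, hA, Submodule.mem_comap]
    exact U_inv τ hv h
  letI act : MulAction Q W :=
    { smul := fun h w => A.mapQ A (res h) (hres h) w
      one_smul := by
        intro w
        obtain ⟨v, rfl⟩ := Submodule.mkQ_surjective A w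
        change A.mapQ A (res 1) (hres 1) (A.mkQ v) = A.mkQ v
        rw [Submodule.mkQ_apply, Submodule.mapQ_apply]
        congr 1
        apply Subtype.ext
        change τ 1 (v : V) = v
        rw [map_one]
        rfl
      mul_smul := by
        intro a b w
        obtain ⟨v, rfl⟩ := Submodule.mkQ_surjective A w
        change A.mapQ A (res (a * b)) (hres (a * b)) (A.mkQ v) =
          A.mapQ A (res a) (hres a) (A.mapQ A (res b) (hres b) (A.mkQ v))
        rw [Submodule.mkQ_apply, Submodule.mapQ_apply, Submodule.mapQ_apply, Submodule.mapQ_apply]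
        congr 1
        apply Subtype.ext
        change τ (a * b) (v : V) = τ a (τ b (v : V))
        rw [map_mul]
        rfl }
  have hdvd : Nat.card W ∣ p ^ m := by
    rw [← hM]
    exact AddSubgroup.card_quotient_dvd_card A.toAddSubgroup
  obtain ⟨b, _, hb⟩ := (Nat.dvd_prime_pow hp.out).1 hdvd
  have hb0 : b ≠ 0 := by
    rintro rfl
    rw [pow_zero] at hb
    apply hne
    intro v hv
    have h1 : Subsingleton W := (Nat.card_eq_one_iff_unique.1 hb).1
    have h2 : A.mkQ ⟨v, hv⟩ = 0 := Subsingleton.elim (α := W) _ _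
    rw [Submodule.mkQ_apply, Submodule.Quotient.mk_eq_zero, hA, Submodule.mem_comap] at h2
    exact h2
  have hpW : p ∣ Nat.card W := by
    rw [hb]
    exact dvd_pow_self p hb0
  have hfix : (0 : W) ∈ MulAction.fixedPoints Q W := by
    intro h
    change A.mapQ A (res h) (hres h) 0 = 0
    rw [map_zero]
  obtain ⟨w, hw, hw0⟩ := hQ.exists_fixed_point_of_prime_dvd_card_of_fixed_point W hpW hfix
  obtain ⟨v, rfl⟩ := Submodule.mkQ_surjective A w
  refine ⟨v, v.2, ?_, ?_⟩
  · rw [mem_U_succ]
    intro h
    have h1 : A.mapQ A (res h) (hres h) (A.mkQ v) = A.mkQ v := hw h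
    rw [Submodule.mkQ_apply, Submodule.mapQ_apply, Submodule.Quotient.eq, hA,
      Submodule.mem_comap] at h1
    exact h1
  · intro h
    apply hw0
    symm
    rw [Submodule.mkQ_apply, Submodule.Quotient.mk_eq_zero, hA, Submodule.mem_comap]
    exact h

theorem le_U {p : ℕ} [hp : Fact p.Prime] (hQ : IsPGroup p Q) (τ : Q →* Module.End R V)
    (M : Submodule R V) [Finite M] {m : ℕ} (hM : Nat.card M = p ^ m)
    (hinv : ∀ h : Q, ∀ v ∈ M, τ h v ∈ M) {e : ℕ} (he : m ≤ e) : M ≤ U τ e := by
  -- the orders grow
  have key : ∀ i : ℕ, M ≤ U τ i ∨ p ^ i ≤ Nat.card (M ⊓ U τ i : Submodule R V) := by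
    intro i
    induction i with
    | zero =>
      right
      haveI : Finite (M ⊓ U τ 0 : Submodule R V) :=
        Finite.of_injective (Submodule.inclusion inf_le_left) (Submodule.inclusion_injective _)
      rw [pow_zero]
      exact Nat.card_pos
    | succ i ih =>
      rcases ih with h1 | h1
      · left
        exact h1.trans (U_le_succ τ i)
      · by_cases hne : M ≤ U τ i
        · left
          exact hne.trans (U_le_succ τ i)
        · right
          obtain ⟨v, hvM, hv1, hv0⟩ := U_step hQ τ M hM hinv i hne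
          haveI h2 : ∀ j, Finite (M ⊓ U τ j : Submodule R V) := fun j =>
            Finite.of_injective (Submodule.inclusion inf_le_left) (Submodule.inclusion_injective _)
          have hpow : ∀ j, ∃ a, Nat.card (M ⊓ U τ j : Submodule R V) = p ^ a := by
            intro j
            have h3 : Nat.card (M ⊓ U τ j : Submodule R V) ∣ p ^ m := by
              rw [← hM]
              exact AddSubgroup.card_dvd_of_le (H := (M ⊓ U τ j).toAddSubgroup)
                (K := M.toAddSubgroup) (fun x hx => hx.1)
            obtain ⟨a, _, ha⟩ := (Nat.dvd_prime_pow hp.out).1 h3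
            exact ⟨a, ha⟩
          obtain ⟨a, ha⟩ := hpow i
          obtain ⟨b, hb⟩ := hpow (i + 1)
          have hlt : Nat.card (M ⊓ U τ i : Submodule R V) <
              Nat.card (M ⊓ U τ (i + 1) : Submodule R V) := by
            have hle : (M ⊓ U τ i) ≤ (M ⊓ U τ (i + 1)) := inf_le_inf_left M (U_le_succ τ i)
            apply lt_of_le_of_ne
            · exact Nat.card_le_card_of_injective _ (Submodule.inclusion_injective hle)
            · intro he'
              have h4 : (M ⊓ U τ i).toAddSubgroup = (M ⊓ U τ (i + 1)).toAddSubgroup :=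
                AddSubgroup.eq_of_le_of_card_ge (fun x hx => hle hx) he'.ge
              have h5 : v ∈ (M ⊓ U τ (i + 1)).toAddSubgroup := ⟨hvM, hv1⟩
              rw [← h4] at h5
              exact hv0 h5.2
          rw [ha, hb] at hlt
          have hab : a < b := (Nat.pow_lt_pow_iff_right hp.out.one_lt).1 hlt
          rw [ha] at h1
          have hia : i ≤ a := (Nat.pow_le_pow_iff_right hp.out.one_lt).1 h1
          rw [hb]
          exact Nat.pow_le_pow_right hp.out.pos (by omega)
  rcases key e with h1 | h1
  · exact h1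
  · have h2 : Nat.card (M ⊓ U τ e : Submodule R V) = Nat.card M := by
      apply le_antisymm
      · exact Nat.card_le_card_of_injective _ (Submodule.inclusion_injective inf_le_left)
      · rw [hM]
        exact (Nat.pow_le_pow_right hp.out.pos he).trans h1
    intro v hv
    have h4 : (M ⊓ U τ e).toAddSubgroup = M.toAddSubgroup :=
      AddSubgroup.eq_of_le_of_card_ge (fun x hx => hx.1) h2.ge
    have h5 : v ∈ M.toAddSubgroup := hv
    rw [← h4] at h5
    exact h5.2

/-- matrix coefficients of unipotent representations are polynomial functions -/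
theorem coeff_mem_P (τ : Q →* Module.End R V) (ℓ : V → R) (hℓ : ∀ x y, ℓ (x - y) = ℓ x - ℓ y)
    {e : ℕ} {v : V} (hv : v ∈ U τ e) : (fun q => ℓ (τ q v)) ∈ P Q R e := by
  induction e generalizing v with
  | zero =>
    rw [mem_U_zero] at hv
    rw [mem_P_zero, hv]
    funext q
    rw [map_zero]
    have := hℓ 0 0
    rw [sub_self, sub_self] at this
    exact this
  | succ e ih =>
    rw [mem_P_succ]
    intro h
    have h1 := ih ((mem_U_succ.1 hv) h)
    have h2 : (rho h - 1 : Module.End R (Q → R)) (fun q => ℓ (τ q v)) =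
        (fun q => ℓ (τ q ((τ h - 1) v))) := by
      rw [sub_one_apply]
      funext q
      rw [LinearMap.sub_apply, Module.End.one_apply, map_sub, hℓ, map_mul]
      rfl
    rw [h2]
    exact h1

end unip

end Pool.Agent.R679.Cov
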