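import Pool.Agent.R679.Cov3

set_option autoImplicit false

/-! Extension of homogeneous polynomial functions from a normal subgroup of index `p`. -/

namespace Pool.Agent.R679.Cov

theorem Hom1.inv {G : Type} [Group G] [Finite G] {R : Type} [CommRing R] {φ : G → R}
    (h : Hom1 φ) (g : G) : φ g⁻¹ = -φ g := by
  have h0 : 0 < orderOf g := orderOf_pos g
  have h1 : g⁻¹ = g ^ (orderOf g - 1) := by
    have h2 : g * g ^ (orderOf g - 1) = 1 := by
      rw [← pow_succ', Nat.sub_add_cancel h0, pow_orderOf_eq_one]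
    exact (eq_inv_of_mul_eq_one_right h2).symm
  have h2 : (orderOf g : R) * φ g = 0 := by
    rw [← h, pow_orderOf_eq_one, h.one]
  rw [h1, h, Nat.cast_sub h0, Nat.cast_one, sub_mul, h2, one_mul, zero_sub]

theorem Hom1.zpow {G : Type} [Group G] [Finite G] {R : Type} [CommRing R] {φ : G → R}
    (h : Hom1 φ) (g : G) (z : ℤ) : φ (g ^ z) = z * φ g := by
  obtain ⟨n, rfl | rfl⟩ := z.eq_nat_or_neg
  · rw [zpow_natCast, h]
    push_cast
    rfl
  · rw [zpow_neg, zpow_natCast, h.inv, h]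
    push_cast
    ring

section ext

variable {G : Type} [Group G] (N : Subgroup G) [hN : N.Normal]

/-- pairs of elements in the same coset of `N` -/
def QQ : Subgroup (G × G) where
  carrier := {q | q.2⁻¹ * q.1 ∈ N}
  one_mem' := by
    change (1 : G)⁻¹ * 1 ∈ N
    simp
  mul_mem' := by
    intro a b ha hb
    change (a.2 * b.2)⁻¹ * (a.1 * b.1) ∈ N
    have h1 : (a.2 * b.2)⁻¹ * (a.1 * b.1) = (b.2⁻¹ * (a.2⁻¹ * a.1) * b.2⁻¹⁻¹) * (b.2⁻¹ * b.1) := by
      group
    rw [h1]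
    exact N.mul_mem (hN.conj_mem _ ha _) hb
  inv_mem' := by
    intro a ha
    change (a.2⁻¹)⁻¹ * a.1⁻¹ ∈ N
    have h1 : (a.2⁻¹)⁻¹ * a.1⁻¹ = (a.2 * (a.2⁻¹ * a.1) * a.2⁻¹)⁻¹ := by group
    rw [h1]
    exact N.inv_mem (hN.conj_mem _ ha _)

theorem QQ_mem (q : QQ N) (y : N) : (q : G × G).2⁻¹ * y * (q : G × G).1 ∈ N := by
  have h1 : (q : G × G).2⁻¹ * y * (q : G × G).1 =
      ((q : G × G).2⁻¹ * y * (q : G × G).2⁻¹⁻¹) * ((q : G × G).2⁻¹ * (q : G × G).1) := by group
  rw [h1]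
  exact N.mul_mem (hN.conj_mem _ y.2 _) q.2

variable (R : Type) [CommRing R]

/-- the action of the pairs on the functions on `N` -/
def tau : QQ N →* Module.End R (N → R) where
  toFun q :=
    { toFun := fun φ y => φ ⟨(q : G × G).2⁻¹ * y * (q : G × G).1, QQ_mem N q y⟩
      map_add' := fun _ _ => rfl
      map_smul' := fun _ _ => rfl }
  map_one' := by
    ext φ y
    change φ ⟨(1 : G)⁻¹ * y * 1, _⟩ = φ y
    congr 1
    apply Subtype.ext
    simp
  map_mul' a b := by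
    ext φ y
    change φ ⟨((a : G × G).2 * (b : G × G).2)⁻¹ * y * ((a : G × G).1 * (b : G × G).1), _⟩ =
      φ ⟨(b : G × G).2⁻¹ * ((a : G × G).2⁻¹ * y * (a : G × G).1) * (b : G × G).1, _⟩
    congr 1
    apply Subtype.ext
    simp only
    group

theorem tau_apply (q : QQ N) (φ : N → R) (y : N) : tau N R q φ y =
    φ ⟨(q : G × G).2⁻¹ * y * (q : G × G).1, QQ_mem N q y⟩ := rfl

theorem tau_mem {k : ℕ} (q : QQ N) {φ : N → R} (hφ : φ ∈ P N R k) : tau N R q φ ∈ P N R k := by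
  have h1 := rho_mem hφ ⟨(q : G × G).2⁻¹ * (q : G × G).1, q.2⟩
  have h2 := comp_mem_P (MulAut.conjNormal (H := N) (q : G × G).2⁻¹).toMonoidHom h1
  have h3 : tau N R q φ = (fun y => (rho (⟨(q : G × G).2⁻¹ * (q : G × G).1, q.2⟩ : N) :
      Module.End R (N → R)) φ ((MulAut.conjNormal (H := N) (q : G × G).2⁻¹).toMonoidHom y)) := by
    funext y
    rw [tau_apply, rho_apply]
    congr 1
    apply Subtype.ext
    change (q : G × G).2⁻¹ * y * (q : G × G).1 =
      ((MulAut.conjNormal (H := N) (q : G × G).2⁻¹ y : N) : G) * ((q : G × G).2⁻¹ * (q : G × G).1)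
    rw [MulAut.conjNormal_apply]
    group
  rw [h3]
  exact h2

/-- the fibre product of `G` and the integers over the powers of `x` modulo `N` -/
def DD (x : G) : Subgroup (G × Multiplicative ℤ) where
  carrier := {d | (x ^ (Multiplicative.toAdd d.2))⁻¹ * d.1 ∈ N}
  one_mem' := by
    change (x ^ (0 : ℤ))⁻¹ * 1 ∈ N
    simp
  mul_mem' := by
    intro a b ha hb
    change (x ^ (Multiplicative.toAdd a.2 + Multiplicative.toAdd b.2))⁻¹ * (a.1 * b.1) ∈ N
    have h1 : (x ^ (Multiplicative.toAdd a.2 + Multiplicative.toAdd b.2))⁻¹ * (a.1 * b.1) =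
        ((x ^ Multiplicative.toAdd b.2)⁻¹ * ((x ^ Multiplicative.toAdd a.2)⁻¹ * a.1) *
          (x ^ Multiplicative.toAdd b.2)⁻¹⁻¹) * ((x ^ Multiplicative.toAdd b.2)⁻¹ * b.1) := by
      rw [zpow_add]
      group
    rw [h1]
    exact N.mul_mem (hN.conj_mem _ ha _) hb
  inv_mem' := by
    intro a ha
    change (x ^ (-Multiplicative.toAdd a.2))⁻¹ * a.1⁻¹ ∈ N
    have h1 : (x ^ (-Multiplicative.toAdd a.2))⁻¹ * a.1⁻¹ =
        ((x ^ Multiplicative.toAdd a.2) * ((x ^ Multiplicative.toAdd a.2)⁻¹ * a.1) *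
          (x ^ Multiplicative.toAdd a.2)⁻¹)⁻¹ := by
      rw [zpow_neg]
      group
    rw [h1]
    exact N.inv_mem (hN.conj_mem _ ha _)

/-- the map to the pairs -/
def DtoQ (x : G) : DD N x →* QQ N where
  toFun d := ⟨((d : G × Multiplicative ℤ).1,
    x ^ (Multiplicative.toAdd (d : G × Multiplicative ℤ).2)), d.2⟩
  map_one' := by
    apply Subtype.ext
    change ((1 : G), x ^ (0 : ℤ)) = (1, 1)
    rw [zpow_zero]
  map_mul' a b := by
    apply Subtype.ext
    change ((a : G × Multiplicative ℤ).1 * (b : G × Multiplicative ℤ).1,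
      x ^ (Multiplicative.toAdd (a : G × Multiplicative ℤ).2 +
        Multiplicative.toAdd (b : G × Multiplicative ℤ).2)) = (_ * _, _ * _)
    rw [zpow_add]

/-- the map to `G` -/
def DtoG (x : G) : DD N x →* G := (MonoidHom.fst G (Multiplicative ℤ)).comp (DD N x).subtype

end ext

theorem extend {p : ℕ} [hp : Fact p.Prime] {G : Type} [Group G] [Finite G] {R : Type} [CommRing R]
    [Finite R] {m M : ℕ} (hG : Nat.card G = p ^ m) (hR : Nat.card R = p ^ M)
    (N : Subgroup G) [hN : N.Normal] (hind : N.index = p)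
    {k e : ℕ} (hU : ∀ i : ℕ, 0 < i → i < 2 * e → IsUnit (i : R)) (he : 2 ≤ e)
    (hcard : Nat.card (P N R k) ≤ p ^ e)
    {f : N → R} (hf : f ∈ P N R k) (hf1 : Hom1 f) {x : G} (hx : x ∉ N)
    (hxp : x ^ p ∈ N)
    {t : R} (ht : (p : R) * t = f ⟨x ^ p, hxp⟩) (I : Ideal R) (hI : ∀ n, f n ∈ I) (htI : t ∈ I) :
    ∃ F : G → R, F ∈ P G R e ∧ Hom1 F ∧ (∀ n : N, F n = f n) ∧ F x = t ∧ ∀ g, F g ∈ I := by
  classical
  have he0 : 0 < 2 * e := by omega
  -- the unipotent action
  have hQ : IsPGroup p (QQ N) := by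
    apply IsPGroup.of_card_dvd_pow (n := m + m)
    refine (Subgroup.card_subgroup_dvd_card (QQ N)).trans ?_
    rw [Nat.card_prod, hG, pow_add]
  obtain ⟨a, _, ha⟩ : ∃ a ≤ M * Nat.card N, Nat.card (P N R k) = p ^ a := by
    apply (Nat.dvd_prime_pow hp.out).1
    have h1 : Nat.card (N → R) = p ^ (M * Nat.card N) := by
      rw [Nat.card_fun, hR, ← pow_mul]
    rw [← h1]
    exact AddSubgroup.card_addSubgroup_dvd_card (P N R k).toAddSubgroup
  have hae : a ≤ e := by
    rw [ha] at hcard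
    exact (Nat.pow_le_pow_iff_right hp.out.one_lt).1 hcard
  have hfU : f ∈ U (tau N R) e :=
    le_U hQ (tau N R) (P N R k) ha (fun h v hv => tau_mem N R h hv) hae hf
  have hΦ := coeff_mem_P (tau N R) (fun φ : N → R => φ 1) (fun _ _ => rfl) hfU
  have hΦ' := comp_mem_P (DtoQ N x) hΦ
  set Φ : DD N x → R := fun d => f ⟨(x ^ (Multiplicative.toAdd (d : G × Multiplicative ℤ).2))⁻¹ *
    (d : G × Multiplicative ℤ).1, d.2⟩ with hΦdef
  have hΦP : Φ ∈ P (DD N x) R e := by
    have h1 : Φ = (fun d => (fun q => (fun φ : N → R => φ 1) ((tau N R q) f)) ((DtoQ N x) d)) := by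
      funext d
      change f _ = tau N R (DtoQ N x d) f 1
      rw [tau_apply]
      congr 1
      apply Subtype.ext
      change _ = (x ^ (Multiplicative.toAdd (d : G × Multiplicative ℤ).2))⁻¹ * ((1 : N) : G) *
        (d : G × Multiplicative ℤ).1
      rw [Subgroup.coe_one, mul_one]
    rw [h1]
    exact hΦ'
  -- the homogeneous part
  obtain ⟨c, hc⟩ := exists_weights (2 * e) hU
  set f1 : DD N x → R := hpart c (2 * e) Φ with hf1def
  have hf1P : f1 ∈ P (DD N x) R e := hpart_mem c (2 * e) hΦP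
  have hf1H : Hom1 f1 := hpart_hom hU (by omega) he0 hc hΦP
  set r : DD N x → R := fun d =>
    ((Multiplicative.toAdd (d : G × Multiplicative ℤ).2 : ℤ) : R) * t with hr
  have hrP : r ∈ P (DD N x) R e := by
    apply P_mono he
    apply hom_mem_P
    intro a b
    change (((Multiplicative.toAdd (a : G × Multiplicative ℤ).2 +
      Multiplicative.toAdd (b : G × Multiplicative ℤ).2 : ℤ)) : R) * t = _
    push_cast
    ring
  have hrH : Hom1 r := by
    intro d l
    change ((Multiplicative.toAdd ((d : G × Multiplicative ℤ).2 ^ l) : ℤ) : R) * t = _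
    rw [toAdd_pow]
    push_cast
    rw [nsmul_eq_mul]
    push_cast
    ring
  set F' : DD N x → R := f1 + r with hF'
  have hF'P : F' ∈ P (DD N x) R e := Submodule.add_mem _ hf1P hrP
  have hF'H : Hom1 F' := by
    intro d l
    rw [hF', Pi.add_apply, Pi.add_apply, hf1H, hrH]
    ring
  -- values on `N`
  have hvN : ∀ n : N, ∀ hd : ((n : G), (1 : Multiplicative ℤ)) ∈ DD N x,
      F' ⟨((n : G), 1), hd⟩ = f n := by
    intro n hd
    have h1 : ∀ (l : N) (hl : ((l : G), (1 : Multiplicative ℤ)) ∈ DD N x),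
        Φ ⟨((l : G), 1), hl⟩ = f l := by
      intro l hl
      change f _ = f l
      congr 1
      apply Subtype.ext
      change (x ^ (0 : ℤ))⁻¹ * (l : G) = l
      simp
    have h2 : f1 ⟨((n : G), 1), hd⟩ = Φ ⟨((n : G), 1), hd⟩ := by
      apply hpart_eq (by omega) hc
      intro l
      have h3 : (⟨((n : G), 1), hd⟩ : DD N x) ^ l = ⟨(((n ^ l : N) : G), 1), by
          have := (⟨((n : G), 1), hd⟩ ^ l : DD N x).2
          have h4 : (((⟨((n : G), 1), hd⟩ ^ l : DD N x)) : G × Multiplicative ℤ) =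
              (((n ^ l : N) : G), 1) := by
            simp
          rwa [h4] at this⟩ := by
        apply Subtype.ext
        simp
      rw [h3, h1, h1, hf1]
    have h3 : r ⟨((n : G), 1), hd⟩ = 0 := by
      change ((0 : ℤ) : R) * t = 0
      simp
    rw [hF', Pi.add_apply, h2, h3, h1, add_zero]
  -- values on the powers of `x`
  have hvx : ∀ z : ℤ, ∀ hd : (x ^ z, Multiplicative.ofAdd z) ∈ DD N x,
      F' ⟨(x ^ z, Multiplicative.ofAdd z), hd⟩ = z * t := by
    intro z hd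
    have h1 : ∀ (w : ℤ) (hw : (x ^ w, Multiplicative.ofAdd w) ∈ DD N x),
        Φ ⟨(x ^ w, Multiplicative.ofAdd w), hw⟩ = 0 := by
      intro w hw
      rw [← hf1.one]
      change f _ = f 1
      congr 1
      apply Subtype.ext
      change (x ^ w)⁻¹ * x ^ w = 1
      simp
    have h2 : f1 ⟨(x ^ z, Multiplicative.ofAdd z), hd⟩ =
        Φ ⟨(x ^ z, Multiplicative.ofAdd z), hd⟩ := by
      apply hpart_eq (by omega) hc
      intro l
      have h4 : (((⟨(x ^ z, Multiplicative.ofAdd z), hd⟩ ^ l : DD N x)) :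
          G × Multiplicative ℤ) = (x ^ (z * l), Multiplicative.ofAdd (z * l)) := by
        rw [Subgroup.coe_pow, Prod.pow_mk, zpow_mul, zpow_natCast, ← ofAdd_nsmul]
        congr 2
        rw [nsmul_eq_mul, mul_comm]
      have h3 : (⟨(x ^ z, Multiplicative.ofAdd z), hd⟩ : DD N x) ^ l =
          ⟨(x ^ (z * l), Multiplicative.ofAdd (z * l)), by
          have := (⟨(x ^ z, Multiplicative.ofAdd z), hd⟩ ^ l : DD N x).2
          rwa [h4] at this⟩ := Subtype.ext h4
      rw [h3, h1, h1, mul_zero]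
    have h3 : r ⟨(x ^ z, Multiplicative.ofAdd z), hd⟩ = z * t := rfl
    rw [hF', Pi.add_apply, h2, h3, h1, zero_add]
  -- divisibility
  have hdiv : ∀ z : ℤ, x ^ z ∈ N → (p : ℤ) ∣ z := by
    intro z hz
    by_contra hnd
    have h1 : IsCoprime z (p : ℤ) :=
      ((Nat.prime_iff_prime_int.1 hp.out).coprime_iff_not_dvd.2 hnd).symm
    obtain ⟨u, v, huv⟩ := h1
    apply hx
    have h2 : x = (x ^ z) ^ u * (x ^ (p : ℤ)) ^ v := by
      rw [← zpow_mul, ← zpow_mul, ← zpow_add]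
      rw [mul_comm z u, mul_comm (p : ℤ) v, huv, zpow_one]
    rw [h2]
    apply N.mul_mem
    · exact N.zpow_mem hz u
    · rw [zpow_natCast]
      exact N.zpow_mem hxp v
  -- the kernel
  have hker : ∀ z : ℤ, ∀ hd : ((1 : G), Multiplicative.ofAdd z) ∈ DD N x,
      F' ⟨((1 : G), Multiplicative.ofAdd z), hd⟩ = 0 := by
    intro z hd
    have hz : x ^ z ∈ N := by
      have h1 : (x ^ z)⁻¹ * 1 ∈ N := hd
      rw [mul_one] at h1
      exact N.inv_mem_iff.1 h1
    obtain ⟨j, rfl⟩ := hdiv z hz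
    have hd1 : (x ^ ((p : ℤ) * j), Multiplicative.ofAdd ((p : ℤ) * j)) ∈ DD N x := by
      change (x ^ ((p : ℤ) * j))⁻¹ * x ^ ((p : ℤ) * j) ∈ N
      simp
    have hd2 : (((⟨x ^ p, hxp⟩ ^ (-j) : N) : G), (1 : Multiplicative ℤ)) ∈ DD N x := by
      change (x ^ (0 : ℤ))⁻¹ * ((⟨x ^ p, hxp⟩ ^ (-j) : N) : G) ∈ N
      simp only [zpow_zero, inv_one, one_mul]
      exact SetLike.coe_mem _
    have hcoe : ((⟨x ^ p, hxp⟩ ^ (-j) : N) : G) = x ^ (-((p : ℤ) * j)) := by
      rw [Subgroup.coe_zpow]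
      change (x ^ p) ^ (-j) = _
      rw [← zpow_natCast, ← zpow_mul]
      congr 1
      ring
    have h1 : (⟨((1 : G), Multiplicative.ofAdd ((p : ℤ) * j)), hd⟩ : DD N x) =
        ⟨(x ^ ((p : ℤ) * j), Multiplicative.ofAdd ((p : ℤ) * j)), hd1⟩ * ⟨_, hd2⟩ := by
      apply Subtype.ext
      change ((1 : G), Multiplicative.ofAdd ((p : ℤ) * j)) =
        (x ^ ((p : ℤ) * j) * ((⟨x ^ p, hxp⟩ ^ (-j) : N) : G), Multiplicative.ofAdd ((p : ℤ) * j) * 1)
      rw [hcoe, ← zpow_add, add_neg_cancel, zpow_zero, mul_one]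
    have h2 : Commute (⟨(x ^ ((p : ℤ) * j), Multiplicative.ofAdd ((p : ℤ) * j)), hd1⟩ : DD N x)
        ⟨_, hd2⟩ := by
      apply Subtype.ext
      change (x ^ ((p : ℤ) * j) * ((⟨x ^ p, hxp⟩ ^ (-j) : N) : G),
        Multiplicative.ofAdd ((p : ℤ) * j) * 1) = (((⟨x ^ p, hxp⟩ ^ (-j) : N) : G) *
          x ^ ((p : ℤ) * j), 1 * Multiplicative.ofAdd ((p : ℤ) * j))
      rw [hcoe, ← zpow_add, ← zpow_add, add_comm, mul_one, one_mul]
    rw [h1, add_of_commute hU hF'P hF'H h2, hvx, hvN, hf1.zpow, ← ht]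
    push_cast
    ring
  -- invariance
  have hinvar : ∀ (g : G) (z w : ℤ) (h1 : (g, Multiplicative.ofAdd z) ∈ DD N x)
      (h2 : (g, Multiplicative.ofAdd w) ∈ DD N x),
      F' ⟨(g, Multiplicative.ofAdd z), h1⟩ = F' ⟨(g, Multiplicative.ofAdd w), h2⟩ := by
    intro g z w h1 h2
    have h3 : ((1 : G), Multiplicative.ofAdd (w - z)) ∈ DD N x := by
      have h4 := (DD N x).mul_mem ((DD N x).inv_mem h1) h2
      have h5 : ((g, Multiplicative.ofAdd z) : G × Multiplicative ℤ)⁻¹ *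
          (g, Multiplicative.ofAdd w) = ((1 : G), Multiplicative.ofAdd (w - z)) := by
        rw [Prod.inv_mk, Prod.mk_mul_mk, inv_mul_cancel, ← ofAdd_neg, ← ofAdd_add]
        congr 2
        ring
      rwa [h5] at h4
    have h4 : (⟨(g, Multiplicative.ofAdd w), h2⟩ : DD N x) =
        ⟨(g, Multiplicative.ofAdd z), h1⟩ * ⟨((1 : G), Multiplicative.ofAdd (w - z)), h3⟩ := by
      apply Subtype.ext
      change ((g, Multiplicative.ofAdd w) : G × Multiplicative ℤ) =
        (g * 1, Multiplicative.ofAdd z * Multiplicative.ofAdd (w - z))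
      rw [mul_one, ← ofAdd_add]
      congr 2
      ring
    have h5 : Commute (⟨(g, Multiplicative.ofAdd z), h1⟩ : DD N x)
        ⟨((1 : G), Multiplicative.ofAdd (w - z)), h3⟩ := by
      apply Subtype.ext
      change (g * 1, Multiplicative.ofAdd z * Multiplicative.ofAdd (w - z)) =
        (1 * g, Multiplicative.ofAdd (w - z) * Multiplicative.ofAdd z)
      rw [mul_one, one_mul, mul_comm]
    rw [h4, add_of_commute hU hF'P hF'H h5, hker, add_zero]
  -- surjectivity
  have hsurj : Function.Surjective (DtoG N x) := by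
    intro g
    have h1 : Nat.card (G ⧸ N) = p := hind
    have h2 : (x : G ⧸ N) ≠ 1 := by
      intro h
      exact hx ((QuotientGroup.eq_one_iff x).1 h)
    have h3 : (g : G ⧸ N) ∈ Subgroup.zpowers (x : G ⧸ N) := mem_zpowers_of_prime_card h1 h2
    obtain ⟨z, hz⟩ := Subgroup.mem_zpowers_iff.1 h3
    refine ⟨⟨(g, Multiplicative.ofAdd z), ?_⟩, rfl⟩
    change (x ^ z)⁻¹ * g ∈ N
    rw [← QuotientGroup.eq, QuotientGroup.mk_zpow]
    exact hz
  choose s hs using hsurj
  have hfib : ∀ d : DD N x, F' d = F' (s (DtoG N x d)) := by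
    intro d
    have h1 := hs (DtoG N x d)
    have h2 : ((s (DtoG N x d) : DD N x) : G × Multiplicative ℤ).1 =
      (d : G × Multiplicative ℤ).1 := h1
    have key : ∀ a b : DD N x, (a : G × Multiplicative ℤ).1 = (b : G × Multiplicative ℤ).1 →
        F' a = F' b := by
      rintro ⟨⟨a1, a2⟩, ha⟩ ⟨⟨b1, b2⟩, hb⟩ hab
      simp only at hab
      subst hab
      exact hinvar a1 (Multiplicative.toAdd a2) (Multiplicative.toAdd b2) ha hb
    exact key _ _ h2.symm
  refine ⟨fun g => F' (s g), ?_, ?_, ?_, ?_, ?_⟩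
  · apply mem_P_of_comp (DtoG N x) (fun g => ⟨s g, hs g⟩)
    have h1 : (fun d => F' (s (DtoG N x d))) = F' := by
      funext d
      exact (hfib d).symm
    rw [h1]
    exact hF'P
  · intro g l
    have h1 : F' (s (g ^ l)) = F' ((s g) ^ l) := by
      rw [hfib (s g ^ l), map_pow, hs]
    change F' (s (g ^ l)) = l * F' (s g)
    rw [h1, hF'H]
  · intro n
    have hd : ((n : G), (1 : Multiplicative ℤ)) ∈ DD N x := by
      change (x ^ (0 : ℤ))⁻¹ * (n : G) ∈ N
      simp
    have h1 := hfib ⟨((n : G), 1), hd⟩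
    rw [hvN] at h1
    exact h1.symm
  · have hd : (x ^ (1 : ℤ), Multiplicative.ofAdd (1 : ℤ)) ∈ DD N x := by
      change (x ^ (1 : ℤ))⁻¹ * x ^ (1 : ℤ) ∈ N
      simp
    have h1 := hfib ⟨(x ^ (1 : ℤ), Multiplicative.ofAdd (1 : ℤ)), hd⟩
    rw [hvx, Int.cast_one, one_mul] at h1
    rw [h1]
    change F' (s x) = F' (s (x ^ (1 : ℤ)))
    rw [zpow_one]
  · intro g
    apply I.add_mem
    · apply I.sum_mem
      intro l _
      exact I.mul_mem_left _ (hI _)
    · exact I.mul_mem_left _ htI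

end Pool.Agent.R679.Cov
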