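import Pool.Agent.R679.Cov4

set_option autoImplicit false

/-! Homogeneous polynomial functions separate the points of a finite `p`-group, `p` large. -/

namespace Pool.Agent.R679.Cov

/-- the degrees -/
def kk (M : ℕ) : ℕ → ℕ
  | 0 => 2
  | m + 1 => max 2 (ee M m (kk M m))

/-- the bound for the primes -/
def PP (M : ℕ) : ℕ := ∑ j ∈ Finset.range (M + 1), 2 * kk M j

theorem two_kk_le {M j : ℕ} (hj : j ≤ M) : 2 * kk M j ≤ PP M :=
  Finset.single_le_sum (f := fun j => 2 * kk M j) (fun _ _ => Nat.zero_le _)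
    (Finset.mem_range.2 (Nat.lt_succ_of_le hj))

theorem isUnit_zmod {p M : ℕ} (hp : p.Prime) {i : ℕ} (h0 : 0 < i) (hi : i < p) :
    IsUnit ((i : ℕ) : ZMod (p ^ M)) := by
  rw [ZMod.isUnit_iff_coprime]
  exact (Nat.coprime_of_lt_prime (by omega) hi hp).symm.pow_right M

theorem sep {p M : ℕ} [hp : Fact p.Prime] (hpM : PP M ≤ p) (m : ℕ) (hm : m ≤ M) :
    ∀ (G : Type) [Group G] [Finite G], Nat.card G = p ^ m → ∀ g : G, g ≠ 1 →
      ∃ F : G → ZMod (p ^ M), F ∈ P G (ZMod (p ^ M)) (kk M m) ∧ Hom1 F ∧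
        (∀ x, F x ∈ Ideal.span {(p : ZMod (p ^ M)) ^ (M - m)}) ∧ F g ≠ 0 := by
  induction m with
  | zero =>
    intro G _ _ hG g hg
    exfalso
    rw [pow_zero, Nat.card_eq_one_iff_unique] at hG
    haveI := hG.1
    exact hg (Subsingleton.elim _ _)
  | succ m ih =>
    intro G _ _ hG g hg
    haveI : NeZero (p ^ M) := ⟨pow_ne_zero _ hp.out.ne_zero⟩
    obtain ⟨N, hN⟩ := Sylow.exists_subgroup_card_pow_prime (G := G) p (n := m)
      (by rw [hG]; exact pow_dvd_pow p (Nat.le_succ m))
    have hind : N.index = p := by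
      have h1 := N.card_mul_index
      rw [hN, hG, pow_succ] at h1
      exact Nat.eq_of_mul_eq_mul_left (pow_pos hp.out.pos m) h1
    haveI hNn : N.Normal := by
      apply Subgroup.normal_of_index_eq_minFac_card
      rw [hind, hG, Nat.Prime.pow_minFac hp.out (Nat.succ_ne_zero m)]
    have hU : ∀ i : ℕ, 0 < i → i < 2 * kk M (m + 1) → IsUnit ((i : ℕ) : ZMod (p ^ M)) :=
      fun i h0 hi => isUnit_zmod hp.out h0 (hi.trans_le ((two_kk_le hm).trans hpM))
    have hR : Nat.card (ZMod (p ^ M)) = p ^ M := Nat.card_zmod _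
    have hcard : Nat.card (P N (ZMod (p ^ M)) (kk M m)) ≤ p ^ kk M (m + 1) := by
      refine (card_P_le (n := m) hN hR (kk M m)).trans ?_
      exact Nat.pow_le_pow_right hp.out.pos (le_max_right _ _)
    have hpow : ∀ x : G, x ^ p ∈ N := by
      intro x
      have := N.pow_index_mem x
      rwa [hind] at this
    have hle : Ideal.span {(p : ZMod (p ^ M)) ^ (M - m)} ≤
        Ideal.span {(p : ZMod (p ^ M)) ^ (M - (m + 1))} := by
      rw [Ideal.span_singleton_le_span_singleton]
      exact pow_dvd_pow _ (by omega)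
    by_cases hgN : g ∈ N
    · obtain ⟨f, hf, hf1, hfI, hfg⟩ := ih (by omega) N hN ⟨g, hgN⟩
        (fun h => hg (congrArg Subtype.val h))
      obtain ⟨x, hx⟩ : ∃ x : G, x ∉ N := by
        by_contra hall
        push Not at hall
        have : N = ⊤ := (Subgroup.eq_top_iff' N).2 hall
        rw [this, Subgroup.index_top] at hind
        exact hp.out.one_lt.ne hind
      obtain ⟨s, hs⟩ := Ideal.mem_span_singleton'.1 (hfI ⟨x ^ p, hpow x⟩)
      obtain ⟨F, hF, hF1, hFN, _, hFI⟩ := extend hG hR N hind hU (le_max_left _ _) hcard hf hf1 hx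
        (hpow x) (t := s * (p : ZMod (p ^ M)) ^ (M - (m + 1))) (by
          rw [← hs]
          have : M - m = M - (m + 1) + 1 := by omega
          rw [this, pow_succ]
          ring) (Ideal.span {(p : ZMod (p ^ M)) ^ (M - (m + 1))}) (fun n => hle (hfI n))
          (Ideal.mul_mem_left _ _ (Ideal.mem_span_singleton_self _))
      refine ⟨F, hF, hF1, hFI, ?_⟩
      have := hFN ⟨g, hgN⟩
      simp only at this
      rw [this]
      exact hfg
    · obtain ⟨F, hF, hF1, _, hFx, hFI⟩ := extend hG hR N hind hU (le_max_left _ _) hcard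
        (f := 0) (Submodule.zero_mem _) (fun _ _ => by simp) hgN (hpow g)
        (t := (p : ZMod (p ^ M)) ^ (M - 1)) (by
          rw [Pi.zero_apply, ← pow_succ', show M - 1 + 1 = M by omega]
          have := ZMod.natCast_self (p ^ M)
          rwa [Nat.cast_pow] at this) (Ideal.span {(p : ZMod (p ^ M)) ^ (M - (m + 1))})
          (fun n => Ideal.zero_mem _)
          (Ideal.mem_span_singleton.2 (pow_dvd_pow _ (by omega)))
      refine ⟨F, hF, hF1, hFI, ?_⟩
      rw [hFx]
      intro h
      have h1 : ((p ^ (M - 1) : ℕ) : ZMod (p ^ M)) = 0 := by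
        rw [Nat.cast_pow]
        exact h
      rw [ZMod.natCast_eq_zero_iff] at h1
      have h2 := (Nat.pow_dvd_pow_iff_le_right hp.out.one_lt).1 h1
      omega

/-- the exponent of the order of the module on which the groups act -/
def EE (n : ℕ) : ℕ := ee n n (kk n n)

/-- groups of order `p ^ n` act faithfully on abelian groups of bounded order -/
theorem exists_action {p n : ℕ} [hp : Fact p.Prime] (hpn : PP n ≤ p) (G : Type) [Group G]
    [Finite G] (hG : Nat.card G = p ^ n) : ∃ (V : Type) (_ : AddCommGroup V) (_ : Finite V)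
      (σ : G →* AddMonoid.End V), Function.Injective σ ∧ ∃ a ≤ EE n, Nat.card V = p ^ a := by
  haveI : NeZero (p ^ n) := ⟨pow_ne_zero _ hp.out.ne_zero⟩
  let σ : G →* AddMonoid.End (P G (ZMod (p ^ n)) (kk n n)) :=
    { toFun := fun g => (((rho g : Module.End (ZMod (p ^ n)) (G → ZMod (p ^ n))).restrict
        (fun _ hv => rho_mem hv g)).toAddMonoidHom)
      map_one' := by
        ext v x
        change (rho (1 : G) : Module.End (ZMod (p ^ n)) (G → ZMod (p ^ n))) v x = (v : G → _) x
        rw [map_one]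
        rfl
      map_mul' := by
        intro a b
        ext v x
        change (rho (a * b) : Module.End (ZMod (p ^ n)) (G → ZMod (p ^ n))) v x =
          (rho a : Module.End (ZMod (p ^ n)) (G → ZMod (p ^ n)))
            ((rho b : Module.End (ZMod (p ^ n)) (G → ZMod (p ^ n))) v) x
        rw [map_mul]
        rfl }
  refine ⟨P G (ZMod (p ^ n)) (kk n n), inferInstance, inferInstance, σ, ?_, ?_⟩
  · rw [injective_iff_map_eq_one]
    intro g hg
    by_contra hne
    obtain ⟨F, hF, hF1, _, hFg⟩ := sep hpn n le_rfl G hG g hne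
    apply hFg
    have h1 := DFunLike.congr_fun hg (⟨F, hF⟩ : P G (ZMod (p ^ n)) (kk n n))
    have h2 := congrFun (congrArg Subtype.val h1) 1
    change F (1 * g) = F 1 at h2
    rw [one_mul, hF1.one] at h2
    exact h2
  · have h1 := card_P_le hG (Nat.card_zmod (p ^ n)) (kk n n)
    have h2 : Nat.card (P G (ZMod (p ^ n)) (kk n n)) ∣ p ^ (n * Nat.card G) := by
      have h1 : Nat.card (G → ZMod (p ^ n)) = p ^ (n * Nat.card G) := by
        rw [Nat.card_fun, Nat.card_zmod, ← pow_mul]
      rw [← h1]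
      exact AddSubgroup.card_addSubgroup_dvd_card (P G (ZMod (p ^ n)) (kk n n)).toAddSubgroup
    obtain ⟨a, _, ha⟩ := (Nat.dvd_prime_pow hp.out).1 h2
    refine ⟨a, ?_, ha⟩
    rw [ha] at h1
    exact (Nat.pow_le_pow_iff_right hp.out.one_lt).1 h1

/-- the types of the abelian groups of order dividing `p ^ E` -/
abbrev Typ (E : ℕ) : Type := Σ c : Fin (E + 1), (Fin c → Fin (E + 1))

/-- the abelian group of a given type -/
abbrev WW (p : ℕ) {E : ℕ} (s : Typ E) : Type := (i : Fin s.1) → ZMod (p ^ (s.2 i : ℕ))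

theorem exists_type {p : ℕ} [hp : Fact p.Prime] {E a : ℕ} (ha : a ≤ E) (V : Type)
    [AddCommGroup V] [Finite V] (hV : Nat.card V = p ^ a) :
    ∃ s : Typ E, Nonempty (V ≃+ WW p s) := by
  classical
  obtain ⟨ι, _, n, hn, ⟨e⟩⟩ := AddCommGroup.equiv_directSum_zmod_of_finite' V
  have e2 : V ≃+ ((i : ι) → ZMod (n i)) := e.trans (DirectSum.addEquivProd _)
  have hcard : ∏ i, n i = p ^ a := by
    rw [← hV, Nat.card_congr e2.toEquiv, Nat.card_pi]
    apply Finset.prod_congr rfl
    intro i _
    rw [Nat.card_zmod]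
  have hb : ∀ i, ∃ b, 1 ≤ b ∧ b ≤ E ∧ n i = p ^ b := by
    intro i
    have h1 : n i ∣ p ^ a := by
      rw [← hcard]
      exact Finset.dvd_prod_of_mem n (Finset.mem_univ i)
    obtain ⟨b, hb, hb'⟩ := (Nat.dvd_prime_pow hp.out).1 h1
    refine ⟨b, ?_, hb.trans ha, hb'⟩
    by_contra h0
    have h00 : b = 0 := by omega
    have := hn i
    rw [hb', h00, pow_zero] at this
    omega
  choose b hb1 hb2 hb3 using hb
  have hn' : n = fun i => p ^ b i := funext hb3
  subst hn'
  have hι : Fintype.card ι ≤ E := by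
    have h1 : p ^ Fintype.card ι ≤ p ^ a := by
      rw [← hcard]
      calc p ^ Fintype.card ι = ∏ _i : ι, p := by
            rw [Finset.prod_const, Finset.card_univ]
        _ ≤ ∏ i, p ^ b i := Finset.prod_le_prod' (fun i _ => Nat.le_self_pow (by
            have := hb1 i; omega) p)
    exact ((Nat.pow_le_pow_iff_right hp.out.one_lt).1 h1).trans ha
  let e3 : ι ≃ Fin (Fintype.card ι) := Fintype.equivFin ι
  refine ⟨⟨⟨Fintype.card ι, by omega⟩, fun j => ⟨b (e3.symm j), by
    have := hb2 (e3.symm j); omega⟩⟩, ⟨e2.trans ?_⟩⟩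
  exact
    { Equiv.piCongrLeft' (fun i => ZMod (p ^ b i)) e3 with
      map_add' := fun _ _ => rfl }

theorem card_End_le {p : ℕ} [hp : Fact p.Prime] {E : ℕ} (s : Typ E) :
    Nat.card (AddMonoid.End (WW p s))ˣ ≤ p ^ (E * E * E) := by
  classical
  haveI : ∀ i : Fin s.1, NeZero (p ^ (s.2 i : ℕ)) := fun i => ⟨pow_ne_zero _ hp.out.ne_zero⟩
  have hW : Nat.card (WW p s) ≤ p ^ (E * E) := by
    rw [Nat.card_pi]
    calc ∏ i : Fin s.1, Nat.card (ZMod (p ^ (s.2 i : ℕ))) ≤ ∏ _i : Fin s.1, p ^ E := by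
          apply Finset.prod_le_prod'
          intro i _
          rw [Nat.card_zmod]
          exact Nat.pow_le_pow_right hp.out.pos (Nat.le_of_lt_succ (s.2 i).2)
      _ = p ^ (E * s.1) := by
          rw [Finset.prod_const, Finset.card_univ, Fintype.card_fin, ← pow_mul]
      _ ≤ p ^ (E * E) := by
          apply Nat.pow_le_pow_right hp.out.pos
          exact Nat.mul_le_mul_left _ (Nat.le_of_lt_succ s.1.2)
  have h1 : Nat.card (AddMonoid.End (WW p s))ˣ ≤ Nat.card (Fin s.1 → WW p s) := by
    refine Nat.card_le_card_of_injective (fun (u : (AddMonoid.End (WW p s))ˣ) (i : Fin s.1) =>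
      (u : AddMonoid.End (WW p s)) (Pi.single i 1)) ?_
    intro u v huv
    apply Units.ext
    apply AddMonoidHom.functions_ext
    intro i x
    have h2 := congrFun huv i
    simp only at h2
    have h3 : (Pi.single i x : WW p s) = x.val • (Pi.single i (1 : ZMod (p ^ (s.2 i : ℕ)))) := by
      rw [← Pi.single_smul]
      congr 1
      rw [nsmul_eq_mul, mul_one, ZMod.natCast_zmod_val]
    rw [h3, map_nsmul, map_nsmul]
    exact congrArg (fun z => x.val • z) h2
  refine h1.trans ?_
  rw [Nat.card_fun, Nat.card_eq_fintype_card (α := Fin s.1), Fintype.card_fin]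
  refine (Nat.pow_le_pow_left hW _).trans ?_
  rw [← pow_mul]
  apply Nat.pow_le_pow_right hp.out.pos
  exact Nat.mul_le_mul_left _ (Nat.le_of_lt_succ s.1.2)

/-- the universal group for large primes -/
abbrev UU (p E : ℕ) : Type := (s : Typ E) → (AddMonoid.End (WW p s))ˣ

theorem card_UU_le {p : ℕ} [hp : Fact p.Prime] (E : ℕ) :
    Nat.card (UU p E) ≤ p ^ (E * E * E * Fintype.card (Typ E)) := by
  rw [Nat.card_pi]
  refine (Finset.prod_le_prod' (fun s _ => card_End_le s)).trans ?_
  rw [Finset.prod_const, Finset.card_univ, ← pow_mul]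

theorem finite_UU {p : ℕ} [hp : Fact p.Prime] (E : ℕ) : Finite (UU p E) := by
  haveI : ∀ s : Typ E, ∀ i : Fin s.1, NeZero (p ^ (s.2 i : ℕ)) :=
    fun s i => ⟨pow_ne_zero _ hp.out.ne_zero⟩
  haveI : ∀ s : Typ E, Finite (AddMonoid.End (WW p s)) := by
    intro s
    exact Finite.of_injective (fun (φ : AddMonoid.End (WW p s)) => (φ : WW p s → WW p s))
      DFunLike.coe_injective
  haveI : ∀ s : Typ E, Finite (AddMonoid.End (WW p s))ˣ := fun s =>
    Finite.of_injective _ Units.val_injective
  infer_instance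

theorem embed {p n : ℕ} [hp : Fact p.Prime] (hpn : PP n ≤ p) (G : Type) [Group G]
    (hG : Nat.card G = p ^ n) : ∃ φ : G →* UU p (EE n), Function.Injective φ := by
  classical
  haveI : Finite G := Nat.finite_of_card_ne_zero (by rw [hG]; exact pow_ne_zero _ hp.out.ne_zero)
  obtain ⟨V, _, _, σ, hσ, a, ha, hV⟩ := exists_action hpn G hG
  obtain ⟨s, ⟨e⟩⟩ := exists_type ha V hV
  let σ' : G →* AddMonoid.End (WW p s) :=
    { toFun := fun g => (e.toAddMonoidHom.comp (σ g)).comp e.symm.toAddMonoidHom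
      map_one' := by
        apply AddMonoidHom.ext
        intro w
        change e (σ 1 (e.symm w)) = w
        rw [map_one]
        exact e.apply_symm_apply w
      map_mul' := by
        intro a b
        apply AddMonoidHom.ext
        intro w
        change e (σ (a * b) (e.symm w)) = e (σ a (e.symm (e (σ b (e.symm w)))))
        rw [map_mul, e.symm_apply_apply]
        rfl }
  refine ⟨(MonoidHom.mulSingle (fun s : Typ (EE n) => (AddMonoid.End (WW p s))ˣ) s).comp
    σ'.toHomUnits, ?_⟩
  rw [MonoidHom.coe_comp]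
  apply Function.Injective.comp (Pi.mulSingle_injective s)
  intro g h hgh
  apply hσ
  have h1 : σ' g = σ' h := congrArg Units.val hgh
  apply AddMonoidHom.ext
  intro v
  have h2 := DFunLike.congr_fun h1 (e v)
  change e (σ g (e.symm (e v))) = e (σ h (e.symm (e v))) at h2
  rw [e.symm_apply_apply] at h2
  exact e.injective h2

end Pool.Agent.R679.Cov
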