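import Mathlib

/-!
Submonoids of free monoids: minimal generating sets, free submonoids, stability
(Schützenberger's criterion), factorial/transitive/regular languages.
-/

namespace Pool.Agent.R679.FSub

open FreeMonoid

variable {α : Type*}

/-- The minimal generating set `(M ∖ {1}) ∖ (M ∖ {1})²` of a submonoid `M` of a free monoid. -/
def minGen (M : Submonoid (FreeMonoid α)) : Set (FreeMonoid α) :=
  {x | x ∈ M ∧ x ≠ 1 ∧ ¬ ∃ y ∈ M, ∃ z ∈ M, y ≠ 1 ∧ z ≠ 1 ∧ x = y * z}

/-- `M` is free: the canonical morphism from the free monoid on `minGen M` is injective and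
has image `M`. -/
def IsFreeSub (M : Submonoid (FreeMonoid α)) : Prop :=
  Function.Injective (FreeMonoid.lift (fun g : minGen M => (g : FreeMonoid α))) ∧
  MonoidHom.mrange (FreeMonoid.lift (fun g : minGen M => (g : FreeMonoid α))) = M

/-- `L` is factorial: it contains every factor of each of its words. -/
def Factorial (L : Language α) : Prop :=
  ∀ w ∈ L, ∀ u : List α, u <:+: w → u ∈ L

/-- `L` is transitive: for all `u, v ∈ L` there is `w` with `u w v ∈ L`. -/
def Transitive (L : Language α) : Prop :=
  ∀ u ∈ L, ∀ v ∈ L, ∃ w : List α, u ++ w ++ v ∈ L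

/-- `L` is an FTR language. -/
def IsFTR (L : Language α) : Prop :=
  Factorial L ∧ Transitive L ∧ L.IsRegular

/-- The submonoid `M` is contained in the language `L`. -/
def Inside (M : Submonoid (FreeMonoid α)) (L : Language α) : Prop :=
  ∀ w ∈ M, FreeMonoid.toList w ∈ L

/-- `M` is an `L`-maximal submonoid. -/
def IsMaxIn (L : Language α) (M : Submonoid (FreeMonoid α)) : Prop :=
  Inside M L ∧ ∀ N : Submonoid (FreeMonoid α), M ≤ N → Inside N L → N = M

/-- `M` is an `L`-maximal free submonoid. -/
def IsMaxFreeIn (L : Language α) (M : Submonoid (FreeMonoid α)) : Prop :=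
  (IsFreeSub M ∧ Inside M L) ∧
    ∀ N : Submonoid (FreeMonoid α), IsFreeSub N → M ≤ N → Inside N L → N = M

/-- The set of factors of the words of `X`. -/
def Fac (X : Set (FreeMonoid α)) : Language α :=
  {w | ∃ x ∈ X, w <:+: FreeMonoid.toList x}

/-- Stability. -/
def Stable (M : Submonoid (FreeMonoid α)) : Prop :=
  ∀ u v w, u ∈ M → v ∈ M → u * w ∈ M → w * v ∈ M → w ∈ M

lemma length_pos_of_ne_one {x : FreeMonoid α} (h : x ≠ 1) : 0 < x.length := by
  rcases Nat.eq_zero_or_pos x.length with h0 | h0
  · exact absurd (FreeMonoid.length_eq_zero.1 h0) h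
  · exact h0

/-- a submonoid is generated by its minimal generating set -/
lemma closure_minGen (M : Submonoid (FreeMonoid α)) : Submonoid.closure (minGen M) = M := by
  apply le_antisymm
  · rw [Submonoid.closure_le]
    exact fun x hx => hx.1
  · intro m hm
    induction hn : m.length using Nat.strong_induction_on generalizing m with
    | _ n ih =>
      by_cases h1 : m = 1
      · rw [h1]; exact one_mem _
      · by_cases hg : m ∈ minGen M
        · exact Submonoid.subset_closure hg
        · have : ∃ y ∈ M, ∃ z ∈ M, y ≠ 1 ∧ z ≠ 1 ∧ m = y * z := by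
            by_contra hcon
            exact hg ⟨hm, h1, hcon⟩
          obtain ⟨y, hy, z, hz, hy1, hz1, rfl⟩ := this
          have l1 := length_pos_of_ne_one hy1
          have l2 := length_pos_of_ne_one hz1
          rw [FreeMonoid.length_mul] at hn
          exact mul_mem (ih y.length (by omega) hy rfl) (ih z.length (by omega) hz rfl)

lemma mrange_lift (M : Submonoid (FreeMonoid α)) :
    MonoidHom.mrange (FreeMonoid.lift (fun g : minGen M => (g : FreeMonoid α))) = M := by
  rw [FreeMonoid.mrange_lift, Subtype.range_coe_subtype]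
  exact closure_minGen M

/-- Two factorizations of the same word are comparable. -/
lemma comparable {a b c d : FreeMonoid α} (h : a * b = c * d) :
    (∃ z, c = a * z ∧ b = z * d) ∨ (∃ z, a = c * z ∧ d = z * b) := by
  have h' : FreeMonoid.toList a ++ FreeMonoid.toList b =
      FreeMonoid.toList c ++ FreeMonoid.toList d := by
    simpa [FreeMonoid.toList_mul] using congrArg FreeMonoid.toList h
  rcases List.append_eq_append_iff.1 h' with ⟨z, h1, h2⟩ | ⟨z, h1, h2⟩
  · exact Or.inl ⟨FreeMonoid.ofList z, h1, h2⟩
  · exact Or.inr ⟨FreeMonoid.ofList z, h1, h2⟩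

lemma Stable_of_free {M : Submonoid (FreeMonoid α)} (hM : IsFreeSub M) : Stable M := by
  intro u v w hu hv huw hwv
  obtain ⟨hinj, hr⟩ := hM
  set φ := FreeMonoid.lift (fun g : minGen M => (g : FreeMonoid α)) with hφ
  have mem : ∀ x, x ∈ M → ∃ y, φ y = x := by
    intro x hx
    rw [← hr] at hx
    exact hx
  have mem' : ∀ y, φ y ∈ M := fun y => hr.le ⟨y, rfl⟩
  obtain ⟨x, hx⟩ := mem u hu
  obtain ⟨y, hy⟩ := mem _ hwv
  obtain ⟨s, hs⟩ := mem _ huw
  obtain ⟨t, ht⟩ := mem v hv
  have : x * y = s * t := by
    apply hinj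
    rw [map_mul, map_mul, hx, hy, hs, ht, mul_assoc]
  rcases comparable this with ⟨z, h1, _⟩ | ⟨z, h1, _⟩
  · rw [h1, map_mul, hx] at hs
    have := mul_left_cancel hs
    rw [← this]
    exact mem' z
  · rw [h1, map_mul, hs] at hx
    have hl := congrArg FreeMonoid.length hx
    simp only [FreeMonoid.length_mul] at hl
    have : w.length = 0 := by omega
    rw [FreeMonoid.length_eq_zero.1 this]
    exact one_mem _

lemma free_of_stable {M : Submonoid (FreeMonoid α)} (hM : Stable M) : IsFreeSub M := by
  refine ⟨?_, mrange_lift M⟩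
  set φ := FreeMonoid.lift (fun g : minGen M => (g : FreeMonoid α)) with hφ
  have mem' : ∀ y, φ y ∈ M := fun y => (mrange_lift M).le ⟨y, rfl⟩
  have key : ∀ g h : minGen M, ∀ X Y : FreeMonoid (minGen M),
      φ (of g * X) = φ (of h * Y) → ∀ z : FreeMonoid α, (h : FreeMonoid α) = g * z → z = 1 := by
    intro g h X Y hXY z hz
    rw [map_mul, map_mul] at hXY
    simp only [hφ, FreeMonoid.lift_eval_of] at hXY
    rw [hz, mul_assoc] at hXY
    have hX := mul_left_cancel hXY
    have hzM : z ∈ M := by
      apply hM g (φ Y) z g.2.1 (mem' Y)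
      · rw [← hz]; exact h.2.1
      · rw [← hX]; exact mem' X
    by_contra hz1
    exact h.2.2.2 ⟨g, g.2.1, z, hzM, g.2.2.1, hz1, hz⟩
  intro X
  induction X using FreeMonoid.recOn with
  | one =>
    intro Y
    induction Y using FreeMonoid.recOn with
    | one => intro _; rfl
    | of_mul h Y _ =>
      intro h1
      exfalso
      rw [map_mul, map_one] at h1
      have hl := congrArg FreeMonoid.length h1
      rw [FreeMonoid.length_mul] at hl
      simp only [hφ, FreeMonoid.lift_eval_of, FreeMonoid.length_one] at hl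
      have := length_pos_of_ne_one h.2.2.1
      omega
  | of_mul g X ihX =>
    intro Y
    induction Y using FreeMonoid.recOn with
    | one =>
      intro h1
      exfalso
      rw [map_mul, map_one] at h1
      have hl := congrArg FreeMonoid.length h1
      rw [FreeMonoid.length_mul] at hl
      simp only [hφ, FreeMonoid.lift_eval_of, FreeMonoid.length_one] at hl
      have := length_pos_of_ne_one g.2.2.1
      omega
    | of_mul h Y _ =>
      intro h1
      have hgh : g = h := by
        have h2 := h1
        rw [map_mul, map_mul] at h2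
        simp only [hφ, FreeMonoid.lift_eval_of] at h2
        rcases comparable h2 with ⟨z, hz, _⟩ | ⟨z, hz, _⟩
        · have := key g h X Y h1 z hz
          rw [this, mul_one] at hz
          exact Subtype.ext hz.symm
        · have := key h g Y X h1.symm z hz
          rw [this, mul_one] at hz
          exact Subtype.ext hz
      subst hgh
      rw [map_mul, map_mul] at h1
      have := ihX (mul_left_cancel h1)
      rw [this]

/-- left unitary submonoids are stable -/
lemma stable_of_leftUnitary {M : Submonoid (FreeMonoid α)}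
    (h : ∀ u w, u ∈ M → u * w ∈ M → w ∈ M) : Stable M :=
  fun u _ w hu _ huw _ => h u w hu huw

/-- Every free submonoid inside `L` is contained in an `L`-maximal free one. -/
lemma exists_max_free (L : Language α) (N : Submonoid (FreeMonoid α)) (hN : IsFreeSub N)
    (hNL : Inside N L) : ∃ M, N ≤ M ∧ IsMaxFreeIn L M := by
  obtain ⟨M, hNM, hmax⟩ := zorn_le_nonempty₀
    {M : Submonoid (FreeMonoid α) | Stable M ∧ Inside M L} (by
      intro c hc hchain y hy
      refine ⟨sSup c, ⟨?_, ?_⟩, fun z hz => le_sSup hz⟩
      · intro u v w hu hv huw hwv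
        have hdir : DirectedOn (· ≤ ·) c := hchain.directedOn
        rw [Submonoid.mem_sSup_of_directedOn ⟨y, hy⟩ hdir] at hu hv huw hwv ⊢
        obtain ⟨M1, h1, hu⟩ := hu
        obtain ⟨M2, h2, hv⟩ := hv
        obtain ⟨M3, h3, huw⟩ := huw
        obtain ⟨M4, h4, hwv⟩ := hwv
        obtain ⟨M5, h5, h15, h25⟩ := hdir M1 h1 M2 h2
        obtain ⟨M6, h6, h36, h46⟩ := hdir M3 h3 M4 h4
        obtain ⟨M7, h7, h57, h67⟩ := hdir M5 h5 M6 h6
        exact ⟨M7, h7, (hc h7).1 u v w (h57 (h15 hu)) (h57 (h25 hv)) (h67 (h36 huw))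
          (h67 (h46 hwv))⟩
      · intro w hw
        have hdir : DirectedOn (· ≤ ·) c := hchain.directedOn
        rw [Submonoid.mem_sSup_of_directedOn ⟨y, hy⟩ hdir] at hw
        obtain ⟨M1, h1, hw⟩ := hw
        exact (hc h1).2 w hw)
    N ⟨Stable_of_free hN, hNL⟩
  refine ⟨M, hNM, ⟨free_of_stable hmax.prop.1, hmax.prop.2⟩, ?_⟩
  intro K hK hMK hKL
  exact le_antisymm (hmax.le_of_ge ⟨Stable_of_free hK, hKL⟩ hMK) hMK

end Pool.Agent.R679.FSub
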