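import Mathlib

set_option autoImplicit false

/-! Bounded sets of real numbers whose closure consists of rational numbers. -/

namespace Pool.Agent.R679.Inv

open Set Filter Topology

/-- bounded, and all points of the closure are rational -/
def QC (S : Set ℝ) : Prop := Bornology.IsBounded S ∧ closure S ⊆ Set.range ((↑) : ℚ → ℝ)

theorem QC.mono {S T : Set ℝ} (h : QC T) (hST : S ⊆ T) : QC S :=
  ⟨h.1.subset hST, (closure_mono hST).trans h.2⟩

theorem QC.union {S T : Set ℝ} (hS : QC S) (hT : QC T) : QC (S ∪ T) := by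
  refine ⟨hS.1.union hT.1, ?_⟩
  rw [closure_union]
  exact Set.union_subset hS.2 hT.2

theorem QC_empty : QC ∅ := by
  refine ⟨Bornology.isBounded_empty, ?_⟩
  rw [closure_empty]
  exact Set.empty_subset _

theorem QC_singleton (q : ℚ) : QC {(q : ℝ)} := by
  refine ⟨Bornology.isBounded_singleton, ?_⟩
  rw [closure_singleton]
  rintro x rfl
  exact ⟨q, rfl⟩

theorem QC.biUnion_range {S : ℕ → Set ℝ} (n : ℕ) (h : ∀ i, QC (S i)) :
    QC {x | ∃ i, i < n ∧ x ∈ S i} := by
  induction n with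
  | zero =>
    refine QC_empty.mono ?_
    rintro x ⟨i, hi, _⟩
    omega
  | succ n ih =>
    refine (ih.union (h n)).mono ?_
    rintro x ⟨i, hi, hx⟩
    rcases Nat.lt_succ_iff_lt_or_eq.1 hi with h1 | rfl
    · exact Or.inl ⟨i, h1, hx⟩
    · exact Or.inr hx

theorem QC.isCompact_closure {S : Set ℝ} (h : QC S) : IsCompact (closure S) :=
  Metric.isCompact_of_isClosed_isBounded isClosed_closure h.1.closure

theorem QC.image2 {S T : Set ℝ} (hS : QC S) (hT : QC T) (f : ℝ → ℝ → ℝ)
    (hf : Continuous (Function.uncurry f))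
    (hq : ∀ a b : ℚ, f a b ∈ Set.range ((↑) : ℚ → ℝ)) : QC (Set.image2 f S T) := by
  have h1 : IsCompact (Set.image2 f (closure S) (closure T)) := by
    rw [← Set.image_uncurry_prod]
    exact (hS.isCompact_closure.prod hT.isCompact_closure).image hf
  have h2 : Set.image2 f S T ⊆ Set.image2 f (closure S) (closure T) :=
    Set.image2_subset subset_closure subset_closure
  refine ⟨h1.isBounded.subset h2, ?_⟩
  refine (closure_minimal h2 h1.isClosed).trans ?_
  rintro x ⟨a, ha, b, hb, rfl⟩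
  obtain ⟨a', rfl⟩ := hS.2 ha
  obtain ⟨b', rfl⟩ := hT.2 hb
  exact hq a' b'

theorem QC.add {S T : Set ℝ} (hS : QC S) (hT : QC T) : QC (Set.image2 (· + ·) S T) :=
  hS.image2 hT _ continuous_add (fun a b => ⟨a + b, by push_cast; rfl⟩)

theorem QC.mul {S T : Set ℝ} (hS : QC S) (hT : QC T) : QC (Set.image2 (· * ·) S T) :=
  hS.image2 hT _ continuous_mul (fun a b => ⟨a * b, by push_cast; rfl⟩)

theorem QC.sub {S T : Set ℝ} (hS : QC S) (hT : QC T) : QC (Set.image2 (· - ·) S T) :=
  hS.image2 hT _ continuous_sub (fun a b => ⟨a - b, by push_cast; rfl⟩)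

/-- the reciprocals of the positive integers -/
def recips : Set ℝ := {x | ∃ k : ℕ, 1 ≤ k ∧ x = 1 / (k : ℝ)}

theorem QC_recips : QC recips := by
  have h1 : Tendsto (fun n : ℕ => 1 / ((n : ℝ) + 1)) atTop (𝓝 0) :=
    tendsto_one_div_add_atTop_nhds_zero_nat
  have h2 := h1.isCompact_insert_range
  have h3 : recips ⊆ insert 0 (Set.range (fun n : ℕ => 1 / ((n : ℝ) + 1))) := by
    rintro x ⟨k, hk, rfl⟩
    right
    refine ⟨k - 1, ?_⟩
    have : ((k - 1 : ℕ) : ℝ) + 1 = k := by
      rw [Nat.cast_sub hk]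
      push_cast
      ring
    simp only
    rw [this]
  refine ⟨h2.isBounded.subset h3, ?_⟩
  refine (closure_minimal h3 h2.isClosed).trans ?_
  rintro x (rfl | ⟨n, rfl⟩)
  · exact ⟨0, by simp⟩
  · exact ⟨1 / ((n : ℚ) + 1), by push_cast; rfl⟩

/-- `n`-fold sums -/
def sums (S : Set ℝ) : ℕ → Set ℝ
  | 0 => {0}
  | n + 1 => Set.image2 (· + ·) S (sums S n)

theorem QC.sums {S : Set ℝ} (h : QC S) (n : ℕ) : QC (sums S n) := by
  induction n with
  | zero =>
    have := QC_singleton 0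
    rwa [Rat.cast_zero] at this
  | succ n ih => exact h.add ih

theorem mem_sums {S : Set ℝ} {ι : Type*} (s : Finset ι) (f : ι → ℝ) (hf : ∀ i ∈ s, f i ∈ S) :
    ∑ i ∈ s, f i ∈ sums S s.card := by
  classical
  induction s using Finset.induction_on with
  | empty => exact rfl
  | insert a s ha ih =>
    rw [Finset.sum_insert ha, Finset.card_insert_of_notMem ha]
    exact ⟨f a, hf a (Finset.mem_insert_self a s), _,
      ih (fun i hi => hf i (Finset.mem_insert_of_mem hi)), rfl⟩

/-- averages of at most `B` elements of `S` -/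
def avgs (S : Set ℝ) (B : ℕ) : Set ℝ :=
  {x | ∃ k, k < B + 1 ∧ x ∈ Set.image2 (· * ·) {1 / (k : ℝ)} (sums S k)}

theorem QC.avgs {S : Set ℝ} (h : QC S) (B : ℕ) : QC (avgs S B) := by
  apply QC.biUnion_range
  intro k
  apply QC.mul _ (h.sums k)
  have := QC_singleton (1 / (k : ℚ))
  push_cast at this
  exact this

theorem mem_avgs {S : Set ℝ} {ι : Type*} [Fintype ι] (f : ι → ℝ) (hf : ∀ i, f i ∈ S) {B : ℕ}
    (hB : Fintype.card ι ≤ B) : (∑ i, f i) / (Fintype.card ι : ℝ) ∈ avgs S B := by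
  refine ⟨Fintype.card ι, by omega, _, rfl, _, mem_sums Finset.univ f (fun i _ => hf i), ?_⟩
  simp only
  ring

/-- the limit argument -/
theorem QC.limit {S F : Set ℝ} (hS : Bornology.IsBounded S) (hF : QC F)
    (h : ∀ δ : ℝ, 0 < δ → ∃ E, QC E ∧ ∀ x ∈ S, x ∈ E ∨ ∃ f ∈ F, |x - f| ≤ δ) : QC S := by
  refine ⟨hS, ?_⟩
  intro x hx
  by_cases hxF : x ∈ closure F
  · exact hF.2 hxF
  · rw [Metric.mem_closure_iff] at hxF
    push Not at hxF
    obtain ⟨ε, hε, hxF⟩ := hxF
    obtain ⟨E, hE, hE'⟩ := h (ε / 2) (by linarith)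
    apply hE.2
    rw [Metric.mem_closure_iff] at hx ⊢
    intro η hη
    obtain ⟨s, hs, hxs⟩ := hx (min η (ε / 2)) (lt_min hη (by linarith))
    refine ⟨s, ?_, hxs.trans_le (min_le_left _ _)⟩
    rcases hE' s hs with h1 | ⟨f, hf, h2⟩
    · exact h1
    · exfalso
      have h3 := hxF f hf
      have h4 : dist x f ≤ dist x s + dist s f := dist_triangle _ _ _
      have h5 : dist s f ≤ ε / 2 := by rw [Real.dist_eq]; exact h2
      have h6 : dist x s < ε / 2 := hxs.trans_le (min_le_right _ _)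
      linarith

end Pool.Agent.R679.Inv
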