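import Pool.Agent.R679.Inv1

set_option autoImplicit false

/-! The proportion of zeros of quadratic maps. -/

namespace Pool.Agent.R679.Inv

open Finset

/-- quadratic maps from a group to an abelian group -/
structure IsQuad {T Z : Type} [Group T] [AddCommGroup Z] (q : T → Z) (β : T → T → Z) : Prop where
  quad : ∀ x y, q (x * y) = q x + q y + β x y
  left : ∀ x y z, β (x * y) z = β x z + β y z
  right : ∀ x y z, β x (y * z) = β x y + β x z

/-- the proportions of zeros of the quadratic maps into groups of order at most `m` -/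
def AA (m : ℕ) : Set ℝ := {v | ∃ (T Z : Type) (_ : Group T) (_ : Finite T) (_ : AddCommGroup Z)
  (_ : Finite Z) (q : T → Z) (β : T → T → Z), IsQuad q β ∧ Nat.card Z ≤ m ∧
    v = (Nat.card {x : T // q x = 0} : ℝ) / Nat.card T}

section quad

variable {T Z : Type} [Group T] [AddCommGroup Z] {q : T → Z} {β : T → T → Z}

theorem IsQuad.right_one (h : IsQuad q β) (x : T) : β x 1 = 0 := by
  have h1 := h.right x 1 1
  rw [mul_one] at h1
  simpa using h1

theorem IsQuad.left_one (h : IsQuad q β) (x : T) : β 1 x = 0 := by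
  have h1 := h.left 1 1 x
  rw [mul_one] at h1
  simpa using h1

theorem IsQuad.right_inv (h : IsQuad q β) (x y : T) : β x y⁻¹ = -β x y := by
  have h1 := h.right x y y⁻¹
  rw [mul_inv_cancel, h.right_one] at h1
  exact (neg_eq_of_add_eq_zero_right h1.symm).symm

theorem IsQuad.q_one (h : IsQuad q β) : q 1 = 0 := by
  have h1 := h.quad 1 1
  rw [mul_one, h.right_one, add_zero] at h1
  simpa using h1

/-- the radical of a character -/
def rad (h : IsQuad q β) (ψ : AddChar Z ℂ) : Subgroup T where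
  carrier := {z | ∀ y, ψ (β y z) = 1}
  one_mem' := fun y => by rw [h.right_one, AddChar.map_zero_eq_one]
  mul_mem' := fun {a b} ha hb y => by rw [h.right, AddChar.map_add_eq_mul, ha y, hb y, one_mul]
  inv_mem' := fun {a} ha y => by
    rw [h.right_inv, AddChar.map_neg_eq_inv, ha y, inv_one]

variable [Fintype T]

/-- the exponential sum -/
noncomputable def SS (q : T → Z) (ψ : AddChar Z ℂ) : ℂ := ∑ x, ψ (q x)

variable [Finite Z]

theorem norm_SS_sq (h : IsQuad q β) (ψ : AddChar Z ℂ) :
    ‖SS q ψ‖ ^ 2 ≤ (Fintype.card T : ℝ) * Nat.card (rad h ψ) := by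
  classical
  have h1 : (SS q ψ) * (starRingEnd ℂ) (SS q ψ) =
      ∑ z, ψ (q z) * ∑ y, ψ (β y z) := by
    unfold SS
    rw [map_sum, Finset.sum_mul_sum, Finset.sum_comm]
    have h2 : ∀ y : T, ∑ x, ψ (q x) * (starRingEnd ℂ) (ψ (q y)) =
        ∑ z, ψ (q z) * ψ (β y z) := by
      intro y
      rw [← Equiv.sum_comp (Equiv.mulLeft y)]
      apply Finset.sum_congr rfl
      intro z _
      rw [Equiv.coe_mulLeft, h.quad, ← AddChar.map_neg_eq_conj, ← AddChar.map_add_eq_mul,
        ← AddChar.map_add_eq_mul]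
      congr 1
      abel
    rw [Finset.sum_congr rfl (fun y _ => h2 y), Finset.sum_comm]
    apply Finset.sum_congr rfl
    intro z _
    rw [Finset.mul_sum]
  have h3 : ∀ z : T, ∑ y, ψ (β y z) = if z ∈ rad h ψ then (Fintype.card T : ℂ) else 0 := by
    intro z
    let f : T →* ℂ :=
      { toFun := fun y => ψ (β y z)
        map_one' := by rw [h.left_one, AddChar.map_zero_eq_one]
        map_mul' := fun a b => by rw [h.left, AddChar.map_add_eq_mul] }
    have h4 := sum_hom_units f
    have h5 : f = 1 ↔ z ∈ rad h ψ := by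
      constructor
      · intro hf y
        exact DFunLike.congr_fun hf y
      · intro hz
        ext y
        exact hz y
    change ∑ y, f y = _
    rw [h4]
    by_cases hz : z ∈ rad h ψ
    · rw [if_pos (h5.2 hz), if_pos hz]
    · rw [if_neg (fun hf => hz (h5.1 hf)), if_neg hz]
      exact Nat.cast_zero
  have h6 : ‖SS q ψ‖ ^ 2 = ‖(SS q ψ) * (starRingEnd ℂ) (SS q ψ)‖ := by
    rw [norm_mul, RCLike.norm_conj, pow_two]
  rw [h6, h1]
  refine (norm_sum_le _ _).trans ?_
  have h7 : ∀ z : T, ‖ψ (q z) * ∑ y, ψ (β y z)‖ =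
      if z ∈ rad h ψ then (Fintype.card T : ℝ) else 0 := by
    intro z
    rw [norm_mul, AddChar.norm_apply, one_mul, h3 z]
    split_ifs
    · exact Complex.norm_natCast _
    · exact norm_zero
  rw [Finset.sum_congr rfl (fun z _ => h7 z), ← Finset.sum_filter, Finset.sum_const, nsmul_eq_mul,
    mul_comm]
  apply le_of_eq
  congr 2
  rw [Nat.card_eq_fintype_card, Fintype.card_subtype]

theorem count_zero (q : T → Z) [Fintype Z] :
    (Nat.card {x : T // q x = 0} : ℂ) * Fintype.card Z = ∑ ψ : AddChar Z ℂ, SS q ψ := by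
  classical
  unfold SS
  rw [Finset.sum_comm, Finset.sum_congr rfl (fun x _ => AddChar.sum_apply_eq_ite (q x)),
    ← Finset.sum_filter, Finset.sum_const, nsmul_eq_mul]
  congr 2
  rw [Nat.card_eq_fintype_card, Fintype.card_subtype]

theorem case_one (h : IsQuad q β) {B : ℕ} (hB : 1 ≤ B)
    (hr : ∀ ψ : AddChar Z ℂ, ψ ≠ 1 → B ≤ (rad h ψ).index) :
    |(Nat.card {x : T // q x = 0} : ℝ) / Nat.card T - 1 / (Nat.card Z : ℝ)| ≤ 1 / √B := by
  classical
  haveI := Fintype.ofFinite Z
  have hT0 : (0 : ℝ) < Fintype.card T := by exact_mod_cast Fintype.card_pos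
  have hZ0 : (0 : ℝ) < Fintype.card Z := by exact_mod_cast Fintype.card_pos
  have hB0 : (0 : ℝ) < B := by exact_mod_cast hB
  -- bound for one sum
  have h1 : ∀ ψ : AddChar Z ℂ, ψ ≠ 1 → ‖SS q ψ‖ ≤ Fintype.card T / √B := by
    intro ψ hψ
    have h2 := norm_SS_sq h ψ
    have h3 : (Nat.card (rad h ψ) : ℝ) * B ≤ Fintype.card T := by
      have h4 := (rad h ψ).card_mul_index
      have h5 : Nat.card (rad h ψ) * B ≤ Nat.card T := by
        rw [← h4]
        exact Nat.mul_le_mul_left _ (hr ψ hψ)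
      rw [Nat.card_eq_fintype_card (α := T)] at h5
      exact_mod_cast h5
    rw [le_div_iff₀ (Real.sqrt_pos.2 hB0)]
    apply le_of_sq_le_sq _ hT0.le
    rw [mul_pow, Real.sq_sqrt hB0.le]
    calc ‖SS q ψ‖ ^ 2 * B ≤ (Fintype.card T : ℝ) * Nat.card (rad h ψ) * B := by gcongr
      _ = (Fintype.card T : ℝ) * (Nat.card (rad h ψ) * B) := by ring
      _ ≤ (Fintype.card T : ℝ) * Fintype.card T := by gcongr
      _ = (Fintype.card T : ℝ) ^ 2 := by ring
  have h2 := count_zero q
  rw [← Finset.add_sum_erase _ _ (Finset.mem_univ (1 : AddChar Z ℂ))] at h2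
  have h3 : SS q (1 : AddChar Z ℂ) = Fintype.card T := by
    unfold SS
    simp
  rw [h3] at h2
  have h4 : ‖(Nat.card {x : T // q x = 0} : ℂ) * Fintype.card Z - Fintype.card T‖ ≤
      Fintype.card Z * (Fintype.card T / √B) := by
    rw [h2, add_sub_cancel_left]
    refine (norm_sum_le _ _).trans ?_
    refine (Finset.sum_le_sum (fun ψ hψ => h1 ψ (Finset.ne_of_mem_erase hψ))).trans ?_
    rw [Finset.sum_const, nsmul_eq_mul]
    gcongr
    refine (Finset.card_le_card (Finset.erase_subset _ _)).trans ?_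
    rw [Finset.card_univ, AddChar.card_eq]
  have h5 : ‖(Nat.card {x : T // q x = 0} : ℂ) * Fintype.card Z - Fintype.card T‖ =
      |(Nat.card {x : T // q x = 0} : ℝ) * Fintype.card Z - Fintype.card T| := by
    rw [← Real.norm_eq_abs, ← Complex.norm_real]
    push_cast
    rfl
  rw [h5] at h4
  rw [Nat.card_eq_fintype_card (α := T), Nat.card_eq_fintype_card (α := Z)]
  have h6 : (Nat.card {x : T // q x = 0} : ℝ) / Fintype.card T - 1 / (Fintype.card Z : ℝ) =
      ((Nat.card {x : T // q x = 0} : ℝ) * Fintype.card Z - Fintype.card T) /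
        (Fintype.card T * Fintype.card Z) := by
    field_simp
  rw [h6, abs_div, abs_of_pos (mul_pos hT0 hZ0), div_le_iff₀ (mul_pos hT0 hZ0)]
  refine h4.trans (le_of_eq ?_)
  ring

/-- the kernel of a character -/
def ker' (ψ : AddChar Z ℂ) : AddSubgroup Z where
  carrier := {z | ψ z = 1}
  zero_mem' := AddChar.map_zero_eq_one ψ
  add_mem' := fun {a b} (ha : ψ a = 1) (hb : ψ b = 1) => by
    change ψ (a + b) = 1
    rw [AddChar.map_add_eq_mul, ha, hb, one_mul]
  neg_mem' := fun {a} (ha : ψ a = 1) => by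
    change ψ (-a) = 1
    rw [AddChar.map_neg_eq_inv, ha, inv_one]

/-- the elements of the radical with trivial value of the character -/
def rad' (h : IsQuad q β) (ψ : AddChar Z ℂ) : Subgroup T where
  carrier := {z | z ∈ rad h ψ ∧ ψ (q z) = 1}
  one_mem' := ⟨one_mem _, by rw [h.q_one, AddChar.map_zero_eq_one]⟩
  mul_mem' := by
    rintro a b ⟨ha, ha'⟩ ⟨hb, hb'⟩
    refine ⟨mul_mem ha hb, ?_⟩
    rw [h.quad, AddChar.map_add_eq_mul, AddChar.map_add_eq_mul, ha', hb', hb a, one_mul, one_mul]
  inv_mem' := by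
    rintro a ⟨ha, ha'⟩
    refine ⟨inv_mem ha, ?_⟩
    have h1 := h.quad a a⁻¹
    rw [mul_inv_cancel, h.q_one] at h1
    have h2 := congrArg ψ h1
    rw [AddChar.map_zero_eq_one, AddChar.map_add_eq_mul, AddChar.map_add_eq_mul, ha',
      (inv_mem ha : a⁻¹ ∈ rad h ψ) a, one_mul, mul_one] at h2
    exact h2.symm

theorem rad'_index (h : IsQuad q β) (ψ : AddChar Z ℂ) :
    (rad' h ψ).index ≤ (rad h ψ).index * Nat.card Z := by
  have h1 : (rad' h ψ).index = Nat.card (T ⧸ rad' h ψ) := rfl
  have h2 : (rad h ψ).index = Nat.card (T ⧸ rad h ψ) := rfl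
  rw [h1, h2, ← Nat.card_prod]
  apply Nat.card_le_card_of_injective
    (fun c : T ⧸ rad' h ψ => ((c.out : T ⧸ rad h ψ), q c.out))
  intro c d hcd
  simp only [Prod.mk.injEq] at hcd
  obtain ⟨e1, e2⟩ := hcd
  have e3 : c.out⁻¹ * d.out ∈ rad h ψ := QuotientGroup.eq.1 e1
  have e4 : c.out⁻¹ * d.out ∈ rad' h ψ := by
    refine ⟨e3, ?_⟩
    have h5 := h.quad c.out (c.out⁻¹ * d.out)
    rw [mul_inv_cancel_left, ← e2] at h5
    have h6 : q (c.out⁻¹ * d.out) + β c.out (c.out⁻¹ * d.out) = 0 := by
      have : q c.out + (q (c.out⁻¹ * d.out) + β c.out (c.out⁻¹ * d.out)) = q c.out + 0 := by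
        rw [add_zero, ← add_assoc, ← h5]
      exact add_left_cancel this
    have h7 := congrArg ψ h6
    rw [AddChar.map_add_eq_mul, e3 c.out, mul_one, AddChar.map_zero_eq_one] at h7
    exact h7
  have e5 : (c.out : T ⧸ rad' h ψ) = (d.out : T ⧸ rad' h ψ) := QuotientGroup.eq.2 e4
  rwa [QuotientGroup.out_eq', QuotientGroup.out_eq'] at e5

theorem case_two (h : IsQuad q β) {B m : ℕ} (hm : Nat.card Z ≤ m + 1) (ψ : AddChar Z ℂ)
    (hψ : ψ ≠ 1) (hB : (rad h ψ).index ≤ B) :
    (Nat.card {x : T // q x = 0} : ℝ) / Nat.card T ∈ avgs (AA m ∪ {0}) (B * (m + 1)) := by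
  classical
  haveI : Fintype (T ⧸ rad' h ψ) := Fintype.ofFinite _
  set R := rad' h ψ with hR
  let a : T ⧸ R → ℝ := fun c =>
    (Nat.card {x : T // (x : T ⧸ R) = c ∧ q x = 0} : ℝ) / Nat.card R
  have hcard : (Nat.card T : ℝ) = Nat.card R * Fintype.card (T ⧸ R) := by
    rw [← R.card_mul_index]
    push_cast
    have : R.index = Fintype.card (T ⧸ R) := by
      rw [← Nat.card_eq_fintype_card]
      rfl
    rw [this]
  have hR0 : (0 : ℝ) < Nat.card R := by exact_mod_cast Nat.card_pos
  have hsum : (Nat.card {x : T // q x = 0} : ℝ) =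
      ∑ c : T ⧸ R, (Nat.card {x : T // (x : T ⧸ R) = c ∧ q x = 0} : ℝ) := by
    rw [Nat.card_eq_fintype_card, Fintype.card_subtype,
      Finset.card_eq_sum_card_fiberwise (f := fun x : T => (x : T ⧸ R)) (t := Finset.univ)
        (fun x _ => Finset.mem_coe.2 (Finset.mem_univ _))]
    push_cast
    apply Finset.sum_congr rfl
    intro c _
    rw [Nat.card_eq_fintype_card, Fintype.card_subtype, Finset.filter_filter]
    congr 2
    ext x
    simp only [Finset.mem_filter, Finset.mem_univ, true_and]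
    exact and_comm
  have hv : (Nat.card {x : T // q x = 0} : ℝ) / Nat.card T =
      (∑ c, a c) / (Fintype.card (T ⧸ R) : ℝ) := by
    simp only [a]
    rw [← Finset.sum_div, ← hsum, hcard, div_div]
  rw [hv]
  apply mem_avgs
  · intro c
    by_cases hc : ∃ t : T, (t : T ⧸ R) = c ∧ q t = 0
    · left
      obtain ⟨t, rfl, ht⟩ := hc
      have hmemq : ∀ r : R, ψ (q r + β t r) = 1 := by
        intro r
        rw [AddChar.map_add_eq_mul, r.2.2, r.2.1 t, one_mul]
      have hmemβ : ∀ r s : R, ψ (β r s) = 1 := fun r s => s.2.1 r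
      refine ⟨R, ker' ψ, inferInstance, inferInstance, inferInstance, inferInstance,
        fun r => ⟨q r + β t r, hmemq r⟩, fun r s => ⟨β r s, hmemβ r s⟩, ⟨?_, ?_, ?_⟩, ?_, ?_⟩
      · intro x y
        apply Subtype.ext
        change q ((x : T) * y) + β t ((x : T) * y) = (q x + β t x) + (q y + β t y) + β x y
        rw [h.quad, h.right]
        abel
      · intro x y z
        apply Subtype.ext
        exact h.left x y z
      · intro x y z
        apply Subtype.ext
        exact h.right x y z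
      · have h1 : Nat.card (ker' ψ) ≠ Nat.card Z := by
          intro he
          have h2 := AddSubgroup.eq_top_of_card_eq _ he
          apply hψ
          ext z
          have : z ∈ ker' ψ := by rw [h2]; trivial
          exact this
        have h2 : Nat.card (ker' ψ) ≤ Nat.card Z := AddSubgroup.card_le_card_addGroup _
        omega
      · simp only [a]
        congr 2
        apply Nat.card_congr
        exact
          { toFun := fun x => ⟨⟨t⁻¹ * x.1, QuotientGroup.eq.1 x.2.1.symm⟩, by
              apply Subtype.ext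
              change q (t⁻¹ * x.1) + β t (t⁻¹ * x.1) = 0
              have h5 := h.quad t (t⁻¹ * x.1)
              rw [mul_inv_cancel_left, x.2.2, ht, zero_add] at h5
              exact h5.symm⟩
            invFun := fun r => ⟨t * r.1, by
              refine ⟨?_, ?_⟩
              · rw [eq_comm, QuotientGroup.eq, inv_mul_cancel_left]
                exact r.1.2
              · rw [h.quad, ht, zero_add]
                exact congrArg Subtype.val r.2⟩
            left_inv := fun x => Subtype.ext (mul_inv_cancel_left t x.1)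
            right_inv := fun r => Subtype.ext (Subtype.ext (inv_mul_cancel_left t (r.1 : T))) }
    · right
      have : IsEmpty {x : T // (x : T ⧸ R) = c ∧ q x = 0} := ⟨fun x => hc ⟨x.1, x.2⟩⟩
      simp only [a, Nat.card_of_isEmpty, Nat.cast_zero, zero_div]
      rfl
  · have h1 := rad'_index h ψ
    have h2 : Fintype.card (T ⧸ R) = R.index := by
      rw [← Nat.card_eq_fintype_card]
      rfl
    rw [h2, hR]
    exact h1.trans (Nat.mul_le_mul hB hm)

end quad

theorem AA_bounded (m : ℕ) : Bornology.IsBounded (AA m) := by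
  refine (Metric.isBounded_Icc (0 : ℝ) 1).subset ?_
  rintro v ⟨T, Z, _, _, _, _, q, β, _, _, rfl⟩
  have h1 : Nat.card {x : T // q x = 0} ≤ Nat.card T :=
    Nat.card_le_card_of_injective _ Subtype.val_injective
  have h2 : (0 : ℝ) < Nat.card T := by exact_mod_cast Nat.card_pos
  constructor
  · positivity
  · rw [div_le_one h2]
    exact_mod_cast h1

theorem QC_AA (m : ℕ) : QC (AA m) := by
  induction m with
  | zero =>
    refine QC_empty.mono ?_
    rintro v ⟨T, Z, _, _, _, _, q, β, _, hm, rfl⟩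
    have : 0 < Nat.card Z := Nat.card_pos
    omega
  | succ m ih =>
    apply QC.limit (AA_bounded _) QC_recips
    intro δ hδ
    obtain ⟨B, hB⟩ := exists_nat_gt (1 / δ ^ 2)
    have hB0 : (0 : ℝ) < B := lt_trans (by positivity) hB
    have hB1 : 1 ≤ B := by exact_mod_cast hB0
    have hBδ : 1 / √B ≤ δ := by
      rw [div_le_iff₀ (Real.sqrt_pos.2 hB0)]
      rw [div_lt_iff₀ (by positivity)] at hB
      have h1 : (1 : ℝ) ^ 2 ≤ (δ * √B) ^ 2 := by
        rw [mul_pow, Real.sq_sqrt hB0.le]
        linarith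
      exact le_of_sq_le_sq h1 (by positivity)
    have h0 : QC (AA m ∪ {0}) := by
      apply ih.union
      have := QC_singleton 0
      rwa [Rat.cast_zero] at this
    refine ⟨avgs (AA m ∪ {0}) (B * (m + 1)), h0.avgs _, ?_⟩
    rintro v ⟨T, Z, iT, iTf, iZ, iZf, q, β, h, hm, rfl⟩
    haveI := Fintype.ofFinite T
    by_cases hcase : ∀ ψ : AddChar Z ℂ, ψ ≠ 1 → B ≤ (rad h ψ).index
    · right
      exact ⟨1 / (Nat.card Z : ℝ), ⟨Nat.card Z, Nat.card_pos, rfl⟩,
        (case_one h hB1 hcase).trans hBδ⟩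
    · left
      push Not at hcase
      obtain ⟨ψ, hψ, hlt⟩ := hcase
      exact case_two h hm ψ hψ hlt.le

end Pool.Agent.R679.Inv
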