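import Mathlib

set_option autoImplicit false

/-! Groups with many solutions of `x ^ 2 = 1`: bounded-by-class-two-by-bounded structure. -/

namespace Pool.Agent.R679.Inv

open Finset

section cent

variable {G : Type} [Group G]

theorem cent_one : Subgroup.centralizer {(1 : G)} = ⊤ := by
  rw [Subgroup.eq_top_iff']
  intro x
  rw [Subgroup.mem_centralizer_singleton_iff, mul_one, one_mul]

theorem cent_inv (x : G) : Subgroup.centralizer {x⁻¹} = Subgroup.centralizer {x} := by
  ext g
  rw [Subgroup.mem_centralizer_singleton_iff, Subgroup.mem_centralizer_singleton_iff]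
  constructor
  · intro h
    have : Commute g x⁻¹ := h
    exact Commute.inv_right_iff.1 this
  · intro h
    have : Commute g x := h
    exact this.inv_right

theorem cent_mul (x y : G) : Subgroup.centralizer {x} ⊓ Subgroup.centralizer {y} ≤
    Subgroup.centralizer {x * y} := by
  intro g hg
  rw [Subgroup.mem_inf, Subgroup.mem_centralizer_singleton_iff,
    Subgroup.mem_centralizer_singleton_iff] at hg
  rw [Subgroup.mem_centralizer_singleton_iff]
  have h1' : Commute g x := hg.1
  have h2' : Commute g y := hg.2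
  exact h1'.mul_right h2'

theorem index_cent_conj [Finite G] (g x : G) : (Subgroup.centralizer {g * x * g⁻¹}).index =
    (Subgroup.centralizer {x}).index := by
  have h : (Subgroup.centralizer {x}).map (MulAut.conj g).toMonoidHom =
      Subgroup.centralizer {g * x * g⁻¹} := by
    ext y
    rw [Subgroup.mem_map]
    constructor
    · rintro ⟨c, hc, rfl⟩
      rw [Subgroup.mem_centralizer_singleton_iff] at hc ⊢
      change (g * c * g⁻¹) * (g * x * g⁻¹) = (g * x * g⁻¹) * (g * c * g⁻¹)
      have e1 : (g * c * g⁻¹) * (g * x * g⁻¹) = g * (c * x) * g⁻¹ := by group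
      have e2 : (g * x * g⁻¹) * (g * c * g⁻¹) = g * (x * c) * g⁻¹ := by group
      rw [e1, e2, hc]
    · intro hy
      rw [Subgroup.mem_centralizer_singleton_iff] at hy
      refine ⟨g⁻¹ * y * g, ?_, ?_⟩
      · rw [Subgroup.mem_centralizer_singleton_iff]
        have e1 : g⁻¹ * y * g * x = g⁻¹ * (y * (g * x * g⁻¹)) * g := by group
        have e2 : x * (g⁻¹ * y * g) = g⁻¹ * ((g * x * g⁻¹) * y) * g := by group
        rw [e1, e2, hy]
      · change g * (g⁻¹ * y * g) * g⁻¹ = y
        group
  rw [← h]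
  exact Subgroup.index_map_equiv (Subgroup.centralizer {x}) (MulAut.conj g)

variable [Fintype G]

theorem sum_cent [DecidableEq G] : (univ.filter (fun x : G => x ^ 2 = 1)).card ^ 2 ≤
    ∑ y : G, Nat.card (Subgroup.centralizer {y}) := by
  classical
  set I := univ.filter (fun x : G => x ^ 2 = 1) with hI
  have hmem : ∀ x : G, x ∈ I ↔ x * x = 1 := by
    intro x
    rw [hI, mem_filter, pow_two]
    simp
  have h1 : I.card ^ 2 = (I ×ˢ I).card := by rw [Finset.card_product, pow_two]
  rw [h1, Finset.card_eq_sum_card_fiberwise (f := fun a : G × G => a.1 * a.2) (t := Finset.univ)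
    (fun x _ => Finset.mem_coe.2 (Finset.mem_univ _))]
  apply Finset.sum_le_sum
  intro y _
  rcases ((I ×ˢ I).filter (fun a : G × G => a.1 * a.2 = y)).eq_empty_or_nonempty with he | hne
  · rw [he, Finset.card_empty]
    exact Nat.zero_le _
  · obtain ⟨⟨a, b⟩, hab⟩ := hne
    rw [mem_filter, mem_product, hmem, hmem] at hab
    obtain ⟨⟨ha, hb⟩, rfl⟩ := hab
    simp only at ha hb
    have hcc : Nat.card (Subgroup.centralizer {a * b}) =
        (univ.filter (fun g : G => g ∈ Subgroup.centralizer {a * b})).card := by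
      rw [Nat.card_eq_fintype_card, Fintype.card_subtype]
    change _ ≤ Nat.card (Subgroup.centralizer {a * b})
    rw [hcc]
    have hinv : ∀ c d : G, c * c = 1 → d * d = 1 → c * d = a * b → c * (a * b) * c = (a * b)⁻¹ := by
      intro c d hc hd hcd
      rw [← hcd, mul_inv_rev]
      have hc' : c⁻¹ = c := inv_eq_of_mul_eq_one_left hc
      have hd' : d⁻¹ = d := inv_eq_of_mul_eq_one_left hd
      rw [hc', hd', ← mul_assoc, hc, one_mul]
    have ha' : a⁻¹ = a := inv_eq_of_mul_eq_one_left ha
    apply Finset.card_le_card_of_injOn (fun c : G × G => c.1 * a)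
    · rintro ⟨c, d⟩ hcd
      rw [mem_coe, mem_filter, mem_product, hmem, hmem] at hcd
      obtain ⟨⟨hc, hd⟩, hcd⟩ := hcd
      simp only at hc hd hcd
      have hc' : c⁻¹ = c := inv_eq_of_mul_eq_one_left hc
      rw [mem_coe, mem_filter, Subgroup.mem_centralizer_singleton_iff]
      refine ⟨mem_univ _, ?_⟩
      have e1 := hinv c d hc hd hcd
      have e2 := hinv a b ha hb rfl
      change c * a * (a * b) = a * b * (c * a)
      have e3 : a * (a * b) = (a * b)⁻¹ * a := by
        rw [← e2, mul_assoc (a * (a * b)), ha, mul_one]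
      have e4 : c * (a * b)⁻¹ = (a * b) * c := by
        have h5 : (a * b)⁻¹ = c * (a * b) * c := e1.symm
        have h6 : (a * b)⁻¹⁻¹ = (c * (a * b) * c)⁻¹ := by rw [h5]
        rw [inv_inv, mul_inv_rev, mul_inv_rev, hc'] at h6
        have h7 : a * b * c = c * (a * b)⁻¹ * (c * c) := by
          conv_lhs => rw [h6]
          group
        rw [h7, hc, mul_one]
      rw [mul_assoc c a, e3, ← mul_assoc, e4, mul_assoc]
    · rintro ⟨c, d⟩ hcd ⟨c', d'⟩ hcd' heq
      rw [mem_coe, mem_filter] at hcd hcd'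
      have h1 : c = c' := mul_right_cancel heq
      subst h1
      have h2 : c * d = c * d' := hcd.2.trans hcd'.2.symm
      rw [mul_left_cancel h2]

end cent

section gen

open scoped Pointwise

variable {G : Type} [Group G] [Fintype G] [DecidableEq G]

theorem mem_pow_of_closure (X : Finset G) (hinv : X⁻¹ = X) (h : G)
    (hh : h ∈ Subgroup.closure (X : Set G)) : ∃ k : ℕ, h ∈ X ^ k := by
  induction hh using Subgroup.closure_induction with
  | mem x hx => exact ⟨1, by rw [pow_one]; exact hx⟩
  | one => exact ⟨0, by rw [pow_zero]; exact Finset.mem_one.2 rfl⟩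
  | mul x y _ _ hx hy =>
    obtain ⟨k, hk⟩ := hx
    obtain ⟨l, hl⟩ := hy
    exact ⟨k + l, by rw [pow_add]; exact Finset.mul_mem_mul hk hl⟩
  | inv x _ hx =>
    obtain ⟨k, hk⟩ := hx
    refine ⟨k, ?_⟩
    have h1 : (X ^ k)⁻¹ = X ^ k := by rw [← inv_pow, hinv]
    rw [← h1, Finset.mem_inv]
    exact ⟨x, hk, rfl⟩

theorem closure_sub (X : Finset G) (h1 : (1 : G) ∈ X) (hinv : X⁻¹ = X) {j : ℕ}
    (hj : X ^ j = X ^ (j + 1)) : ∀ h ∈ Subgroup.closure (X : Set G), h ∈ X ^ j := by
  have hst : ∀ k, X ^ (j + k) = X ^ j := by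
    intro k
    induction k with
    | zero => rfl
    | succ k ih => rw [← add_assoc, pow_succ, ih, ← pow_succ, ← hj]
  intro h hh
  obtain ⟨k, hk⟩ := mem_pow_of_closure X hinv h hh
  rcases Nat.le_total k j with hkj | hkj
  · exact Finset.pow_subset_pow_right h1 hkj hk
  · obtain ⟨l, rfl⟩ := Nat.exists_eq_add_of_le hkj
    rwa [hst] at hk

theorem growth (X : Finset G) (h1 : (1 : G) ∈ X) (hinv : X⁻¹ = X) (n : ℕ)
    (hn : ¬ ∀ h ∈ Subgroup.closure (X : Set G), h ∈ X ^ (3 * n)) :
    (n + 1) * X.card ≤ (X ^ (3 * n + 2)).card := by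
  induction n with
  | zero =>
    rw [zero_add, one_mul]
    apply Finset.card_le_card
    have := Finset.pow_subset_pow_right h1 (show 1 ≤ 3 * 0 + 2 by norm_num)
    rwa [pow_one] at this
  | succ n ih =>
    have hn' : ¬ ∀ h ∈ Subgroup.closure (X : Set G), h ∈ X ^ (3 * n) := by
      intro h
      apply hn
      intro g hg
      exact Finset.pow_subset_pow_right h1 (by omega) (h g hg)
    have h2 := ih hn'
    have h3 : X ^ (3 * n + 3) ≠ X ^ (3 * n + 3 + 1) := by
      intro he
      exact hn (closure_sub X h1 hinv he)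
    have h4 : X ^ (3 * n + 3) ⊆ X ^ (3 * n + 3 + 1) :=
      Finset.pow_subset_pow_right h1 (Nat.le_succ _)
    obtain ⟨x, hx, hx'⟩ := Finset.exists_of_ssubset (Finset.ssubset_iff_subset_ne.2 ⟨h4, h3⟩)
    have h5 : ({x} : Finset G) * X ⊆ X ^ (3 * (n + 1) + 2) := by
      have : X ^ (3 * (n + 1) + 2) = X ^ (3 * n + 3 + 1) * X := by
        rw [← pow_succ]
        congr 1
      rw [this]
      exact Finset.mul_subset_mul_right (Finset.singleton_subset_iff.2 hx)
    have h6 : X ^ (3 * n + 2) ⊆ X ^ (3 * (n + 1) + 2) :=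
      Finset.pow_subset_pow_right h1 (by omega)
    have h7 : Disjoint (X ^ (3 * n + 2)) (({x} : Finset G) * X) := by
      rw [Finset.disjoint_left]
      intro y hy hy'
      rw [Finset.mem_mul] at hy'
      obtain ⟨x', hx'', z, hz, rfl⟩ := hy'
      rw [Finset.mem_singleton] at hx''
      rw [hx''] at hy
      apply hx'
      have hz' : z⁻¹ ∈ X := by
        rw [← hinv, Finset.mem_inv]
        exact ⟨z, hz, rfl⟩
      have : x = (x * z) * z⁻¹ := by group
      rw [this, show 3 * n + 3 = (3 * n + 2) + 1 from rfl, pow_succ]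
      exact Finset.mul_mem_mul hy hz'
    have h8 : (({x} : Finset G) * X).card = X.card := by
      rw [Finset.card_singleton_mul]
    have h9 := Finset.card_le_card (Finset.union_subset h6 h5)
    rw [Finset.card_union_of_disjoint h7, h8] at h9
    nlinarith

/-- the subgroup generated by the elements with small conjugacy classes -/
theorem exists_H (X : Finset G) (h1 : (1 : G) ∈ X) (hinv : X⁻¹ = X)
    (hconj : ∀ x ∈ X, ∀ g : G, g * x * g⁻¹ ∈ X) {b : ℕ} (hb : Fintype.card G ≤ b * X.card)
    (hcl : ∀ x ∈ X, (Subgroup.centralizer {x}).index ≤ b) :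
    ∃ H : Subgroup G, H.Normal ∧ H.index ≤ b ∧
      ∀ h ∈ H, (Subgroup.centralizer {h}).index ≤ b ^ (3 * b) := by
  have hX0 : 0 < X.card := Finset.card_pos.2 ⟨1, h1⟩
  refine ⟨Subgroup.closure (X : Set G), ?_, ?_, ?_⟩
  · constructor
    intro n hn g
    induction hn using Subgroup.closure_induction with
    | mem x hx => exact Subgroup.subset_closure (hconj x hx g)
    | one => simp
    | mul x y _ _ hx hy =>
      have : g * (x * y) * g⁻¹ = (g * x * g⁻¹) * (g * y * g⁻¹) := by group
      rw [this]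
      exact mul_mem hx hy
    | inv x _ hx =>
      have : g * x⁻¹ * g⁻¹ = (g * x * g⁻¹)⁻¹ := by group
      rw [this]
      exact inv_mem hx
  · have h2 := (Subgroup.closure (X : Set G)).card_mul_index
    have h3 : X.card ≤ Nat.card (Subgroup.closure (X : Set G)) := by
      rw [← Fintype.card_coe, ← Nat.card_eq_fintype_card]
      exact Nat.card_le_card_of_injective
        (fun x : X => (⟨x.1, Subgroup.subset_closure x.2⟩ : Subgroup.closure (X : Set G)))
        (fun x y hxy => Subtype.ext (congrArg (fun z : Subgroup.closure (X : Set G) => (z : G)) hxy))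
    rw [Nat.card_eq_fintype_card (α := G)] at h2
    by_contra hcon
    push Not at hcon
    have h4 : (b + 1) * X.card ≤ Fintype.card G := by
      rw [← h2, mul_comm]
      exact Nat.mul_le_mul h3 hcon
    nlinarith
  · intro h hh
    have h2 : ∀ h ∈ Subgroup.closure (X : Set G), h ∈ X ^ (3 * b) := by
      by_contra hcon
      have h3 := growth X h1 hinv b hcon
      have h4 : (X ^ (3 * b + 2)).card ≤ Fintype.card G := Finset.card_le_univ _
      nlinarith
    have h3 : ∀ k : ℕ, ∀ x ∈ X ^ k, (Subgroup.centralizer {x}).index ≤ b ^ k := by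
      intro k
      induction k with
      | zero =>
        intro x hx
        rw [pow_zero, Finset.mem_one] at hx
        rw [hx, cent_one, Subgroup.index_top, pow_zero]
      | succ k ih =>
        intro x hx
        rw [pow_succ, Finset.mem_mul] at hx
        obtain ⟨y, hy, z, hz, rfl⟩ := hx
        refine (Nat.le_of_dvd ?_ (Subgroup.index_dvd_of_le (cent_mul y z))).trans ?_
        · exact Nat.pos_of_ne_zero Subgroup.index_ne_zero_of_finite
        · refine Subgroup.index_inf_le.trans ?_
          rw [pow_succ]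
          exact Nat.mul_le_mul (ih y hy) (hcl z hz)
    exact h3 _ h (h2 h hh)

end gen

section bfc

variable {G : Type} [Group G] [Fintype G] [DecidableEq G]

/-- the conjugacy class of an element -/
def cl (x : G) : Finset G := univ.image (fun g : G => g * x * g⁻¹)

theorem mem_cl {x y : G} : y ∈ cl x ↔ ∃ g : G, g * x * g⁻¹ = y := by
  unfold cl
  simp

theorem card_cl (x : G) : (cl x).card = (Subgroup.centralizer {x}).index := by
  have h1 : (Subgroup.centralizer {x}).index = Nat.card (G ⧸ Subgroup.centralizer {x}) := rfl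
  rw [h1, ← Fintype.card_coe, ← Nat.card_eq_fintype_card]
  symm
  refine Nat.card_eq_of_bijective (fun c : G ⧸ Subgroup.centralizer {x} =>
    (⟨c.out * x * c.out⁻¹, mem_cl.2 ⟨_, rfl⟩⟩ : {y // y ∈ cl x})) ⟨?_, ?_⟩
  · intro c d hcd
    have h2 : c.out * x * c.out⁻¹ = d.out * x * d.out⁻¹ := congrArg Subtype.val hcd
    have h3 : c.out⁻¹ * d.out ∈ Subgroup.centralizer {x} := by
      rw [Subgroup.mem_centralizer_singleton_iff]
      have : c.out⁻¹ * d.out * x = c.out⁻¹ * (d.out * x * d.out⁻¹) * d.out := by group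
      rw [this, ← h2]
      group
    have h4 : (c.out : G ⧸ Subgroup.centralizer {x}) = d.out := QuotientGroup.eq.2 h3
    rwa [QuotientGroup.out_eq', QuotientGroup.out_eq'] at h4
  · rintro ⟨y, hy⟩
    obtain ⟨g, rfl⟩ := mem_cl.1 hy
    refine ⟨(g : G ⧸ Subgroup.centralizer {x}), ?_⟩
    apply Subtype.ext
    change _ = g * x * g⁻¹
    set o := (g : G ⧸ Subgroup.centralizer {x}).out with ho
    have h3 : o⁻¹ * g ∈ Subgroup.centralizer {x} := by
      rw [← QuotientGroup.eq, ho, QuotientGroup.out_eq']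
    rw [Subgroup.mem_centralizer_singleton_iff] at h3
    have h5 : o * x * o⁻¹ = o * (x * (o⁻¹ * g)) * g⁻¹ := by group
    have h6 : g * x * g⁻¹ = o * ((o⁻¹ * g) * x) * g⁻¹ := by group
    change o * x * o⁻¹ = g * x * g⁻¹
    rw [h5, h6, h3]

open scoped Pointwise commutatorElement in
/-- Neumann's theorem on groups with bounded conjugacy classes -/
theorem bfc {b : ℕ} (h : ∀ x : G, (Subgroup.centralizer {x}).index ≤ b) :
    Nat.card (commutatorSet G) ≤ b ^ b * (b * b * (b * b)) := by
  -- an element with the largest class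
  obtain ⟨a, _, ha⟩ := Finset.exists_max_image (univ : Finset G) (fun x => (cl x).card)
    ⟨1, mem_univ _⟩
  choose g hg using fun y : {y // y ∈ cl a} => mem_cl.1 y.2
  set C : Subgroup G := ⨅ y : {y // y ∈ cl a}, Subgroup.centralizer {g y} with hC
  have hb : ∀ x : G, (cl x).card ≤ b := fun x => by rw [card_cl]; exact h x
  have hb1 : 1 ≤ b := by
    have h1 := hb 1
    have h2 : 0 < (cl (1 : G)).card := Finset.card_pos.2 ⟨1, mem_cl.2 ⟨1, by simp⟩⟩
    omega
  have hCi : C.index ≤ b ^ b := by
    refine (Subgroup.index_iInf_le _).trans ?_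
    refine (Finset.prod_le_prod' (fun y _ => h (g y))).trans ?_
    rw [Finset.prod_const, Finset.card_univ, Fintype.card_coe]
    exact Nat.pow_le_pow_right hb1 (hb a)
  -- commutators with elements of `C`
  set W : Finset G := cl a * (cl a)⁻¹ with hW
  have hWc : W.card ≤ b * b := by
    refine (Finset.card_mul_le).trans ?_
    rw [Finset.card_inv]
    exact Nat.mul_le_mul (hb a) (hb a)
  have hCW : ∀ c ∈ C, ∀ x : G, ⁅c, x⁆ ∈ W := by
    -- first for the inverse
    have key : ∀ c ∈ C, ∀ x : G, c⁻¹ * (x * c * x⁻¹) ∈ W := by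
      intro c hc x
      have hcomm : ∀ y : {y // y ∈ cl a}, g y * c = c * g y := by
        intro y
        have h1 : c ∈ Subgroup.centralizer {g y} := (Subgroup.mem_iInf.1 hc) y
        exact (Subgroup.mem_centralizer_singleton_iff.1 h1).symm
      have h2 : (cl a).image (fun y => c * y) ⊆ cl (c * a) := by
        intro z hz
        rw [mem_image] at hz
        obtain ⟨y, hy, rfl⟩ := hz
        rw [mem_cl]
        refine ⟨g ⟨y, hy⟩, ?_⟩
        have h3 := hg ⟨y, hy⟩
        simp only at h3
        rw [← mul_assoc, hcomm ⟨y, hy⟩]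
        rw [mul_assoc c, mul_assoc c, h3]
      have h3 : (cl a).image (fun y => c * y) = cl (c * a) := by
        apply Finset.eq_of_subset_of_card_le h2
        rw [Finset.card_image_of_injective _ (mul_right_injective c)]
        exact ha _ (mem_univ _)
      have h4 : x * (c * a) * x⁻¹ ∈ cl (c * a) := mem_cl.2 ⟨x, rfl⟩
      rw [← h3, mem_image] at h4
      obtain ⟨y, hy, hy'⟩ := h4
      have h5 : x * a * x⁻¹ ∈ cl a := mem_cl.2 ⟨x, rfl⟩
      rw [hW, Finset.mem_mul]
      refine ⟨y, hy, (x * a * x⁻¹)⁻¹, Finset.inv_mem_inv h5, ?_⟩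
      have h6 : y = c⁻¹ * (x * (c * a) * x⁻¹) := by
        rw [← hy']
        group
      rw [h6]
      group
    intro c hc x
    have h1 := key c⁻¹ (C.inv_mem hc) x
    have h2 : ⁅c, x⁆ = c⁻¹⁻¹ * (x * c⁻¹ * x⁻¹) := by
      rw [commutatorElement_def]
      group
    rw [h2]
    exact h1
  -- all commutators
  haveI : Fintype (G ⧸ C) := Fintype.ofFinite _
  have hall : ∀ x y : G, ⁅x, y⁆ ∈ (univ : Finset (G ⧸ C)).biUnion
      (fun s => (cl s.out⁻¹ * (cl s.out⁻¹)⁻¹) * W) := by
    intro x y
    rw [Finset.mem_biUnion]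
    set s : G ⧸ C := ((x⁻¹ : G) : G ⧸ C) with hs
    refine ⟨s, mem_univ _, ?_⟩
    set t := s.out⁻¹ with ht
    -- `x = c * t`
    have hc : x * t⁻¹ ∈ C := by
      have h1 : s.out⁻¹ * x⁻¹ ∈ C := by
        rw [← QuotientGroup.eq, QuotientGroup.out_eq']
      have h2 : x * t⁻¹ = (s.out⁻¹ * x⁻¹)⁻¹ := by
        rw [ht]
        group
      rw [h2]
      exact C.inv_mem h1
    set c := x * t⁻¹ with hcdef
    have hx : x = c * t := by rw [hcdef]; group
    rw [Finset.mem_mul]
    refine ⟨c * ⁅t, y⁆ * c⁻¹, ?_, ⁅c, y⁆, hCW c hc y, ?_⟩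
    · rw [Finset.mem_mul]
      refine ⟨c * t * c⁻¹, mem_cl.2 ⟨c, rfl⟩, ((c * y) * t * (c * y)⁻¹)⁻¹,
        Finset.inv_mem_inv (mem_cl.2 ⟨c * y, rfl⟩), ?_⟩
      rw [commutatorElement_def]
      group
    · rw [hx, commutatorElement_def, commutatorElement_def, commutatorElement_def]
      group
  have hsub : Nat.card (commutatorSet G) ≤ ((univ : Finset (G ⧸ C)).biUnion
      (fun s => (cl s.out⁻¹ * (cl s.out⁻¹)⁻¹) * W)).card := by
    rw [← Fintype.card_coe, ← Nat.card_eq_fintype_card]
    refine Nat.card_le_card_of_injective (fun z : commutatorSet G =>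
      (⟨z.1, ?_⟩ : {y // y ∈ (univ : Finset (G ⧸ C)).biUnion
        (fun s => (cl s.out⁻¹ * (cl s.out⁻¹)⁻¹) * W)})) ?_
    · obtain ⟨x, y, hxy⟩ := z.2
      rw [← hxy]
      exact hall x y
    · intro z w hzw
      exact Subtype.ext (congrArg (fun u => u.1) hzw)
  refine hsub.trans ((Finset.card_biUnion_le).trans ?_)
  refine (Finset.sum_le_card_nsmul _ _ (b * b * (b * b)) ?_).trans ?_
  · intro s _
    refine (Finset.card_mul_le).trans ?_
    apply Nat.mul_le_mul _ hWc
    refine (Finset.card_mul_le).trans ?_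
    rw [Finset.card_inv]
    exact Nat.mul_le_mul (hb _) (hb _)
  · rw [smul_eq_mul, Finset.card_univ]
    apply Nat.mul_le_mul_right
    rw [← Nat.card_eq_fintype_card]
    exact hCi

end bfc

end Pool.Agent.R679.Inv
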