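import Pool.Agent.R679.Inv3

set_option autoImplicit false

/-! Groups with many solutions of `x ^ 2 = 1`: the structure theorem. -/

namespace Pool.Agent.R679.Inv

open Finset
open scoped commutatorElement

def B1 (m : ℕ) : ℕ := 2 * m ^ 2
def B2 (m : ℕ) : ℕ := (B1 m) ^ (3 * B1 m)
def B3 (m : ℕ) : ℕ := B2 m ^ B2 m * (B2 m * B2 m * (B2 m * B2 m))
def B4 (m : ℕ) : ℕ := ∑ n ∈ Finset.range (B3 m + 1), Subgroup.cardCommutatorBound n
def B5 (m : ℕ) : ℕ := B1 m * (B2 m) ^ (B4 m)
/-- the bound in the structure theorem -/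
def BB (m : ℕ) : ℕ := B4 m + B5 m

theorem step1 {m : ℕ} {G : Type} [Group G] [Fintype G] [DecidableEq G]
    (hG : Fintype.card G ≤ m * (univ.filter (fun x : G => x ^ 2 = 1)).card) :
    Fintype.card G ≤
      B1 m * (univ.filter (fun y : G => (Subgroup.centralizer {y}).index ≤ B1 m)).card := by
  classical
  set X := univ.filter (fun y : G => (Subgroup.centralizer {y}).index ≤ B1 m) with hX
  set n := Fintype.card G with hn
  have hn0 : 0 < n := Fintype.card_pos
  have h1 := sum_cent (G := G)
  have h2 : (B1 m + 1) * ∑ y : G, Nat.card (Subgroup.centralizer {y}) ≤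
      (B1 m + 1) * n * X.card + n * n := by
    have h3 : ∀ y : G, (B1 m + 1) * Nat.card (Subgroup.centralizer {y}) ≤
        (if y ∈ X then (B1 m + 1) * n else 0) + n := by
      intro y
      have h4 := (Subgroup.centralizer {y}).card_mul_index
      rw [Nat.card_eq_fintype_card (α := G), ← hn] at h4
      split_ifs with hy
      · have h5 : 1 ≤ (Subgroup.centralizer {y}).index :=
          Nat.one_le_iff_ne_zero.2 Subgroup.index_ne_zero_of_finite
        have h6 : Nat.card (Subgroup.centralizer {y}) ≤ n := by nlinarith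
        nlinarith
      · have hlt : B1 m + 1 ≤ (Subgroup.centralizer {y}).index := by
          rw [hX, mem_filter] at hy
          push Not at hy
          exact hy (mem_univ _)
        rw [zero_add]
        calc (B1 m + 1) * Nat.card (Subgroup.centralizer {y})
            ≤ (Subgroup.centralizer {y}).index * Nat.card (Subgroup.centralizer {y}) :=
              Nat.mul_le_mul_right _ hlt
          _ = n := by rw [mul_comm]; exact h4
    rw [Finset.mul_sum]
    refine (Finset.sum_le_sum (fun y _ => h3 y)).trans ?_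
    rw [Finset.sum_add_distrib, Finset.sum_ite_mem, Finset.univ_inter, Finset.sum_const,
      Finset.sum_const, Finset.card_univ, smul_eq_mul, smul_eq_mul, ← hn]
    apply le_of_eq
    ring
  set s := (univ.filter (fun x : G => x ^ 2 = 1)).card with hs
  have h3 : n * n ≤ m ^ 2 * s ^ 2 := by nlinarith
  have h4 : (B1 m + 1) * (n * n) ≤ m ^ 2 * ((B1 m + 1) * n * X.card + n * n) := by
    calc (B1 m + 1) * (n * n) ≤ (B1 m + 1) * (m ^ 2 * s ^ 2) := Nat.mul_le_mul_left _ h3
      _ = m ^ 2 * ((B1 m + 1) * s ^ 2) := by ring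
      _ ≤ m ^ 2 * ((B1 m + 1) * ∑ y : G, Nat.card (Subgroup.centralizer {y})) := by
          apply Nat.mul_le_mul_left
          exact Nat.mul_le_mul_left _ h1
      _ ≤ _ := Nat.mul_le_mul_left _ h2
  have h5 : (m ^ 2 + 1) * n ≤ m ^ 2 * (2 * m ^ 2 + 1) * X.card := by
    unfold B1 at h4
    have h6 : n * ((m ^ 2 + 1) * n) ≤ n * (m ^ 2 * (2 * m ^ 2 + 1) * X.card) := by nlinarith
    exact Nat.le_of_mul_le_mul_left h6 hn0
  have h6 : (m ^ 2 + 1) * n ≤ (m ^ 2 + 1) * (B1 m * X.card) := by
    refine h5.trans ?_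
    unfold B1
    nlinarith [Nat.zero_le (m ^ 2 * X.card)]
  exact Nat.le_of_mul_le_mul_left h6 (Nat.succ_pos _)

theorem exists_NK {m : ℕ} (G : Type) [Group G] [Fintype G] [DecidableEq G]
    (hG : Fintype.card G ≤ m * (univ.filter (fun x : G => x ^ 2 = 1)).card) :
    ∃ N Z : Subgroup G, N.Normal ∧ N.index ≤ BB m ∧ Nat.card Z ≤ BB m ∧ Z ≤ N ∧
      (∀ x ∈ N, ∀ y ∈ N, ⁅x, y⁆ ∈ Z) ∧ (∀ x ∈ Z, ∀ y ∈ N, x * y = y * x) := by
  classical
  have h1 := step1 hG
  set X := univ.filter (fun y : G => (Subgroup.centralizer {y}).index ≤ B1 m) with hX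
  have hmem : ∀ y, y ∈ X ↔ (Subgroup.centralizer {y}).index ≤ B1 m := by
    intro y
    rw [hX, mem_filter]
    simp
  have hb0 : 1 ≤ B1 m := by
    rcases Nat.eq_zero_or_pos (B1 m) with h | h
    · rw [h, zero_mul] at h1
      have : 0 < Fintype.card G := Fintype.card_pos
      omega
    · exact h
  obtain ⟨H, hHn, hHi, hHc⟩ := exists_H X
    (by rw [hmem, cent_one, Subgroup.index_top]; exact hb0)
    (by
      ext y
      rw [Finset.mem_inv']
      rw [hmem, hmem, cent_inv])
    (by
      intro x hx g
      rw [hmem, index_cent_conj]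
      exact (hmem x).1 hx)
    h1 (fun x hx => (hmem x).1 hx)
  haveI := hHn
  -- commutators in `H`
  haveI : Fintype H := Fintype.ofFinite _
  have h2 : ∀ x : H, (Subgroup.centralizer {x}).index ≤ B2 m := by
    intro x
    have h3 : (Subgroup.centralizer {(x : G)}).subgroupOf H ≤ Subgroup.centralizer {x} := by
      intro y hy
      rw [Subgroup.mem_subgroupOf, Subgroup.mem_centralizer_singleton_iff] at hy
      rw [Subgroup.mem_centralizer_singleton_iff]
      exact Subtype.ext hy
    refine (Subgroup.index_antitone h3).trans ?_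
    refine le_trans ?_ (hHc x x.2)
    have h4 : (Subgroup.centralizer {(x : G)}).relIndex H ≤
        (Subgroup.centralizer {(x : G)}).relIndex ⊤ :=
      Subgroup.relIndex_le_of_le_right le_top (by
        rw [Subgroup.relIndex_top_right]
        exact Subgroup.index_ne_zero_of_finite)
    rwa [Subgroup.relIndex_top_right] at h4
  have h3 := bfc h2
  have h4 := Subgroup.card_commutator_le_of_finite_commutatorSet H
  have h5 : Nat.card (commutator H) ≤ B4 m := by
    refine h4.trans ?_
    unfold B4
    exact Finset.single_le_sum (f := Subgroup.cardCommutatorBound) (fun _ _ => Nat.zero_le _)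
      (Finset.mem_range.2 (Nat.lt_succ_of_le h3))
  set K : Subgroup G := ⁅H, H⁆ with hK
  have hKc : Nat.card K ≤ B4 m := by
    rw [hK, ← Subgroup.map_subtype_commutator,
      Subgroup.card_map_of_injective H.subtype_injective]
    exact h5
  have hKH : K ≤ H := Subgroup.commutator_le_right H H
  haveI hKn : K.Normal := Subgroup.commutator_normal H H
  haveI : Fintype K := Fintype.ofFinite _
  -- the centralizer of `K`
  have hC0 : Subgroup.centralizer (K : Set G) = ⨅ k : K, Subgroup.centralizer {(k : G)} := by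
    ext g
    rw [Subgroup.mem_iInf, Subgroup.mem_centralizer_iff]
    constructor
    · intro h k
      rw [Subgroup.mem_centralizer_singleton_iff]
      exact (h k k.2).symm
    · intro h k hk
      exact (Subgroup.mem_centralizer_singleton_iff.1 (h ⟨k, hk⟩)).symm
  have hB2 : 1 ≤ B2 m := Nat.one_le_pow _ _ hb0
  have hC1 : (Subgroup.centralizer (K : Set G)).index ≤ B2 m ^ B4 m := by
    rw [hC0]
    refine (Subgroup.index_iInf_le _).trans ?_
    refine (Finset.prod_le_prod' (fun (k : K) _ => hHc (k : G) (hKH k.2))).trans ?_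
    rw [Finset.prod_const, Finset.card_univ, ← Nat.card_eq_fintype_card]
    exact Nat.pow_le_pow_right hB2 hKc
  set N := H ⊓ Subgroup.centralizer (K : Set G) with hN
  have hcomm : ∀ x ∈ K, ∀ y ∈ N, x * y = y * x := by
    intro x hx y hy
    exact (Subgroup.mem_centralizer_iff.1 hy.2) x hx
  refine ⟨N, K ⊓ N, ?_, ?_, ?_, inf_le_right, ?_, ?_⟩
  · haveI : (Subgroup.centralizer (K : Set G)).Normal := inferInstance
    exact inferInstance
  · refine Subgroup.index_inf_le.trans ?_
    unfold BB B5
    exact (Nat.mul_le_mul hHi hC1).trans (Nat.le_add_left _ _)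
  · refine (Subgroup.card_le_of_le inf_le_left).trans ?_
    unfold BB
    exact hKc.trans (Nat.le_add_right _ _)
  · intro x hx y hy
    refine ⟨Subgroup.commutator_mem_commutator hx.1 hy.1, ?_⟩
    rw [commutatorElement_def]
    exact N.mul_mem (N.mul_mem (N.mul_mem hx hy) (N.inv_mem hx)) (N.inv_mem hy)
  · intro x hx y hy
    exact hcomm x hx.1 y hy

end Pool.Agent.R679.Inv
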