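import Pool.Agent.R679.Inv1
import Pool.Agent.R679.Inv2
import Pool.Agent.R679.Inv4

set_option autoImplicit false

/-! Counting the solutions of `x ^ 2 = 1` in a coset. -/

namespace Pool.Agent.R679.Inv

open Finset
open scoped commutatorElement

section coset

variable {G : Type} [Group G] [Finite G]

/-- the solutions of `(g n) ^ 2 = 1` in `N`, with the subgroup `T` of `N` on which the map
`n ↦ g n g n` takes values in `Z` -/
theorem coset_count (N Z : Subgroup G) (hN : N.Normal) (hZN : Z ≤ N)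
    (hc : ∀ x ∈ N, ∀ y ∈ N, ⁅x, y⁆ ∈ Z) (hz : ∀ x ∈ Z, ∀ y ∈ N, x * y = y * x)
    (g : G) (hg : g * g = 1) {m : ℕ} (hm : Nat.card Z ≤ m) :
    (Nat.card {n : N // (g * n) * (g * n) = 1} : ℝ) / Nat.card N ∈
      Set.image2 (· * ·) recips (AA m) := by
  classical
  have hg' : g⁻¹ = g := inv_eq_of_mul_eq_one_left hg
  have hconj : ∀ n ∈ N, g * n * g ∈ N := by
    intro n hn
    have h1 := hN.conj_mem n hn g
    rwa [hg'] at h1
  -- commutators are central in `N`
  have hcc : ∀ x ∈ N, ∀ y ∈ N, ∀ z ∈ N, ⁅x, y⁆ * z = z * ⁅x, y⁆ :=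
    fun x hx y hy z hz' => hz _ (hc x hx y hy) z hz'
  have hq1 : ∀ n ∈ N, ∀ k ∈ N, g * (n * k) * (g * (n * k)) =
      ⁅g * k * g, n⁆ * (g * n * (g * n)) * (g * k * (g * k)) := by
    intro n hn k hk
    have h1 := hcc (g * k * g) (hconj k hk) n hn (g * n * g) (hconj n hn)
    have h2 : ⁅g * k * g, n⁆ * (g * n * (g * n)) * (g * k * (g * k)) =
        (⁅g * k * g, n⁆ * (g * n * g)) * (n * (g * k * g) * k) := by group
    rw [h2, h1]
    have h3 : g * n * g * ⁅g * k * g, n⁆ * (n * (g * k * g) * k) =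
        g * n * (g * g) * k * g * n * k := by
      rw [commutatorElement_def]
      group
    rw [h3, hg]
    group
  have hq2 : ∀ n ∈ N, ∀ k ∈ N, g * k * (g * k) ∈ Z → ⁅g * k * g, n⁆ = ⁅n, k⁆ := by
    intro n hn k hk hkz
    have e1 : ⁅g * k * g, n⁆ = (g * k * (g * k)) * (k⁻¹ * n * k) * (g * k * (g * k))⁻¹ * n⁻¹ := by
      rw [commutatorElement_def]
      group
    have e2 := hz _ hkz (k⁻¹ * n * k) (N.mul_mem (N.mul_mem (N.inv_mem hk) hn) hk)
    have e3 := hcc n hn k hk k hk
    rw [e1, e2]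
    have e4 : k⁻¹ * n * k * (g * k * (g * k)) * (g * k * (g * k))⁻¹ * n⁻¹ =
        k⁻¹ * (⁅n, k⁆ * k) := by
      rw [commutatorElement_def]
      group
    rw [e4, e3]
    group
  let T : Subgroup N :=
    { carrier := {n | g * (n : G) * (g * n) ∈ Z}
      one_mem' := by
        change g * ((1 : N) : G) * (g * ((1 : N) : G)) ∈ Z
        rw [Subgroup.coe_one, mul_one, hg]
        exact Z.one_mem
      mul_mem' := by
        intro a b ha hb
        change g * ((a * b : N) : G) * (g * ((a * b : N) : G)) ∈ Z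
        rw [Subgroup.coe_mul, hq1 a a.2 b b.2]
        exact Z.mul_mem (Z.mul_mem (hc _ (hconj b b.2) _ a.2) ha) hb
      inv_mem' := by
        intro a ha
        change g * (a : G) * (g * a) ∈ Z at ha
        change g * ((a⁻¹ : N) : G) * (g * ((a⁻¹ : N) : G)) ∈ Z
        rw [Subgroup.coe_inv]
        have h1 := hz _ ha a a.2
        have h2 : g * (a : G)⁻¹ * (g * (a : G)⁻¹) = (g * (a : G) * (g * a))⁻¹ := by
          have h3 : (g * (a : G) * (g * a))⁻¹ = ((a : G) * (g * (a : G) * (g * a)) * (a : G)⁻¹)⁻¹ := by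
            rw [← h1]
            group
          rw [h3]
          have h4 : ((a : G) * (g * (a : G) * (g * a)) * (a : G)⁻¹)⁻¹ =
              g⁻¹ * (a : G)⁻¹ * (g⁻¹ * (a : G)⁻¹) := by group
          rw [h4, hg']
        rw [h2]
        exact Z.inv_mem ha }
  let cg : CommGroup Z :=
    { (inferInstance : Group Z) with mul_comm := fun a b => Subtype.ext (hz a a.2 b (hZN b.2)) }
  let q : T → Additive Z := fun t =>
    Additive.ofMul (⟨g * ((t : N) : G) * (g * ((t : N) : G)), t.2⟩ : Z)
  let β : T → T → Additive Z := fun x y =>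
    Additive.ofMul (⟨⁅((x : N) : G), ((y : N) : G)⁆, hc _ x.1.2 _ y.1.2⟩ : Z)
  have hquad : IsQuad q β := by
    constructor
    · intro x y
      apply Additive.toMul.injective
      apply Subtype.ext
      change g * (((x * y : T) : N) : G) * (g * (((x * y : T) : N) : G)) =
        (g * ((x : N) : G) * (g * ((x : N) : G))) * (g * ((y : N) : G) * (g * ((y : N) : G))) *
          ⁅((x : N) : G), ((y : N) : G)⁆
      rw [Subgroup.coe_mul, Subgroup.coe_mul, hq1 _ x.1.2 _ y.1.2, hq2 _ x.1.2 _ y.1.2 y.2,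
        mul_assoc]
      apply hz _ (hc _ x.1.2 _ y.1.2)
      exact N.mul_mem (hZN x.2) (hZN y.2)
    · intro x y z
      apply Additive.toMul.injective
      apply Subtype.ext
      change ⁅(((x * y : T) : N) : G), ((z : N) : G)⁆ =
        ⁅((x : N) : G), ((z : N) : G)⁆ * ⁅((y : N) : G), ((z : N) : G)⁆
      rw [Subgroup.coe_mul, Subgroup.coe_mul]
      have e1 := hcc _ y.1.2 _ z.1.2 _ x.1.2
      have e2 := hcc _ x.1.2 _ z.1.2 ⁅((y : N) : G), ((z : N) : G)⁆ (hZN (hc _ y.1.2 _ z.1.2))
      rw [e2]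
      have e3 : ⁅((x : N) : G) * ((y : N) : G), ((z : N) : G)⁆ =
          ((x : N) : G) * ⁅((y : N) : G), ((z : N) : G)⁆ * ((x : N) : G)⁻¹ *
            ⁅((x : N) : G), ((z : N) : G)⁆ := by
        rw [commutatorElement_def, commutatorElement_def, commutatorElement_def]
        group
      rw [e3, ← e1]
      group
    · intro x y z
      apply Additive.toMul.injective
      apply Subtype.ext
      change ⁅((x : N) : G), (((y * z : T) : N) : G)⁆ =
        ⁅((x : N) : G), ((y : N) : G)⁆ * ⁅((x : N) : G), ((z : N) : G)⁆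
      rw [Subgroup.coe_mul, Subgroup.coe_mul]
      have e1 := hcc _ x.1.2 _ z.1.2 _ y.1.2
      have e3 : ⁅((x : N) : G), ((y : N) : G) * ((z : N) : G)⁆ =
          ⁅((x : N) : G), ((y : N) : G)⁆ * (((y : N) : G) * ⁅((x : N) : G), ((z : N) : G)⁆) *
            ((y : N) : G)⁻¹ := by
        rw [commutatorElement_def, commutatorElement_def, commutatorElement_def]
        group
      rw [e3, ← e1]
      group
  refine ⟨1 / (T.index : ℝ), ⟨T.index, Nat.one_le_iff_ne_zero.2 Subgroup.index_ne_zero_of_finite,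
    rfl⟩, (Nat.card {x : T // q x = 0} : ℝ) / Nat.card T,
    ⟨T, Additive Z, inferInstance, inferInstance, inferInstance, inferInstance, q, β, hquad,
      hm, rfl⟩, ?_⟩
  have h1 : Nat.card {x : T // q x = 0} = Nat.card {n : N // (g * n) * (g * n) = 1} := by
    apply Nat.card_congr
    refine ⟨fun x => ⟨x.1.1, ?_⟩, fun n => ⟨⟨n.1, ?_⟩, ?_⟩, fun _ => rfl, fun _ => rfl⟩
    · have h2 := x.2
      have h3 : (Additive.toMul (q x.1)) = 1 := by rw [h2]; rfl
      exact congrArg Subtype.val h3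
    · change g * ((n.1 : N) : G) * (g * ((n.1 : N) : G)) ∈ Z
      rw [n.2]
      exact Z.one_mem
    · apply Additive.toMul.injective
      apply Subtype.ext
      exact n.2
  have h2 : (Nat.card T : ℝ) * T.index = Nat.card N := by exact_mod_cast T.card_mul_index
  have h3 : (0 : ℝ) < Nat.card T := by exact_mod_cast Nat.card_pos
  have h4 : (0 : ℝ) < T.index := by
    exact_mod_cast Nat.pos_of_ne_zero Subgroup.index_ne_zero_of_finite
  simp only
  rw [h1, ← h2]
  field_simp

end coset

end Pool.Agent.R679.Inv
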