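import Mathlib

/-!
Steering vectors of an irreducible representation by products of Bernoulli factors.
-/

set_option autoImplicit false

open scoped InnerProductSpace Topology

namespace Pool.Agent.R679.Mix

variable {G : Type*} [Group G] [Fintype G]
variable {M : Type*} [NormedAddCommGroup M] [InnerProductSpace ℝ M] [FiniteDimensional ℝ M]

/-- the Bernoulli factor `(1 - p) + p g` in a representation -/
noncomputable def fac (ρ : G →* (M →L[ℝ] M)) (p : ℝ) (g : G) : M →L[ℝ] M :=
  (1 - p) • (1 : M →L[ℝ] M) + p • ρ g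

/-- the set of all products of Bernoulli factors -/
def S (ρ : G →* (M →L[ℝ] M)) : Submonoid (M →L[ℝ] M) :=
  Submonoid.closure {T | ∃ (p : ℝ) (g : G), 0 ≤ p ∧ p ≤ 1 ∧ T = fac ρ p g}

theorem fac_apply (ρ : G →* (M →L[ℝ] M)) (p : ℝ) (g : G) (v : M) :
    fac ρ p g v = v + p • (ρ g v - v) := by
  simp only [fac, ContinuousLinearMap.add_apply, ContinuousLinearMap.smul_apply,
    ContinuousLinearMap.one_apply]
  module

theorem fac_mem (ρ : G →* (M →L[ℝ] M)) {p : ℝ} (h0 : 0 ≤ p) (h1 : p ≤ 1) (g : G) :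
    fac ρ p g ∈ S ρ := Submonoid.subset_closure ⟨p, g, h0, h1, rfl⟩

theorem rho_mem (ρ : G →* (M →L[ℝ] M)) (g : G) : ρ g ∈ S ρ := by
  have h := fac_mem ρ zero_le_one le_rfl g
  have e : fac ρ 1 g = ρ g := by simp [fac]
  rwa [e] at h

theorem le_zero_of_small {a b : ℝ} (h : ∀ t : ℝ, 0 < t → t < 1 → 2 * a ≤ t * b) : a ≤ 0 := by
  by_contra ha
  push Not at ha
  have hb : 0 < b := by
    have := h (1/2) (by norm_num) (by norm_num)
    linarith
  have h1 := h (min (1/2) (a / b)) (lt_min (by norm_num) (div_pos ha hb))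
    (lt_of_le_of_lt (min_le_left _ _) (by norm_num))
  have h2 : min (1/2) (a / b) * b ≤ a / b * b := mul_le_mul_of_nonneg_right (min_le_right _ _) hb.le
  rw [div_mul_cancel₀ _ hb.ne'] at h2
  linarith

/-- if `c` is a nearest point and one may move a little in the direction of `d` then
`⟪m - c, d⟫ ≤ 0`. -/
theorem inner_le_of_near {m c d : M} (h : ∀ t : ℝ, 0 < t → t < 1 → dist m c ≤ dist m (c + t • d)) :
    ⟪m - c, d⟫_ℝ ≤ 0 := by
  apply le_zero_of_small (b := ‖d‖ ^ 2)
  intro t ht ht1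
  have h1 := h t ht ht1
  rw [dist_eq_norm, dist_eq_norm] at h1
  have h2 : ‖m - c‖ ^ 2 ≤ ‖m - (c + t • d)‖ ^ 2 := by
    apply pow_le_pow_left₀ (norm_nonneg _) h1
  have e : m - (c + t • d) = (m - c) - t • d := by abel
  rw [e, norm_sub_sq_real (m - c) (t • d), inner_smul_right, norm_smul, Real.norm_eq_abs,
    abs_of_pos ht, mul_pow] at h2
  have h3 : t * (2 * ⟪m - c, d⟫_ℝ) ≤ t * (t * ‖d‖ ^ 2) := by nlinarith
  exact le_of_mul_le_mul_left h3 ht

theorem eq_zero_of_orth (ρ : G →* (M →L[ℝ] M))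
    (hirr : ∀ v : M, v ≠ 0 → Submodule.span ℝ (Set.range fun g => ρ g v) = ⊤)
    (hsum : ∀ v : M, ∑ g, ρ g v = 0) {a v : M} (hv : v ≠ 0) (h : ∀ g, ⟪a, ρ g v⟫_ℝ ≤ 0) :
    a = 0 := by
  have h0 : ∑ g, ⟪a, ρ g v⟫_ℝ = 0 := by rw [← inner_sum, hsum, inner_zero_right]
  have h1 : ∀ g, ⟪a, ρ g v⟫_ℝ = 0 := by
    intro g
    exact (Finset.sum_eq_zero_iff_of_nonpos (fun g _ => h g)).1 h0 g (Finset.mem_univ g)
  have h2 : a ∈ (Submodule.span ℝ (Set.range fun g => ρ g v))ᗮ := by
    rw [Submodule.mem_orthogonal']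
    intro u hu
    induction hu using Submodule.span_induction with
    | mem x hx => obtain ⟨g, rfl⟩ := hx; exact h1 g
    | zero => exact inner_zero_right _
    | add x y _ _ hx hy => rw [inner_add_right, hx, hy, add_zero]
    | smul c x _ hx => rw [inner_smul_right, hx, mul_zero]
  rw [hirr v hv, Submodule.top_orthogonal_eq_bot] at h2
  exact (Submodule.mem_bot ℝ).1 h2

/-- The rays reachable from a nonzero vector are dense. -/
theorem dense_reach (ρ : G →* (M →L[ℝ] M))
    (hirr : ∀ v : M, v ≠ 0 → Submodule.span ℝ (Set.range fun g => ρ g v) = ⊤)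
    (hsum : ∀ v : M, ∑ g, ρ g v = 0) (z : M) (hz : z ≠ 0) :
    closure {v : M | ∃ s ∈ S ρ, ∃ c : ℝ, 0 < c ∧ v = c • s z} = Set.univ := by
  set A : Set M := {v : M | ∃ s ∈ S ρ, ∃ c : ℝ, 0 < c ∧ v = c • s z} with hA
  have hne : A.Nonempty := ⟨z, 1, (S ρ).one_mem, 1, one_pos, by simp⟩
  have hscale : ∀ c : ℝ, 0 < c → ∀ v ∈ closure A, c • v ∈ closure A := by
    intro c hc v hv
    have hcont : Continuous fun v : M => c • v := continuous_const_smul c
    refine map_mem_closure hcont hv ?_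
    rintro x ⟨s, hs, d, hd, rfl⟩
    exact ⟨s, hs, c * d, mul_pos hc hd, by rw [smul_smul]⟩
  have hmove : ∀ (p : ℝ) (g : G), 0 ≤ p → p ≤ 1 → ∀ v ∈ closure A, fac ρ p g v ∈ closure A := by
    intro p g h0 h1 v hv
    refine map_mem_closure (fac ρ p g).continuous hv ?_
    rintro x ⟨s, hs, d, hd, rfl⟩
    refine ⟨fac ρ p g * s, (S ρ).mul_mem (fac_mem ρ h0 h1 g) hs, d, hd, ?_⟩
    rw [map_smul]
    rfl
  rw [Set.eq_univ_iff_forall]
  intro m
  obtain ⟨c, hc, hcd⟩ := isClosed_closure.exists_infDist_eq_dist (hne.closure) m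
  have hnear : ∀ y ∈ closure A, dist m c ≤ dist m y := by
    intro y hy
    rw [← hcd]
    exact Metric.infDist_le_dist_of_mem hy
  have key : m - c = 0 := by
    by_cases hc0 : c = 0
    · subst hc0
      apply eq_zero_of_orth ρ hirr hsum hz
      intro g
      apply inner_le_of_near
      intro t ht ht1
      apply hnear
      rw [zero_add]
      apply hscale t ht
      apply subset_closure
      exact ⟨ρ g, rho_mem ρ g, 1, one_pos, by simp⟩
    · have h1 : ⟪m - c, c⟫_ℝ ≤ 0 := by
        apply inner_le_of_near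
        intro t ht ht1
        apply hnear
        have e : c + t • c = (1 + t) • c := by rw [add_smul, one_smul]
        rw [e]
        exact hscale _ (by linarith) c hc
      have h2 : ⟪m - c, -c⟫_ℝ ≤ 0 := by
        apply inner_le_of_near
        intro t ht ht1
        apply hnear
        have e : c + t • (-c) = (1 - t) • c := by rw [sub_smul, one_smul, smul_neg, sub_eq_add_neg]
        rw [e]
        exact hscale _ (by linarith) c hc
      rw [inner_neg_right] at h2
      have h3 : ⟪m - c, c⟫_ℝ = 0 := le_antisymm h1 (by linarith)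
      apply eq_zero_of_orth ρ hirr hsum hc0
      intro g
      have h4 : ⟪m - c, ρ g c - c⟫_ℝ ≤ 0 := by
        apply inner_le_of_near
        intro t ht ht1
        apply hnear
        have h5 := hmove t g ht.le ht1.le c hc
        rwa [fac_apply] at h5
      rw [inner_sub_right, h3, sub_zero] at h4
      exact h4
  rw [sub_eq_zero.1 key]
  exact hc

end Pool.Agent.R679.Mix
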