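import Pool.Agent.R679.Mix1

/-!
The set of vectors which can be steered exactly to the line of a given vector has nonempty interior.
-/

set_option autoImplicit false

open scoped InnerProductSpace Topology

namespace Pool.Agent.R679.Mix

variable {G : Type*} [Group G] [Fintype G]
variable {M : Type*} [NormedAddCommGroup M] [InnerProductSpace ℝ M] [FiniteDimensional ℝ M]

/-- product of the Bernoulli factors over a list -/
noncomputable def P (ρ : G →* (M →L[ℝ] M)) (l : List G) (p : G → ℝ) : M →L[ℝ] M :=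
  (l.map fun g => fac ρ (p g) g).prod

/-- the derivative of `P` at `0` -/
noncomputable def D (ρ : G →* (M →L[ℝ] M)) (l : List G) : (G → ℝ) →L[ℝ] (M →L[ℝ] M) :=
  (l.map fun g => (ContinuousLinearMap.proj (R := ℝ) (φ := fun _ : G => ℝ) g).smulRight
    (ρ g - 1)).sum

theorem fac_eq (ρ : G →* (M →L[ℝ] M)) (p : ℝ) (g : G) : fac ρ p g = 1 + p • (ρ g - 1) := by
  simp only [fac]
  module

theorem P_zero (ρ : G →* (M →L[ℝ] M)) (l : List G) : P ρ l 0 = 1 := by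
  simp only [P, fac_eq, Pi.zero_apply, zero_smul, add_zero]
  induction l with
  | nil => rfl
  | cons a l _ => simp

theorem P_mem (ρ : G →* (M →L[ℝ] M)) (l : List G) (p : G → ℝ) (hp : ∀ g, 0 ≤ p g ∧ p g ≤ 1) :
    P ρ l p ∈ S ρ := by
  apply Submonoid.list_prod_mem
  intro x hx
  rw [List.mem_map] at hx
  obtain ⟨g, _, rfl⟩ := hx
  exact fac_mem ρ (hp g).1 (hp g).2 g

theorem P_cons (ρ : G →* (M →L[ℝ] M)) (a : G) (l : List G) :
    P ρ (a :: l) = (fun p : G → ℝ => fac ρ (p a) a) * P ρ l := by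
  ext p : 1
  simp [P]

theorem fac_hasFDerivAt (ρ : G →* (M →L[ℝ] M)) (a : G) (x : G → ℝ) :
    HasFDerivAt (fun p : G → ℝ => fac ρ (p a) a)
      ((ContinuousLinearMap.proj (R := ℝ) (φ := fun _ : G => ℝ) a).smulRight (ρ a - 1)) x := by
  have h : (fun p : G → ℝ => fac ρ (p a) a) = fun p : G → ℝ => (1 : M →L[ℝ] M) +
      ((ContinuousLinearMap.proj (R := ℝ) (φ := fun _ : G => ℝ) a).smulRight (ρ a - 1)) p := by
    ext p : 1
    rw [fac_eq]
    rfl
  rw [h]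
  exact (ContinuousLinearMap.hasFDerivAt _).const_add _

theorem fac_contDiff (ρ : G →* (M →L[ℝ] M)) (a : G) :
    ContDiff ℝ 1 (fun p : G → ℝ => fac ρ (p a) a) := by
  have h : (fun p : G → ℝ => fac ρ (p a) a) = fun p : G → ℝ => (1 : M →L[ℝ] M) +
      ((ContinuousLinearMap.proj (R := ℝ) (φ := fun _ : G => ℝ) a).smulRight (ρ a - 1)) p := by
    ext p : 1
    rw [fac_eq]
    rfl
  rw [h]
  exact contDiff_const.add (ContinuousLinearMap.contDiff _)

theorem P_contDiff (ρ : G →* (M →L[ℝ] M)) (l : List G) : ContDiff ℝ 1 (P ρ l) := by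
  induction l with
  | nil => exact contDiff_const
  | cons a l ih =>
    rw [P_cons]
    exact (fac_contDiff ρ a).mul ih

theorem P_hasFDerivAt (ρ : G →* (M →L[ℝ] M)) (l : List G) :
    HasFDerivAt (P ρ l) (D ρ l) 0 := by
  induction l with
  | nil => exact hasFDerivAt_const _ _
  | cons a l ih =>
    rw [P_cons]
    have h := (fac_hasFDerivAt ρ a 0).mul' ih
    have e1 : fac ρ ((0 : G → ℝ) a) a = 1 := by
      rw [fac_eq, Pi.zero_apply, zero_smul, add_zero]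
    have e2 : D ρ (a :: l) = ((ContinuousLinearMap.proj (R := ℝ) (φ := fun _ : G => ℝ) a).smulRight
      (ρ a - 1)) + D ρ l := by
      simp only [D, List.map_cons, List.sum_cons]
    refine h.congr_fderiv ?_
    rw [e1, P_zero, e2, add_comm]
    congr 1

/-- the map `(p, c) ↦ c P(p)⁻¹ k` -/
noncomputable def H (ρ : G →* (M →L[ℝ] M)) (l : List G) (k : M) (x : (G → ℝ) × ℝ) : M :=
  x.2 • (Ring.inverse (P ρ l x.1)) k

theorem inv_hasFDerivAt (ρ : G →* (M →L[ℝ] M)) (l : List G) :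
    HasFDerivAt (fun p => Ring.inverse (P ρ l p)) (-D ρ l) 0 := by
  have h1 : HasFDerivAt (Ring.inverse : (M →L[ℝ] M) → (M →L[ℝ] M))
      (-((ContinuousLinearMap.mulLeftRight ℝ (M →L[ℝ] M)) 1) 1) (P ρ l 0) := by
    rw [P_zero]
    have := hasFDerivAt_ringInverse (𝕜 := ℝ) (1 : (M →L[ℝ] M)ˣ)
    simpa using this
  have h2 := h1.comp (0 : G → ℝ) (P_hasFDerivAt ρ l)
  have e : (-D ρ l) = (-((ContinuousLinearMap.mulLeftRight ℝ (M →L[ℝ] M)) 1) 1).comp (D ρ l) := by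
    ext x v
    simp
  rw [e]
  exact h2

theorem H_hasFDerivAt (ρ : G →* (M →L[ℝ] M)) (l : List G) (k : M) :
    HasFDerivAt (H ρ l k)
      ((1 : ℝ) • (((ContinuousLinearMap.apply ℝ M k).comp (-D ρ l)).comp
          (ContinuousLinearMap.fst ℝ (G → ℝ) ℝ)) +
        (ContinuousLinearMap.snd ℝ (G → ℝ) ℝ).smulRight k) (0, 1) := by
  have h1 : HasFDerivAt (fun x : (G → ℝ) × ℝ => Ring.inverse (P ρ l x.1))
      ((-D ρ l).comp (ContinuousLinearMap.fst ℝ (G → ℝ) ℝ)) (0, 1) := by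
    have h0 : HasFDerivAt (fun p => Ring.inverse (P ρ l p)) (-D ρ l)
      ((ContinuousLinearMap.fst ℝ (G → ℝ) ℝ) ((0 : G → ℝ), (1 : ℝ))) := inv_hasFDerivAt ρ l
    exact h0.comp ((0 : G → ℝ), (1 : ℝ)) (ContinuousLinearMap.hasFDerivAt _)
  have h2 : HasFDerivAt (fun x : (G → ℝ) × ℝ => (Ring.inverse (P ρ l x.1)) k)
      ((ContinuousLinearMap.apply ℝ M k).comp
        ((-D ρ l).comp (ContinuousLinearMap.fst ℝ (G → ℝ) ℝ))) (0, 1) := by
    have h3 : HasFDerivAt (ContinuousLinearMap.apply ℝ M k)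
      (ContinuousLinearMap.apply ℝ M k) (Ring.inverse (P ρ l ((0 : G → ℝ), (1 : ℝ)).1)) :=
      ContinuousLinearMap.hasFDerivAt _
    exact h3.comp ((0 : G → ℝ), (1 : ℝ)) h1
  have h4 : HasFDerivAt (fun x : (G → ℝ) × ℝ => x.2) (ContinuousLinearMap.snd ℝ (G → ℝ) ℝ)
      ((0 : G → ℝ), (1 : ℝ)) := (ContinuousLinearMap.snd ℝ (G → ℝ) ℝ).hasFDerivAt
  have h5 := h4.smul h2
  have e : (Ring.inverse (P ρ l ((0 : G → ℝ), (1 : ℝ)).1)) k = k := by
    show (Ring.inverse (P ρ l 0)) k = k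
    rw [P_zero, Ring.inverse_one]
    rfl
  rw [e] at h5
  exact h5

theorem D_apply (ρ : G →* (M →L[ℝ] M)) (l : List G) (q : G → ℝ) (k : M) :
    D ρ l q k = (l.map fun g => q g • (ρ g k - k)).sum := by
  induction l with
  | nil => simp [D]
  | cons a l ih =>
    have e : D ρ (a :: l) = ((ContinuousLinearMap.proj (R := ℝ) (φ := fun _ : G => ℝ) a).smulRight
      (ρ a - 1)) + D ρ l := by simp [D]
    rw [e]
    simp [ih]

theorem H_contDiffAt (ρ : G →* (M →L[ℝ] M)) (l : List G) (k : M) (x : (G → ℝ) × ℝ)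
    (hx : IsUnit (P ρ l x.1)) : ContDiffAt ℝ 1 (H ρ l k) x := by
  obtain ⟨u, hu⟩ := hx
  have h1 : ContDiffAt ℝ 1 (fun x : (G → ℝ) × ℝ => Ring.inverse (P ρ l x.1)) x := by
    have h2 : ContDiffAt ℝ 1 (Ring.inverse : (M →L[ℝ] M) → (M →L[ℝ] M)) (P ρ l x.1) := by
      rw [← hu]
      exact contDiffAt_ringInverse ℝ u
    exact h2.comp x (((P_contDiff ρ l).comp contDiff_fst).contDiffAt)
  have h3 : ContDiffAt ℝ 1 (fun x : (G → ℝ) × ℝ => (Ring.inverse (P ρ l x.1)) k) x :=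
    h1.clm_apply contDiffAt_const
  exact (contDiff_snd.contDiffAt).smul h3

/-- The vectors which can be steered to the line of `k` contain a nonempty open set. -/
theorem exists_open (ρ : G →* (M →L[ℝ] M)) (k : M)
    (hk : Submodule.span ℝ (Set.range fun g => ρ g k) = ⊤) :
    ∃ v₀ : M, ∃ U ∈ 𝓝 v₀, ∀ v ∈ U, ∃ s ∈ S ρ, ∃ c : ℝ, s v = c • k := by
  classical
  set l : List G := Finset.univ.toList with hl
  -- the derivative at `(0, 1)`
  set T : ((G → ℝ) × ℝ) →L[ℝ] M :=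
    ((1 : ℝ) • (((ContinuousLinearMap.apply ℝ M k).comp (-D ρ l)).comp
          (ContinuousLinearMap.fst ℝ (G → ℝ) ℝ)) +
        (ContinuousLinearMap.snd ℝ (G → ℝ) ℝ).smulRight k) with hT
  have hTd : HasFDerivAt (H ρ l k) T (0, 1) := H_hasFDerivAt ρ l k
  have hTapp : ∀ q c, T (q, c) = -(∑ g, q g • (ρ g k - k)) + c • k := by
    intro q c
    have e : D ρ l q k = ∑ g, q g • (ρ g k - k) := by
      rw [D_apply, hl, Finset.sum_map_toList]
    simp [hT, e]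
  have hTsurj : T.range = ⊤ := by
    rw [eq_top_iff, ← hk, Submodule.span_le]
    rintro _ ⟨g, rfl⟩
    refine ⟨(Pi.single g (-1), 1), ?_⟩
    show T (Pi.single g (-1), 1) = _
    rw [hTapp]
    rw [Finset.sum_eq_single g]
    · simp
    · intro b _ hb
      simp [Pi.single_eq_of_ne hb]
    · intro h
      exact absurd (Finset.mem_univ g) h
  obtain ⟨R, hR⟩ := LinearMap.exists_rightInverse_of_surjective (T : ((G → ℝ) × ℝ) →ₗ[ℝ] M) hTsurj
  let R' : M →L[ℝ] ((G → ℝ) × ℝ) := LinearMap.toContinuousLinearMap R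
  have hTR : T.comp R' = 1 := by
    ext v
    exact LinearMap.congr_fun hR v
  -- units near `(0, 1)`
  have hP0 : IsUnit (P ρ l 0) := by rw [P_zero]; exact isUnit_one
  have hPc : Continuous fun x : (G → ℝ) × ℝ => P ρ l x.1 :=
    (P_contDiff ρ l).continuous.comp continuous_fst
  have ev1 : ∀ᶠ x : (G → ℝ) × ℝ in 𝓝 ((0 : G → ℝ), (1 : ℝ)), IsUnit (P ρ l x.1) :=
    hPc.continuousAt.eventually (Units.isOpen.mem_nhds hP0)
  have hcd : ContDiffAt ℝ 1 (H ρ l k) ((0 : G → ℝ), (1 : ℝ)) := H_contDiffAt ρ l k _ hP0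
  have hfc : ContinuousAt (fderiv ℝ (H ρ l k)) ((0 : G → ℝ), (1 : ℝ)) :=
    (hcd.fderiv_right (m := 0) (by norm_num)).continuousAt
  have hfe : fderiv ℝ (H ρ l k) ((0 : G → ℝ), (1 : ℝ)) = T := hTd.fderiv
  have ev2 : ∀ᶠ x : (G → ℝ) × ℝ in 𝓝 ((0 : G → ℝ), (1 : ℝ)),
      IsUnit ((fderiv ℝ (H ρ l k) x).comp R') := by
    have hc : ContinuousAt (fun x => (fderiv ℝ (H ρ l k) x).comp R') ((0 : G → ℝ), (1 : ℝ)) :=
      hfc.clm_comp continuousAt_const
    refine hc.eventually (Units.isOpen.mem_nhds ?_)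
    show IsUnit ((fderiv ℝ (H ρ l k) ((0 : G → ℝ), (1 : ℝ))).comp R')
    rw [hfe, hTR]
    exact isUnit_one
  -- choose a point with positive coordinates
  have hline : Filter.Tendsto (fun t : ℝ => ((fun _ : G => t), (1 : ℝ))) (𝓝[>] 0)
      (𝓝 ((0 : G → ℝ), (1 : ℝ))) := by
    have h1 : Continuous fun t : ℝ => ((fun _ : G => t), (1 : ℝ)) := by fun_prop
    have h2 := h1.tendsto 0
    exact h2.mono_left nhdsWithin_le_nhds
  have ev3 : ∀ᶠ t : ℝ in 𝓝[>] 0, 0 < t ∧ t < 1 := Ioo_mem_nhdsGT one_pos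
  obtain ⟨t, ⟨ht1, ht2⟩, ht3, ht4⟩ := ((hline.eventually (ev1.and ev2)).and ev3).exists
  set x₀ : (G → ℝ) × ℝ := ((fun _ : G => t), (1 : ℝ)) with hx₀
  have hstrict := (H_contDiffAt ρ l k x₀ ht1).hasStrictFDerivAt one_ne_zero
  have hsurj : (fderiv ℝ (H ρ l k) x₀).range = ⊤ := by
    rw [eq_top_iff]
    intro v _
    obtain ⟨u, hu⟩ := ht2
    refine ⟨R' ((↑u⁻¹ : M →L[ℝ] M) v), ?_⟩
    have h1 : ((u : M →L[ℝ] M) * (↑u⁻¹ : M →L[ℝ] M)) v = v := by rw [Units.mul_inv]; rfl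
    rw [hu] at h1
    exact h1
  have hmap := hstrict.map_nhds_eq_of_surj hsurj
  have hN : {x : (G → ℝ) × ℝ | IsUnit (P ρ l x.1) ∧ ∀ g, 0 ≤ x.1 g ∧ x.1 g ≤ 1} ∈ 𝓝 x₀ := by
    have h1 : ∀ᶠ x : (G → ℝ) × ℝ in 𝓝 x₀, IsUnit (P ρ l x.1) :=
      hPc.continuousAt.eventually (Units.isOpen.mem_nhds ht1)
    have h2 : ∀ᶠ x : (G → ℝ) × ℝ in 𝓝 x₀, ∀ g, 0 ≤ x.1 g ∧ x.1 g ≤ 1 := by
      rw [Filter.eventually_all]
      intro g
      have h3 : ContinuousAt (fun x : (G → ℝ) × ℝ => x.1 g) x₀ := by fun_prop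
      exact h3.eventually (Icc_mem_nhds ht3 ht4)
    exact h1.and h2
  refine ⟨H ρ l k x₀, H ρ l k '' {x : (G → ℝ) × ℝ | IsUnit (P ρ l x.1) ∧
    ∀ g, 0 ≤ x.1 g ∧ x.1 g ≤ 1}, ?_, ?_⟩
  · rw [← hmap]
    exact Filter.image_mem_map hN
  · rintro _ ⟨x, ⟨hx1, hx2⟩, rfl⟩
    refine ⟨P ρ l x.1, P_mem ρ l x.1 hx2, x.2, ?_⟩
    have h1 : (P ρ l x.1 * Ring.inverse (P ρ l x.1)) k = k := by
      rw [Ring.mul_inverse_cancel _ hx1]
      rfl
    simp only [H, map_smul]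
    congr 1

/-- **Steering.** In an irreducible nontrivial representation every vector can be steered to the
line of any nonzero vector `k`. -/
theorem steer (ρ : G →* (M →L[ℝ] M))
    (hirr : ∀ v : M, v ≠ 0 → Submodule.span ℝ (Set.range fun g => ρ g v) = ⊤)
    (hsum : ∀ v : M, ∑ g, ρ g v = 0) (k : M) (hk : k ≠ 0) (z : M) :
    ∃ s ∈ S ρ, ∃ c : ℝ, s z = c • k := by
  by_cases hz : z = 0
  · exact ⟨1, (S ρ).one_mem, 0, by simp [hz]⟩
  obtain ⟨v₀, U, hU, hU2⟩ := exists_open ρ k (hirr k hk)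
  have hd := dense_reach ρ hirr hsum z hz
  have hv : v₀ ∈ closure {v : M | ∃ s ∈ S ρ, ∃ c : ℝ, 0 < c ∧ v = c • s z} := by
    rw [hd]; trivial
  rw [mem_closure_iff_nhds] at hv
  obtain ⟨v, hvU, s, hs, c, hc, rfl⟩ := hv U hU
  obtain ⟨s', hs', c', hc'⟩ := hU2 _ hvU
  refine ⟨s' * s, (S ρ).mul_mem hs' hs, c⁻¹ * c', ?_⟩
  have h1 : s' (s z) = c⁻¹ • (c' • k) := by
    rw [← hc', map_smul, smul_smul, inv_mul_cancel₀ hc.ne', one_smul]
  rw [smul_smul] at h1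
  exact h1

end Pool.Agent.R679.Mix
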