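import Pool.Agent.R679.Mix2

/-!
The kernel argument: for a group without nontrivial quotients of odd order some product of
Bernoulli factors vanishes on the vectors with zero average.
-/

set_option autoImplicit false

open scoped InnerProductSpace Topology

namespace Pool.Agent.R679.Mix

variable {G : Type*} [Group G] [Fintype G]
variable {E : Type*} [NormedAddCommGroup E] [InnerProductSpace ℝ E] [FiniteDimensional ℝ E]

/-- the restriction of a representation to an invariant subspace -/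
noncomputable def restr (L : G →* (E →L[ℝ] E)) (M : Submodule ℝ E)
    (hM : ∀ g, ∀ m ∈ M, L g m ∈ M) : G →* (M →L[ℝ] M) where
  toFun g := ((L g).comp M.subtypeL).codRestrict M (fun m => hM g m m.2)
  map_one' := by
    ext m
    simp
  map_mul' g h := by
    ext m
    simp

theorem restr_apply (L : G →* (E →L[ℝ] E)) (M : Submodule ℝ E)
    (hM : ∀ g, ∀ m ∈ M, L g m ∈ M) (g : G) (m : M) : (restr L M hM g m : E) = L g m := rfl

theorem S_preserves (L : G →* (E →L[ℝ] E)) (M : Submodule ℝ E)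
    (hM : ∀ g, ∀ m ∈ M, L g m ∈ M) {X : E →L[ℝ] E} (hX : X ∈ S L) : ∀ m ∈ M, X m ∈ M := by
  induction hX using Submonoid.closure_induction with
  | mem x hx =>
    obtain ⟨p, g, _, _, rfl⟩ := hx
    intro m hm
    rw [fac_apply]
    exact M.add_mem hm (M.smul_mem _ (M.sub_mem (hM g m hm) hm))
  | one => intro m hm; exact hm
  | mul x y _ _ hx hy => intro m hm; exact hx _ (hy m hm)

theorem S_lift (L : G →* (E →L[ℝ] E)) (M : Submodule ℝ E)
    (hM : ∀ g, ∀ m ∈ M, L g m ∈ M) {s : M →L[ℝ] M} (hs : s ∈ S (restr L M hM)) :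
    ∃ s' ∈ S L, ∀ m : M, s' m = (s m : E) := by
  induction hs using Submonoid.closure_induction with
  | mem x hx =>
    obtain ⟨p, g, h0, h1, rfl⟩ := hx
    refine ⟨fac L p g, fac_mem L h0 h1 g, fun m => ?_⟩
    rw [fac_apply, fac_apply]
    simp [restr_apply]
  | one => exact ⟨1, (S L).one_mem, fun m => rfl⟩
  | mul x y _ _ hx hy =>
    obtain ⟨x', hx', hx2⟩ := hx
    obtain ⟨y', hy', hy2⟩ := hy
    refine ⟨x' * y', (S L).mul_mem hx' hy', fun m => ?_⟩
    show x' (y' m) = _
    rw [hy2, hx2]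
    rfl

/-- a `2`-element acting as `-1` on some vector -/
theorem exists_neg (hG : ∀ N : Subgroup G, N.Normal → Odd N.index → N = ⊤)
    {M : Type*} [NormedAddCommGroup M] [InnerProductSpace ℝ M] [FiniteDimensional ℝ M]
    (ρ : G →* (M →L[ℝ] M)) (hsum : ∀ v : M, ∑ g, ρ g v = 0) (w : M) (hw : w ≠ 0) :
    ∃ g, ∃ k : M, k ≠ 0 ∧ ρ g k = -k := by
  have hker : ρ.ker ≠ ⊤ := by
    intro h
    have h1 := hsum w
    have h2 : ∀ g, ρ g w = w := by
      intro g
      have h3 : g ∈ ρ.ker := by rw [h]; trivial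
      rw [MonoidHom.mem_ker] at h3
      rw [h3]
      rfl
    simp only [h2, Finset.sum_const, Finset.card_univ] at h1
    have h4 : (Fintype.card G : ℝ) • w = 0 := by
      rw [Nat.cast_smul_eq_nsmul]
      exact h1
    rcases smul_eq_zero.1 h4 with h5 | h5
    · have : (Fintype.card G : ℝ) ≠ 0 := Nat.cast_ne_zero.2 Fintype.card_ne_zero
      exact this h5
    · exact hw h5
  have hodd : ¬ Odd ρ.ker.index := fun h => hker (hG _ inferInstance h)
  rw [Nat.not_odd_iff_even, even_iff_two_dvd] at hodd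
  rw [Subgroup.index] at hodd
  obtain ⟨x, hx⟩ := exists_prime_orderOf_dvd_card' 2 hodd
  obtain ⟨g, rfl⟩ := QuotientGroup.mk_surjective x
  have hg1 : g ∉ ρ.ker := by
    intro h
    have : ((g : G ⧸ ρ.ker)) = 1 := (QuotientGroup.eq_one_iff g).2 h
    rw [this, orderOf_one] at hx
    norm_num at hx
  have hg2 : g * g ∈ ρ.ker := by
    rw [← QuotientGroup.eq_one_iff]
    have := pow_orderOf_eq_one (g : G ⧸ ρ.ker)
    rw [hx, pow_two] at this
    exact this
  have hg3 : ∃ m, ρ g m ≠ m := by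
    by_contra h
    push Not at h
    apply hg1
    rw [MonoidHom.mem_ker]
    ext m
    exact h m
  obtain ⟨m, hm⟩ := hg3
  refine ⟨g, m - ρ g m, sub_ne_zero.2 (Ne.symm hm), ?_⟩
  rw [map_sub]
  have h1 : ρ g (ρ g m) = m := by
    have : (ρ g * ρ g) m = m := by
      rw [← map_mul, MonoidHom.mem_ker.1 hg2]
      rfl
    exact this
  rw [h1]
  abel

theorem improve (hG : ∀ N : Subgroup G, N.Normal → Odd N.index → N = ⊤)
    (L : G →* (E →L[ℝ] E)) (hL : ∀ g x y, ⟪L g x, L g y⟫_ℝ = ⟪x, y⟫_ℝ)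
    (X : E →L[ℝ] E) (hX : X ∈ S L) (v : E) (hv : ∑ g, L g v = 0) (hXv : X v ≠ 0) :
    ∃ X' ∈ S L, Module.finrank ℝ (X : E →ₗ[ℝ] E).ker < Module.finrank ℝ (X' : E →ₗ[ℝ] E).ker := by
  classical
  -- the vectors with zero average
  let Δ : Submodule ℝ E := LinearMap.ker (∑ g, ((L g : E →L[ℝ] E) : E →ₗ[ℝ] E))
  have hΔ : ∀ x, x ∈ Δ ↔ ∑ g, L g x = 0 := by
    intro x
    simp [Δ, LinearMap.mem_ker]
  have hΔinv : ∀ g, ∀ m ∈ Δ, L g m ∈ Δ := by
    intro g m hm
    rw [hΔ] at hm ⊢
    have h1 : ∑ h, L h (L g m) = ∑ h, L (h * g) m := by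
      apply Finset.sum_congr rfl
      intro h _
      rw [map_mul]
      rfl
    rw [h1]
    rw [← hm]
    exact Fintype.sum_equiv (Equiv.mulRight g) _ _ (fun h => rfl)
  -- minimal invariant subspace on which X does not vanish
  let Q : ℕ → Prop := fun n => ∃ M : Submodule ℝ E, (∀ g, ∀ m ∈ M, L g m ∈ M) ∧ M ≤ Δ ∧
    Module.finrank ℝ M = n ∧ ∃ w ∈ M, X w ≠ 0
  have hQ : ∃ n, Q n := ⟨_, Δ, hΔinv, le_rfl, rfl, v, (hΔ v).2 hv, hXv⟩
  obtain ⟨M, hMinv, hMΔ, hMfin, w, hwM, hXw⟩ := Nat.find_spec hQ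
  have hmin : ∀ M' : Submodule ℝ E, (∀ g, ∀ m ∈ M', L g m ∈ M') → M' ≤ Δ →
      Module.finrank ℝ M' < Module.finrank ℝ M → ∀ w ∈ M', X w = 0 := by
    intro M' h1 h2 h3 w hw
    by_contra h4
    rw [hMfin] at h3
    exact Nat.find_min hQ h3 ⟨M', h1, h2, rfl, w, hw, h4⟩
  have hLinv : ∀ g x, L g⁻¹ (L g x) = x := by
    intro g x
    have : (L g⁻¹ * L g) x = x := by rw [← map_mul, inv_mul_cancel, map_one]; rfl
    exact this
  -- irreducibility
  have hspan : ∀ c ∈ M, c ≠ 0 → Submodule.span ℝ (Set.range fun g => L g c) = M := by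
    intro c hc hc0
    set W : Submodule ℝ E := Submodule.span ℝ (Set.range fun g => L g c) with hW
    have hWM : W ≤ M := by
      rw [hW, Submodule.span_le]
      rintro _ ⟨g, rfl⟩
      exact hMinv g c hc
    have hWinv : ∀ g, ∀ m ∈ W, L g m ∈ W := by
      intro g m hm
      rw [hW] at hm ⊢
      induction hm using Submodule.span_induction with
      | mem x hx =>
        obtain ⟨h, rfl⟩ := hx
        apply Submodule.subset_span
        refine ⟨g * h, ?_⟩
        show L (g * h) c = _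
        rw [map_mul]
        rfl
      | zero => rw [map_zero]; exact Submodule.zero_mem _
      | add x y _ _ hx hy => rw [map_add]; exact Submodule.add_mem _ hx hy
      | smul a x _ hx => rw [map_smul]; exact Submodule.smul_mem _ _ hx
    have hcW : c ∈ W := by
      apply Submodule.subset_span
      exact ⟨1, by simp⟩
    by_contra hne
    have hlt : W < M := lt_of_le_of_ne hWM hne
    have hX1 := hmin W hWinv (hWM.trans hMΔ) (Submodule.finrank_lt_finrank_of_lt hlt)
    have hW'inv : ∀ g, ∀ m ∈ Wᗮ ⊓ M, L g m ∈ Wᗮ ⊓ M := by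
      intro g m hm
      refine ⟨(Submodule.mem_orthogonal _ _).2 ?_, hMinv g m hm.2⟩
      intro u hu
      have h1 : u = L g (L g⁻¹ u) := by
        have : (L g * L g⁻¹) u = u := by rw [← map_mul, mul_inv_cancel, map_one]; rfl
        exact this.symm
      rw [h1, hL]
      exact (Submodule.mem_orthogonal _ _).1 hm.1 _ (hWinv g⁻¹ u hu)
    have hlt' : Wᗮ ⊓ M < M := by
      refine lt_of_le_of_ne inf_le_right ?_
      intro h
      have h1 : c ∈ Wᗮ ⊓ M := by rw [h]; exact hc
      have h2 := (Submodule.mem_orthogonal _ _).1 h1.1 c hcW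
      exact hc0 (inner_self_eq_zero.1 h2)
    have hX2 := hmin (Wᗮ ⊓ M) hW'inv (inf_le_right.trans hMΔ)
      (Submodule.finrank_lt_finrank_of_lt hlt')
    obtain ⟨a, ha, b, hb, hab⟩ := W.exists_add_mem_mem_orthogonal w
    have hbM : b ∈ Wᗮ ⊓ M := by
      refine ⟨hb, ?_⟩
      have : b = w - a := by rw [hab]; abel
      rw [this]
      exact M.sub_mem hwM (hWM ha)
    apply hXw
    rw [hab, map_add, hX1 a ha, hX2 b hbM, add_zero]
  -- the representation on M
  set ρ := restr L M hMinv with hρ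
  have hsum : ∀ v : M, ∑ g, ρ g v = 0 := by
    intro u
    apply Subtype.ext
    have h1 := (hΔ u).1 (hMΔ u.2)
    rw [Submodule.coe_sum, Submodule.coe_zero]
    exact h1
  have hirr : ∀ u : M, u ≠ 0 → Submodule.span ℝ (Set.range fun g => ρ g u) = ⊤ := by
    intro u hu
    have h1 := hspan u u.2 (fun h => hu (Subtype.ext h))
    have h2 : (Submodule.span ℝ (Set.range fun g => ρ g u)).map M.subtype = M := by
      rw [Submodule.map_span, ← Set.range_comp]
      exact h1
    rw [eq_top_iff]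
    intro y _
    have h3 : (y : E) ∈ (Submodule.span ℝ (Set.range fun g => ρ g u)).map M.subtype := by
      rw [h2]; exact y.2
    obtain ⟨y', hy', hy2⟩ := h3
    have : y' = y := Subtype.ext hy2
    rwa [← this]
  have hw0 : (⟨w, hwM⟩ : M) ≠ 0 := by
    intro h
    apply hXw
    have : w = 0 := congrArg Subtype.val h
    rw [this, map_zero]
  obtain ⟨g, k, hk0, hgk⟩ := exists_neg hG ρ hsum ⟨w, hwM⟩ hw0
  have hXwM : X w ∈ M := S_preserves L M hMinv hX w hwM
  obtain ⟨s, hs, c, hc⟩ := steer ρ hirr hsum k hk0 ⟨X w, hXwM⟩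
  obtain ⟨s', hs', hs2⟩ := S_lift L M hMinv hs
  have hmem : fac L (1/2) g * (s' * X) ∈ S L :=
    (S L).mul_mem (fac_mem L (by norm_num) (by norm_num) g) ((S L).mul_mem hs' hX)
  refine ⟨fac L (1/2) g * (s' * X), hmem, ?_⟩
  apply Submodule.finrank_lt_finrank_of_lt
  refine lt_of_le_of_ne ?_ ?_
  · intro x hx
    rw [LinearMap.mem_ker] at hx ⊢
    show (fac L (1/2) g) (s' (X x)) = 0
    have : X x = 0 := hx
    rw [this, map_zero, map_zero]
  · intro h
    have h1 : w ∈ (((fac L (1/2) g * (s' * X) : E →L[ℝ] E)) : E →ₗ[ℝ] E).ker := by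
      rw [LinearMap.mem_ker]
      show (fac L (1/2) g) (s' (X w)) = 0
      have h2 : s' (X w) = c • (k : E) := by
        have := hs2 ⟨X w, hXwM⟩
        rw [this, hc]
        rfl
      have h3 : L g (k : E) = -(k : E) := by
        have := congrArg Subtype.val hgk
        exact this
      rw [h2, fac_apply, map_smul, h3]
      module
    rw [← h] at h1
    exact hXw h1

/-- Some product of Bernoulli factors vanishes on all vectors with zero average. -/
theorem exists_kill (hG : ∀ N : Subgroup G, N.Normal → Odd N.index → N = ⊤)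
    (L : G →* (E →L[ℝ] E)) (hL : ∀ g x y, ⟪L g x, L g y⟫_ℝ = ⟪x, y⟫_ℝ) :
    ∃ X ∈ S L, ∀ v : E, ∑ g, L g v = 0 → X v = 0 := by
  by_contra hcon
  push Not at hcon
  have h : ∀ n : ℕ, ∃ X ∈ S L, n ≤ Module.finrank ℝ (X : E →ₗ[ℝ] E).ker := by
    intro n
    induction n with
    | zero => exact ⟨1, (S L).one_mem, Nat.zero_le _⟩
    | succ n ih =>
      obtain ⟨X, hX, hn⟩ := ih
      obtain ⟨v, hv, hXv⟩ := hcon X hX
      obtain ⟨X', hX', hlt⟩ := improve hG L hL X hX v hv hXv
      exact ⟨X', hX', by omega⟩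
  obtain ⟨X, _, hX⟩ := h (Module.finrank ℝ E + 1)
  have := Submodule.finrank_le (X : E →ₗ[ℝ] E).ker
  omega

end Pool.Agent.R679.Mix
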