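import Pool.Agent.R679.Mix3

/-!
The regular representation and random subproducts.
-/

set_option autoImplicit false

open scoped InnerProductSpace Topology

namespace Pool.Agent.R679.Mix

variable {G : Type*} [Group G] [Fintype G]

/-- the left regular representation on the real functions on `G` -/
noncomputable def reg (G : Type*) [Group G] [Fintype G] :
    G →* (EuclideanSpace ℝ G →L[ℝ] EuclideanSpace ℝ G) where
  toFun g := ((LinearIsometryEquiv.piLpCongrLeft 2 ℝ ℝ (Equiv.mulLeft g)).toContinuousLinearEquiv :
    EuclideanSpace ℝ G →L[ℝ] EuclideanSpace ℝ G)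
  map_one' := by
    ext f x
    simp [LinearIsometryEquiv.piLpCongrLeft_apply, Equiv.piCongrLeft'_apply]
    rfl
  map_mul' g h := by
    ext f x
    simp [LinearIsometryEquiv.piLpCongrLeft_apply, Equiv.piCongrLeft'_apply]
    rfl

theorem reg_apply (g : G) (f : EuclideanSpace ℝ G) (x : G) : reg G g f x = f (g⁻¹ * x) := by
  simp [reg, LinearIsometryEquiv.piLpCongrLeft_apply, Equiv.piCongrLeft'_apply]

theorem reg_inner (g : G) (x y : EuclideanSpace ℝ G) :
    ⟪reg G g x, reg G g y⟫_ℝ = ⟪x, y⟫_ℝ :=
  (LinearIsometryEquiv.piLpCongrLeft 2 ℝ ℝ (Equiv.mulLeft g)).inner_map_map x y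

open Classical in
theorem reg_single (g h : G) (c : ℝ) :
    reg G g (EuclideanSpace.single h c) = EuclideanSpace.single (g * h) c := by
  ext x
  rw [reg_apply]
  simp only [EuclideanSpace.single_apply]
  congr 1
  simp only [eq_iff_iff]
  constructor
  · intro h'
    rw [← h']
    group
  · intro h'
    rw [h']
    group

open Classical in
/-- the law of the random subproduct -/
theorem prod_single (k : ℕ) (g : Fin k → G) (p : Fin k → ℝ) (h : G) :
    (List.ofFn fun i => fac (reg G) (p i) (g i)).prod (EuclideanSpace.single h 1) =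
      ∑ ε : Fin k → Bool, (∏ i, (if ε i then p i else 1 - p i)) •
        EuclideanSpace.single ((List.ofFn fun i => if ε i then g i else 1).prod * h) (1 : ℝ) := by
  induction k with
  | zero => simp
  | succ k ih =>
    rw [List.ofFn_succ, List.prod_cons]
    show (fac (reg G) (p 0) (g 0))
      ((List.ofFn fun i => fac (reg G) (p (Fin.succ i)) (g (Fin.succ i))).prod
        (EuclideanSpace.single h 1)) = _
    rw [ih (fun i => g i.succ) (fun i => p i.succ), map_sum,
      ← (Fin.consEquiv (fun _ : Fin (k + 1) => Bool)).sum_comp, Fintype.sum_prod_type,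
      Fintype.sum_bool, ← Finset.sum_add_distrib]
    apply Finset.sum_congr rfl
    intro ε _
    rw [map_smul, fac_apply, reg_single]
    simp only [Fin.consEquiv_apply, Fin.prod_univ_succ, Fin.cons_zero, Fin.cons_succ,
      List.ofFn_succ, List.prod_cons, if_true, one_mul, mul_assoc, Bool.false_eq_true, if_false]
    module

open Classical in
theorem prod_single_apply (k : ℕ) (g : Fin k → G) (p : Fin k → ℝ) (h x : G) :
    (List.ofFn fun i => fac (reg G) (p i) (g i)).prod (EuclideanSpace.single h 1) x =
      ∑ ε : Fin k → Bool with (List.ofFn fun i => if ε i then g i else 1).prod = x * h⁻¹,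
        ∏ i, (if ε i then p i else 1 - p i) := by
  rw [prod_single, Finset.sum_filter]
  rw [WithLp.ofLp_sum, Finset.sum_apply]
  apply Finset.sum_congr rfl
  intro ε _
  simp only [PiLp.smul_apply, EuclideanSpace.single_apply, smul_eq_mul, mul_ite, mul_one, mul_zero]
  congr 1
  simp only [eq_iff_iff]
  constructor
  · intro h'
    rw [h']
    group
  · intro h'
    rw [h']
    group

end Pool.Agent.R679.Mix
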