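import Mathlib

set_option autoImplicit false

namespace Pool.Agent.R679.N300

open Finset

section solv

theorem solv_index3 {G : Type} [Group G] [Finite G] (P : Subgroup G) [Group.IsSolvable P]
    (h : P.index = 3) : Group.IsSolvable G := by
  have h1 : Nat.card (Equiv.Perm (G ⧸ P)) = 6 := by
    rw [Nat.card_perm]
    have : Nat.card (G ⧸ P) = 3 := h
    rw [this]
    rfl
  have h2 : IsZGroup (Equiv.Perm (G ⧸ P)) := by
    apply IsZGroup.of_squarefree
    rw [h1]
    have : (6 : ℕ) = 2 * 3 := rfl
    rw [this, Nat.squarefree_mul (by norm_num)]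
    exact ⟨Nat.prime_two.squarefree, Nat.prime_three.squarefree⟩
  have h3 : Group.IsSolvable (Equiv.Perm (G ⧸ P)) := inferInstance
  refine Group.isSolvable_of_ker_le_range P.subtype (MulAction.toPermHom G (G ⧸ P)) ?_
  rw [Subgroup.range_subtype]
  intro x hx
  rw [MonoidHom.mem_ker] at hx
  have h4 := congrArg (fun σ => σ ((1 : G) : G ⧸ P)) hx
  simp only [MulAction.toPermHom_apply, MulAction.toPerm_apply, Equiv.Perm.coe_one, id_eq,
    MulAction.Quotient.smul_mk, smul_eq_mul, mul_one] at h4
  have h5 := QuotientGroup.eq.1 h4.symm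
  simpa using h5

theorem solv_pgroup {G : Type} [Group G] [Finite G] {p : ℕ} [Fact p.Prime] (h : IsPGroup p G) :
    Group.IsSolvable G := by
  have := h.isNilpotent
  infer_instance

theorem solv12 {G : Type} [Group G] [Finite G] (h : Nat.card G = 12) : Group.IsSolvable G := by
  obtain ⟨P⟩ : Nonempty (Sylow 2 G) := inferInstance
  have h1 : Nat.card P = 4 := by
    rw [P.card_eq_multiplicity, h]
    have h0 : (12 : ℕ).factorization 2 = 2 := by
      have : (12 : ℕ) = 2 ^ 2 * 3 := rfl
      rw [this, Nat.factorization_mul (by norm_num) (by norm_num), Finsupp.add_apply,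
        Nat.Prime.factorization_pow Nat.prime_two, Finsupp.single_eq_same,
        Nat.factorization_eq_zero_of_not_dvd (by norm_num)]
    rw [h0]
    rfl
  have h2 : (P : Subgroup G).index = 3 := by
    have := (P : Subgroup G).card_mul_index
    rw [h1, h] at this
    omega
  have h3 : Group.IsSolvable P := solv_pgroup P.2
  exact solv_index3 (P : Subgroup G) h2

theorem solv_ext {G : Type} [Group G] (N : Subgroup G) [N.Normal] [Group.IsSolvable N]
    [Group.IsSolvable (G ⧸ N)] : Group.IsSolvable G :=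
  Group.isSolvable_of_ker_le_range N.subtype (QuotientGroup.mk' N) (by simp)

theorem fact_300_5 : (300 : ℕ).factorization 5 = 2 := by
  have : (300 : ℕ) = 5 ^ 2 * 12 := rfl
  rw [this, Nat.factorization_mul (by norm_num) (by norm_num), Finsupp.add_apply,
    Nat.Prime.factorization_pow Nat.prime_five, Finsupp.single_eq_same,
    Nat.factorization_eq_zero_of_not_dvd (by norm_num)]

theorem fact_300_3 : (300 : ℕ).factorization 3 = 1 := by
  have : (300 : ℕ) = 3 ^ 1 * 100 := rfl
  rw [this, Nat.factorization_mul (by norm_num) (by norm_num), Finsupp.add_apply,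
    Nat.Prime.factorization_pow Nat.prime_three, Finsupp.single_eq_same,
    Nat.factorization_eq_zero_of_not_dvd (by norm_num)]

theorem fact_100_5 : (100 : ℕ).factorization 5 = 2 := by
  have : (100 : ℕ) = 5 ^ 2 * 4 := rfl
  rw [this, Nat.factorization_mul (by norm_num) (by norm_num), Finsupp.add_apply,
    Nat.Prime.factorization_pow Nat.prime_five, Finsupp.single_eq_same,
    Nat.factorization_eq_zero_of_not_dvd (by norm_num)]

theorem solv100 {G : Type} [Group G] [Finite G] (h : Nat.card G = 100) : Group.IsSolvable G := by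
  haveI : Fact (Nat.Prime 5) := ⟨Nat.prime_five⟩
  obtain ⟨P⟩ : Nonempty (Sylow 5 G) := inferInstance
  have h1 : Nat.card P = 25 := by
    rw [P.card_eq_multiplicity, h, fact_100_5]
    rfl
  have h2 : (P : Subgroup G).index = 4 := by
    have := (P : Subgroup G).card_mul_index
    rw [h1, h] at this
    omega
  have h3 : Nat.card (Sylow 5 G) = 1 := by
    have e1 := P.card_dvd_index
    rw [h2] at e1
    have e2 := card_sylow_modEq_one 5 G
    have e3 : Nat.card (Sylow 5 G) ≤ 4 := Nat.le_of_dvd (by norm_num) e1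
    unfold Nat.ModEq at e2
    omega
  have h4 : Subsingleton (Sylow 5 G) := (Nat.card_eq_one_iff_unique.1 h3).1
  have h5 : (P : Subgroup G).Normal := P.normal_of_subsingleton
  have h6 : Group.IsSolvable P := solv_pgroup P.2
  have h7 : Nat.card (G ⧸ (P : Subgroup G)) = 4 := h2
  have h8 : IsPGroup 2 (G ⧸ (P : Subgroup G)) := IsPGroup.of_card (n := 2) (by rw [h7]; rfl)
  have h9 := solv_pgroup h8
  exact solv_ext (P : Subgroup G)

end solv

section main

variable {G : Type} [Group G] [Finite G]

theorem index_P (hG : Nat.card G = 300) [Fact (Nat.Prime 5)] (P : Sylow 5 G) :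
    Nat.card P = 25 ∧ (P : Subgroup G).index = 12 := by
  have h1 : Nat.card P = 25 := by
    rw [P.card_eq_multiplicity, hG, fact_300_5]
    rfl
  refine ⟨h1, ?_⟩
  have := (P : Subgroup G).card_mul_index
  rw [h1, hG] at this
  omega

theorem n5 (hG : Nat.card G = 300) (hns : ¬ Group.IsSolvable G) [Fact (Nat.Prime 5)] :
    Nat.card (Sylow 5 G) = 6 := by
  obtain ⟨P⟩ : Nonempty (Sylow 5 G) := inferInstance
  obtain ⟨h1, h2⟩ := index_P hG P
  have e1 := P.card_dvd_index
  rw [h2] at e1
  have e2 := card_sylow_modEq_one 5 G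
  have e3 : Nat.card (Sylow 5 G) ≤ 12 := Nat.le_of_dvd (by norm_num) e1
  unfold Nat.ModEq at e2
  by_contra hne
  have h3 : Nat.card (Sylow 5 G) = 1 := by
    have h0 : 0 < Nat.card (Sylow 5 G) := Nat.card_pos
    have : Nat.card (Sylow 5 G) ≠ 11 := by
      intro h
      rw [h] at e1
      norm_num at e1
    omega
  apply hns
  have h4 : Subsingleton (Sylow 5 G) := (Nat.card_eq_one_iff_unique.1 h3).1
  have h5 : (P : Subgroup G).Normal := P.normal_of_subsingleton
  have h6 : Group.IsSolvable P := solv_pgroup P.2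
  have h7 : Nat.card (G ⧸ (P : Subgroup G)) = 12 := h2
  have h9 := solv12 h7
  exact solv_ext (P : Subgroup G)

/-- the intersection of the Sylow 5-subgroups is not trivial -/
theorem exists_C (hG : Nat.card G = 300) (hns : ¬ Group.IsSolvable G) [Fact (Nat.Prime 5)] :
    ∃ C : Subgroup G, C.Normal ∧ Nat.card C = 5 ∧ ∀ P : Sylow 5 G, C ≤ P := by
  have h6 := n5 hG hns
  let φ := MulAction.toPermHom G (Sylow 5 G)
  have hperm : Nat.card (Equiv.Perm (Sylow 5 G)) = 720 := by
    rw [Nat.card_perm, h6]
    rfl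
  have hr : Nat.card φ.range ∣ 720 := by
    rw [← hperm]
    exact Subgroup.card_subgroup_dvd_card _
  have hk : Nat.card φ.range * Nat.card φ.ker = 300 := by
    rw [← hG, ← Subgroup.index_ker, mul_comm]
    exact φ.ker.card_mul_index
  have h5 : 5 ∣ Nat.card φ.ker := by
    by_contra hcon
    have hcop : Nat.Coprime (5 ^ 2) (Nat.card φ.ker) :=
      Nat.Coprime.pow_left 2 ((Nat.Prime.coprime_iff_not_dvd Nat.prime_five).2 hcon)
    have h25 : 5 ^ 2 ∣ Nat.card φ.range * Nat.card φ.ker := by
      rw [hk]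
      norm_num
    have h25' := hcop.dvd_of_dvd_mul_right h25
    have := h25'.trans hr
    norm_num at this
  obtain ⟨q, hq⟩ := exists_prime_orderOf_dvd_card' 5 h5
  -- the element `q` lies in all Sylow 5-subgroups
  have hqP : ∀ P : Sylow 5 G, (q : G) ∈ P := by
    intro P
    have h1 : (q : G) ∈ Subgroup.normalizer (P : Set G) := by
      have h2 : φ q = 1 := q.2
      have h3 : φ (q : G) P = P := by rw [h2]; rfl
      have h4 : (q : G) • P = P := h3
      exact Sylow.smul_eq_iff_mem_normalizer.1 h4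
    have hpg : IsPGroup 5 (Subgroup.zpowers (q : G)) := by
      apply IsPGroup.of_card (n := 1)
      rw [Nat.card_zpowers, Subgroup.orderOf_coe, hq]
      rfl
    have h5 := hpg.inf_normalizer_sylow P
    have h6 : (q : G) ∈ Subgroup.zpowers (q : G) ⊓ Subgroup.normalizer (P : Set G) :=
      ⟨Subgroup.mem_zpowers _, h1⟩
    rw [h5] at h6
    exact h6.2
  obtain ⟨P⟩ : Nonempty (Sylow 5 G) := inferInstance
  set C := (P : Subgroup G).normalCore with hC
  have hCP : C ≤ P := Subgroup.normalCore_le _
  have hCn : C.Normal := Subgroup.normalCore_normal _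
  have hCall : ∀ Q : Sylow 5 G, C ≤ Q := by
    intro Q x hx
    obtain ⟨g, rfl⟩ := MulAction.exists_smul_eq G P Q
    change x ∈ ((g • P : Sylow 5 G) : Subgroup G)
    rw [Sylow.coe_subgroup_smul, Subgroup.mem_pointwise_smul_iff_inv_smul_mem]
    apply hCP
    have := hCn.conj_mem x hx g⁻¹
    simpa [MulAut.smul_def, ← map_inv] using this
  refine ⟨C, hCn, ?_, hCall⟩
  have hd : Nat.card C ∣ 5 ^ 2 := by
    have := Subgroup.card_dvd_of_le hCP
    rwa [(index_P hG P).1] at this
  obtain ⟨k, hk1, hk2⟩ := (Nat.dvd_prime_pow Nat.prime_five).1 hd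
  have hqC : (q : G) ∈ C := by
    rw [hC]
    intro g
    have h1 := hqP (g⁻¹ • P)
    change (q : G) ∈ ((g⁻¹ • P : Sylow 5 G) : Subgroup G) at h1
    rw [Sylow.coe_subgroup_smul, Subgroup.mem_pointwise_smul_iff_inv_smul_mem] at h1
    simpa [MulAut.smul_def, ← map_inv] using h1
  have hk0 : k ≠ 0 := by
    rintro rfl
    rw [pow_zero] at hk2
    have h1 : C = ⊥ := Subgroup.card_eq_one.1 hk2
    rw [h1, Subgroup.mem_bot] at hqC
    have h2 : q = 1 := Subtype.ext hqC
    rw [h2, orderOf_one] at hq
    norm_num at hq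
  have hk2' : k ≠ 2 := by
    rintro rfl
    have h1 : C = P := Subgroup.eq_of_le_of_card_ge hCP (by rw [hk2, (index_P hG P).1]; norm_num)
    have h2 : (P : Subgroup G).Normal := h1 ▸ hCn
    have h3 := Sylow.card_eq_index_normalizer P
    have h4 : Subgroup.normalizer (P : Set G) = ⊤ := Subgroup.normalizer_eq_top_iff.2 h2
    rw [h6, h4, Subgroup.index_top] at h3
    norm_num at h3
  have hk1' : k = 1 := by omega
  rw [hk2, hk1', pow_one]

theorem card_filter_mem [Fintype G] (H : Subgroup G) [DecidablePred (· ∈ H)] :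
    (univ.filter (fun x : G => x ∈ H)).card = Nat.card H := by
  rw [Nat.card_eq_fintype_card, Fintype.card_subtype]

open Classical in
/-- the elements of the Sylow 5-subgroups outside `C` -/
theorem card_S [Fintype G] (hG : Nat.card G = 300) (hns : ¬ Group.IsSolvable G)
    [Fact (Nat.Prime 5)] (C : Subgroup G) (hC : Nat.card C = 5) (hCP : ∀ P : Sylow 5 G, C ≤ P) :
    (univ.filter (fun x : G => x ∉ C ∧ ∃ P : Sylow 5 G, x ∈ P)).card = 120 := by
  set S := univ.filter (fun x : G => x ∉ C ∧ ∃ P : Sylow 5 G, x ∈ P) with hS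
  haveI := Fintype.ofFinite (Sylow 5 G)
  have h1 : S = (univ : Finset (Sylow 5 G)).biUnion
        (fun P => (univ.filter (fun x : G => x ∈ (P : Subgroup G))) \
          (univ.filter (fun x : G => x ∈ C))) := by
    ext x
    simp only [hS, mem_filter, mem_univ, true_and, mem_biUnion, mem_sdiff]
    constructor
    · rintro ⟨hx, P, hP⟩
      exact ⟨P, hP, hx⟩
    · rintro ⟨P, hP, hx⟩
      exact ⟨hx, P, hP⟩
  have hcard : ∀ P : Sylow 5 G, ((univ.filter (fun x : G => x ∈ (P : Subgroup G))) \
      (univ.filter (fun x : G => x ∈ C))).card = 20 := by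
    intro P
    rw [Finset.card_sdiff_of_subset, card_filter_mem, card_filter_mem, hC, (index_P hG P).1]
    intro x hx
    rw [mem_filter] at hx ⊢
    exact ⟨hx.1, hCP P hx.2⟩
  rw [h1, Finset.card_biUnion]
  · rw [Finset.sum_congr rfl (fun P _ => hcard P), Finset.sum_const, Finset.card_univ,
      ← Nat.card_eq_fintype_card, n5 hG hns]
    rfl
  · intro P _ Q _ hPQ
    rw [Function.onFun, Finset.disjoint_left]
    intro x hx hx'
    rw [mem_sdiff, mem_filter, mem_filter] at hx hx'
    have hPQC : (P : Subgroup G) ⊓ Q = C := by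
      have e1 : C ≤ (P : Subgroup G) ⊓ Q := le_inf (hCP P) (hCP Q)
      have e2 : Nat.card ((P : Subgroup G) ⊓ Q : Subgroup G) ∣ 5 ^ 2 := by
        have := Subgroup.card_dvd_of_le (inf_le_left : (P : Subgroup G) ⊓ Q ≤ P)
        rwa [(index_P hG P).1] at this
      obtain ⟨k, hk1, hk2⟩ := (Nat.dvd_prime_pow Nat.prime_five).1 e2
      have hk3 : k ≠ 2 := by
        rintro rfl
        have e3 : (P : Subgroup G) ⊓ Q = P := Subgroup.eq_of_le_of_card_ge inf_le_left
          (by rw [hk2, (index_P hG P).1]; norm_num)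
        have e4 : (P : Subgroup G) ≤ Q := inf_eq_left.1 e3
        have e5 : (P : Subgroup G) = Q := Subgroup.eq_of_le_of_card_ge e4
          (by rw [(index_P hG P).1, (index_P hG Q).1])
        exact hPQ (Sylow.ext e5)
      symm
      apply Subgroup.eq_of_le_of_card_ge e1
      rw [hk2, hC]
      calc 5 ^ k ≤ 5 ^ 1 := Nat.pow_le_pow_right (by norm_num) (by omega)
        _ = 5 := rfl
    apply hx.2
    refine ⟨mem_univ _, ?_⟩
    rw [← hPQC]
    exact ⟨hx.1.2, hx'.1.2⟩

open Classical in
/-- the number of the elements of the Sylow 5-subgroups -/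
theorem card_S' [Fintype G] (hG : Nat.card G = 300) (hns : ¬ Group.IsSolvable G)
    [Fact (Nat.Prime 5)] (C : Subgroup G) (hC : Nat.card C = 5) (hCP : ∀ P : Sylow 5 G, C ≤ P) :
    (univ.filter (fun x : G => ∃ P : Sylow 5 G, x ∈ P)).card = 125 := by
  have h1 : (univ.filter (fun x : G => ∃ P : Sylow 5 G, x ∈ P)) =
      (univ.filter (fun x : G => x ∈ C)) ∪
      (univ.filter (fun x : G => x ∉ C ∧ ∃ P : Sylow 5 G, x ∈ P)) := by
    ext x
    simp only [mem_filter, mem_univ, true_and, mem_union]
    constructor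
    · rintro hx
      by_cases h : x ∈ C
      · exact Or.inl h
      · exact Or.inr ⟨h, hx⟩
    · rintro (hx | hx)
      · obtain ⟨P⟩ : Nonempty (Sylow 5 G) := inferInstance
        exact ⟨P, hCP P hx⟩
      · exact hx.2
  rw [h1, Finset.card_union_of_disjoint, card_S hG hns C hC hCP, card_filter_mem, hC]
  rw [Finset.disjoint_filter]
  intro x _ hx hx'
  exact hx'.1 hx

theorem le_of_S (hG : Nat.card G = 300) (hns : ¬ Group.IsSolvable G)
    [Fact (Nat.Prime 5)] (C : Subgroup G) (hC : Nat.card C = 5) (hCP : ∀ P : Sylow 5 G, C ≤ P)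
    (Z : Subgroup G) (hZ : ∀ P : Sylow 5 G, (P : Subgroup G) ≤ Z) : 125 ≤ Nat.card Z := by
  classical
  haveI := Fintype.ofFinite G
  rw [← card_S' hG hns C hC hCP, ← card_filter_mem]
  apply Finset.card_le_card
  intro x hx
  rw [mem_filter] at hx ⊢
  obtain ⟨_, P, hP⟩ := hx
  exact ⟨mem_univ _, hZ P hP⟩

theorem central (hG : Nat.card G = 300) (hns : ¬ Group.IsSolvable G)
    [Fact (Nat.Prime 5)] (C : Subgroup G) (hCn : C.Normal) (hC : Nat.card C = 5)
    (hCP : ∀ P : Sylow 5 G, C ≤ P) : ∀ c ∈ C, ∀ g : G, g * c = c * g := by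
  set Z := Subgroup.centralizer (C : Set G) with hZ
  have hZn : Z.Normal := by
    rw [hZ]
    infer_instance
  have hPZ : ∀ P : Sylow 5 G, (P : Subgroup G) ≤ Z := by
    intro P x hx
    rw [hZ, Subgroup.mem_centralizer_iff]
    intro c hc
    have h1 : IsMulCommutative P := by
      apply IsPGroup.isMulCommutative_of_card_eq_prime_sq (p := 5)
      rw [(index_P hG P).1]
      rfl
    have h2 := h1.is_comm.comm (⟨c, hCP P hc⟩ : P) ⟨x, hx⟩
    exact congrArg Subtype.val h2
  have h125 := le_of_S hG hns C hC hCP Z hPZ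
  have hdvd : Nat.card Z * Z.index = 300 := by rw [← hG]; exact Z.card_mul_index
  have hi : Z.index ≤ 2 := by
    by_contra hcon
    push Not at hcon
    nlinarith
  have hi0 : Z.index ≠ 0 := by
    intro h
    rw [h] at hdvd
    omega
  have hi2 : Z.index ≠ 2 := by
    intro h2
    apply hns
    have hZc : Nat.card Z = 150 := by
      rw [h2] at hdvd
      omega
    have hCZ : C ≤ Z := by
      obtain ⟨P⟩ : Nonempty (Sylow 5 G) := inferInstance
      exact (hCP P).trans (hPZ P)
    have e1 : Nat.card (C.subgroupOf Z) = 5 := by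
      rw [← hC]
      exact Nat.card_congr (Subgroup.subgroupOfEquivOfLe hCZ).toEquiv
    have e2 : Nat.card (Z ⧸ C.subgroupOf Z) = 30 := by
      have := Subgroup.card_eq_card_quotient_mul_card_subgroup (C.subgroupOf Z)
      rw [e1, hZc] at this
      omega
    have e3 : IsZGroup (Z ⧸ C.subgroupOf Z) := by
      apply IsZGroup.of_squarefree
      rw [e2]
      have : (30 : ℕ) = 2 * (3 * 5) := rfl
      rw [this, Nat.squarefree_mul (by norm_num), Nat.squarefree_mul (by norm_num)]
      exact ⟨Nat.prime_two.squarefree, Nat.prime_three.squarefree, Nat.prime_five.squarefree⟩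
    have e4 : Group.IsSolvable (C.subgroupOf Z) := by
      apply solv_pgroup (p := 5)
      exact IsPGroup.of_card (n := 1) (by rw [e1]; rfl)
    have e5 : Group.IsSolvable (Z ⧸ C.subgroupOf Z) := inferInstance
    have e6 : Group.IsSolvable Z := solv_ext (C.subgroupOf Z)
    have e7 : Group.IsSolvable (G ⧸ Z) := by
      haveI : Fact (Nat.Prime 2) := ⟨Nat.prime_two⟩
      apply solv_pgroup (p := 2)
      apply IsPGroup.of_card (n := 1)
      have : Nat.card (G ⧸ Z) = 2 := h2
      rw [this]
      rfl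
    exact solv_ext Z
  have hi1 : Z.index = 1 := by omega
  have hZtop : Z = ⊤ := Subgroup.index_eq_one.1 hi1
  intro c hc g
  have h1 : g ∈ Z := by rw [hZtop]; trivial
  rw [hZ, Subgroup.mem_centralizer_iff] at h1
  exact (h1 c hc).symm

open Classical in
/-- the number of the 5-regular elements -/
theorem card_R [Fintype G] (hG : Nat.card G = 300) (hns : ¬ Group.IsSolvable G)
    [Fact (Nat.Prime 5)] (C : Subgroup G) (hCn : C.Normal) (hC : Nat.card C = 5)
    (hCP : ∀ P : Sylow 5 G, C ≤ P) :
    (univ.filter (fun x : G => x ^ 12 = 1)).card ≤ 36 := by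
  have hcen := central hG hns C hCn hC hCP
  have hC5 : ∀ c ∈ C, c ^ 5 = 1 := by
    intro c hc
    have h1 : (⟨c, hc⟩ : C) ^ Nat.card C = 1 := pow_card_eq_one'
    rw [hC] at h1
    exact congrArg Subtype.val h1
  set R := univ.filter (fun x : G => x ^ 12 = 1) with hR
  set CC := univ.filter (fun x : G => x ∈ C) with hCC
  set S := univ.filter (fun x : G => x ∉ C ∧ ∃ P : Sylow 5 G, x ∈ P) with hS
  have hCCc : CC.card = 5 := by rw [hCC, card_filter_mem, hC]
  have hinj : Set.InjOn (fun a : G × G => a.1 * a.2) (R ×ˢ CC : Finset (G × G)) := by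
    rintro ⟨x, c⟩ hx ⟨y, d⟩ hy hxy
    simp only [coe_product, Set.mem_prod, mem_coe, hR, hCC, mem_filter, mem_univ, true_and] at hx hy
    change x * c = y * d at hxy
    have h1 : ∀ x c : G, x ^ 12 = 1 → c ∈ C → (x * c) ^ 36 = c := by
      intro x c hx hc
      have hxc : Commute x c := hcen c hc x
      rw [hxc.mul_pow, show 36 = 12 * 3 from rfl, pow_mul, hx, one_pow, one_mul,
        show 12 * 3 = 5 * 7 + 1 from rfl, pow_add, pow_mul, hC5 c hc, one_pow, one_mul, pow_one]
    have h2 : c = d := by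
      rw [← h1 x c hx.1 hx.2, hxy, h1 y d hy.1 hy.2]
    subst h2
    have h3 : x = y := mul_right_cancel hxy
    rw [h3]
  have hdisj : Disjoint ((R ×ˢ CC).image (fun a : G × G => a.1 * a.2)) S := by
    rw [Finset.disjoint_left]
    rintro z hz hzS
    rw [mem_image] at hz
    obtain ⟨⟨x, c⟩, hxc, rfl⟩ := hz
    rw [mem_product] at hxc
    simp only [hR, hCC, mem_filter, mem_univ, true_and] at hxc
    simp only [hS, mem_filter, mem_univ, true_and] at hzS
    obtain ⟨hx, hc⟩ := hxc
    obtain ⟨hn, P, hP⟩ := hzS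
    have h1 : (x * c) ^ 25 = 1 := by
      have h1 : (⟨x * c, hP⟩ : P) ^ Nat.card P = 1 := pow_card_eq_one'
      rw [(index_P hG P).1] at h1
      exact congrArg Subtype.val h1
    have hcomm : Commute x c := hcen c hc x
    rw [hcomm.mul_pow, show 25 = 5 * 5 from rfl, pow_mul c, hC5 c hc, one_pow, mul_one] at h1
    have h2 : x = 1 := by
      have h3 : x ^ (12 * 2 + 1) = 1 := h1
      rw [pow_add, pow_mul, hx, one_pow, one_mul, pow_one] at h3
      exact h3
    rw [h2, one_mul] at hn
    exact hn hc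
  have h1 : ((R ×ˢ CC).image (fun a : G × G => a.1 * a.2)).card = R.card * 5 := by
    rw [Finset.card_image_of_injOn hinj, Finset.card_product, hCCc]
  have h2 : S.card = 120 := card_S hG hns C hC hCP
  have h3 : (((R ×ˢ CC).image (fun a : G × G => a.1 * a.2)) ∪ S).card ≤ 300 := by
    rw [← hG, Nat.card_eq_fintype_card]
    exact Finset.card_le_univ _
  rw [Finset.card_union_of_disjoint hdisj, h1, h2] at h3
  omega

theorem index_T (hG : Nat.card G = 300) [Fact (Nat.Prime 3)] (T : Sylow 3 G) :
    Nat.card T = 3 ∧ (T : Subgroup G).index = 100 := by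
  have h1 : Nat.card T = 3 := by
    rw [T.card_eq_multiplicity, hG, fact_300_3]
    rfl
  refine ⟨h1, ?_⟩
  have := (T : Subgroup G).card_mul_index
  rw [h1, hG] at this
  omega

theorem n3 (hG : Nat.card G = 300) (hns : ¬ Group.IsSolvable G) [Fact (Nat.Prime 3)] :
    5 ≤ Nat.card (Sylow 3 G) := by
  haveI : Fact (Nat.Prime 5) := ⟨Nat.prime_five⟩
  obtain ⟨C, hCn, hC, hCP⟩ := exists_C hG hns
  obtain ⟨T⟩ : Nonempty (Sylow 3 G) := inferInstance
  obtain ⟨h1, h2⟩ := index_T hG T
  have e2 := card_sylow_modEq_one 3 G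
  unfold Nat.ModEq at e2
  by_contra hcon
  push Not at hcon
  have h0 : 0 < Nat.card (Sylow 3 G) := Nat.card_pos
  have h14 : Nat.card (Sylow 3 G) = 1 ∨ Nat.card (Sylow 3 G) = 4 := by omega
  rcases h14 with h3 | h3
  · apply hns
    have h4 : Subsingleton (Sylow 3 G) := (Nat.card_eq_one_iff_unique.1 h3).1
    have h5 : (T : Subgroup G).Normal := T.normal_of_subsingleton
    have h6 : Group.IsSolvable T := solv_pgroup T.2
    have h7 : Nat.card (G ⧸ (T : Subgroup G)) = 100 := h2
    have h9 := solv100 h7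
    exact solv_ext (T : Subgroup G)
  · let φ := MulAction.toPermHom G (Sylow 3 G)
    have hperm : Nat.card (Equiv.Perm (Sylow 3 G)) = 24 := by
      rw [Nat.card_perm, h3]
      rfl
    have hP : ∀ P : Sylow 5 G, (P : Subgroup G) ≤ φ.ker := by
      intro P x hx
      rw [MonoidHom.mem_ker]
      have e1 : (φ x) ^ 24 = 1 := by
        rw [← hperm]
        exact pow_card_eq_one'
      have e3 : x ^ 25 = 1 := by
        have h1 : (⟨x, hx⟩ : P) ^ Nat.card P = 1 := pow_card_eq_one'
        rw [(index_P hG P).1] at h1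
        exact congrArg Subtype.val h1
      have e4 : (φ x) ^ (24 + 1) = 1 := by
        rw [← map_pow]
        change φ (x ^ 25) = 1
        rw [e3, map_one]
      rw [pow_add, e1, one_mul, pow_one] at e4
      exact e4
    have h125 := le_of_S hG hns C hC hCP φ.ker hP
    have hle : φ.ker ≤ Subgroup.normalizer (T : Set G) := by
      intro x hx
      have h2 : φ x = 1 := hx
      have h3 : φ x T = T := by rw [h2]; rfl
      have h4 : x • T = T := h3
      exact Sylow.smul_eq_iff_mem_normalizer.1 h4
    have h5 := Sylow.card_eq_index_normalizer T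
    have h6 := (Subgroup.normalizer (T : Set G)).card_mul_index
    rw [← h5, h3, hG] at h6
    have h7 : Nat.card φ.ker ≤ Nat.card (Subgroup.normalizer (T : Set G)) :=
      Subgroup.card_le_of_le hle
    omega

open Classical in
theorem card_three [Fintype G] (hG : Nat.card G = 300) (hns : ¬ Group.IsSolvable G) :
    10 ≤ (univ.filter (fun x : G => x ≠ 1 ∧ x ^ 3 = 1)).card := by
  haveI : Fact (Nat.Prime 3) := ⟨Nat.prime_three⟩
  haveI := Fintype.ofFinite (Sylow 3 G)
  have h0 := n3 hG hns
  have hT3 : ∀ T : Sylow 3 G, ∀ x ∈ T, x ^ 3 = 1 := by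
    intro T x hx
    have h1 : (⟨x, hx⟩ : T) ^ Nat.card T = 1 := pow_card_eq_one'
    rw [(index_T hG T).1] at h1
    exact congrArg Subtype.val h1
  have h1 : (univ : Finset (Sylow 3 G)).biUnion
        (fun T => (univ.filter (fun x : G => x ∈ (T : Subgroup G))).erase 1) ⊆
      (univ.filter (fun x : G => x ≠ 1 ∧ x ^ 3 = 1)) := by
    intro x hx
    rw [mem_biUnion] at hx
    obtain ⟨T, _, hx⟩ := hx
    rw [mem_erase, mem_filter] at hx
    rw [mem_filter]
    exact ⟨mem_univ _, hx.1, hT3 T x hx.2.2⟩
  refine le_trans ?_ (Finset.card_le_card h1)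
  rw [Finset.card_biUnion]
  · have hcard : ∀ T : Sylow 3 G,
        ((univ.filter (fun x : G => x ∈ (T : Subgroup G))).erase 1).card = 2 := by
      intro T
      rw [Finset.card_erase_of_mem, card_filter_mem, (index_T hG T).1]
      rw [mem_filter]
      exact ⟨mem_univ _, one_mem _⟩
    rw [Finset.sum_congr rfl (fun P _ => hcard P), Finset.sum_const, Finset.card_univ,
      ← Nat.card_eq_fintype_card, smul_eq_mul]
    omega
  · intro P _ Q _ hPQ
    rw [Function.onFun, Finset.disjoint_left]
    intro x hx hx'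
    rw [mem_erase, mem_filter] at hx hx'
    apply hPQ
    have key : ∀ P : Sylow 3 G, x ∈ (P : Subgroup G) → Subgroup.zpowers x = P := by
      intro P hxP
      apply Subgroup.eq_of_le_of_card_ge
      · rw [Subgroup.zpowers_le]
        exact hxP
      · rw [(index_T hG P).1, Nat.card_zpowers, orderOf_eq_prime (hT3 P x hxP) hx.1]
    exact Sylow.ext ((key P hx.2.2).symm.trans (key Q hx'.2.2))

end main

section final

variable {G : Type} [Group G] [Fintype G]

open Classical in
/-- counting elements of small order in a nonsolvable group of order 300 -/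
theorem counts (hG : Nat.card G = 300) (hns : ¬ Group.IsSolvable G) :
    (univ.filter (fun x : G => orderOf x ≤ 2)).card ≤ 26 ∧
    (univ.filter (fun x : G => orderOf x ≤ 4)).card ≤ 36 ∧
    (univ.filter (fun x : G => orderOf x ≤ 5)).card ≤ 161 := by
  haveI : Fact (Nat.Prime 5) := ⟨Nat.prime_five⟩
  haveI : Fact (Nat.Prime 3) := ⟨Nat.prime_three⟩
  obtain ⟨C, hCn, hC, hCP⟩ := exists_C hG hns
  have hR := card_R hG hns C hCn hC hCP
  have hS := card_S' hG hns C hC hCP
  have h3 := card_three hG hns
  have hsmall : ∀ x : G, orderOf x ≤ 4 → x ^ 12 = 1 := by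
    intro x hx
    have h0 := orderOf_pos x
    rw [← orderOf_dvd_iff_pow_eq_one]
    interval_cases orderOf x <;> norm_num
  refine ⟨?_, ?_, ?_⟩
  · have h1 : Disjoint (univ.filter (fun x : G => orderOf x ≤ 2))
        (univ.filter (fun x : G => x ≠ 1 ∧ x ^ 3 = 1)) := by
      rw [Finset.disjoint_filter]
      rintro x _ h1 ⟨h2, h3⟩
      rw [orderOf_eq_prime h3 h2] at h1
      omega
    have h2 : (univ.filter (fun x : G => orderOf x ≤ 2)) ∪
        (univ.filter (fun x : G => x ≠ 1 ∧ x ^ 3 = 1)) ⊆
        (univ.filter (fun x : G => x ^ 12 = 1)) := by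
      intro x hx
      rw [mem_union, mem_filter, mem_filter] at hx
      rw [mem_filter]
      refine ⟨mem_univ _, ?_⟩
      rcases hx with ⟨_, hx⟩ | ⟨_, _, hx⟩
      · exact hsmall x (by omega)
      · rw [show 12 = 3 * 4 from rfl, pow_mul, hx, one_pow]
    have h4 := Finset.card_le_card h2
    rw [Finset.card_union_of_disjoint h1] at h4
    omega
  · refine le_trans (Finset.card_le_card ?_) hR
    intro x hx
    rw [mem_filter] at hx ⊢
    exact ⟨mem_univ _, hsmall x hx.2⟩
  · have h1 : (univ.filter (fun x : G => orderOf x ≤ 5)) ⊆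
        (univ.filter (fun x : G => x ^ 12 = 1)) ∪
        (univ.filter (fun x : G => ∃ P : Sylow 5 G, x ∈ P)) := by
      intro x hx
      rw [mem_filter] at hx
      rw [mem_union, mem_filter, mem_filter]
      rcases Nat.lt_or_ge (orderOf x) 5 with h | h
      · exact Or.inl ⟨mem_univ _, hsmall x (by omega)⟩
      · right
        refine ⟨mem_univ _, ?_⟩
        have h5 : orderOf x = 5 := by omega
        have hpg : IsPGroup 5 (Subgroup.zpowers x) := by
          apply IsPGroup.of_card (n := 1)
          rw [Nat.card_zpowers, h5]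
          rfl
        obtain ⟨P, hP⟩ := hpg.exists_le_sylow
        exact ⟨P, hP (Subgroup.mem_zpowers x)⟩
    have h2 := (Finset.card_le_card h1).trans (Finset.card_union_le _ _)
    omega

end final

end Pool.Agent.R679.N300
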