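import Mathlib

set_option autoImplicit false

namespace Pool.Agent.R679.Psi

open Finset

/-- pairs `u + v ζ` over `ℤ / 27`, `ζ` a primitive cube root of unity -/
abbrev B : Type := ZMod 27 × ZMod 27

/-- multiplication by `ζ ^ e` -/
def T (e : ZMod 3) (b : B) : B :=
  if e = 0 then b else if e = 1 then (-b.2, b.1 - b.2) else (b.2 - b.1, -b.1)

theorem T_zero (b : B) : T 0 b = b := rfl

theorem T_T : ∀ (e f : ZMod 3) (b : B), T e (T f b) = T (e + f) b := by
  decide +kernel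

theorem T_add (e : ZMod 3) (b c : B) : T e (b + c) = T e b + T e c := by
  unfold T
  split_ifs
  · rfl
  · ext
    · simp
      ring
    · simp
      ring
  · ext
    · simp
      ring
    · simp
      ring

/-- the reduction modulo 3 -/
def ρ : ZMod 27 →+* ZMod 3 := ZMod.castHom (by norm_num) (ZMod 3)

/-- the residue modulo `ζ - 1` -/
def sm (b : B) : ZMod 3 := ρ b.1 + ρ b.2

theorem sm_T : ∀ (e : ZMod 3) (b : B), sm (T e b) = sm b := by
  decide +kernel

theorem fs_T : ∀ (e : ZMod 3) (b : B), sm b = 0 → ρ (T e b).1 = ρ b.1 := by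
  decide +kernel

theorem norm_T : ∀ (e : ZMod 3) (b : B), e ≠ 0 → b + T e b + T (e + e) b = 0 := by
  decide +kernel

theorem sm_add (b c : B) : sm (b + c) = sm b + sm c := by
  unfold sm
  rw [Prod.fst_add, Prod.snd_add, map_add, map_add]
  ring

/-- the semidirect product of `B` and the cyclic group of order 3 -/
@[ext]
structure P where
  /-- the element of `B` -/
  b : B
  /-- the exponent -/
  e : ZMod 3
  deriving DecidableEq, Fintype

namespace P

instance : Mul P := ⟨fun x y => ⟨x.b + T x.e y.b, x.e + y.e⟩⟩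
instance : One P := ⟨⟨0, 0⟩⟩
instance : Inv P := ⟨fun x => ⟨-(T (-x.e) x.b), -x.e⟩⟩

theorem mul_b (x y : P) : (x * y).b = x.b + T x.e y.b := rfl
theorem mul_e (x y : P) : (x * y).e = x.e + y.e := rfl
theorem one_b : (1 : P).b = 0 := rfl
theorem one_e : (1 : P).e = 0 := rfl
theorem inv_b (x : P) : (x⁻¹).b = -(T (-x.e) x.b) := rfl
theorem inv_e (x : P) : (x⁻¹).e = -x.e := rfl

theorem T_zero' (e : ZMod 3) : T e 0 = 0 := by
  unfold T
  split_ifs <;> simp

instance : Group P where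
  mul_assoc x y z := by
    apply P.ext
    · simp only [mul_b, mul_e, T_add, T_T, add_assoc]
    · simp only [mul_e, add_assoc]
  one_mul x := by
    apply P.ext
    · rw [mul_b, one_b, one_e, T_zero, zero_add]
    · rw [mul_e, one_e, zero_add]
  mul_one x := by
    apply P.ext
    · rw [mul_b, one_b, T_zero', add_zero]
    · rw [mul_e, one_e, add_zero]
  inv_mul_cancel x := by
    apply P.ext
    · rw [mul_b, inv_b, inv_e, one_b, neg_add_cancel]
    · rw [mul_e, inv_e, one_e, neg_add_cancel]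

theorem sm_mul (x y : P) : sm (x * y).b = sm x.b + sm y.b := by
  rw [mul_b, sm_add, sm_T]

theorem fs_mul (x y : P) (hy : sm y.b = 0) : ρ (x * y).b.1 = ρ x.b.1 + ρ y.b.1 := by
  rw [mul_b, Prod.fst_add, map_add, fs_T _ _ hy]

theorem cube (x : P) (hx : x.e ≠ 0) : x ^ 3 = 1 := by
  have h3 : x.e + x.e + x.e = 0 := by
    have : ∀ e : ZMod 3, e + e + e = 0 := by decide
    exact this _
  rw [pow_succ, pow_two]
  apply P.ext
  · rw [mul_b, mul_b, mul_e]
    exact norm_T _ _ hx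
  · rw [mul_e, mul_e]
    exact h3

theorem pow_of_zero (x : P) (hx : x.e = 0) (n : ℕ) : (x ^ n).b = n • x.b ∧ (x ^ n).e = 0 := by
  induction n with
  | zero => exact ⟨by rw [pow_zero, zero_smul]; rfl, rfl⟩
  | succ n ih =>
    rw [pow_succ]
    refine ⟨?_, ?_⟩
    · rw [mul_b, ih.1, ih.2, T_zero, succ_nsmul]
    · rw [mul_e, ih.2, hx, add_zero]

theorem pow_eq_one_iff (x : P) (hx : x.e = 0) (n : ℕ) : x ^ n = 1 ↔ n • x.b = 0 := by
  have h := pow_of_zero x hx n
  constructor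
  · intro h1
    rw [h1] at h
    exact h.1.symm
  · intro h1
    apply P.ext
    · rw [h.1, h1]
      rfl
    · rw [h.2]
      rfl

end P

/-- the membership condition -/
def Mem (q : P × P × P) : Prop :=
  sm q.2.1.b = 0 ∧ sm q.2.2.b = 0 ∧ ρ q.2.1.b.1 = sm q.1.b ∧ ρ q.2.2.b.1 = sm q.1.b ∧
    q.2.1.e = q.1.e - sm q.1.b ∧ q.2.2.e = q.1.e - 2 * sm q.1.b

/-- the group of order `3 ^ 15` -/
def H : Subgroup (P × P × P) where
  carrier := {q | Mem q}
  one_mem' := by
    refine ⟨?_, ?_, ?_, ?_, ?_, ?_⟩ <;> decide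
  mul_mem' := by
    rintro q r ⟨a1, a2, a3, a4, a5, a6⟩ ⟨b1, b2, b3, b4, b5, b6⟩
    refine ⟨?_, ?_, ?_, ?_, ?_, ?_⟩
    · change sm (q.2.1 * r.2.1).b = 0
      rw [P.sm_mul, a1, b1, add_zero]
    · change sm (q.2.2 * r.2.2).b = 0
      rw [P.sm_mul, a2, b2, add_zero]
    · change ρ (q.2.1 * r.2.1).b.1 = sm (q.1 * r.1).b
      rw [P.fs_mul _ _ b1, P.sm_mul, a3, b3]
    · change ρ (q.2.2 * r.2.2).b.1 = sm (q.1 * r.1).b
      rw [P.fs_mul _ _ b2, P.sm_mul, a4, b4]
    · change (q.2.1 * r.2.1).e = (q.1 * r.1).e - sm (q.1 * r.1).b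
      rw [P.mul_e, P.mul_e, P.sm_mul, a5, b5]
      ring
    · change (q.2.2 * r.2.2).e = (q.1 * r.1).e - 2 * sm (q.1 * r.1).b
      rw [P.mul_e, P.mul_e, P.sm_mul, a6, b6]
      ring
  inv_mem' := by
    rintro q ⟨a1, a2, a3, a4, a5, a6⟩
    have hs : ∀ x : P, sm (x⁻¹).b = -sm x.b := by
      intro x
      have h := P.sm_mul x⁻¹ x
      rw [inv_mul_cancel] at h
      have h0 : sm (1 : P).b = 0 := by decide
      rw [h0] at h
      linear_combination -h
    have hf : ∀ x : P, sm x.b = 0 → ρ (x⁻¹).b.1 = -ρ x.b.1 := by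
      intro x hx
      have h := P.fs_mul x⁻¹ x hx
      rw [inv_mul_cancel] at h
      have h0 : ρ (1 : P).b.1 = 0 := by decide
      rw [h0] at h
      linear_combination -h
    refine ⟨?_, ?_, ?_, ?_, ?_, ?_⟩
    · change sm (q.2.1⁻¹).b = 0
      rw [hs, a1, neg_zero]
    · change sm (q.2.2⁻¹).b = 0
      rw [hs, a2, neg_zero]
    · change ρ (q.2.1⁻¹).b.1 = sm (q.1⁻¹).b
      rw [hf _ a1, hs, a3]
    · change ρ (q.2.2⁻¹).b.1 = sm (q.1⁻¹).b
      rw [hf _ a2, hs, a4]
    · change (q.2.1⁻¹).e = (q.1⁻¹).e - sm (q.1⁻¹).b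
      rw [P.inv_e, P.inv_e, hs, a5]
      ring
    · change (q.2.2⁻¹).e = (q.1⁻¹).e - 2 * sm (q.1⁻¹).b
      rw [P.inv_e, P.inv_e, hs, a6]
      ring

theorem nine_smul : ∀ b : B, 9 • b = 0 → ρ b.1 = 0 ∧ ρ b.2 = 0 := by
  decide +kernel

theorem smul27 : ∀ b : B, 27 • b = 0 := by
  decide +kernel

theorem pow27 (x : P) : x ^ 27 = 1 := by
  by_cases h : x.e = 0
  · rw [P.pow_eq_one_iff x h]
    exact smul27 _
  · rw [show 27 = 3 * 9 from rfl, pow_mul, P.cube x h, one_pow]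

/-- elements with nonzero residue have order 27 -/
theorem pow9_ne (q : P × P × P) (hq : Mem q) (hs : sm q.1.b ≠ 0) : q ^ 9 ≠ 1 := by
  obtain ⟨a1, a2, a3, a4, a5, a6⟩ := hq
  intro h
  have h1 : q.1 ^ 9 = 1 := congrArg Prod.fst h
  have h2 : q.2.1 ^ 9 = 1 := congrArg (fun q => q.2.1) h
  have h3 : q.2.2 ^ 9 = 1 := congrArg (fun q => q.2.2) h
  have key : ∀ e s : ZMod 3, s ≠ 0 → e = 0 ∨ e - s = 0 ∨ e - 2 * s = 0 := by decide
  rcases key q.1.e (sm q.1.b) hs with h0 | h0 | h0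
  · rw [P.pow_eq_one_iff _ h0] at h1
    have := nine_smul _ h1
    apply hs
    unfold sm
    rw [this.1, this.2, add_zero]
  · rw [← a5] at h0
    rw [P.pow_eq_one_iff _ h0] at h2
    have := nine_smul _ h2
    apply hs
    rw [← a3, this.1]
  · rw [← a6] at h0
    rw [P.pow_eq_one_iff _ h0] at h3
    have := nine_smul _ h3
    apply hs
    rw [← a4, this.1]

/-- the fibre conditions -/
def S0 (β : ZMod 3) : Finset B := univ.filter (fun b => sm b = β)

/-- the fibre conditions -/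
def S1 (β : ZMod 3) : Finset B := univ.filter (fun b => sm b = 0 ∧ ρ b.1 = β)

theorem card_S0 : ∀ β : ZMod 3, (S0 β).card = 243 := by
  decide +kernel

theorem card_S1 : ∀ β : ZMod 3, (S1 β).card = 81 := by
  decide +kernel

theorem card_S0_3 : ((S0 0).filter (fun b => 3 • b = 0)).card = 9 := by
  decide +kernel

theorem card_S0_9 : ((S0 0).filter (fun b => 9 • b = 0)).card = 81 := by
  decide +kernel

theorem card_S1_3 : ((S1 0).filter (fun b => 3 • b = 0)).card = 9 := by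
  decide +kernel

theorem card_S1_9 : ((S1 0).filter (fun b => 9 • b = 0)).card = 81 := by
  decide +kernel

end Pool.Agent.R679.Psi
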