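import Pool.Agent.R679.Sofic

/-!
An FTR language of star height one none of whose maximal submonoids is finitely generated.
-/

namespace Pool.Agent.R679.SH1

open Pool.Agent.R679.FSub Pool.Agent.R679.Sofic

/-- letters `0 = a`, `1 = b`, `2 = c`; states `0, 1, 2` -/
def δ (q : Fin 3) (l : Fin 3) : Option (Fin 3) :=
  match l, q with
  | 0, 0 => some 1
  | 0, 1 => some 1
  | 0, 2 => none
  | 1, 0 => some 0
  | 1, 1 => some 2
  | 1, 2 => some 0
  | 2, 0 => some 2
  | 2, 1 => some 2
  | 2, 2 => some 0

abbrev r := run δ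

def L : Language (Fin 3) := Lab δ

lemma strong : ∀ p q : Fin 3, ∃ w, run δ p w = some q := by
  intro p q
  have : ∃ w ∈ ([[], [0], [1], [2], [0, 1], [1, 0], [1, 1], [2, 1], [1, 1, 0], [1, 2], [0, 1, 1],
      [2, 1, 0]] : List (List (Fin 3))), run δ p w = some q := by
    revert p q
    decide
  obtain ⟨w, _, h⟩ := this
  exact ⟨w, h⟩

lemma L_ftr : IsFTR L := Lab_ftr δ strong

/-! ### Stabilizers -/

def Stab (S : Set (Fin 3)) : Submonoid (FreeMonoid (Fin 3)) where
  carrier := {w | ∀ s ∈ S, ∃ t ∈ S, run δ s (FreeMonoid.toList w) = some t}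
  one_mem' := fun s hs => ⟨s, hs, rfl⟩
  mul_mem' := by
    intro x y hx hy s hs
    obtain ⟨t, ht, h1⟩ := hx s hs
    obtain ⟨t', ht', h2⟩ := hy t ht
    refine ⟨t', ht', ?_⟩
    rw [FreeMonoid.toList_mul, run_append, h1]
    exact h2

lemma mem_Stab {S : Set (Fin 3)} {w : FreeMonoid (Fin 3)} :
    w ∈ Stab S ↔ ∀ s ∈ S, ∃ t ∈ S, run δ s (FreeMonoid.toList w) = some t := Iff.rfl

lemma Stab_inside {S : Set (Fin 3)} (hS : S.Nonempty) : Inside (Stab S) L := by
  intro w hw
  obtain ⟨s, hs⟩ := hS
  obtain ⟨t, _, h⟩ := hw s hs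
  exact ⟨s, t, h⟩

lemma δ_a : ∀ q q', δ q 0 = some q' → q' = 1 := by decide

lemma sync {w : List (Fin 3)} (hw : (0 : Fin 3) ∈ w) {q q' t t' : Fin 3}
    (h : run δ q w = some t) (h' : run δ q' w = some t') : t = t' := by
  obtain ⟨u, v, rfl⟩ := List.append_of_mem hw
  have aux : ∀ q t, run δ q (u ++ 0 :: v) = some t → run δ 1 v = some t := by
    intro q t h
    rw [run_append] at h
    cases h1 : run δ q u with
    | none => rw [h1] at h; simp at h
    | some q1 =>
      rw [h1] at h
      simp only [Option.bind_some] at h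
      rw [run_cons] at h
      cases h2 : δ q1 0 with
      | none => rw [h2] at h; simp at h
      | some q2 =>
        rw [h2] at h
        rw [δ_a _ _ h2] at h
        exact h
  have e1 := aux q t h
  have e2 := aux q' t' h'
  rw [e1] at e2
  exact Option.some.inj e2

lemma fin3 : ∀ s : Fin 3, s = 0 ∨ s = 1 ∨ s = 2 := by decide

lemma δ_bc : ∀ q c : Fin 3, c ≠ 0 → ∃ q', δ q c = some q' := by decide

lemma δ_b : ∀ s : Fin 3, δ s 1 = some 0 ∨ δ s 1 = some 2 := by decide

lemma run_bb : ∀ s : Fin 3, run δ s [1, 1] = some 0 := by decide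

lemma no_a {w : List (Fin 3)} (hw : (0 : Fin 3) ∉ w) (q : Fin 3) : ∃ t, run δ q w = some t := by
  induction w generalizing q with
  | nil => exact ⟨q, rfl⟩
  | cons c w ih =>
    have hc : c ≠ 0 := fun h => hw (by rw [h]; exact List.mem_cons_self)
    have hdef : ∃ q', δ q c = some q' := δ_bc q c hc
    obtain ⟨q', h⟩ := hdef
    obtain ⟨t, ht⟩ := ih (fun h => hw (List.mem_cons_of_mem _ h)) q'
    exact ⟨t, by rw [run_cons, h]; exact ht⟩

lemma le_Stab (M : Submonoid (FreeMonoid (Fin 3))) (hM : Inside M L) :
    ∃ S : Set (Fin 3), S.Nonempty ∧ M ≤ Stab S := by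
  by_cases hex : ∃ m ∈ M, (0 : Fin 3) ∈ FreeMonoid.toList m
  · obtain ⟨m, hm, h0⟩ := hex
    obtain ⟨q, q0, hq⟩ := hM m hm
    refine ⟨{t | ∃ x ∈ M, run δ q0 (FreeMonoid.toList x) = some t}, ⟨q0, 1, one_mem _, rfl⟩, ?_⟩
    intro x hx
    rw [mem_Stab]
    rintro s ⟨y, hy, hs⟩
    obtain ⟨q', t, h⟩ := hM _ (mul_mem hm (mul_mem hy hx))
    rw [FreeMonoid.toList_mul, FreeMonoid.toList_mul, run_append] at h
    cases h1 : run δ q' (FreeMonoid.toList m) with
    | none => rw [h1] at h; simp at h
    | some q1 =>
      rw [h1] at h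
      simp only [Option.bind_some] at h
      have : q1 = q0 := sync h0 h1 hq
      rw [this] at h
      have h2 := h
      rw [run_append, hs] at h
      refine ⟨t, ⟨y * x, mul_mem hy hx, ?_⟩, h⟩
      rw [FreeMonoid.toList_mul]; exact h2
  · push Not at hex
    refine ⟨Set.univ, ⟨0, trivial⟩, ?_⟩
    intro x hx
    rw [mem_Stab]
    intro s _
    obtain ⟨t, ht⟩ := no_a (hex x hx) s
    exact ⟨t, trivial, ht⟩

/-! ### none of the stabilizers is finitely generated -/

lemma minGen_closure_sub {α : Type} (Y : Set (FreeMonoid α)) :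
    minGen (Submonoid.closure Y) ⊆ Y := by
  rintro x ⟨hx, hx1, hirr⟩
  induction hx using Submonoid.closure_induction_left with
  | one => exact absurd rfl hx1
  | mul_left g hg y hy ih =>
    by_cases hg1 : g = 1
    · subst hg1
      rw [one_mul] at hx1 hirr ⊢
      exact ih hx1 hirr
    · by_cases hy1 : y = 1
      · rw [hy1, mul_one]; exact hg
      · exact absurd ⟨g, Submonoid.subset_closure hg, y, hy, hg1, hy1, rfl⟩ hirr

lemma not_fg {α : Type} (M : Submonoid (FreeMonoid α)) (f : ℕ → FreeMonoid α)
    (hf : Function.Injective f) (h : ∀ n, f n ∈ minGen M) : ¬ M.FG := by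
  rintro ⟨Y, hY⟩
  have hinf : (Set.range f).Infinite := Set.infinite_range_of_injective hf
  apply hinf
  apply Set.Finite.subset Y.finite_toSet
  rintro _ ⟨n, rfl⟩
  have := h n
  rw [← hY] at this
  exact minGen_closure_sub _ this

/-- criterion for irreducibility in terms of lists -/
lemma irr_of {S : Set (Fin 3)} (x : List (Fin 3)) (hx : x ≠ [])
    (h1 : ∀ s ∈ S, ∃ t ∈ S, run δ s x = some t)
    (h2 : ∀ y z, x = y ++ z → y ≠ [] → z ≠ [] →
      (∃ s ∈ S, ∀ t ∈ S, run δ s y ≠ some t) ∨ (∃ s ∈ S, ∀ t ∈ S, run δ s z ≠ some t)) :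
    (FreeMonoid.ofList x) ∈ minGen (Stab S) := by
  refine ⟨h1, fun h => hx (congrArg FreeMonoid.toList h), ?_⟩
  rintro ⟨y, hy, z, hz, hy1, hz1, h⟩
  have e : x = FreeMonoid.toList y ++ FreeMonoid.toList z := by
    have := congrArg FreeMonoid.toList h
    simpa using this
  rcases h2 _ _ e (fun h => hy1 (FreeMonoid.toList.injective h))
    (fun h => hz1 (FreeMonoid.toList.injective h)) with ⟨s, hs, h3⟩ | ⟨s, hs, h3⟩
  · obtain ⟨t, ht, h4⟩ := hy s hs
    exact h3 t ht h4
  · obtain ⟨t, ht, h4⟩ := hz s hs
    exact h3 t ht h4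

lemma split_last {α : Type} {u : List α} {v : α} {y z : List α} (h : u ++ [v] = y ++ z)
    (hz : z ≠ []) : ∃ z', z = z' ++ [v] ∧ u = y ++ z' := by
  obtain ⟨z', v', rfl⟩ : ∃ z' v', z = z' ++ [v'] :=
    ⟨z.dropLast, z.getLast hz, (List.dropLast_append_getLast hz).symm⟩
  rw [← List.append_assoc] at h
  have := List.append_inj' h rfl
  refine ⟨z', ?_, this.1⟩
  rw [List.cons.inj this.2 |>.1]

lemma split_rep {α : Type} {n : ℕ} {a : α} {y z : List α} (h : List.replicate n a = y ++ z) :
    ∃ i j, y = List.replicate i a ∧ z = List.replicate j a ∧ i + j = n := by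
  have := List.append_eq_replicate_iff.1 h.symm
  exact ⟨y.length, z.length, this.2.1, this.2.2, this.1⟩

lemma run_a1 (n : ℕ) : run δ 1 (List.replicate n 0) = some 1 := by
  induction n with
  | zero => rfl
  | succ n ih => rw [List.replicate_succ, run_cons]; exact ih

lemma run_a0 (n : ℕ) : run δ 0 (List.replicate (n + 1) 0) = some 1 := by
  rw [List.replicate_succ, run_cons]; exact run_a1 n

lemma run_a2 (w : List (Fin 3)) : run δ 2 (0 :: w) = none := rfl

lemma run_b0 (n : ℕ) : run δ 0 (List.replicate n 1) = some 0 := by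
  induction n with
  | zero => rfl
  | succ n ih => rw [List.replicate_succ, run_cons]; exact ih

lemma run_c (n : ℕ) : run δ 0 (List.replicate n 2) = some (if n % 2 = 0 then 0 else 2) ∧
    run δ 2 (List.replicate n 2) = some (if n % 2 = 0 then 2 else 0) := by
  induction n with
  | zero => exact ⟨rfl, rfl⟩
  | succ n ih =>
    rw [List.replicate_succ, run_cons, run_cons]
    constructor
    · change run δ 2 (List.replicate n 2) = _
      rw [ih.2]
      by_cases h : n % 2 = 0
      · rw [if_pos h, if_neg (by omega)]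
      · rw [if_neg h, if_pos (by omega)]
    · change run δ 0 (List.replicate n 2) = _
      rw [ih.1]
      by_cases h : n % 2 = 0
      · rw [if_pos h, if_neg (by omega)]
      · rw [if_neg h, if_pos (by omega)]

/-- `a^{n+1} b b` for `S = {0}` -/
lemma irr0 (n : ℕ) : (FreeMonoid.ofList (List.replicate (n + 1) 0 ++ [1] ++ [1])) ∈
    minGen (Stab ({0} : Set (Fin 3))) := by
  apply irr_of
  · simp
  · rintro s rfl
    refine ⟨0, rfl, ?_⟩
    rw [run_append, run_append, run_a0]
    rfl
  · intro y z h hy hz
    left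
    refine ⟨0, rfl, ?_⟩
    rintro t rfl
    obtain ⟨z', rfl, h1⟩ := split_last h hz
    by_cases hz' : z' = []
    · subst hz'
      rw [List.append_nil] at h1
      rw [← h1, run_append, run_a0]
      decide
    · obtain ⟨z'', rfl, h2⟩ := split_last h1 hz'
      obtain ⟨i, j, rfl, rfl, hij⟩ := split_rep h2
      cases i with
      | zero => exact absurd rfl hy
      | succ i => rw [run_a0]; decide

/-- `b^{n+2} a` for `S = {1}` and `S = {1, 2}` -/
lemma irr1 {S : Set (Fin 3)} (h0 : (0 : Fin 3) ∉ S) (h1 : (1 : Fin 3) ∈ S) (n : ℕ) :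
    (FreeMonoid.ofList (List.replicate (n + 2) 1 ++ [0])) ∈ minGen (Stab S) := by
  apply irr_of
  · simp
  · intro s hs
    refine ⟨1, h1, ?_⟩
    have hs' : s = 1 ∨ s = 2 := by
      revert hs
      rcases (fin3 s) with rfl | rfl | rfl
      · intro h; exact absurd h h0
      · intro _; exact Or.inl rfl
      · intro _; exact Or.inr rfl
    have hrun : run δ s (List.replicate (n + 2) 1) = some 0 := by
      rw [List.replicate_succ, List.replicate_succ, run_cons]
      rcases hs' with rfl | rfl
      · exact run_b0 n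
      · exact run_b0 n
    rw [run_append, hrun]
    rfl
  · intro y z h hy hz
    left
    obtain ⟨z', rfl, h2⟩ := split_last h hz
    obtain ⟨i, j, rfl, rfl, hij⟩ := split_rep h2
    cases i with
    | zero => exact absurd rfl hy
    | succ i =>
      cases i with
      | zero =>
        by_cases h2S : (2 : Fin 3) ∈ S
        · refine ⟨2, h2S, ?_⟩
          intro t ht heq
          have : t = 0 := (Option.some.inj heq).symm
          exact h0 (this ▸ ht)
        · refine ⟨1, h1, ?_⟩
          intro t ht heq
          have : t = 2 := (Option.some.inj heq).symm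
          exact h2S (this ▸ ht)
      | succ i =>
        refine ⟨1, h1, ?_⟩
        intro t ht heq
        have e : run δ 1 (List.replicate (i + 1 + 1) 1) = some 0 := by
          rw [List.replicate_succ, List.replicate_succ, run_cons]
          exact run_b0 i
        rw [e] at heq
        have : t = 0 := (Option.some.inj heq).symm
        exact h0 (this ▸ ht)

/-- `b a^{n+1} b` for `S = {2}` and `S = {0, 2}` -/
lemma irr2 {S : Set (Fin 3)} (h1 : (1 : Fin 3) ∉ S) (h2 : (2 : Fin 3) ∈ S) (n : ℕ) :
    (FreeMonoid.ofList (1 :: (List.replicate (n + 1) 0 ++ [1]))) ∈ minGen (Stab S) := by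
  apply irr_of
  · simp
  · intro s hs
    refine ⟨2, h2, ?_⟩
    have hs' : δ s 1 = some 0 := by
      revert hs
      rcases (fin3 s) with rfl | rfl | rfl
      · intro _; rfl
      · intro h; exact absurd h h1
      · intro _; rfl
    rw [run_cons, hs']
    simp only [Option.bind_some]
    rw [run_append, run_a0]
    rfl
  · intro y z h hy hz
    cases y with
    | nil => exact absurd rfl hy
    | cons c y =>
      rw [List.cons_append] at h
      obtain ⟨hc, h'⟩ := List.cons.inj h
      subst hc
      obtain ⟨z', rfl, h3⟩ := split_last h' hz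
      obtain ⟨i, j, rfl, rfl, hij⟩ := split_rep h3
      cases i with
      | zero =>
        right
        refine ⟨2, h2, ?_⟩
        obtain rfl : j = n + 1 := by omega
        intro t _
        rw [List.replicate_succ, List.cons_append, run_a2]
        simp
      | succ i =>
        left
        refine ⟨2, h2, ?_⟩
        intro t ht heq
        have e : run δ 2 (1 :: List.replicate (i + 1) 0) = some 1 := by
          rw [run_cons]; exact run_a0 i
        rw [e] at heq
        exact h1 ((Option.some.inj heq) ▸ ht)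

/-- `b c^n b` for `S = {0, 1}` -/
lemma irr01 {S : Set (Fin 3)} (h0 : (0 : Fin 3) ∈ S) (h1 : (1 : Fin 3) ∈ S)
    (h2 : (2 : Fin 3) ∉ S) (n : ℕ) :
    (FreeMonoid.ofList (1 :: (List.replicate n 2 ++ [1]))) ∈ minGen (Stab S) := by
  apply irr_of
  · simp
  · intro s hs
    refine ⟨0, h0, ?_⟩
    have hs' : δ s 1 = some 0 ∨ δ s 1 = some 2 := δ_b s
    rcases hs' with hs' | hs'
    · rw [run_cons, hs']
      simp only [Option.bind_some]
      rw [run_append, (run_c n).1]
      by_cases h : n % 2 = 0
      · rw [if_pos h]; rfl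
      · rw [if_neg h]; rfl
    · rw [run_cons, hs']
      simp only [Option.bind_some]
      rw [run_append, (run_c n).2]
      by_cases h : n % 2 = 0
      · rw [if_pos h]; rfl
      · rw [if_neg h]; rfl
  · intro y z h hy hz
    left
    cases y with
    | nil => exact absurd rfl hy
    | cons c y =>
      rw [List.cons_append] at h
      obtain ⟨hc, h'⟩ := List.cons.inj h
      subst hc
      obtain ⟨z', rfl, h3⟩ := split_last h' hz
      obtain ⟨i, j, rfl, rfl, hij⟩ := split_rep h3
      by_cases hi : i % 2 = 0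
      · refine ⟨1, h1, ?_⟩
        intro t ht heq
        have e : run δ 1 (1 :: List.replicate i 2) = some 2 := by
          rw [run_cons]
          change run δ 2 (List.replicate i 2) = some 2
          rw [(run_c i).2, if_pos hi]
        rw [e] at heq
        exact h2 ((Option.some.inj heq) ▸ ht)
      · refine ⟨0, h0, ?_⟩
        intro t ht heq
        have e : run δ 0 (1 :: List.replicate i 2) = some 2 := by
          rw [run_cons]
          change run δ 0 (List.replicate i 2) = some 2
          rw [(run_c i).1, if_neg hi]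
        rw [e] at heq
        exact h2 ((Option.some.inj heq) ▸ ht)

/-- `b b a^{n+1}` for `S = {0, 1, 2}` -/
lemma irr012 {S : Set (Fin 3)} (h1 : (1 : Fin 3) ∈ S)
    (h2 : (2 : Fin 3) ∈ S) (n : ℕ) :
    (FreeMonoid.ofList (1 :: 1 :: (List.replicate (n + 1) 0))) ∈ minGen (Stab S) := by
  apply irr_of
  · simp
  · intro s hs
    refine ⟨1, h1, ?_⟩
    have hs' : run δ s [1, 1] = some 0 := run_bb s
    have e : (1 :: 1 :: (List.replicate (n + 1) 0) : List (Fin 3)) =
      [1, 1] ++ List.replicate (n + 1) 0 := rfl
    rw [e, run_append, hs']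
    exact run_a0 n
  · intro y z h hy hz
    right
    cases y with
    | nil => exact absurd rfl hy
    | cons c y =>
      rw [List.cons_append] at h
      obtain ⟨hc, h'⟩ := List.cons.inj h
      subst hc
      cases y with
      | nil =>
        refine ⟨1, h1, ?_⟩
        intro t _
        rw [← show 1 :: List.replicate (n + 1) 0 = z from h']
        rw [List.replicate_succ]
        change run δ 2 (0 :: List.replicate n 0) ≠ _
        rw [run_a2]
        simp
      | cons c' y =>
        rw [List.cons_append] at h'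
        obtain ⟨hc', h''⟩ := List.cons.inj h'
        subst hc'
        obtain ⟨i, j, rfl, rfl, hij⟩ := split_rep h''
        refine ⟨2, h2, ?_⟩
        intro t _
        cases j with
        | zero => exact absurd rfl hz
        | succ j => rw [List.replicate_succ, run_a2]; simp

lemma Stab_not_fg (S : Set (Fin 3)) (hS : S.Nonempty) : ¬ (Stab S).FG := by
  have inj : ∀ (u v : List (Fin 3)) (a : Fin 3) (k : ℕ), Function.Injective
      (fun n : ℕ => FreeMonoid.ofList (u ++ (List.replicate (n + k) a ++ v))) := by
    intro u v a k m n h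
    have h' := congrArg (fun w => (FreeMonoid.toList w).length) h
    simp only [FreeMonoid.toList_ofList, List.length_append, List.length_replicate] at h'
    omega
  by_cases h1 : (1 : Fin 3) ∈ S
  · by_cases h2 : (2 : Fin 3) ∈ S
    · apply not_fg _ _ _ (irr012 h1 h2)
      have := inj [1, 1] [] 0 1
      simpa using this
    · by_cases h0 : (0 : Fin 3) ∈ S
      · apply not_fg _ _ _ (irr01 h0 h1 h2)
        have := inj [1] [1] 2 0
        simpa using this
      · apply not_fg _ _ _ (irr1 h0 h1)
        have := inj [] [0] 1 2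
        simpa using this
  · by_cases h2 : (2 : Fin 3) ∈ S
    · apply not_fg _ _ _ (irr2 h1 h2)
      have := inj [1] [1] 0 1
      simpa using this
    · have hS' : S = {0} := by
        ext s
        rw [Set.mem_singleton_iff]
        constructor
        · intro hs
          rcases (fin3 s) with rfl | rfl | rfl
          · rfl
          · exact absurd hs h1
          · exact absurd hs h2
        · rintro rfl
          obtain ⟨s, hs⟩ := hS
          rcases (fin3 s) with rfl | rfl | rfl
          · exact hs
          · exact absurd hs h1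
          · exact absurd hs h2
      rw [hS']
      apply not_fg _ _ _ irr0
      have := inj [] [1, 1] 0 1
      simpa using this

theorem no_fg (M : Submonoid (FreeMonoid (Fin 3))) (hM : IsMaxIn L M) : ¬ M.FG := by
  obtain ⟨S, hS, hMS⟩ := le_Stab M hM.1
  have : Stab S = M := hM.2 _ hMS (Stab_inside hS)
  rw [← this]
  exact Stab_not_fg S hS

end Pool.Agent.R679.SH1
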