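import Pool.Agent.R679.SH1

/-!
The language `SH1.L` has star height one.
-/

namespace Pool.Agent.R679.SH1

open Pool.Agent.R679.FSub Pool.Agent.R679.Sofic

/-- expression for a single word -/
def wordE {α : Type} : List α → RegularExpression α
  | [] => .epsilon
  | c :: w => .comp (.char c) (wordE w)

/-- expression for a finite list of words -/
def altE {α : Type} : List (List α) → RegularExpression α
  | [] => .zero
  | w :: ws => .plus (wordE w) (altE ws)

lemma matches_wordE {α : Type} (w : List α) :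
    (wordE w).matches' = ({w} : Set (List α)) := by
  induction w with
  | nil => rfl
  | cons c w ih =>
    change (RegularExpression.char c).matches' * (wordE w).matches' = _
    rw [ih]
    ext x
    rw [Language.mem_mul]
    constructor
    · rintro ⟨a, ha, b, hb, rfl⟩
      have ha' : a = [c] := ha
      have hb' : b = w := hb
      rw [ha', hb']; rfl
    · intro hx
      have hx' : x = c :: w := hx
      exact ⟨[c], rfl, w, rfl, by rw [hx']; rfl⟩

lemma mem_altE {α : Type} (ws : List (List α)) (x : List α) :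
    x ∈ (altE ws).matches' ↔ x ∈ ws := by
  induction ws with
  | nil =>
    constructor
    · intro h; exact absurd h (Language.notMem_zero x)
    · intro h; simp at h
  | cons w ws ih =>
    change x ∈ (wordE w).matches' + (altE ws).matches' ↔ _
    rw [Language.mem_add, matches_wordE, ih, List.mem_cons]
    rfl

lemma sh_wordE {α : Type} (w : List α) : sh (wordE w) = 0 := by
  induction w with
  | nil => rfl
  | cons c w ih => change max 0 (sh (wordE w)) = 0; rw [ih]; rfl

lemma sh_altE {α : Type} (ws : List (List α)) : sh (altE ws) = 0 := by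
  induction ws with
  | nil => rfl
  | cons w ws ih => change max (sh (wordE w)) (sh (altE ws)) = 0; rw [ih, sh_wordE]; rfl

def Z : List (List (Fin 3)) := [[], [1], [2], [1, 1], [2, 1], [1, 2], [1, 2, 1]]
def H : List (List (Fin 3)) :=
  [[0], [0, 1, 2], [0, 1, 2, 1], [1, 1], [1, 1, 1], [2, 1], [2, 1, 1], [2, 2], [2, 2, 1]]
def T : List (List (Fin 3)) := [[], [1], [2]]

/-- the star height one expression `Z H* T` -/
def E : RegularExpression (Fin 3) := .comp (altE Z) (.comp (.star (altE H)) (altE T))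

lemma sh_E : sh E = 1 := by
  change max (sh (altE Z)) (max (sh (altE H) + 1) (sh (altE T))) = 1
  rw [sh_altE, sh_altE, sh_altE]
  rfl

/-- `K = H* T` -/
def K : Set (List (Fin 3)) :=
  {w | ∃ l : List (List (Fin 3)), (∀ h ∈ l, h ∈ H) ∧ ∃ t ∈ T, w = l.flatten ++ t}

lemma mem_E (w : List (Fin 3)) : w ∈ E.matches' ↔ ∃ z ∈ Z, ∃ k ∈ K, w = z ++ k := by
  change w ∈ (altE Z).matches' * (KStar.kstar ((altE H).matches') * (altE T).matches') ↔ _
  rw [Language.mem_mul]
  constructor
  · rintro ⟨z, hz, k, hk, rfl⟩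
    rw [Language.mem_mul] at hk
    obtain ⟨s, hs, t, ht, rfl⟩ := hk
    rw [Language.mem_kstar] at hs
    obtain ⟨l, rfl, hl⟩ := hs
    exact ⟨z, (mem_altE _ _).1 hz, _, ⟨l, fun h hh => (mem_altE _ _).1 (hl h hh), t,
      (mem_altE _ _).1 ht, rfl⟩, rfl⟩
  · rintro ⟨z, hz, k, ⟨l, hl, t, ht, rfl⟩, rfl⟩
    refine ⟨z, (mem_altE _ _).2 hz, _, ?_, rfl⟩
    rw [Language.mem_mul]
    refine ⟨l.flatten, ?_, t, (mem_altE _ _).2 ht, rfl⟩
    rw [Language.mem_kstar]
    exact ⟨l, rfl, fun h hh => (mem_altE _ _).2 (hl h hh)⟩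

lemma K_T {t : List (Fin 3)} (ht : t ∈ T) : t ∈ K := ⟨[], by simp, t, ht, by simp⟩

lemma K_H {h k : List (Fin 3)} (hh : h ∈ H) (hk : k ∈ K) : h ++ k ∈ K := by
  obtain ⟨l, hl, t, ht, rfl⟩ := hk
  refine ⟨h :: l, ?_, t, ht, by simp⟩
  intro x hx
  rcases List.mem_cons.1 hx with rfl | hx
  · exact hh
  · exact hl x hx

/-- after a piece `p` with `p, p b ∈ H` everything can be parsed -/
lemma glue {p : List (Fin 3)} (hp : p ∈ H) (hpb : p ++ [1] ∈ H) {w : List (Fin 3)}
    (hw : w ∈ K ∨ ∃ k ∈ K, w = 1 :: k) : p ++ w ∈ K := by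
  rcases hw with hw | ⟨k, hk, rfl⟩
  · exact K_H hp hw
  · have := K_H hpb hk
    simpa using this

lemma parse (n : ℕ) : ∀ w : List (Fin 3), w.length ≤ n → (∃ t, run δ 0 w = some t) →
    w ∈ K ∨ ∃ k ∈ K, w = 1 :: k := by
  induction n with
  | zero =>
    intro w hw _
    have : w = [] := List.eq_nil_of_length_eq_zero (by omega)
    subst this
    exact Or.inl (K_T (by decide))
  | succ n ih =>
    intro w hw hrun
    match w, hw, hrun with
    | [], _, _ => exact Or.inl (K_T (by decide))
    | 1 :: w', hw, hrun =>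
      have h1 := ih w' (by simpa using hw) hrun
      rcases h1 with h1 | ⟨k, hk, rfl⟩
      · exact Or.inr ⟨w', h1, rfl⟩
      · exact Or.inl (K_H (h := [1, 1]) (by decide) hk)
    | [2], _, _ => exact Or.inl (K_T (by decide))
    | 2 :: 0 :: w', _, hrun => exact absurd hrun (by rintro ⟨t, ht⟩; exact absurd ht (by simp [run_cons, δ]))
    | 2 :: 1 :: w', hw, hrun =>
      have h1 := ih w' (by simp only [List.length_cons] at hw; omega) hrun
      exact Or.inl (glue (p := [2, 1]) (by decide) (by decide) h1)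
    | 2 :: 2 :: w', hw, hrun =>
      have h1 := ih w' (by simp only [List.length_cons] at hw; omega) hrun
      exact Or.inl (glue (p := [2, 2]) (by decide) (by decide) h1)
    | [0], _, _ => exact Or.inl (K_H (h := [0]) (k := []) (by decide) (K_T (by decide)))
    | 0 :: 0 :: w', hw, hrun =>
      have h1 := ih (0 :: w') (by simpa using hw) hrun
      rcases h1 with h1 | ⟨k, _, h⟩
      · exact Or.inl (K_H (h := [0]) (by decide) h1)
      · simp at h
    | [0, 1], _, _ => exact Or.inl (K_H (h := [0]) (k := [1]) (by decide) (K_T (by decide)))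
    | 0 :: 1 :: 0 :: w', _, hrun =>
      exact absurd hrun (by rintro ⟨t, ht⟩; exact absurd ht (by simp [run_cons, δ]))
    | 0 :: 1 :: 1 :: w', hw, hrun =>
      have h1 := ih w' (by simp only [List.length_cons] at hw; omega) hrun
      exact Or.inl (K_H (h := [0]) (by decide) (glue (p := [1, 1]) (by decide) (by decide) h1))
    | 0 :: 1 :: 2 :: w', hw, hrun =>
      have h1 := ih w' (by simp only [List.length_cons] at hw; omega) hrun
      exact Or.inl (glue (p := [0, 1, 2]) (by decide) (by decide) h1)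
    | [0, 2], _, _ => exact Or.inl (K_H (h := [0]) (k := [2]) (by decide) (K_T (by decide)))
    | 0 :: 2 :: 0 :: w', _, hrun =>
      exact absurd hrun (by rintro ⟨t, ht⟩; exact absurd ht (by simp [run_cons, δ]))
    | 0 :: 2 :: 1 :: w', hw, hrun =>
      have h1 := ih w' (by simp only [List.length_cons] at hw; omega) hrun
      exact Or.inl (K_H (h := [0]) (by decide) (glue (p := [2, 1]) (by decide) (by decide) h1))
    | 0 :: 2 :: 2 :: w', hw, hrun =>
      have h1 := ih w' (by simp only [List.length_cons] at hw; omega) hrun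
      exact Or.inl (K_H (h := [0]) (by decide) (glue (p := [2, 2]) (by decide) (by decide) h1))

lemma parseZ (w : List (Fin 3)) (hw : w ∈ L) : ∃ z ∈ Z, ∃ k ∈ K, w = z ++ k := by
  have ofK : ∀ w : List (Fin 3), w ∈ K → ∃ z ∈ Z, ∃ k ∈ K, w = z ++ k :=
    fun w hw => ⟨[], by decide, w, hw, rfl⟩
  have glueZ : ∀ z ∈ Z, z ++ [1] ∈ Z → ∀ w : List (Fin 3), (w ∈ K ∨ ∃ k ∈ K, w = 1 :: k) →
      ∃ z' ∈ Z, ∃ k ∈ K, z ++ w = z' ++ k := by
    rintro z hz hzb w (hw | ⟨k, hk, rfl⟩)
    · exact ⟨z, hz, w, hw, rfl⟩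
    · exact ⟨z ++ [1], hzb, k, hk, by simp⟩
  obtain ⟨s, t, hrun⟩ := hw
  rcases fin3 s with rfl | rfl | rfl
  · exact glueZ [] (by decide) (by decide) w (parse w.length w le_rfl ⟨t, hrun⟩)
  · match w, hrun with
    | [], _ => exact ofK _ (K_T (by decide))
    | 0 :: w', hrun =>
      exact glueZ [] (by decide) (by decide) _ (parse (w'.length + 1) (0 :: w') (by simp) ⟨t, hrun⟩)
    | [1], _ => exact ofK _ (K_T (by decide))
    | 1 :: 0 :: w', hrun => exact absurd hrun (by simp [run_cons, δ])
    | 1 :: 1 :: w', hrun =>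
      exact ofK _ (glue (p := [1, 1]) (by decide) (by decide) (parse w'.length w' le_rfl ⟨t, hrun⟩))
    | 1 :: 2 :: w', hrun =>
      exact glueZ [1, 2] (by decide) (by decide) w' (parse w'.length w' le_rfl ⟨t, hrun⟩)
    | [2], _ => exact ofK _ (K_T (by decide))
    | 2 :: 0 :: w', hrun => exact absurd hrun (by simp [run_cons, δ])
    | 2 :: 1 :: w', hrun =>
      exact ofK _ (glue (p := [2, 1]) (by decide) (by decide) (parse w'.length w' le_rfl ⟨t, hrun⟩))
    | 2 :: 2 :: w', hrun =>
      exact ofK _ (glue (p := [2, 2]) (by decide) (by decide) (parse w'.length w' le_rfl ⟨t, hrun⟩))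
  · match w, hrun with
    | [], _ => exact ofK _ (K_T (by decide))
    | 0 :: w', hrun => exact absurd hrun (by simp [run_cons, δ])
    | 1 :: w', hrun =>
      exact glueZ [1] (by decide) (by decide) w' (parse w'.length w' le_rfl ⟨t, hrun⟩)
    | 2 :: w', hrun =>
      exact glueZ [2] (by decide) (by decide) w' (parse w'.length w' le_rfl ⟨t, hrun⟩)

lemma run_H : ∀ h ∈ H, ∀ s : Fin 3, s ≠ 2 → ∃ t : Fin 3, t ≠ 2 ∧ run δ s h = some t := by
  decide

lemma run_T : ∀ h ∈ T, ∀ s : Fin 3, s ≠ 2 → ∃ t : Fin 3, run δ s h = some t := by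
  decide

lemma run_Z : ∀ h ∈ Z, ∃ s : Fin 3, run δ s h = some 0 := by
  decide

lemma run_K (k : List (Fin 3)) (hk : k ∈ K) (s : Fin 3) (hs : s ≠ 2) :
    ∃ t, run δ s k = some t := by
  obtain ⟨l, hl, t, ht, rfl⟩ := hk
  induction l generalizing s with
  | nil => simpa using run_T t ht s hs
  | cons h l ih =>
    obtain ⟨s', hs', h1⟩ := run_H h (hl h List.mem_cons_self) s hs
    rw [List.flatten_cons, List.append_assoc, run_append, h1]
    exact ih s' hs' (fun x hx => hl x (List.mem_cons_of_mem _ hx))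

lemma matches_E : E.matches' = L := by
  ext w
  rw [mem_E]
  constructor
  · rintro ⟨z, hz, k, hk, rfl⟩
    obtain ⟨s, hs⟩ := run_Z z hz
    obtain ⟨t, ht⟩ := run_K k hk 0 (by decide)
    refine ⟨s, t, ?_⟩
    rw [run_append, hs]
    exact ht
  · exact parseZ w

lemma L_infinite : (L : Set (List (Fin 3))).Infinite := by
  apply Set.infinite_of_injective_forall_mem (f := fun n : ℕ => List.replicate n (0 : Fin 3))
  · intro m n h
    have := congrArg List.length h
    simpa using this
  · intro n
    exact ⟨1, 1, run_a1 n⟩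

theorem starHeight_L : starHeight L = 1 := by
  apply le_antisymm
  · refine (iInf₂_le E matches_E).trans ?_
    rw [sh_E]
    rfl
  · refine le_iInf₂ fun e he => ?_
    have h0 : sh e ≠ 0 := by
      intro h
      apply L_infinite
      rw [← he]
      exact finite_of_sh_zero e h
    exact_mod_cast Nat.one_le_iff_ne_zero.2 h0

end Pool.Agent.R679.SH1
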