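import Pool.Agent.R679.Sofic

/-!
An FTR language of star height at least two with a finitely generated maximal submonoid.
-/

namespace Pool.Agent.R679.SH3

open Pool.Agent.R679.FSub Pool.Agent.R679.Sofic

/-- letters `0 = a`, `1 = b`, `2 = c`; states: `0` after an `a`, `1` after a `b` or after a
positive even number of `c`'s, `2` after an odd number of `c`'s -/
def δ (q : Fin 3) (l : Fin 3) : Option (Fin 3) :=
  match l, q with
  | 0, 0 => some 0
  | 0, 1 => some 0
  | 0, 2 => none
  | 1, 0 => none
  | 1, 1 => some 1
  | 1, 2 => none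
  | 2, 0 => some 2
  | 2, 1 => some 2
  | 2, 2 => some 1

def L : Language (Fin 3) := Lab δ

lemma strong : ∀ p q : Fin 3, ∃ w, run δ p w = some q := by
  intro p q
  have : ∃ w ∈ ([[], [0], [1], [2], [2, 2], [2, 0], [2, 2, 0]] : List (List (Fin 3))),
      run δ p w = some q := by
    revert p q
    decide
  obtain ⟨w, _, h⟩ := this
  exact ⟨w, h⟩

lemma L_ftr : IsFTR L := Lab_ftr δ strong

/-! ### `c*` is a maximal submonoid -/

def C : Submonoid (FreeMonoid (Fin 3)) := Submonoid.closure {FreeMonoid.of 2}

lemma C_fg : C.FG := ⟨{FreeMonoid.of 2}, by simp [C]⟩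

lemma run_c (s : Fin 3) (n : ℕ) : ∃ t, run δ s (List.replicate n 2) = some t := by
  induction n generalizing s with
  | zero => exact ⟨s, rfl⟩
  | succ n ih =>
    rw [List.replicate_succ, run_cons]
    have : ∃ t, δ s 2 = some t := by revert s; decide
    obtain ⟨t, ht⟩ := this
    rw [ht]
    exact ih t

lemma mem_C_iff (w : FreeMonoid (Fin 3)) : w ∈ C ↔ ∀ l ∈ FreeMonoid.toList w, l = 2 := by
  constructor
  · intro h
    induction h using Submonoid.closure_induction with
    | one => intro l hl; simp at hl
    | mem x hx =>
      rw [Set.mem_singleton_iff] at hx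
      subst hx
      intro l hl
      simpa using hl
    | mul x y _ _ ihx ihy =>
      intro l hl
      rw [FreeMonoid.toList_mul, List.mem_append] at hl
      rcases hl with hl | hl
      · exact ihx l hl
      · exact ihy l hl
  · intro h
    induction w using FreeMonoid.recOn with
    | one => exact one_mem _
    | of_mul c w ih =>
      rw [FreeMonoid.toList_mul] at h
      have hc : c = 2 := h c (by simp)
      subst hc
      exact mul_mem (Submonoid.subset_closure rfl)
        (ih (fun l hl => h l (by rw [List.mem_append]; exact Or.inr hl)))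

lemma C_inside : Inside C L := by
  intro w hw
  rw [mem_C_iff] at hw
  have : FreeMonoid.toList w = List.replicate (FreeMonoid.toList w).length 2 :=
    List.eq_replicate_of_mem hw
  obtain ⟨t, ht⟩ := run_c 0 (FreeMonoid.toList w).length
  rw [this]
  exact ⟨0, t, ht⟩

lemma δ_sync : ∀ l : Fin 3, l ≠ 2 → ∀ q q' t t' : Fin 3, δ q l = some t → δ q' l = some t' →
    t = t' := by decide

lemma δ_ne2 : ∀ l : Fin 3, l ≠ 2 → ∀ q t : Fin 3, δ q l = some t → q ≠ 2 := by decide

lemma δ_c : ∀ q t : Fin 3, q ≠ 2 → δ q 2 = some t → t = 2 := by decide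

lemma C_max : IsMaxIn L C := by
  refine ⟨C_inside, ?_⟩
  intro N hCN hN
  refine le_antisymm ?_ hCN
  intro u hu
  by_contra hcon
  rw [mem_C_iff] at hcon
  push Not at hcon
  obtain ⟨l0, hl0, hl0'⟩ := hcon
  -- the first letter different from `c`
  obtain ⟨i, l, v, hl, huv⟩ : ∃ (i : ℕ) (l : Fin 3) (v : List (Fin 3)), l ≠ 2 ∧
      FreeMonoid.toList u = List.replicate i 2 ++ l :: v := by
    have : ∀ w : List (Fin 3), (∃ x ∈ w, x ≠ 2) → ∃ (i : ℕ) (l : Fin 3) (v : List (Fin 3)),
        l ≠ 2 ∧ w = List.replicate i 2 ++ l :: v := by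
      intro w
      induction w with
      | nil => rintro ⟨x, hx, _⟩; simp at hx
      | cons c w ih =>
        rintro ⟨x, hx, hx2⟩
        by_cases hc : c = 2
        · subst hc
          rcases List.mem_cons.1 hx with rfl | hx
          · exact absurd rfl hx2
          · obtain ⟨i, l, v, hl, rfl⟩ := ih ⟨x, hx, hx2⟩
            exact ⟨i + 1, l, v, hl, rfl⟩
        · exact ⟨0, c, w, hc, rfl⟩
    exact this _ ⟨l0, hl0, hl0'⟩
  -- the state after reading `u` does not depend on the start
  have hsync : ∀ q q' t t', run δ q (FreeMonoid.toList u) = some t →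
      run δ q' (FreeMonoid.toList u) = some t' → t = t' := by
    have aux : ∀ q t, run δ q (FreeMonoid.toList u) = some t →
        ∃ p p', δ p l = some p' ∧ run δ p' v = some t := by
      intro q t h
      rw [huv, run_append] at h
      cases h1 : run δ q (List.replicate i 2) with
      | none => rw [h1] at h; simp at h
      | some p =>
        rw [h1] at h
        simp only [Option.bind_some] at h
        rw [run_cons] at h
        cases h2 : δ p l with
        | none => rw [h2] at h; simp at h
        | some p' => rw [h2] at h; exact ⟨p, p', h2, h⟩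
    intro q q' t t' h h'
    obtain ⟨p, p', h1, h2⟩ := aux q t h
    obtain ⟨r, r', h3, h4⟩ := aux q' t' h'
    rw [δ_sync l hl _ _ _ _ h1 h3, h4] at h2
    exact (Option.some.inj h2).symm
  have hc : (FreeMonoid.of 2 : FreeMonoid (Fin 3)) ∈ N := hCN (Submonoid.subset_closure rfl)
  obtain ⟨q1, t1, h1⟩ := hN _ (mul_mem hu hu)
  obtain ⟨q2, t2, h2⟩ := hN _ (mul_mem hu (mul_mem hc hu))
  rw [FreeMonoid.toList_mul, run_append] at h1
  rw [FreeMonoid.toList_mul, FreeMonoid.toList_mul, run_append] at h2
  cases e1 : run δ q1 (FreeMonoid.toList u) with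
  | none => rw [e1] at h1; simp at h1
  | some r1 =>
    rw [e1] at h1
    simp only [Option.bind_some] at h1
    cases e2 : run δ q2 (FreeMonoid.toList u) with
    | none => rw [e2] at h2; simp at h2
    | some r2 =>
      rw [e2] at h2
      simp only [Option.bind_some] at h2
      rw [← hsync _ _ _ _ e1 e2] at h2
      -- from `r1` both `c^i l` and `c^{i+1} l` can be read
      have f1 : ∃ s, run δ r1 (List.replicate i 2) = some s ∧ s ≠ 2 := by
        rw [huv, run_append] at h1
        cases g : run δ r1 (List.replicate i 2) with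
        | none => rw [g] at h1; simp at h1
        | some s =>
          rw [g] at h1
          simp only [Option.bind_some] at h1
          rw [run_cons] at h1
          cases g' : δ s l with
          | none => rw [g'] at h1; simp at h1
          | some s' => exact ⟨s, rfl, δ_ne2 l hl _ _ g'⟩
      have f2 : ∃ s, run δ r1 (List.replicate (i + 1) 2) = some s ∧ s ≠ 2 := by
        have e : FreeMonoid.toList (FreeMonoid.of (2 : Fin 3)) ++ FreeMonoid.toList u =
            List.replicate (i + 1) 2 ++ l :: v := by
          rw [huv]; rfl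
        rw [e, run_append] at h2
        cases g : run δ r1 (List.replicate (i + 1) 2) with
        | none => rw [g] at h2; simp at h2
        | some s =>
          rw [g] at h2
          simp only [Option.bind_some] at h2
          rw [run_cons] at h2
          cases g' : δ s l with
          | none => rw [g'] at h2; simp at h2
          | some s' => exact ⟨s, rfl, δ_ne2 l hl _ _ g'⟩
      obtain ⟨s, hs, hs2⟩ := f1
      obtain ⟨s', hs', hs2'⟩ := f2
      rw [List.replicate_succ', run_append, hs] at hs'
      simp only [Option.bind_some] at hs'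
      have : δ s 2 = some s' := by
        rw [run_cons] at hs'
        cases g : δ s 2 with
        | none => rw [g] at hs'; simp at hs'
        | some x => rw [g] at hs'; simpa using hs'
      exact hs2' (δ_c s s' hs2 this)

/-! ### star height at least two -/

/-- `w` contains `t` successive (disjoint) pairs of blocks `a^k`, `b^k` -/
inductive Alt (k : ℕ) : ℕ → List (Fin 3) → Prop
  | zero (w : List (Fin 3)) : Alt k 0 w
  | succ (t : ℕ) (x y z : List (Fin 3)) : Alt k t z →
      Alt k (t + 1) (x ++ (List.replicate k 0 ++ (y ++ (List.replicate k 1 ++ z))))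

lemma Alt.mono_t {k t t' : ℕ} {w : List (Fin 3)} (h : Alt k t w) (htt : t' ≤ t) : Alt k t' w := by
  induction h generalizing t' with
  | zero w => 
    obtain rfl : t' = 0 := by omega
    exact Alt.zero w
  | succ t x y z _ ih =>
    cases t' with
    | zero => exact Alt.zero _
    | succ t' => exact Alt.succ t' x y z (ih (by omega))

lemma Alt.one {k : ℕ} {w : List (Fin 3)} (h : Alt k 1 w) : ∃ x y z,
    w = x ++ (List.replicate k 0 ++ (y ++ (List.replicate k 1 ++ z))) := by
  generalize hk : 1 = t at h
  cases h with
  | zero => omega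
  | succ t x y z _ => exact ⟨x, y, z, rfl⟩

lemma Alt.mono_k {k k' t : ℕ} {w : List (Fin 3)} (h : Alt k t w) (hk : k' ≤ k) : Alt k' t w := by
  obtain ⟨d, rfl⟩ : ∃ d, k = k' + d := ⟨k - k', by omega⟩
  induction h with
  | zero w => exact Alt.zero w
  | succ t x y z _ ih =>
    have := Alt.succ (k := k') t x (List.replicate d 0 ++ y) (List.replicate d 1 ++ z) (by
      clear * - ih
      cases t with
      | zero => exact Alt.zero _
      | succ t =>
        cases ih with
        | succ _ x' y' z' h' =>
          have := Alt.succ (k := k') t (List.replicate d 1 ++ x') y' z' h'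
          simpa using this)
    simp only [List.replicate_add, List.append_assoc] at this ⊢
    exact this

lemma Alt.append_left {k t : ℕ} {w : List (Fin 3)} (h : Alt k t w) (u : List (Fin 3)) :
    Alt k t (u ++ w) := by
  cases h with
  | zero w => exact Alt.zero _
  | succ t x y z h' =>
    have := Alt.succ t (u ++ x) y z h'
    simpa using this

lemma Alt.split {k t1 t2 : ℕ} : ∀ {w1 w2 : List (Fin 3)}, Alt k (t1 + t2 + 1) (w1 ++ w2) →
    Alt k t1 w1 ∨ Alt k t2 w2 := by
  induction t1 with
  | zero => intro w1 w2 _; exact Or.inl (Alt.zero _)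
  | succ t1 ih =>
    intro w1 w2 h
    generalize hw : w1 ++ w2 = w at h
    have ht : t1 + 1 + t2 + 1 = (t1 + t2 + 1) + 1 := by ring
    rw [ht] at h
    cases h with
    | succ _ x y z h' =>
      have hw' : w1 ++ w2 = (x ++ (List.replicate k 0 ++ (y ++ List.replicate k 1))) ++ z := by
        rw [hw]; simp
      rcases List.append_eq_append_iff.1 hw' with ⟨s, h1, h2⟩ | ⟨s, h1, h2⟩
      · -- `w1` is a prefix of `x a^k y b^k`
        right
        rw [h2]
        exact (h'.mono_t (by omega)).append_left s
      · -- `w1 = x a^k y b^k s`, `z = s w2`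
        rw [h2] at h'
        rcases ih h' with h3 | h3
        · left
          rw [h1]
          have := Alt.succ (k := k) t1 x y s h3
          simpa using this
        · exact Or.inr h3

/-- a long run of `a`'s in a product of short words forces one of the words to be a power of
`a` -/
lemma long_run {l : Fin 3} {m : ℕ} : ∀ (n : ℕ) (ws : List (List (Fin 3))) (x y : List (Fin 3))
    (K : ℕ), (∀ w ∈ ws, w.length ≤ m) → ws.length ≤ n →
    ws.flatten = x ++ (List.replicate K l ++ y) →
    2 * m + 1 ≤ K ∨ (x = [] ∧ m + 1 ≤ K) → ∃ w ∈ ws, ∃ i, w = List.replicate (i + 1) l := by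
  intro n
  induction n with
  | zero =>
    intro ws x y K _ hn hflat hK
    have : ws = [] := List.eq_nil_of_length_eq_zero (by omega)
    subst this
    have := congrArg List.length hflat
    simp only [List.flatten_nil, List.length_nil, List.length_append, List.length_replicate] at this
    omega
  | succ n ih =>
    intro ws x y K hm hn hflat hK
    cases ws with
    | nil =>
      have := congrArg List.length hflat
      simp only [List.flatten_nil, List.length_nil, List.length_append,
        List.length_replicate] at this
      omega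
    | cons w ws =>
      have hwm : w.length ≤ m := hm w List.mem_cons_self
      have hm' : ∀ w ∈ ws, w.length ≤ m := fun w hw => hm w (List.mem_cons_of_mem _ hw)
      rw [List.flatten_cons] at hflat
      rcases List.append_eq_append_iff.1 hflat with ⟨s, h1, h2⟩ | ⟨s, h1, h2⟩
      · -- `x = w ++ s`
        have hK' : 2 * m + 1 ≤ K ∨ (s = [] ∧ m + 1 ≤ K) := by
          rcases hK with hK | ⟨hx, hK⟩
          · exact Or.inl hK
          · right
            rw [hx] at h1
            exact ⟨(List.append_eq_nil_iff.1 h1.symm).2, hK⟩
        obtain ⟨w', hw', i, hi⟩ := ih ws s y K hm' (by simpa using hn) h2 hK'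
        exact ⟨w', List.mem_cons_of_mem _ hw', i, hi⟩
      · -- `w = x ++ s`, `s` prefix of `a^K y`
        have hsl : s.length ≤ m := by
          rw [h1, List.length_append] at hwm; omega
        rcases List.append_eq_append_iff.1 h2 with ⟨s', h3, h4⟩ | ⟨s', h3, h4⟩
        · -- `s = a^K s'`: impossible by length
          have := congrArg List.length h3
          rw [List.length_append, List.length_replicate] at this
          omega
        · -- `a^K = s s'`
          have h5 := List.append_eq_replicate_iff.1 h3.symm
          by_cases hx : x = [] ∧ s ≠ []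
          · refine ⟨w, List.mem_cons_self, s.length - 1, ?_⟩
            rw [h1, hx.1, List.nil_append]
            have hpos : 0 < s.length := List.length_pos_of_ne_nil hx.2
            rw [show s.length - 1 + 1 = s.length by omega]
            exact h5.2.1
          · have hK' : 2 * m + 1 ≤ s'.length ∨ (([] : List (Fin 3)) = [] ∧ m + 1 ≤ s'.length) := by
              right
              refine ⟨rfl, ?_⟩
              rcases hK with hK | ⟨hx0, hK⟩
              · omega
              · have hs : s = [] := by
                  by_contra hs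
                  exact hx ⟨hx0, hs⟩
                rw [hs] at h5
                simp only [List.length_nil] at h5
                omega
            obtain ⟨w', hw', i, hi⟩ := ih ws [] y s'.length hm' (by simpa using hn)
              (by rw [h4, ← h5.2.2]; rfl) hK'
            exact ⟨w', List.mem_cons_of_mem _ hw', i, hi⟩

lemma no_ab {x y : List (Fin 3)} (h : x ++ (0 :: 1 :: y) ∈ L) : False := by
  obtain ⟨q, r, h⟩ := h
  rw [run_append] at h
  cases h1 : run δ q x with
  | none => rw [h1] at h; simp at h
  | some s =>
    rw [h1] at h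
    simp only [Option.bind_some] at h
    have : run δ s (0 :: 1 :: y) = none := by
      rw [run_cons]
      have : δ s 0 = none ∨ δ s 0 = some 0 := by clear * -; revert s; decide
      rcases this with h2 | h2
      · rw [h2]; rfl
      · rw [h2]; rfl
    rw [this] at h
    simp at h

lemma bounded_alt (e : RegularExpression (Fin 3)) (hsh : sh e ≤ 1)
    (he : ∀ w ∈ e.matches', w ∈ L) : ∃ k t, ∀ w ∈ e.matches', ¬ Alt k t w := by
  induction e with
  | zero => exact ⟨0, 0, fun w hw => absurd hw (Language.notMem_zero w)⟩
  | epsilon =>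
    refine ⟨1, 1, ?_⟩
    rintro w hw h
    have hw' : w = [] := hw
    generalize hk : 1 = t at h
    cases h with
    | zero => omega
    | succ t x y z _ =>
      have := congrArg List.length hw'
      simp at this
  | char c =>
    refine ⟨1, 1, ?_⟩
    rintro w hw h
    have hw' : w = [c] := hw
    generalize hk : 1 = t at h
    cases h with
    | zero => omega
    | succ t x y z _ =>
      have := congrArg List.length hw'
      simp at this
      omega
  | plus P Q ihP ihQ =>
    simp only [sh] at hsh
    obtain ⟨k1, t1, h1⟩ := ihP (by omega) (fun w hw => he w (Or.inl hw))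
    obtain ⟨k2, t2, h2⟩ := ihQ (by omega) (fun w hw => he w (Or.inr hw))
    refine ⟨max k1 k2, max t1 t2, ?_⟩
    rintro w (hw | hw) h
    · exact h1 w hw ((h.mono_k (le_max_left _ _)).mono_t (le_max_left _ _))
    · exact h2 w hw ((h.mono_k (le_max_right _ _)).mono_t (le_max_right _ _))
  | comp P Q ihP ihQ =>
    simp only [sh] at hsh
    by_cases hP : ∃ w, w ∈ P.matches'
    · by_cases hQ : ∃ w, w ∈ Q.matches'
      · obtain ⟨wP, hwP⟩ := hP
        obtain ⟨wQ, hwQ⟩ := hQ
        obtain ⟨k1, t1, h1⟩ := ihP (by omega) (fun w hw =>
          Lab_factorial δ _ (he (w ++ wQ) ⟨w, hw, wQ, hwQ, rfl⟩) w ⟨[], wQ, rfl⟩)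
        obtain ⟨k2, t2, h2⟩ := ihQ (by omega) (fun w hw =>
          Lab_factorial δ _ (he (wP ++ w) ⟨wP, hwP, w, hw, rfl⟩) w ⟨wP, [], by simp⟩)
        refine ⟨max k1 k2, t1 + t2 + 1, ?_⟩
        rintro w ⟨u, hu, v, hv, rfl⟩ h
        rcases Alt.split h with h3 | h3
        · exact h1 u hu (h3.mono_k (le_max_left _ _))
        · exact h2 v hv (h3.mono_k (le_max_right _ _))
      · refine ⟨0, 0, ?_⟩
        rintro w ⟨u, hu, v, hv, rfl⟩
        exact absurd ⟨v, hv⟩ hQ
    · refine ⟨0, 0, ?_⟩
      rintro w ⟨u, hu, v, hv, rfl⟩
      exact absurd ⟨u, hu⟩ hP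
  | star P _ =>
    simp only [sh] at hsh
    have hfin := finite_of_sh_zero P (by omega)
    obtain ⟨m, hm⟩ : ∃ m, ∀ w ∈ P.matches', w.length ≤ m := by
      obtain ⟨m, hm⟩ := (hfin.image List.length).bddAbove
      exact ⟨m, fun w hw => hm ⟨w, hw, rfl⟩⟩
    refine ⟨2 * m + 1, 1, ?_⟩
    intro w hw h
    have hw' : w ∈ KStar.kstar P.matches' := hw
    rw [Language.mem_kstar] at hw'
    obtain ⟨ws, rfl, hws⟩ := hw'
    generalize hfl : ws.flatten = w at h
    obtain ⟨x, y, z, rfl⟩ := h.one
    · skip
      obtain ⟨u, hu, i, hui⟩ := long_run (l := 0) (m := m) ws.length ws x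
        (y ++ (List.replicate (2 * m + 1) 1 ++ z)) (2 * m + 1) (fun w hw => hm w (hws w hw)) le_rfl
        hfl (Or.inl le_rfl)
      obtain ⟨v, hv, j, hvj⟩ := long_run (l := 1) (m := m) ws.length ws
        (x ++ (List.replicate (2 * m + 1) 0 ++ y)) z (2 * m + 1) (fun w hw => hm w (hws w hw)) le_rfl
        (by rw [hfl]; simp) (Or.inl le_rfl)
      have hL : u ++ v ∈ L := by
        apply he
        change u ++ v ∈ KStar.kstar P.matches'
        rw [Language.mem_kstar]
        refine ⟨[u, v], by simp, ?_⟩
        intro w hw
        simp only [List.mem_cons, List.not_mem_nil, or_false] at hw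
        rcases hw with rfl | rfl
        · exact hws _ hu
        · exact hws _ hv
      rw [hui, hvj, List.replicate_succ', List.replicate_succ] at hL
      apply no_ab (x := List.replicate i 0) (y := List.replicate j 1)
      simpa using hL

lemma run_a (n : ℕ) : run δ 1 (List.replicate (n + 1) 0) = some 0 := by
  induction n with
  | zero => rfl
  | succ n ih =>
    rw [List.replicate_succ', run_append, ih]
    rfl

lemma run_b (n : ℕ) : run δ 1 (List.replicate n 1) = some 1 := by
  induction n with
  | zero => rfl
  | succ n ih => rw [List.replicate_succ, run_cons]; exact ih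

/-- `(a^{k+1} cc b^{k+1} cc)^t` -/
def W (k : ℕ) : ℕ → List (Fin 3)
  | 0 => []
  | t + 1 => [] ++ (List.replicate (k + 1) 0 ++ ([2, 2] ++ (List.replicate (k + 1) 1 ++
      ([2, 2] ++ W k t))))

lemma W_run (k t : ℕ) : run δ 1 (W k t) = some 1 := by
  induction t with
  | zero => rfl
  | succ t ih =>
    rw [W, List.nil_append, run_append, run_a]
    simp only [Option.bind_some]
    rw [run_append]
    have : run δ 0 [2, 2] = some 1 := by decide
    rw [this]
    simp only [Option.bind_some]
    rw [run_append, run_b]
    simp only [Option.bind_some]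
    rw [run_append]
    have : run δ 1 [2, 2] = some 1 := by decide
    rw [this]
    exact ih

lemma W_alt (k t : ℕ) : Alt (k + 1) t (W k t) := by
  induction t with
  | zero => exact Alt.zero _
  | succ t ih => exact Alt.succ t [] [2, 2] ([2, 2] ++ W k t) (ih.append_left _)

theorem two_le_sh (e : RegularExpression (Fin 3)) (he : e.matches' = L) : 2 ≤ sh e := by
  by_contra hcon
  obtain ⟨k, t, h⟩ := bounded_alt e (by omega) (fun w hw => he ▸ hw)
  have hW : W k t ∈ L := ⟨1, 1, W_run k t⟩
  rw [← he] at hW
  exact h _ hW ((W_alt k t).mono_k (by omega))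

theorem two_le_starHeight : 2 ≤ starHeight L := by
  refine le_iInf₂ fun e he => ?_
  exact_mod_cast two_le_sh e he

end Pool.Agent.R679.SH3
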