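import Pool.Agent.R679.FSub

/-!
Languages of labels of paths in partial deterministic automata; star height.
-/

namespace Pool.Agent.R679.Sofic

open Pool.Agent.R679.FSub

/-- Star height of a regular expression (union, concatenation, star). -/
def sh {α : Type} : RegularExpression α → ℕ
  | .zero => 0
  | .epsilon => 0
  | .char _ => 0
  | .plus P Q => max (sh P) (sh Q)
  | .comp P Q => max (sh P) (sh Q)
  | .star P => sh P + 1

/-- Star height of a language: the least star height of a regular expression denoting it. -/
noncomputable def starHeight {α : Type} (L : Language α) : ℕ∞ :=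
  ⨅ (e : RegularExpression α) (_ : e.matches' = L), (sh e : ℕ∞)

section Aut

variable {σ α : Type} (δ : σ → α → Option σ)

/-- run of a partial deterministic automaton -/
def run : σ → List α → Option σ
  | q, [] => some q
  | q, c :: w => (δ q c).bind (fun q' => run q' w)

@[simp] lemma run_nil (q : σ) : run δ q [] = some q := rfl

lemma run_cons (q : σ) (c : α) (w : List α) :
    run δ q (c :: w) = (δ q c).bind (fun q' => run δ q' w) := rfl

lemma run_append (q : σ) (u v : List α) :
    run δ q (u ++ v) = (run δ q u).bind (fun q' => run δ q' v) := by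
  induction u generalizing q with
  | nil => rfl
  | cons c u ih =>
    rw [List.cons_append, run_cons, run_cons]
    cases h : δ q c with
    | none => rfl
    | some q' => simpa using ih q'

/-- the language of all labels of paths -/
def Lab : Language α := {w | ∃ q r, run δ q w = some r}

lemma mem_Lab (w : List α) : w ∈ Lab δ ↔ ∃ q r, run δ q w = some r := Iff.rfl

lemma Lab_factorial : Factorial (Lab δ) := by
  rintro w ⟨q, r, h⟩ u ⟨x, y, rfl⟩
  rw [run_append, run_append] at h
  cases h1 : run δ q x with
  | none => rw [h1] at h; simp at h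
  | some q1 =>
    rw [h1] at h
    simp only [Option.bind_some] at h
    cases h2 : run δ q1 u with
    | none => rw [h2] at h; simp at h
    | some q2 => exact ⟨q1, q2, h2⟩

lemma Lab_transitive (hc : ∀ p q, ∃ w, run δ p w = some q) : Transitive (Lab δ) := by
  rintro u ⟨q, r, h⟩ v ⟨q', r', h'⟩
  obtain ⟨w, hw⟩ := hc r q'
  refine ⟨w, q, r', ?_⟩
  rw [run_append, run_append, h]
  simp [hw, h']

/-- the NFA with all states initial and final -/
def nfa : NFA α σ where
  step q c := {q' | δ q c = some q'}
  start := Set.univ
  accept := Set.univ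

lemma mem_evalFrom (w : List α) : ∀ (S : Set σ) (r : σ),
    r ∈ (nfa δ).evalFrom S w ↔ ∃ q ∈ S, run δ q w = some r := by
  induction w with
  | nil =>
    intro S r
    simp
  | cons c w ih =>
    intro S r
    have : (nfa δ).evalFrom S (c :: w) = (nfa δ).evalFrom ((nfa δ).stepSet S c) w := rfl
    rw [this, ih]
    constructor
    · rintro ⟨q', hq', h⟩
      rw [NFA.mem_stepSet] at hq'
      obtain ⟨q, hq, hqq'⟩ := hq'
      refine ⟨q, hq, ?_⟩
      have e : δ q c = some q' := hqq'
      rw [run_cons, e]
      exact h
    · rintro ⟨q, hq, h⟩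
      rw [run_cons] at h
      cases hd : δ q c with
      | none => rw [hd] at h; simp at h
      | some q' =>
        rw [hd] at h
        refine ⟨q', ?_, h⟩
        rw [NFA.mem_stepSet]
        exact ⟨q, hq, hd⟩

lemma Lab_regular [Fintype σ] : (Lab δ).IsRegular := by
  classical
  refine ⟨Set σ, inferInstance, (nfa δ).toDFA, ?_⟩
  rw [NFA.toDFA_correct]
  ext w
  rw [NFA.mem_accepts]
  constructor
  · rintro ⟨r, _, hr⟩
    obtain ⟨q, _, h⟩ := (mem_evalFrom δ w _ r).1 hr
    exact ⟨q, r, h⟩
  · rintro ⟨q, r, h⟩
    exact ⟨r, trivial, (mem_evalFrom δ w _ r).2 ⟨q, trivial, h⟩⟩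

lemma Lab_ftr [Fintype σ] (hc : ∀ p q, ∃ w, run δ p w = some q) : IsFTR (Lab δ) :=
  ⟨Lab_factorial δ, Lab_transitive δ hc, Lab_regular δ⟩

end Aut

/-- expressions of star height 0 denote finite languages -/
lemma finite_of_sh_zero {α : Type} (e : RegularExpression α) (h : sh e = 0) :
    (e.matches' : Set (List α)).Finite := by
  induction e with
  | zero => exact Set.finite_empty
  | epsilon => exact Set.finite_singleton _
  | char c => exact Set.finite_singleton _
  | plus P Q ihP ihQ =>
    simp only [sh] at h
    exact (ihP (by omega)).union (ihQ (by omega))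
  | comp P Q ihP ihQ =>
    simp only [sh] at h
    exact Set.Finite.image2 _ (ihP (by omega)) (ihQ (by omega))
  | star P _ =>
    simp [sh] at h

end Pool.Agent.R679.Sofic
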