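import Mathlib

set_option autoImplicit false

namespace Pool.Agent.R679.Star

open Finset

universe w

/-- number of the elements whose order has all its prime divisors in `σ` -/
noncomputable def el (G : Type w) [Group G] (σ : Finset ℕ) : ℕ :=
  Nat.card {x : G // (orderOf x).primeFactors ⊆ σ}

theorem el_congr {H K : Type w} [Group H] [Group K] (e : H ≃* K) (σ : Finset ℕ) :
    el H σ = el K σ := by
  unfold el
  apply Nat.card_congr
  refine e.toEquiv.subtypeEquiv fun h => ?_
  have : orderOf (e h) = orderOf h := MulEquiv.orderOf_eq e h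
  change _ ↔ (orderOf (e h)).primeFactors ⊆ σ
  rw [this]

theorem cent_conj_equiv {G : Type w} [Group G] (u g : G) :
    Nonempty (Subgroup.centralizer {u} ≃* Subgroup.centralizer {g * u * g⁻¹}) := by
  have h : (Subgroup.centralizer {u}).map (MulAut.conj g).toMonoidHom =
      Subgroup.centralizer {g * u * g⁻¹} := by
    ext x
    rw [Subgroup.mem_map]
    constructor
    · rintro ⟨c, hc, rfl⟩
      rw [Subgroup.mem_centralizer_singleton_iff] at hc ⊢
      change (g * c * g⁻¹) * (g * u * g⁻¹) = (g * u * g⁻¹) * (g * c * g⁻¹)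
      have e1 : (g * c * g⁻¹) * (g * u * g⁻¹) = g * (c * u) * g⁻¹ := by group
      have e2 : (g * u * g⁻¹) * (g * c * g⁻¹) = g * (u * c) * g⁻¹ := by group
      rw [e1, e2, hc]
    · intro hx
      rw [Subgroup.mem_centralizer_singleton_iff] at hx
      refine ⟨g⁻¹ * x * g, ?_, ?_⟩
      · rw [Subgroup.mem_centralizer_singleton_iff]
        have e1 : g⁻¹ * x * g * u = g⁻¹ * (x * (g * u * g⁻¹)) * g := by group
        have e2 : u * (g⁻¹ * x * g) = g⁻¹ * ((g * u * g⁻¹) * x) * g := by group
        rw [e1, e2, hx]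
      · change g * (g⁻¹ * x * g) * g⁻¹ = x
        group
  exact ⟨((MulAut.conj g).subgroupMap (Subgroup.centralizer {u})).trans
    (MulEquiv.subgroupCongr h)⟩

/-- the number of conjugates -/
theorem card_conj {G : Type w} [Group G] [Finite G] (u : G) :
    Nat.card {v : G // IsConj u v} * Nat.card (Subgroup.centralizer {u}) = Nat.card G := by
  classical
  have e : {v : G // IsConj u v} ≃ G ⧸ Subgroup.centralizer {u} := by
    symm
    refine Equiv.ofBijective (fun x => Quotient.liftOn' x
      (fun g => (⟨g * u * g⁻¹, isConj_iff.2 ⟨g, rfl⟩⟩ : {v : G // IsConj u v})) ?_) ⟨?_, ?_⟩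
    · intro g h hgh
      have h1 : g⁻¹ * h ∈ Subgroup.centralizer {u} := QuotientGroup.leftRel_apply.1 hgh
      rw [Subgroup.mem_centralizer_singleton_iff] at h1
      apply Subtype.ext
      change g * u * g⁻¹ = h * u * h⁻¹
      have h2 : h * u * h⁻¹ = g * ((g⁻¹ * h) * u) * h⁻¹ := by group
      rw [h2, h1]
      group
    · intro x y hxy
      obtain ⟨g, rfl⟩ := QuotientGroup.mk_surjective x
      obtain ⟨h, rfl⟩ := QuotientGroup.mk_surjective y
      have h1 : g * u * g⁻¹ = h * u * h⁻¹ := congrArg Subtype.val hxy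
      rw [QuotientGroup.eq, Subgroup.mem_centralizer_singleton_iff]
      have h2 : (g⁻¹ * h) * u = g⁻¹ * (h * u * h⁻¹) * h := by group
      rw [h2, ← h1]
      group
    · rintro ⟨v, hv⟩
      obtain ⟨g, hg⟩ := isConj_iff.1 hv
      exact ⟨QuotientGroup.mk g, Subtype.ext hg⟩
  rw [Nat.card_congr e]
  exact (Subgroup.card_eq_card_quotient_mul_card_subgroup _).symm

/-- the `p`-part of a number -/
def pp (p n : ℕ) : ℕ := p ^ n.factorization p

theorem pp_mul {p a b : ℕ} (ha : a ≠ 0) (hb : b ≠ 0) : pp p (a * b) = pp p a * pp p b := by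
  unfold pp
  rw [Nat.factorization_mul ha hb, Finsupp.add_apply, pow_add]

theorem pp_dvd (p n : ℕ) : pp p n ∣ n := Nat.ordProj_dvd n p

/-- sums of class functions -/
theorem dvd_sum_classes {G : Type w} [Group G] [Fintype G] (p : ℕ) (U : Finset G)
    (hU : ∀ u ∈ U, ∀ g : G, g * u * g⁻¹ ∈ U) (f : G → ℕ)
    (hf : ∀ u g : G, f (g * u * g⁻¹) = f u)
    (hd : ∀ u ∈ U, pp p (Nat.card (Subgroup.centralizer {u})) ∣ f u) :
    pp p (Nat.card G) ∣ ∑ u ∈ U, f u := by
  classical
  haveI := Fintype.ofFinite (ConjClasses G)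
  rw [← Finset.sum_fiberwise_of_maps_to (t := (univ : Finset (ConjClasses G)))
    (g := fun u : G => ConjClasses.mk u) (fun _ _ => Finset.mem_univ _)]
  apply Finset.dvd_sum
  intro c _
  rcases (U.filter (fun u => ConjClasses.mk u = c)).eq_empty_or_nonempty with he | ⟨u, hu⟩
  · rw [he, Finset.sum_empty]
    exact dvd_zero _
  · rw [Finset.mem_filter] at hu
    obtain ⟨huU, rfl⟩ := hu
    have hset : (U.filter (fun v => ConjClasses.mk v = ConjClasses.mk u)) =
        univ.filter (fun v => IsConj u v) := by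
      ext v
      simp only [Finset.mem_filter, Finset.mem_univ, true_and, ConjClasses.mk_eq_mk_iff_isConj]
      constructor
      · exact fun h => h.2.symm
      · intro h
        refine ⟨?_, h.symm⟩
        obtain ⟨g, rfl⟩ := isConj_iff.1 h
        exact hU u huU g
    have hFc : ∀ v ∈ univ.filter (fun v => IsConj u v), f v = f u := by
      intro v hv
      rw [Finset.mem_filter] at hv
      obtain ⟨g, rfl⟩ := isConj_iff.1 hv.2
      exact hf u g
    rw [hset, Finset.sum_congr rfl hFc, Finset.sum_const, smul_eq_mul]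
    have h3 := card_conj u
    have h4 : Nat.card {v : G // IsConj u v} = (univ.filter (fun v => IsConj u v)).card := by
      rw [Nat.card_eq_fintype_card, Fintype.card_subtype]
    have hpos : 0 < Nat.card G := Nat.card_pos
    have h5 : Nat.card {v : G // IsConj u v} ≠ 0 := by
      intro h
      rw [h, zero_mul] at h3
      omega
    have h6 : Nat.card (Subgroup.centralizer {u}) ≠ 0 := by
      intro h
      rw [h, mul_zero] at h3
      omega
    rw [← h3, pp_mul h5 h6, h4]
    exact Nat.mul_dvd_mul (pp_dvd _ _) (hd u huU)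

/-- decomposing into the `p'`-part and the `p`-part -/
theorem decomp {G : Type w} [Group G] [Fintype G] [DecidableEq G] {p : ℕ} (hp : p.Prime)
    (σ : Finset ℕ) (hpσ : p ∈ σ) :
    el G σ = ∑ u ∈ univ.filter (fun u : G => (orderOf u).primeFactors ⊆ σ.erase p),
      el (Subgroup.centralizer {u}) {p} := by
  classical
  set q := pp p (Nat.card G) with hq
  set m := Nat.card G / q with hm
  have hn0 : Nat.card G ≠ 0 := Nat.card_pos.ne'
  have hqm : q * m = Nat.card G := Nat.ordProj_mul_ordCompl_eq_self _ _
  have hcop : Nat.Coprime q m := Nat.Coprime.pow_left _ (Nat.coprime_ordCompl hp hn0)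
  obtain ⟨s, hs1, hs2⟩ := Nat.chineseRemainder hcop 1 0
  obtain ⟨t, ht1, ht2⟩ := Nat.chineseRemainder hcop 0 1
  have hpel : ∀ x : G, (orderOf x).primeFactors ⊆ {p} → x ^ q = 1 := by
    intro x hx
    have h1 : orderOf x ≠ 0 := (orderOf_pos x).ne'
    have h2 : orderOf x = p ^ (orderOf x).factorization p := by
      conv_lhs => rw [← Nat.factorization_prod_pow_eq_self h1]
      rw [Finsupp.prod]
      have : (orderOf x).factorization.support ⊆ {p} := hx
      rw [Finset.prod_subset this]
      · rw [Finset.prod_singleton]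
      · intro y _ hy
        rw [Finsupp.notMem_support_iff.1 hy, pow_zero]
    rw [← orderOf_dvd_iff_pow_eq_one, h2, hq]
    unfold pp
    exact pow_dvd_pow _ ((Nat.factorization_le_iff_dvd h1 hn0).2 (orderOf_dvd_natCard x) p)
  have hprel : ∀ x : G, (orderOf x).primeFactors ⊆ σ.erase p → x ^ m = 1 := by
    intro x hx
    have h1 : orderOf x ∣ q * m := hqm ▸ orderOf_dvd_natCard x
    have h2 : Nat.Coprime (orderOf x) q := by
      rw [hq]
      unfold pp
      apply Nat.Coprime.pow_right
      rw [Nat.coprime_comm, hp.coprime_iff_not_dvd]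
      intro h
      have := hx (Nat.mem_primeFactors.2 ⟨hp, h, (orderOf_pos x).ne'⟩)
      simp at this
    rw [← orderOf_dvd_iff_pow_eq_one]
    exact h2.dvd_of_dvd_mul_left h1
  have hprel' : ∀ x : G, x ^ m = 1 → ¬ p ∣ orderOf x := by
    intro x hx h
    have h1 : orderOf x ∣ m := orderOf_dvd_of_pow_eq_one hx
    have h2 : Nat.Coprime p m := Nat.coprime_ordCompl hp hn0
    exact (hp.coprime_iff_not_dvd.1 h2) (h.trans h1)
  have hpel' : ∀ x : G, x ^ q = 1 → (orderOf x).primeFactors ⊆ {p} := by
    intro x hx y hy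
    have h1 : orderOf x ∣ q := orderOf_dvd_of_pow_eq_one hx
    have h2 : y ∣ p ^ _ := (Nat.dvd_of_mem_primeFactors hy).trans h1
    rw [Finset.mem_singleton]
    exact (Nat.prime_dvd_prime_iff_eq (Nat.prime_of_mem_primeFactors hy) hp).1
      ((Nat.prime_of_mem_primeFactors hy).dvd_of_dvd_pow h2)
  have hmods : ∀ x : G, x ^ q = 1 → x ^ s = x ∧ x ^ t = 1 := by
    intro x hx
    have h1 : orderOf x ∣ q := orderOf_dvd_of_pow_eq_one hx
    refine ⟨?_, ?_⟩
    · have : x ^ s = x ^ 1 := pow_eq_pow_iff_modEq.2 (hs1.of_dvd h1)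
      rwa [pow_one] at this
    · have : x ^ t = x ^ 0 := pow_eq_pow_iff_modEq.2 (ht1.of_dvd h1)
      rwa [pow_zero] at this
  have hmodt : ∀ x : G, x ^ m = 1 → x ^ s = 1 ∧ x ^ t = x := by
    intro x hx
    have h1 : orderOf x ∣ m := orderOf_dvd_of_pow_eq_one hx
    refine ⟨?_, ?_⟩
    · have : x ^ s = x ^ 0 := pow_eq_pow_iff_modEq.2 (hs2.of_dvd h1)
      rwa [pow_zero] at this
    · have : x ^ t = x ^ 1 := pow_eq_pow_iff_modEq.2 (ht2.of_dvd h1)
      rwa [pow_one] at this
  have hst : ∀ x : G, x ^ t * x ^ s = x := by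
    intro x
    rw [← pow_add]
    have h1 : t + s ≡ 1 [MOD q * m] := by
      rw [← Nat.modEq_and_modEq_iff_modEq_mul hcop]
      exact ⟨by simpa using ht1.add hs1, by simpa using ht2.add hs2⟩
    have : x ^ (t + s) = x ^ 1 :=
      pow_eq_pow_iff_modEq.2 (h1.of_dvd (hqm ▸ orderOf_dvd_natCard x))
    rwa [pow_one] at this
  have e : (Σ u : {u : G // u ∈ univ.filter (fun u : G => (orderOf u).primeFactors ⊆ σ.erase p)},
      {v : Subgroup.centralizer {(u : G)} // (orderOf v).primeFactors ⊆ {p}}) ≃
      {x : G // (orderOf x).primeFactors ⊆ σ} := by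
    refine Equiv.ofBijective (fun a => ⟨(a.1 : G) * (a.2.1 : G), ?_⟩) ⟨?_, ?_⟩
    · obtain ⟨⟨u, hu⟩, ⟨⟨v, hv1⟩, hv2⟩⟩ := a
      rw [Finset.mem_filter] at hu
      rw [Subgroup.mem_centralizer_singleton_iff] at hv1
      rw [← Subgroup.orderOf_coe] at hv2
      change (orderOf v).primeFactors ⊆ {p} at hv2
      change (orderOf (u * v)).primeFactors ⊆ σ
      have hc : Commute u v := hv1.symm
      have h1 : orderOf (u * v) ∣ orderOf u * orderOf v := hc.orderOf_mul_dvd_mul_orderOf
      refine (Nat.primeFactors_mono h1 (mul_pos (orderOf_pos u) (orderOf_pos v)).ne').trans ?_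
      rw [Nat.primeFactors_mul (orderOf_pos u).ne' (orderOf_pos v).ne']
      apply Finset.union_subset
      · exact hu.2.trans (Finset.erase_subset _ _)
      · exact hv2.trans (Finset.singleton_subset_iff.2 hpσ)
    · rintro ⟨⟨u, hu⟩, ⟨⟨v, hv1⟩, hv2⟩⟩ ⟨⟨u', hu'⟩, ⟨⟨v', hv1'⟩, hv2'⟩⟩ heq
      have heq' : u * v = u' * v' := congrArg Subtype.val heq
      have hu1 := (Finset.mem_filter.1 hu).2
      have hu1' := (Finset.mem_filter.1 hu').2
      have hc1 := Subgroup.mem_centralizer_singleton_iff.1 hv1
      have hc1' := Subgroup.mem_centralizer_singleton_iff.1 hv1'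
      have hc : Commute u v := hc1.symm
      have hc' : Commute u' v' := hc1'.symm
      have hv3 : v ^ q = 1 := hpel v (by rw [← Subgroup.orderOf_coe] at hv2; exact hv2)
      have hv3' : v' ^ q = 1 := hpel v' (by rw [← Subgroup.orderOf_coe] at hv2'; exact hv2')
      have hu3 : u ^ m = 1 := hprel u hu1
      have hu3' : u' ^ m = 1 := hprel u' hu1'
      have hvv : v = v' := by
        have h1 : (u * v) ^ s = v := by
          rw [hc.mul_pow, (hmods v hv3).1, (hmodt u hu3).1, one_mul]
        have h2 : (u' * v') ^ s = v' := by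
          rw [hc'.mul_pow, (hmods v' hv3').1, (hmodt u' hu3').1, one_mul]
        rw [← h1, heq', h2]
      subst hvv
      have huu : u = u' := mul_right_cancel heq'
      subst huu
      rfl
    · rintro ⟨x, hx⟩
      have hs' : (x ^ s) ^ q = 1 := by
        rw [← pow_mul]
        obtain ⟨k, hk⟩ := (Nat.modEq_zero_iff_dvd.1 hs2)
        rw [hk, show m * k * q = (q * m) * k by ring, hqm, pow_mul, pow_card_eq_one', one_pow]
      have ht' : (x ^ t) ^ m = 1 := by
        rw [← pow_mul]
        obtain ⟨k, hk⟩ := (Nat.modEq_zero_iff_dvd.1 ht1)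
        rw [hk, show q * k * m = (q * m) * k by ring, hqm, pow_mul, pow_card_eq_one', one_pow]
      have ha : (orderOf (x ^ t)).primeFactors ⊆ σ.erase p := by
        rw [Finset.subset_erase]
        refine ⟨(Nat.primeFactors_mono (orderOf_pow_dvd t) (orderOf_pos x).ne').trans hx, ?_⟩
        intro h
        exact hprel' _ ht' (Nat.dvd_of_mem_primeFactors h)
      have hb : x ^ s ∈ Subgroup.centralizer {x ^ t} := by
        rw [Subgroup.mem_centralizer_singleton_iff, ← pow_add, ← pow_add, add_comm]
      refine ⟨⟨⟨x ^ t, Finset.mem_filter.2 ⟨Finset.mem_univ _, ha⟩⟩, ⟨⟨x ^ s, hb⟩, ?_⟩⟩, ?_⟩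
      · rw [← Subgroup.orderOf_coe]
        exact hpel' _ hs'
      · apply Subtype.ext
        exact hst x
  unfold el
  rw [← Nat.card_congr e, Nat.card_sigma]
  rw [← Finset.sum_coe_sort (univ.filter (fun u : G => (orderOf u).primeFactors ⊆ σ.erase p))
    (fun u => Nat.card {v : Subgroup.centralizer {u} // (orderOf v).primeFactors ⊆ {p}})]

/-- the central `p'`-elements -/
def zp (G : Type w) [Group G] (p : ℕ) : Subgroup G where
  carrier := {z | z ∈ Subgroup.center G ∧ Nat.Coprime (orderOf z) p}
  one_mem' := by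
    refine ⟨Subgroup.one_mem _, ?_⟩
    rw [orderOf_one]
    exact Nat.coprime_one_left p
  mul_mem' := by
    rintro a b ⟨ha, ha'⟩ ⟨hb, hb'⟩
    refine ⟨Subgroup.mul_mem _ ha hb, ?_⟩
    have hc : Commute a b := (Subgroup.mem_center_iff.1 hb a)
    exact Nat.Coprime.coprime_dvd_left hc.orderOf_mul_dvd_mul_orderOf (ha'.mul_left hb')
  inv_mem' := by
    rintro a ⟨ha, ha'⟩
    refine ⟨Subgroup.inv_mem _ ha, ?_⟩
    rw [orderOf_inv]
    exact ha'

theorem zp_coprime (G : Type w) [Group G] [Finite G] {p : ℕ} (hp : p.Prime) :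
    Nat.Coprime p (Nat.card (zp G p)) := by
  rw [hp.coprime_iff_not_dvd]
  intro h
  haveI := Fact.mk hp
  obtain ⟨x, hx⟩ := exists_prime_orderOf_dvd_card' p h
  have h1 := x.2.2
  rw [Subgroup.orderOf_coe, hx] at h1
  have := (Nat.coprime_self p).1 h1
  exact hp.one_lt.ne' this

theorem el_univ (G : Type w) [Group G] [Finite G] (σ : Finset ℕ)
    (h : (Nat.card G).primeFactors ⊆ σ) : el G σ = Nat.card G := by
  unfold el
  apply Nat.card_congr
  refine Equiv.subtypeUnivEquiv fun x => ?_
  exact (Nat.primeFactors_mono (orderOf_dvd_natCard x) Nat.card_pos.ne').trans h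

/-- Frobenius: the number of `p`-elements -/
theorem frob_p {p : ℕ} (hp : p.Prime) (n : ℕ) : ∀ (G : Type w) [Group G] [Finite G],
    Nat.card G ≤ n → pp p (Nat.card G) ∣ el G {p} := by
  classical
  induction n with
  | zero =>
    intro G _ _ h
    have := Nat.card_pos (α := G)
    omega
  | succ n ih =>
    intro G _ _ hG
    haveI := Fintype.ofFinite G
    set σ : Finset ℕ := insert p (Nat.card G).primeFactors with hσ
    have hpσ : p ∈ σ := Finset.mem_insert_self _ _
    have h1 := decomp (G := G) hp σ hpσ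
    rw [el_univ G σ (Finset.subset_insert _ _)] at h1
    set U := univ.filter (fun u : G => (orderOf u).primeFactors ⊆ σ.erase p) with hU
    have hmemU : ∀ u : G, u ∈ U ↔ Nat.Coprime (orderOf u) p := by
      intro u
      rw [hU, Finset.mem_filter, Finset.subset_erase, Nat.coprime_comm, hp.coprime_iff_not_dvd]
      constructor
      · rintro ⟨_, _, h⟩ h'
        exact h (Nat.mem_primeFactors.2 ⟨hp, h', (orderOf_pos u).ne'⟩)
      · intro h
        refine ⟨Finset.mem_univ _, ?_, fun h' => h (Nat.dvd_of_mem_primeFactors h')⟩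
        exact (Nat.primeFactors_mono (orderOf_dvd_natCard u) Nat.card_pos.ne').trans
          (Finset.subset_insert _ _)
    rw [← Finset.sum_filter_add_sum_filter_not U (fun u => u ∈ Subgroup.center G)] at h1
    have hcen : ∑ u ∈ U.filter (fun u => u ∈ Subgroup.center G),
        el (Subgroup.centralizer {u}) {p} = Nat.card (zp G p) * el G {p} := by
      have h2 : ∀ u ∈ U.filter (fun u => u ∈ Subgroup.center G),
          el (Subgroup.centralizer {u}) {p} = el G {p} := by
        intro u hu
        have h3 := (Finset.mem_filter.1 hu).2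
        have h4 : Subgroup.centralizer {u} = ⊤ := by
          rw [Subgroup.eq_top_iff']
          intro x
          rw [Subgroup.mem_centralizer_singleton_iff]
          exact Subgroup.mem_center_iff.1 h3 x
        exact el_congr ((MulEquiv.subgroupCongr h4).trans Subgroup.topEquiv) {p}
      rw [Finset.sum_congr rfl h2, Finset.sum_const, smul_eq_mul]
      congr 1
      rw [← SetLike.coe_sort_coe, Nat.card_coe_set_eq, ← Set.ncard_coe_finset]
      congr 1
      ext u
      rw [Finset.coe_filter]
      change u ∈ U ∧ u ∈ Subgroup.center G ↔ u ∈ Subgroup.center G ∧ Nat.Coprime (orderOf u) p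
      rw [hmemU, and_comm]
    have hnon : pp p (Nat.card G) ∣ ∑ u ∈ U.filter (fun u => u ∉ Subgroup.center G),
        el (Subgroup.centralizer {u}) {p} := by
      apply dvd_sum_classes p
      · intro u hu g
        rw [Finset.mem_filter, hmemU] at hu ⊢
        refine ⟨?_, ?_⟩
        · have : orderOf (g * u * g⁻¹) = orderOf u := by
            have := orderOf_injective (MulAut.conj g).toMonoidHom (MulAut.conj g).injective u
            exact this
          rw [this]
          exact hu.1
        · intro h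
          apply hu.2
          have h5 := Subgroup.mem_center_iff.1 h g
          have h6 : g * u * g⁻¹ = u := by
            have : g * (g * u * g⁻¹) = g * u := by rw [h5]; group
            exact mul_left_cancel this
          rw [← h6]
          exact h
      · intro u g
        obtain ⟨e⟩ := cent_conj_equiv u g
        exact (el_congr e {p}).symm
      · intro u hu
        have h3 := (Finset.mem_filter.1 hu).2
        apply ih
        have h4 : Subgroup.centralizer {u} ≠ ⊤ := by
          intro h
          apply h3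
          rw [Subgroup.mem_center_iff]
          intro g
          have : g ∈ Subgroup.centralizer {u} := h ▸ Subgroup.mem_top g
          exact Subgroup.mem_centralizer_singleton_iff.1 this
        have h5 : Nat.card (Subgroup.centralizer {u}) < Nat.card G := by
          apply lt_of_le_of_ne (Subgroup.card_le_card_group _)
          intro h
          exact h4 (Subgroup.eq_top_of_card_eq _ h)
        omega
    rw [hcen] at h1
    have h6 : pp p (Nat.card G) ∣ Nat.card (zp G p) * el G {p} := by
      have h7 : pp p (Nat.card G) ∣ Nat.card G := pp_dvd _ _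
      conv_rhs at h7 => rw [h1]
      exact (Nat.dvd_add_left hnon).1 h7
    exact (Nat.Coprime.pow_left _ (zp_coprime G hp)).dvd_of_dvd_mul_left h6

/-- Frobenius: the number of `σ`-elements -/
theorem frob {p : ℕ} (hp : p.Prime) (G : Type w) [Group G] [Finite G] (σ : Finset ℕ)
    (hpσ : p ∈ σ) : pp p (Nat.card G) ∣ el G σ := by
  classical
  haveI := Fintype.ofFinite G
  rw [decomp hp σ hpσ]
  apply dvd_sum_classes p
  · intro u hu g
    rw [Finset.mem_filter] at hu ⊢
    refine ⟨Finset.mem_univ _, ?_⟩
    have : orderOf (g * u * g⁻¹) = orderOf u := by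
      have := orderOf_injective (MulAut.conj g).toMonoidHom (MulAut.conj g).injective u
      exact this
    rw [this]
    exact hu.2
  · intro u g
    obtain ⟨e⟩ := cent_conj_equiv u g
    exact (el_congr e {p}).symm
  · intro u _
    exact frob_p hp _ _ le_rfl

end Pool.Agent.R679.Star
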