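import Mathlib

/-!
Finite transducers, rational cones, bounded languages.
-/

namespace Pool.Agent.R679.Tr

/-- A finite transducer: finitely many states, every transition reads at most one letter and
writes at most one letter (`none` stands for the empty word). -/
structure Transducer (α β : Type) where
  /-- states -/
  σ : Type
  /-- finitely many states -/
  fin : Finite σ
  /-- transitions -/
  trans : σ → Option α → Option β → σ → Prop
  /-- initial states -/
  start : σ → Prop
  /-- final states -/
  final : σ → Prop

variable {α β γ : Type}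

/-- `Path T p u v q`: there is a path from `p` to `q` that reads `u` and writes `v`. -/
inductive Path (T : Transducer α β) : T.σ → List α → List β → T.σ → Prop
  | nil (p : T.σ) : Path T p [] [] p
  | cons {p p' q : T.σ} {x : Option α} {y : Option β} {u : List α} {v : List β} :
      T.trans p x y p' → Path T p' u v q → Path T p (x.toList ++ u) (y.toList ++ v) q

/-- the rational relation defined by a transducer -/
def Transducer.rel (T : Transducer α β) (u : List α) (v : List β) : Prop :=
  ∃ p q, T.start p ∧ T.final q ∧ Path T p u v q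

/-- the image of a language under a rational transduction -/
def Transducer.image (T : Transducer α β) (L : Language α) : Language β :=
  {v | ∃ u ∈ L, T.rel u v}

/-- A family of languages over the finite alphabets `Fin n`. -/
def Family : Type := ∀ n : ℕ, Set (Language (Fin n))

/-- A rational cone: a family of languages closed under rational transductions. -/
def IsCone (C : Family) : Prop :=
  ∀ (n m : ℕ) (T : Transducer (Fin n) (Fin m)) (L : Language (Fin n)), L ∈ C n →
    T.image L ∈ C m

/-- `T(L)`: the smallest rational cone containing `L`. -/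
def gen {n : ℕ} (L : Language (Fin n)) : Family :=
  fun m => {K | ∀ C : Family, IsCone C → L ∈ C n → K ∈ C m}

/-- bounded of degree `k`: contained in `w₁* w₂* ⋯ w_k*` for some words `w₁, …, w_k`. -/
def BoundedDeg (k : ℕ) (L : Language α) : Prop :=
  ∃ w : Fin k → List α, ∀ u ∈ L, ∃ e : Fin k → ℕ,
    u = (List.ofFn fun i => (List.replicate (e i) (w i)).flatten).flatten

/-- `C` is minimal with respect to bounded languages of degree `k`: every bounded language of
degree `k` in `C` is regular or generates `C`. -/
def MinimalWrt (k : ℕ) (C : Family) : Prop :=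
  ∀ (n : ℕ) (L : Language (Fin n)), L ∈ C n → BoundedDeg k L → L.IsRegular ∨ gen L = C

/-! ### Basic lemmas on paths -/

lemma Path.append {T : Transducer α β} {p q r : T.σ} {u u' : List α} {v v' : List β}
    (h : Path T p u v q) (h' : Path T q u' v' r) : Path T p (u ++ u') (v ++ v') r := by
  induction h with
  | nil p => simpa using h'
  | cons ht _ ih =>
    rw [List.append_assoc, List.append_assoc]
    exact Path.cons ht (ih h')

/-- exchange input and output -/
def Transducer.swap (T : Transducer α β) : Transducer β α where
  σ := T.σ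
  fin := T.fin
  trans p y x q := T.trans p x y q
  start := T.start
  final := T.final

lemma Path.swap {T : Transducer α β} {p q : T.σ} {u : List α} {v : List β}
    (h : Path T p u v q) : Path T.swap p v u q := by
  induction h with
  | nil p => exact Path.nil (T := T.swap) p
  | cons ht _ ih => exact Path.cons (T := T.swap) ht ih

lemma Path.unswap {T : Transducer α β} {p q : T.σ} {u : List α} {v : List β}
    (h : Path T.swap p v u q) : Path T p u v q := h.swap

lemma Path.split_out {T : Transducer α β} {p q : T.σ} {u : List α} {v : List β}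
    (h : Path T p u v q) : ∀ {v1 v2 : List β}, v = v1 ++ v2 →
    ∃ r u1 u2, u = u1 ++ u2 ∧ Path T p u1 v1 r ∧ Path T r u2 v2 q := by
  induction h with
  | nil p =>
    intro v1 v2 h
    obtain ⟨rfl, rfl⟩ := List.append_eq_nil_iff.1 h.symm
    exact ⟨p, [], [], rfl, Path.nil p, Path.nil p⟩
  | @cons p p' q x y u v ht hp ih =>
    intro v1 v2 h
    cases v1 with
    | nil =>
      refine ⟨p, [], x.toList ++ u, rfl, Path.nil p, ?_⟩
      rw [List.nil_append] at h
      rw [← h]
      exact Path.cons ht hp
    | cons b v1 =>
      cases y with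
      | none =>
        obtain ⟨r, u1, u2, rfl, h1, h2⟩ := ih (v1 := b :: v1) (v2 := v2) (by simpa using h)
        exact ⟨r, x.toList ++ u1, u2, by simp, by simpa using Path.cons ht h1, h2⟩
      | some y =>
        simp only [Option.toList_some, List.cons_append, List.nil_append, List.cons.injEq] at h
        obtain ⟨rfl, h⟩ := h
        obtain ⟨r, u1, u2, rfl, h1, h2⟩ := ih h
        exact ⟨r, x.toList ++ u1, u2, by simp, by simpa using Path.cons ht h1, h2⟩

lemma Path.split_in {T : Transducer α β} {p q : T.σ} {u1 u2 : List α} {v : List β}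
    (h : Path T p (u1 ++ u2) v q) :
    ∃ r v1 v2, v = v1 ++ v2 ∧ Path T p u1 v1 r ∧ Path T r u2 v2 q := by
  obtain ⟨r, v1, v2, h1, h2, h3⟩ := h.swap.split_out rfl
  exact ⟨r, v1, v2, h1, h2.unswap, h3.unswap⟩

/-- isolate the transition that reads the first letter -/
lemma Path.uncons_in {T : Transducer α β} {p q : T.σ} {l : α} {w : List α} {v : List β}
    (h : Path T p w v q) : ∀ {u : List α}, w = l :: u →
    ∃ p' p'' v1 y v2, v = v1 ++ (Option.toList y ++ v2) ∧ Path T p [] v1 p' ∧
      T.trans p' (some l) y p'' ∧ Path T p'' u v2 q := by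
  induction h with
  | nil p => intro u h; simp at h
  | @cons p p' q x y u' v ht hp ih =>
    intro u h
    cases x with
    | none =>
      obtain ⟨r, r', v1, y', v2, rfl, h1, h2, h3⟩ := ih (by simpa using h)
      exact ⟨r, r', y.toList ++ v1, y', v2, by simp, by simpa using Path.cons ht h1, h2, h3⟩
    | some x =>
      simp only [Option.toList_some, List.cons_append, List.nil_append, List.cons.injEq] at h
      obtain ⟨rfl, rfl⟩ := h
      exact ⟨p, p', [], y, v, rfl, Path.nil p, ht, hp⟩

/-! ### Composition -/

/-- composition of transducers -/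
def Transducer.comp (S : Transducer α β) (T : Transducer β γ) : Transducer α γ where
  σ := S.σ × T.σ
  fin := by
    haveI := S.fin
    haveI := T.fin
    infer_instance
  trans p x z q :=
    (∃ y, S.trans p.1 x (some y) q.1 ∧ T.trans p.2 (some y) z q.2) ∨
    (S.trans p.1 x none q.1 ∧ z = none ∧ p.2 = q.2) ∨
    (T.trans p.2 none z q.2 ∧ x = none ∧ p.1 = q.1)
  start p := S.start p.1 ∧ T.start p.2
  final p := S.final p.1 ∧ T.final p.2

lemma comp_sound {S : Transducer α β} {T : Transducer β γ} {p q : (S.comp T).σ} {u : List α}
    {w : List γ} (h : Path (S.comp T) p u w q) :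
    ∃ v, Path S p.1 u v q.1 ∧ Path T p.2 v w q.2 := by
  induction h with
  | nil p => exact ⟨[], Path.nil _, Path.nil _⟩
  | @cons p p' q x z u w ht _ ih =>
    obtain ⟨v, h1, h2⟩ := ih
    rcases ht with ⟨y, ha, hb⟩ | ⟨ha, rfl, hb⟩ | ⟨ha, rfl, hb⟩
    · exact ⟨y :: v, by simpa using Path.cons ha h1, by simpa using Path.cons hb h2⟩
    · refine ⟨v, by simpa using Path.cons ha h1, ?_⟩
      rw [hb]
      simpa using h2
    · refine ⟨v, ?_, by simpa using Path.cons ha h2⟩
      rw [hb]
      simpa using h1

lemma comp_eps {S : Transducer α β} {T : Transducer β γ} {q q' : T.σ} {v : List β} {w : List γ}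
    (h : Path T q v w q') : v = [] → ∀ p : S.σ, Path (S.comp T) (p, q) [] w (p, q') := by
  induction h with
  | nil q => intro _ p; exact Path.nil (T := S.comp T) (p, q)
  | @cons q1 q2 q3 x z v w ht _ ih =>
    intro hv p
    obtain ⟨h1, h2⟩ := List.append_eq_nil_iff.1 hv
    have hx : x = none := by
      cases x with
      | none => rfl
      | some x => simp at h1
    subst hx
    have ht' : (S.comp T).trans (p, q1) none z (p, q2) := Or.inr (Or.inr ⟨ht, rfl, rfl⟩)
    have := Path.cons (T := S.comp T) ht' (ih h2 p)
    simpa using this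

lemma comp_complete {S : Transducer α β} {T : Transducer β γ} {p p' : S.σ} {u : List α}
    {v : List β} (h : Path S p u v p') : ∀ {q q' : T.σ} {w : List γ}, Path T q v w q' →
    Path (S.comp T) (p, q) u w (p', q') := by
  induction h with
  | nil p => intro q q' w h'; exact comp_eps h' rfl p
  | @cons p1 p2 p3 x y u v ht _ ih =>
    intro q q' w h'
    cases y with
    | none =>
      have h2 := ih (by simpa using h')
      have ht' : (S.comp T).trans (p1, q) x none (p2, q) := Or.inr (Or.inl ⟨ht, rfl, rfl⟩)
      simpa using Path.cons (T := S.comp T) ht' h2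
    | some y =>
      obtain ⟨q1, q2, w1, z, w2, rfl, h1, h2, h3⟩ := h'.uncons_in (l := y) (u := v) (by simp)
      have e1 := comp_eps (S := S) h1 rfl p1
      have ht' : (S.comp T).trans (p1, q1) x z (p2, q2) := Or.inl ⟨y, ht, h2⟩
      have := e1.append (Path.cons (T := S.comp T) ht' (ih h3))
      simpa using this

lemma image_comp (S : Transducer α β) (T : Transducer β γ) (L : Language α) :
    T.image (S.image L) = (S.comp T).image L := by
  ext w
  constructor
  · rintro ⟨v, ⟨u, hu, p, p', hp, hp', h⟩, q, q', hq, hq', h'⟩
    exact ⟨u, hu, (p, q), (p', q'), ⟨hp, hq⟩, ⟨hp', hq'⟩, comp_complete h h'⟩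
  · rintro ⟨u, hu, p, q, hp, hq, h⟩
    obtain ⟨v, h1, h2⟩ := comp_sound h
    exact ⟨v, ⟨u, hu, p.1, q.1, hp.1, hq.1, h1⟩, p.2, q.2, hp.2, hq.2, h2⟩

/-- the identity transducer -/
def idT (α : Type) : Transducer α α where
  σ := Unit
  fin := inferInstance
  trans _ x y _ := ∃ a, x = some a ∧ y = some a
  start _ := True
  final _ := True

lemma idT_path {u v : List α} {p q : (idT α).σ} (h : Path (idT α) p u v q) : u = v := by
  induction h with
  | nil => rfl
  | cons ht _ ih =>
    obtain ⟨a, rfl, rfl⟩ := ht
    rw [ih]

lemma idT_refl (u : List α) (p : (idT α).σ) : Path (idT α) p u u p := by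
  induction u with
  | nil => exact Path.nil p
  | cons a u ih =>
    have ht : (idT α).trans p (some a) (some a) p := ⟨a, rfl, rfl⟩
    simpa using Path.cons ht ih

lemma image_id (L : Language α) : (idT α).image L = L := by
  ext v
  constructor
  · rintro ⟨u, hu, p, q, _, _, h⟩
    rw [← idT_path h]
    exact hu
  · intro hv
    exact ⟨v, hv, (), (), trivial, trivial, idT_refl v ()⟩

/-- the smallest cone containing `L` consists of the images of `L` -/
lemma mem_gen_iff {n m : ℕ} (L : Language (Fin n)) (K : Language (Fin m)) :
    K ∈ gen L m ↔ ∃ T : Transducer (Fin n) (Fin m), K = T.image L := by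
  constructor
  · intro h
    let C : Family := fun m => {K | ∃ T : Transducer (Fin n) (Fin m), K = T.image L}
    apply h C
    · rintro n' m' T L' ⟨S, rfl⟩
      exact ⟨S.comp T, image_comp S T L⟩
    · exact ⟨idT (Fin n), (image_id L).symm⟩
  · rintro ⟨T, rfl⟩ C hC hL
    exact hC n m T L hL

end Pool.Agent.R679.Tr
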