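import Pool.Agent.R679.Tr9

/-!
`T(S_≠^{(k)})` is minimal with respect to bounded languages of degree `k`, for `k ≥ 3`.
-/

namespace Pool.Agent.R679.Tr

variable {k : ℕ}

/-- `S_≠^{(k)} = {a_1^{n_1} ⋯ a_k^{n_k} : n_j ≠ n_{j+1} for some j}` over the alphabet `Fin k` -/
def Sne (k : ℕ) : Language (Fin k) :=
  {w | ∃ n : Fin k → ℕ, (∃ i j : Fin k, (i : ℕ) + 1 = j ∧ n i ≠ n j) ∧
    w = (List.ofFn fun t => List.replicate (n t) t).flatten}

lemma NC_iff (n : Fin k → ℕ) : NC n ↔ ∃ i j : Fin k, (i : ℕ) + 1 = j ∧ n i ≠ n j := by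
  constructor
  · intro h
    by_contra hcon
    push Not at hcon
    obtain ⟨a, b, hab⟩ := h
    apply hab
    have hk : 0 < k := lt_of_le_of_lt (Nat.zero_le _) a.2
    have key : ∀ m : ℕ, ∀ hm : m < k, n ⟨m, hm⟩ = n ⟨0, hk⟩ := by
      intro m
      induction m with
      | zero => intro _; rfl
      | succ m ih =>
        intro hm
        rw [← ih (by omega)]
        exact (hcon ⟨m, by omega⟩ ⟨m + 1, hm⟩ rfl).symm
    exact (key a a.2).trans (key b b.2).symm
  · rintro ⟨i, j, _, h⟩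
    exact ⟨i, j, h⟩

lemma mem_Sne (n : Fin k → ℕ) : wk n ∈ Sne k ↔ NC n := by
  constructor
  · rintro ⟨n', h, h'⟩
    have : n = n' := by
      rw [← cnt_wk n, ← cnt_wk n']
      exact congrArg cnt h'
    rw [this]
    exact (NC_iff n').2 h
  · intro h
    exact ⟨n, (NC_iff n).1 h, rfl⟩

lemma Sne_wk {w : List (Fin k)} (hw : w ∈ Sne k) : ∃ n, NC n ∧ w = wk n := by
  obtain ⟨n, h, h'⟩ := hw
  exact ⟨n, (NC_iff n).2 h, h'⟩

lemma swap_rel {α β : Type} (T : Transducer α β) (u : List α) (v : List β) :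
    T.swap.rel v u ↔ T.rel u v := by
  constructor
  · rintro ⟨p, q, hp, hq, h⟩
    exact ⟨p, q, hp, hq, h.unswap⟩
  · rintro ⟨p, q, hp, hq, h⟩
    exact ⟨p, q, hp, hq, h.swap⟩

lemma gen_sub {n m : ℕ} {L : Language (Fin n)} {K : Language (Fin m)} (h : K ∈ gen L m) :
    ∀ (r : ℕ) (M : Language (Fin r)), M ∈ gen K r → M ∈ gen L r :=
  fun _ _ hM C hC hL => hM C hC (h C hC hL)

lemma gen_eq {n m : ℕ} {L : Language (Fin n)} {K : Language (Fin m)} (h : K ∈ gen L m)
    (h' : L ∈ gen K n) : gen K = gen L := by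
  funext r
  apply Set.Subset.antisymm
  · exact fun M hM => gen_sub h r M hM
  · exact fun M hM => gen_sub h' r M hM

lemma self_mem_gen {n : ℕ} (L : Language (Fin n)) : L ∈ gen L n := fun _ _ hL => hL

lemma image_mem_gen {n m : ℕ} (L : Language (Fin n)) (T : Transducer (Fin n) (Fin m)) :
    T.image L ∈ gen L m := fun _ hC hL => hC _ _ T L hL

lemma pw_rep (D n : ℕ) (t : Fin k) : pw (List.replicate D t) n = List.replicate (D * n) t := by
  unfold pw
  induction n with
  | zero => simp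
  | succ n ih =>
    rw [List.replicate_succ, List.flatten_cons, ih, ← List.replicate_add]
    congr 1
    ring

/-- all words `wk n` -/
def FullL (k : ℕ) : Language (Fin k) := {w | ∃ n : Fin k → ℕ, w = wk n}

/-- the words `wk` of small constant vectors -/
def SmallL (k C0 : ℕ) : Language (Fin k) := {w | ∃ c ≤ C0, w = wk (fun _ => c)}

/-- the words outside that are related to a long constant vector -/
def KLL (k C0 : ℕ) (l : List (MM k × Finset (MM k))) : Language (Fin k) :=
  {w | ∃ x, (x ∉ Lx l ∧ ∃ c, C0 < c ∧ ∃ ρ ∈ l, ((fun _ => c : Fin k → ℕ), x) ∈ LinS ρ) ∧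
    w = wk x}

/-- the strictly bounded case -/
lemma strict_case (hk : 3 ≤ k) (T : Transducer (Fin k) (Fin k)) (L : Language (Fin k))
    (hL : L = T.image (Sne k)) (hwk : ∀ w ∈ L, ∃ x, w = wk x)
    (hrel : ∀ u v, T.rel u v → ∃ x, v = wk x) : L.IsRegular ∨ Sne k ∈ gen L k := by
  classical
  obtain ⟨l, hgen, hl⟩ := RR_GLU T (by omega : 0 < k)
  have hR : ∀ n x, T.rel (wk n) (wk x) ↔ ∃ ρ ∈ l, ((n, x) : MM k) ∈ LinS ρ := by
    intro n x
    have : ((n, x) : MM k) ∈ RR T ↔ ((n, x) : MM k) ∈ {m | ∃ ρ ∈ l, m ∈ LinS ρ} := by rw [hl]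
    exact this
  have hLx : ∀ x, wk x ∈ L ↔ x ∈ Lx l := by
    intro x
    rw [hL]
    constructor
    · rintro ⟨u, hu, h⟩
      obtain ⟨n, hn, rfl⟩ := Sne_wk hu
      exact ⟨n, hn, (hR n x).1 h⟩
    · rintro ⟨n, hn, h⟩
      exact ⟨wk n, (mem_Sne n).2 hn, (hR n x).2 h⟩
  obtain ⟨C0, hfin | ⟨z, D, hzD⟩⟩ := dichotomy hk hgen
  · left
    -- all words `wk n`
    obtain ⟨T0, hT0⟩ := isRat_B (α := Fin k) (k := k) (fun _ => []) (fun _ => [])
    have hFull : (FullL k).IsRegular := by
      have : FullL k = T0.image {[]} := by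
        ext w
        constructor
        · rintro ⟨n, rfl⟩
          refine ⟨[], rfl, (hT0 _ _).2 ⟨n, ?_, rfl⟩⟩
          simp [pw]
        · rintro ⟨u, _, h⟩
          obtain ⟨n, _, rfl⟩ := (hT0 _ _).1 h
          exact ⟨n, rfl⟩
      rw [this]
      exact image_regular T0 (finite_regular (Set.finite_singleton _))
    have hSmall : (SmallL k C0).IsRegular := by
      apply finite_regular
      have : (SmallL k C0 : Set (List (Fin k))) =
          (fun c => wk (fun _ => c)) '' Set.Iic C0 := by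
        ext w
        constructor
        · rintro ⟨c, hc, rfl⟩; exact ⟨c, hc, rfl⟩
        · rintro ⟨c, hc, rfl⟩; exact ⟨c, hc, rfl⟩
      exact this ▸ (Set.finite_Iic C0).image _
    have hKL : (KLL k C0 l).IsRegular := by
      apply finite_regular
      apply (hfin.image wk).subset
      rintro w ⟨x, hx, rfl⟩
      exact ⟨x, hx, rfl⟩
    have hU := image_regular T (hFull.inf hSmall.compl)
    have heq : L = T.image (FullL k ⊓ (SmallL k C0)ᶜ) ⊓ (KLL k C0 l)ᶜ := by
      ext w
      constructor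
      · intro hw
        obtain ⟨x, rfl⟩ := hwk w hw
        refine ⟨?_, ?_⟩
        · obtain ⟨n, hn, h⟩ := (hLx x).1 hw
          refine ⟨wk n, ⟨⟨n, rfl⟩, ?_⟩, (hR n x).2 h⟩
          rintro ⟨c, _, h'⟩
          have : n = fun _ => c := by
            rw [← cnt_wk n, ← cnt_wk (fun _ : Fin k => c)]
            exact congrArg cnt h'
          obtain ⟨a, b, hab⟩ := hn
          rw [this] at hab
          exact hab rfl
        · rintro ⟨x', ⟨hx', _⟩, h'⟩
          have : x = x' := by
            rw [← cnt_wk x, ← cnt_wk x']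
            exact congrArg cnt h'
          rw [← this] at hx'
          exact hx' ((hLx x).1 hw)
      · rintro ⟨⟨u, ⟨⟨n, rfl⟩, hu⟩, h⟩, hw⟩
        obtain ⟨x, rfl⟩ := hrel _ _ h
        rw [hLx]
        by_contra hx
        have hnc : ¬ NC n := fun hn => hx ⟨n, hn, (hR n x).1 h⟩
        have hk0 : 0 < k := by omega
        have hn : n = fun _ => n ⟨0, hk0⟩ := funext fun a => not_NC hnc a _
        apply hw
        refine ⟨x, ⟨hx, n ⟨0, hk0⟩, ?_, ?_⟩, rfl⟩
        · by_contra hc
          exact hu ⟨n ⟨0, hk0⟩, not_lt.1 hc, by rw [← hn]⟩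
        · rw [← hn]
          exact (hR n x).1 h
    rw [heq]
    exact hU.inf hKL.compl
  · right
    obtain ⟨T2, hT2⟩ := isRat_B (α := Fin k) (k := k) (fun t => List.replicate (z t) t)
      (fun t => List.replicate (D t) t)
    have : Sne k = T2.image L := by
      ext w
      have hword : ∀ x : Fin k → ℕ, (List.ofFn fun t => List.replicate (z t) t ++
          pw (List.replicate (D t) t) (x t)).flatten = wk (fun t => z t + D t * x t) := by
        intro x
        unfold wk
        congr 2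
        funext t
        rw [pw_rep, List.replicate_add]
      constructor
      · intro hw
        obtain ⟨n, hn, rfl⟩ := Sne_wk hw
        refine ⟨wk (fun t => z t + D t * n t), (hLx _).2 ((hzD n).2 hn), (hT2 _ _).2
          ⟨n, (hword n).symm, rfl⟩⟩
      · rintro ⟨u, hu, h⟩
        obtain ⟨x, rfl, rfl⟩ := (hT2 _ _).1 h
        rw [hword, hLx, hzD] at hu
        exact (mem_Sne x).2 hu
    rw [this]
    exact image_mem_gen L T2

/-- For `k ≥ 3` the cone `T(S_≠^{(k)})` is minimal with respect to bounded languages of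
degree `k`. -/
theorem minimal_Sne (hk : 3 ≤ k) : MinimalWrt k (gen (Sne k)) := by
  intro n0 L hL hbd
  obtain ⟨w, hw⟩ := hbd
  obtain ⟨T, rfl⟩ := (mem_gen_iff _ _).1 hL
  obtain ⟨TB, hTB⟩ := isRat_B (α := Fin n0) (k := k) (fun _ => []) w
  have hTB' : ∀ u v, TB.rel u v ↔ ∃ x : Fin k → ℕ,
      u = (List.ofFn fun t => (List.replicate (x t) (w t)).flatten).flatten ∧ v = wk x := by
    intro u v
    rw [hTB]
    simp only [List.nil_append]
    rfl
  set L := T.image (Sne k) with hLdef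
  have hback : TB.swap.image (TB.image L) = L := by
    ext u
    constructor
    · rintro ⟨v, ⟨u', hu', h1⟩, h2⟩
      rw [swap_rel] at h2
      obtain ⟨x, rfl, rfl⟩ := (hTB' _ _).1 h1
      obtain ⟨x', rfl, h3⟩ := (hTB' _ _).1 h2
      have : x = x' := by
        rw [← cnt_wk x, ← cnt_wk x', h3]
      rw [← this]
      exact hu'
    · intro hu
      obtain ⟨e, he⟩ := hw u hu
      refine ⟨wk e, ⟨u, hu, (hTB' _ _).2 ⟨e, he, rfl⟩⟩, ?_⟩
      rw [swap_rel]
      exact (hTB' _ _).2 ⟨e, he, rfl⟩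
  rcases strict_case hk (T.comp TB) (TB.image L) (by rw [hLdef, image_comp]) (by
      rintro v ⟨u, _, h⟩
      obtain ⟨x, _, rfl⟩ := (hTB' _ _).1 h
      exact ⟨x, rfl⟩) (by
      rintro u v ⟨p, q, hp, hq, h⟩
      obtain ⟨v', _, h2⟩ := comp_sound h
      obtain ⟨x, _, rfl⟩ := (hTB' _ _).1 ⟨p.2, q.2, hp.2, hq.2, h2⟩
      exact ⟨x, rfl⟩) with h | h
  · left
    rw [← hback]
    exact image_regular _ h
  · right
    apply gen_eq hL
    exact gen_sub (image_mem_gen L TB) _ _ h

end Pool.Agent.R679.Tr
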