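import Pool.Agent.R679.Tr1

/-!
Pumping in homogeneous segments of paths of transducers.
-/

namespace Pool.Agent.R679.Tr

variable {α β : Type}

/-- a path reading `l^i` and writing `o^j` -/
def Seg (T : Transducer α β) (l : α) (o : β) (p q : T.σ) (i j : ℕ) : Prop :=
  Path T p (List.replicate i l) (List.replicate j o) q

lemma Seg.append {T : Transducer α β} {l : α} {o : β} {p q r : T.σ} {i j i' j' : ℕ}
    (h : Seg T l o p q i j) (h' : Seg T l o q r i' j') : Seg T l o p r (i + i') (j + j') := by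
  unfold Seg at *
  rw [List.replicate_add, List.replicate_add]
  exact Path.append h h'

lemma Seg.refl (T : Transducer α β) (l : α) (o : β) (p : T.σ) : Seg T l o p p 0 0 := Path.nil p

lemma Seg.split {T : Transducer α β} {l : α} {o : β} {p q : T.σ} {i j1 j2 : ℕ}
    (h : Seg T l o p q i (j1 + j2)) :
    ∃ r i1 i2, i = i1 + i2 ∧ Seg T l o p r i1 j1 ∧ Seg T l o r q i2 j2 := by
  unfold Seg at h
  rw [List.replicate_add] at h
  obtain ⟨r, u1, u2, h1, h2, h3⟩ := h.split_out rfl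
  have := List.append_eq_replicate_iff.1 h1.symm
  refine ⟨r, u1.length, u2.length, this.1.symm, ?_, ?_⟩
  · unfold Seg
    rw [← this.2.1]
    exact h2
  · unfold Seg
    rw [← this.2.2]
    exact h3

lemma Seg.loop {T : Transducer α β} {l : α} {o : β} {p : T.σ} {i j : ℕ}
    (h : Seg T l o p p i j) (t : ℕ) : Seg T l o p p (t * i) (t * j) := by
  induction t with
  | zero => simpa using Seg.refl T l o p
  | succ t ih =>
    have := ih.append h
    rw [add_mul, one_mul, add_mul, one_mul]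
    exact this

/-- chain of intermediate states after each output letter -/
lemma Seg.chain {T : Transducer α β} {l : α} {o : β} {p q : T.σ} {i j : ℕ}
    (h : Seg T l o p q i j) (n : ℕ) (hn : n ≤ j) : ∃ (r : ℕ → T.σ) (m : ℕ → ℕ),
      (∀ k ≤ n, m k ≤ i ∧ Seg T l o p (r k) (m k) k ∧ Seg T l o (r k) q (i - m k) (j - k)) ∧
      (∀ k k', k ≤ k' → k' ≤ n → m k ≤ m k' ∧ Seg T l o (r k) (r k') (m k' - m k) (k' - k)) := by
  induction n with
  | zero =>
    refine ⟨fun _ => p, fun _ => 0, ?_, ?_⟩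
    · intro k hk
      obtain rfl : k = 0 := by omega
      exact ⟨Nat.zero_le _, Seg.refl T l o p, h⟩
    · intro k k' h1 h2
      obtain rfl : k' = 0 := by omega
      obtain rfl : k = 0 := by omega
      exact ⟨le_rfl, Seg.refl T l o p⟩
  | succ n ih =>
    obtain ⟨r, m, h1, h2⟩ := ih (by omega)
    obtain ⟨hm, h3, h4⟩ := h1 n le_rfl
    rw [show j - n = 1 + (j - (n + 1)) by omega] at h4
    obtain ⟨r', i1, i2, hi, h5, h6⟩ := h4.split
    refine ⟨fun k => if k ≤ n then r k else r', fun k => if k ≤ n then m k else m n + i1, ?_, ?_⟩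
    · intro k hk
      by_cases hkn : k ≤ n
      · simp only [if_pos hkn]
        exact h1 k hkn
      · obtain rfl : k = n + 1 := by omega
        simp only [if_neg hkn]
        refine ⟨by omega, h3.append h5, ?_⟩
        rw [show i - (m n + i1) = i2 by omega]
        exact h6
    · intro k k' hkk hk'
      by_cases hkn' : k' ≤ n
      · have hkn : k ≤ n := by omega
        simp only [if_pos hkn, if_pos hkn']
        exact h2 k k' hkk hkn'
      · obtain rfl : k' = n + 1 := by omega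
        by_cases hkn : k ≤ n
        · simp only [if_pos hkn, if_neg hkn']
          obtain ⟨h7, h8⟩ := h2 k n hkn le_rfl
          refine ⟨by omega, ?_⟩
          have := h8.append h5
          rw [show m n + i1 - m k = m n - m k + i1 by omega,
            show n + 1 - k = n - k + 1 by omega]
          exact this
        · obtain rfl : k = n + 1 := by omega
          simp only [if_neg hkn]
          rw [Nat.sub_self, Nat.sub_self]
          exact ⟨le_rfl, Seg.refl T l o r'⟩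

lemma Seg.pump_out {T : Transducer α β} {l : α} {o : β} {p q : T.σ} {i j : ℕ}
    (h : Seg T l o p q i j) (hj : Nat.card T.σ ≤ j) : ∃ i' j', i' ≤ i ∧ 1 ≤ j' ∧
      j' ≤ Nat.card T.σ ∧ ∀ t, Seg T l o p q (i + t * i') (j + t * j') := by
  classical
  haveI := T.fin
  haveI := Fintype.ofFinite T.σ
  obtain ⟨r, m, h1, h2⟩ := h.chain (Nat.card T.σ) hj
  obtain ⟨a, b, hab, hr⟩ : ∃ a b : Fin (Nat.card T.σ + 1), a ≠ b ∧ r a = r b := by
    apply Fintype.exists_ne_map_eq_of_card_lt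
    rw [Fintype.card_fin, Nat.card_eq_fintype_card]
    omega
  -- order the two indices
  obtain ⟨k, k', hkk, hk', hr'⟩ : ∃ k k', k < k' ∧ k' ≤ Nat.card T.σ ∧ r k = r k' := by
    have ha := a.2
    have hb := b.2
    rcases lt_or_gt_of_ne (fun h => hab (Fin.ext h) : (a : ℕ) ≠ b) with h | h
    · exact ⟨a, b, h, by omega, hr⟩
    · exact ⟨b, a, h, by omega, hr.symm⟩
  obtain ⟨h3, h4, h5⟩ := h1 k (by omega)
  obtain ⟨h6, h7, h8⟩ := h1 k' hk'
  obtain ⟨h9, h10⟩ := h2 k k' hkk.le hk'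
  refine ⟨m k' - m k, k' - k, by omega, by omega, by omega, ?_⟩
  intro t
  rw [← hr'] at h10
  have := (h4.append (h10.loop t)).append h5
  rw [show m k + t * (m k' - m k) + (i - m k) = i + t * (m k' - m k) by omega,
    show k + t * (k' - k) + (j - k) = j + t * (k' - k) by omega] at this
  exact this

lemma Seg.swap {T : Transducer α β} {l : α} {o : β} {p q : T.σ} {i j : ℕ}
    (h : Seg T l o p q i j) : Seg T.swap o l p q j i := Path.swap h

lemma Seg.pump_in {T : Transducer α β} {l : α} {o : β} {p q : T.σ} {i j : ℕ}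
    (h : Seg T l o p q i j) (hi : Nat.card T.σ ≤ i) : ∃ i' j', j' ≤ j ∧ 1 ≤ i' ∧
      i' ≤ Nat.card T.σ ∧ ∀ t, Seg T l o p q (i + t * i') (j + t * j') := by
  obtain ⟨j', i', h1, h2, h3, h4⟩ := h.swap.pump_out hi
  exact ⟨i', j', h1, h2, h3, fun t => (h4 t).swap⟩

lemma Seg.pump_eps {T : Transducer α β} {l : α} {o : β} {q : T.σ} (i : ℕ) :
    ∀ {p : T.σ} {j : ℕ}, Seg T l o p q i j → Nat.card T.σ * (i + 1) ≤ j →
    ∃ j', 1 ≤ j' ∧ ∀ t, Seg T l o p q i (j + t * j') := by
  induction i with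
  | zero =>
    intro p j h hj
    obtain ⟨i', j', h1, h2, _, h4⟩ := h.pump_out (by simpa using hj)
    obtain rfl : i' = 0 := by omega
    exact ⟨j', h2, fun t => by simpa using h4 t⟩
  | succ i ih =>
    intro p j h hj
    obtain ⟨p', p'', v1, y, v2, hv, h1, h2, h3⟩ :=
      Path.uncons_in (l := l) (u := List.replicate i l) h (by rw [List.replicate_succ])
    have e1 := List.append_eq_replicate_iff.1 hv.symm
    have e2 := List.append_eq_replicate_iff.1 e1.2.2
    have hy : y.toList.length ≤ 1 := by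
      cases y <;> simp
    have hlen : j = v1.length + (y.toList.length + v2.length) := by
      rw [← e1.1, List.length_append]
    have s1 : Seg T l o p p' 0 v1.length := by
      unfold Seg; rw [← e1.2.1]; exact h1
    have s3 : Seg T l o p'' q i v2.length := by
      unfold Seg; rw [← e2.2.2]; exact h3
    have s2 : ∀ a b, Path T p (List.replicate 0 l) (List.replicate a o) p' →
        Path T p'' (List.replicate i l) (List.replicate b o) q →
        Seg T l o p q (i + 1) (a + (y.toList.length + b)) := by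
      intro a b ha hb
      unfold Seg
      have := ha.append (Path.cons h2 hb)
      rw [List.replicate_add a, List.replicate_add y.toList.length, ← e2.2.1]
      simpa [List.replicate_succ] using this
    by_cases hc : Nat.card T.σ ≤ v1.length
    · obtain ⟨i', j', h4, h5, _, h6⟩ := s1.pump_out hc
      obtain rfl : i' = 0 := by omega
      refine ⟨j', h5, fun t => ?_⟩
      have := s2 _ _ (by simpa [Seg] using h6 t) s3
      rw [show v1.length + t * j' + (y.toList.length + v2.length) = j + t * j' by omega] at this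
      exact this
    · have : Nat.card T.σ * (i + 1) ≤ v2.length := by
        have : Nat.card T.σ * (i + 1 + 1) = Nat.card T.σ * (i + 1) + Nat.card T.σ := by ring
        omega
      obtain ⟨j', h4, h5⟩ := ih s3 this
      refine ⟨j', h4, fun t => ?_⟩
      have := s2 _ _ s1 (h5 t)
      rw [show v1.length + (y.toList.length + (v2.length + t * j')) = j + t * j' by omega] at this
      exact this

/-- closure properties of the set of the pairs `(i, j)` realized by a segment -/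
structure Good (N : ℕ) (R : Set (ℕ × ℕ)) : Prop where
  out : ∀ i j, (i, j) ∈ R → N ≤ j → ∃ i' j', i' ≤ i ∧ 1 ≤ j' ∧ j' ≤ N ∧
    ∀ t, (i + t * i', j + t * j') ∈ R
  inp : ∀ i j, (i, j) ∈ R → N ≤ i → ∃ i' j', j' ≤ j ∧ 1 ≤ i' ∧ i' ≤ N ∧
    ∀ t, (i + t * i', j + t * j') ∈ R
  eps : ∀ i j, (i, j) ∈ R → N * (i + 1) ≤ j → ∃ j', 1 ≤ j' ∧ ∀ t, (i, j + t * j') ∈ R

/-- the set of the pairs realized by a segment -/
def SegSet (T : Transducer α β) (l : α) (o : β) (p q : T.σ) : Set (ℕ × ℕ) :=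
  {x | Seg T l o p q x.1 x.2}

lemma good_SegSet (T : Transducer α β) (l : α) (o : β) (p q : T.σ) :
    Good (Nat.card T.σ) (SegSet T l o p q) where
  out _ _ h hj := Seg.pump_out h hj
  inp _ _ h hi := Seg.pump_in h hi
  eps i _ h hj := Seg.pump_eps i h hj

/-! ### words `a^x b^y c^z` -/

/-- `a^x b^y c^z` -/
def w3 (x y z : ℕ) : List (Fin 3) :=
  List.replicate x 0 ++ (List.replicate y 1 ++ List.replicate z 2)

/-- `a^m b^n` -/
def w2 (m n : ℕ) : List (Fin 2) := List.replicate m 0 ++ List.replicate n 1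

lemma split_w3 {u u' : List (Fin 3)} {x y z : ℕ} (h : w3 x y z = u ++ u') :
    ∃ x1 y1 z1 x2 y2 z2, u = w3 x1 y1 z1 ∧ u' = w3 x2 y2 z2 ∧ x = x1 + x2 ∧ y = y1 + y2 ∧
      z = z1 + z2 ∧ (y1 = 0 ∨ x2 = 0) ∧ (z1 = 0 ∨ x2 = 0) ∧ (z1 = 0 ∨ y2 = 0) := by
  unfold w3 at h
  rcases List.append_eq_append_iff.1 h with ⟨s, h1, h2⟩ | ⟨s, h1, h2⟩
  · -- `u = a^x s`, `b^y c^z = s u'`
    rcases List.append_eq_append_iff.1 h2 with ⟨s', h3, h4⟩ | ⟨s', h3, h4⟩
    · -- `s = b^y s'`, `c^z = s' u'`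
      have e := List.append_eq_replicate_iff.1 h4.symm
      refine ⟨x, y, s'.length, 0, 0, u'.length, ?_, ?_, by omega, by omega, e.1.symm,
        Or.inr rfl, Or.inr rfl, Or.inr rfl⟩
      · unfold w3
        rw [← e.2.1, ← h3, ← h1]
      · unfold w3
        rw [← e.2.2]; rfl
    · -- `b^y = s s'`, `u' = s' c^z`
      have e := List.append_eq_replicate_iff.1 h3.symm
      refine ⟨x, s.length, 0, 0, s'.length, z, ?_, ?_, by omega, e.1.symm, by omega,
        Or.inr rfl, Or.inr rfl, Or.inl rfl⟩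
      · unfold w3
        rw [← e.2.1, List.replicate_zero, List.append_nil, ← h1]
      · unfold w3
        rw [← e.2.2, ← h4]; rfl
  · -- `a^x = u s`, `u' = s b^y c^z`
    have e := List.append_eq_replicate_iff.1 h1.symm
    refine ⟨u.length, 0, 0, s.length, y, z, ?_, ?_, e.1.symm, by omega, by omega,
      Or.inl rfl, Or.inl rfl, Or.inl rfl⟩
    · unfold w3
      rw [← e.2.1]; simp
    · unfold w3
      rw [← e.2.2, ← h2]

lemma w3_append {x1 y1 z1 x2 y2 z2 : ℕ} (h1 : y1 = 0 ∨ x2 = 0) (h2 : z1 = 0 ∨ x2 = 0)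
    (h3 : z1 = 0 ∨ y2 = 0) : w3 x1 y1 z1 ++ w3 x2 y2 z2 = w3 (x1 + x2) (y1 + y2) (z1 + z2) := by
  unfold w3
  by_cases hx : x2 = 0
  · subst hx
    rcases h3 with rfl | rfl
    · rw [List.replicate_add y1 y2]
      simp only [List.replicate_zero, List.nil_append, List.append_nil, List.append_assoc,
        Nat.add_zero, Nat.zero_add]
    · rw [List.replicate_add z1 z2]
      simp only [List.replicate_zero, List.nil_append, List.append_assoc, Nat.add_zero]
  · have hy : y1 = 0 := by tauto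
    have hz : z1 = 0 := by tauto
    subst hy; subst hz
    rw [List.replicate_add x1 x2]
    simp only [List.replicate_zero, List.nil_append, List.append_nil, List.append_assoc,
      Nat.zero_add]

/-- The six segments of a path reading `a^x b^y c^z` and writing `a^m b^n`. -/
lemma extract (T : Transducer (Fin 3) (Fin 2)) {x y z m n : ℕ}
    (h : T.rel (w3 x y z) (w2 m n)) :
    ∃ R0 R1 R2 R3 R4 R5 : Set (ℕ × ℕ), Good (Nat.card T.σ) R0 ∧ Good (Nat.card T.σ) R1 ∧
      Good (Nat.card T.σ) R2 ∧ Good (Nat.card T.σ) R3 ∧ Good (Nat.card T.σ) R4 ∧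
      Good (Nat.card T.σ) R5 ∧
      (∃ i0 i1 i2 i3 i4 i5 j0 j1 j2 j3 j4 j5 : ℕ, (i0, j0) ∈ R0 ∧ (i1, j1) ∈ R1 ∧
        (i2, j2) ∈ R2 ∧ (i3, j3) ∈ R3 ∧ (i4, j4) ∈ R4 ∧ (i5, j5) ∈ R5 ∧
        (i1 = 0 ∨ i3 = 0) ∧ (i2 = 0 ∨ i3 = 0) ∧ (i2 = 0 ∨ i4 = 0) ∧
        x = i0 + i3 ∧ y = i1 + i4 ∧ z = i2 + i5 ∧ m = j0 + j1 + j2 ∧ n = j3 + j4 + j5) ∧
      ∀ i0 i1 i2 i3 i4 i5 j0 j1 j2 j3 j4 j5 : ℕ, (i0, j0) ∈ R0 → (i1, j1) ∈ R1 →
        (i2, j2) ∈ R2 → (i3, j3) ∈ R3 → (i4, j4) ∈ R4 → (i5, j5) ∈ R5 →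
        (i1 = 0 ∨ i3 = 0) → (i2 = 0 ∨ i3 = 0) → (i2 = 0 ∨ i4 = 0) →
        T.rel (w3 (i0 + i3) (i1 + i4) (i2 + i5)) (w2 (j0 + j1 + j2) (j3 + j4 + j5)) := by
  obtain ⟨p, q, hp, hq, h⟩ := h
  obtain ⟨r, u, u', hu, h1, h2⟩ := h.split_out rfl
  obtain ⟨x1, y1, z1, x2, y2, z2, rfl, rfl, hx, hy, hz, o1, o2, o3⟩ := split_w3 hu
  have third : ∀ {p q : T.σ} {x y z m : ℕ} {o : Fin 2},
      Path T p (w3 x y z) (List.replicate m o) q → ∃ r r' m1 m2 m3, m = m1 + m2 + m3 ∧
      Seg T 0 o p r x m1 ∧ Seg T 1 o r r' y m2 ∧ Seg T 2 o r' q z m3 := by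
    intro p q x y z m o h
    obtain ⟨r, v1, v2, hv, ha, hb⟩ := Path.split_in (u1 := List.replicate x 0) h
    obtain ⟨r', v3, v4, rfl, hc, hd⟩ := hb.split_in
    have e1 := List.append_eq_replicate_iff.1 hv.symm
    have e2 := List.append_eq_replicate_iff.1 e1.2.2
    refine ⟨r, r', v1.length, v3.length, v4.length, ?_, ?_, ?_, ?_⟩
    · rw [← e1.1, List.length_append]; ring
    · unfold Seg; rw [← e1.2.1]; exact ha
    · unfold Seg; rw [← e2.2.1]; exact hc
    · unfold Seg; rw [← e2.2.2]; exact hd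
  obtain ⟨r1, r2, m1, m2, m3, hm, s1, s2, s3⟩ := third h1
  obtain ⟨r3, r4, n1, n2, n3, hn, s4, s5, s6⟩ := third h2
  refine ⟨SegSet T 0 0 p r1, SegSet T 1 0 r1 r2, SegSet T 2 0 r2 r, SegSet T 0 1 r r3,
    SegSet T 1 1 r3 r4, SegSet T 2 1 r4 q, good_SegSet _ _ _ _ _, good_SegSet _ _ _ _ _,
    good_SegSet _ _ _ _ _, good_SegSet _ _ _ _ _, good_SegSet _ _ _ _ _, good_SegSet _ _ _ _ _,
    ⟨x1, y1, z1, x2, y2, z2, m1, m2, m3, n1, n2, n3, s1, s2, s3, s4, s5, s6, o1, o2, o3,
      hx, hy, hz, hm, hn⟩, ?_⟩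
  intro i0 i1 i2 i3 i4 i5 j0 j1 j2 j3 j4 j5 t0 t1 t2 t3 t4 t5 p1 p2 p3
  refine ⟨p, q, hp, hq, ?_⟩
  have f1 := (Path.append t0 (Path.append t1 t2)).append (Path.append t3 (Path.append t4 t5))
  have e1 : w3 (i0 + i3) (i1 + i4) (i2 + i5) = w3 i0 i1 i2 ++ w3 i3 i4 i5 :=
    (w3_append p1 p2 p3).symm
  rw [e1]
  unfold w2
  rw [List.replicate_add (j0 + j1), List.replicate_add j0, List.replicate_add (j3 + j4),
    List.replicate_add j3, List.append_assoc (List.replicate j0 _),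
    List.append_assoc (List.replicate j3 _)]
  exact f1

end Pool.Agent.R679.Tr
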