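import Pool.Agent.R679.Tr2

/-!
The arithmetic of pumping for the three languages, and the three bounded languages of degree 3.
-/

namespace Pool.Agent.R679.Tr

/-- every segment has a pump vector, nontrivial in the output if the output is long -/
lemma Good.pump {N : ℕ} {R : Set (ℕ × ℕ)} (g : Good N R) {i j : ℕ} (h : (i, j) ∈ R) :
    ∃ a b, a ≤ i ∧ (N ≤ j → 1 ≤ b ∧ b ≤ N) ∧ ∀ t, (i + t * a, j + t * b) ∈ R := by
  by_cases hj : N ≤ j
  · obtain ⟨a, b, h1, h2, h3, h4⟩ := g.out i j h hj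
    exact ⟨a, b, h1, fun _ => ⟨h2, h3⟩, h4⟩
  · exact ⟨0, 0, Nat.zero_le _, fun h' => absurd h' hj, fun t => by simpa using h⟩

lemma ord_aux {i i' a a' : ℕ} (t t' : ℕ) (h : i = 0 ∨ i' = 0) (ha : a ≤ i) (ha' : a' ≤ i') :
    i + t * a = 0 ∨ i' + t' * a' = 0 := by
  rcases h with rfl | rfl
  · left
    obtain rfl : a = 0 := by omega
    simp
  · right
    obtain rfl : a' = 0 := by omega
    simp

lemma core_lt {N : ℕ} {R0 R1 R2 R3 R4 R5 : Set (ℕ × ℕ)} (g0 : Good N R0) (g3 : Good N R3)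
    (g4 : Good N R4) (g5 : Good N R5)
    (h : ∀ i0 i1 i2 i3 i4 i5 j0 j1 j2 j3 j4 j5 : ℕ, (i0, j0) ∈ R0 → (i1, j1) ∈ R1 →
      (i2, j2) ∈ R2 → (i3, j3) ∈ R3 → (i4, j4) ∈ R4 → (i5, j5) ∈ R5 →
      (i1 = 0 ∨ i3 = 0) → (i2 = 0 ∨ i3 = 0) → (i2 = 0 ∨ i4 = 0) →
      (i1 + i4 ≤ i0 + i3 ∨ i2 + i5 ≤ i0 + i3) → j3 + j4 + j5 ≤ j0 + j1 + j2)
    {i0 i1 i2 i3 i4 i5 j0 j1 j2 j3 j4 j5 n : ℕ} (m0 : (i0, j0) ∈ R0) (m1 : (i1, j1) ∈ R1)
    (m2 : (i2, j2) ∈ R2) (m3 : (i3, j3) ∈ R3) (m4 : (i4, j4) ∈ R4) (m5 : (i5, j5) ∈ R5)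
    (o1 : i1 = 0 ∨ i3 = 0) (o2 : i2 = 0 ∨ i3 = 0) (o3 : i2 = 0 ∨ i4 = 0)
    (hc : i1 + i4 ≤ i0 + i3 ∨ i2 + i5 ≤ i0 + i3) (hA : j0 + j1 + j2 = n)
    (hB : j3 + j4 + j5 = n) (hn : N * (2 * N + 1) + 2 * N ≤ n) : False := by
  -- no output loops in the segment reading `a` and writing `b`
  have hj3 : j3 < N := by
    by_contra hcon
    obtain ⟨a, b, h1, h2, _, h4⟩ := g3.out _ _ m3 (not_lt.1 hcon)
    have h5 := h4 1
    rw [one_mul, one_mul] at h5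
    have := h _ _ _ _ _ _ _ _ _ _ _ _ m0 m1 m2 h5 m4 m5 (by omega) (by omega) o3 (by omega)
    omega
  -- a generic argument once the blocking variable has been identified
  have hN : N ≤ N * (2 * N + 1) := Nat.le_mul_of_pos_right N (by omega)
  by_cases hj4 : N ≤ j4
  · obtain ⟨a4, b4, h1, h2, _, h4⟩ := g4.out _ _ m4 hj4
    have hx : i1 + i4 ≤ i0 + i3 ∧ i0 + i3 < i2 + i5 := by
      by_contra hcon
      have h5 := h4 1
      rw [one_mul, one_mul] at h5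
      have := h _ _ _ _ _ _ _ _ _ _ _ _ m0 m1 m2 m3 h5 m5 o1 o2 (by omega) (by omega)
      omega
    have hj5 : j5 < N := by
      by_contra hcon
      obtain ⟨a, b, h1, h2, _, h4⟩ := g5.out _ _ m5 (not_lt.1 hcon)
      have h5 := h4 1
      rw [one_mul, one_mul] at h5
      have := h _ _ _ _ _ _ _ _ _ _ _ _ m0 m1 m2 m3 m4 h5 o1 o2 o3 (by omega)
      omega
    by_cases hi3 : N ≤ i3
    · obtain ⟨a, b, _, k2, k3, k4⟩ := g3.inp _ _ m3 hi3
      have h5 := h4 1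
      rw [one_mul, one_mul] at h5
      have h6 := k4 (i2 + i5)
      have h7 : i2 + i5 ≤ (i2 + i5) * a := Nat.le_mul_of_pos_right _ k2
      have := h _ _ _ _ _ _ _ _ _ _ _ _ m0 m1 m2 h6 h5 m5 (by omega) (by omega) (by omega)
        (by omega)
      omega
    · by_cases hi0 : N ≤ i0
      · obtain ⟨a, b, _, k2, k3, k4⟩ := g0.inp _ _ m0 hi0
        have h5 := h4 ((i2 + i5) * b + 1)
        have h6 := k4 (i2 + i5)
        have h7 : i2 + i5 ≤ (i2 + i5) * a := Nat.le_mul_of_pos_right _ k2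
        have h8 : (i2 + i5) * b + 1 ≤ ((i2 + i5) * b + 1) * b4 := Nat.le_mul_of_pos_right _ h2
        have o3' : i2 = 0 ∨ i4 + ((i2 + i5) * b + 1) * a4 = 0 := by
          rcases o3 with h | h
          · exact Or.inl h
          · right
            obtain rfl : a4 = 0 := by omega
            rw [h]; simp
        have := h _ _ _ _ _ _ _ _ _ _ _ _ h6 m1 m2 m3 h5 m5 o1 o2 o3' (by omega)
        omega
      · have h5 : N * (i4 + 1) ≤ j4 := by
          have : N * (i4 + 1) ≤ N * (2 * N + 1) := Nat.mul_le_mul_left _ (by omega)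
          omega
        obtain ⟨b, k1, k2⟩ := g4.eps _ _ m4 h5
        have h6 := k2 1
        rw [one_mul] at h6
        have := h _ _ _ _ _ _ _ _ _ _ _ _ m0 m1 m2 m3 h6 m5 o1 o2 o3 hc
        omega
  · have hj5 : N ≤ j5 := by omega
    obtain ⟨a5, b5, h1, h2, _, h4⟩ := g5.out _ _ m5 hj5
    have hx : i2 + i5 ≤ i0 + i3 ∧ i0 + i3 < i1 + i4 := by
      by_contra hcon
      have h5 := h4 1
      rw [one_mul, one_mul] at h5
      have := h _ _ _ _ _ _ _ _ _ _ _ _ m0 m1 m2 m3 m4 h5 o1 o2 o3 (by omega)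
      omega
    by_cases hi3 : N ≤ i3
    · obtain ⟨a, b, _, k2, k3, k4⟩ := g3.inp _ _ m3 hi3
      have h5 := h4 1
      rw [one_mul, one_mul] at h5
      have h6 := k4 (i1 + i4)
      have h7 : i1 + i4 ≤ (i1 + i4) * a := Nat.le_mul_of_pos_right _ k2
      have := h _ _ _ _ _ _ _ _ _ _ _ _ m0 m1 m2 h6 m4 h5 (by omega) (by omega) (by omega)
        (by omega)
      omega
    · by_cases hi0 : N ≤ i0
      · obtain ⟨a, b, _, k2, k3, k4⟩ := g0.inp _ _ m0 hi0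
        have h5 := h4 ((i1 + i4) * b + 1)
        have h6 := k4 (i1 + i4)
        have h7 : i1 + i4 ≤ (i1 + i4) * a := Nat.le_mul_of_pos_right _ k2
        have h8 : (i1 + i4) * b + 1 ≤ ((i1 + i4) * b + 1) * b5 := Nat.le_mul_of_pos_right _ h2
        have := h _ _ _ _ _ _ _ _ _ _ _ _ h6 m1 m2 m3 m4 h5 o1 o2 o3 (by omega)
        omega
      · have h5 : N * (i5 + 1) ≤ j5 := by
          have : N * (i5 + 1) ≤ N * (2 * N + 1) := Nat.mul_le_mul_left _ (by omega)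
          omega
        obtain ⟨b, k1, k2⟩ := g5.eps _ _ m5 h5
        have h6 := k2 1
        rw [one_mul] at h6
        have := h _ _ _ _ _ _ _ _ _ _ _ _ m0 m1 m2 m3 m4 h6 o1 o2 o3 hc
        omega

lemma core_ne {N D : ℕ} (hD : ∀ b, 1 ≤ b → b ≤ N → b ∣ D)
    {R0 R1 R2 R3 R4 R5 : Set (ℕ × ℕ)} (g0 : Good N R0) (g1 : Good N R1) (g2 : Good N R2)
    (g3 : Good N R3) (g4 : Good N R4) (g5 : Good N R5)
    (h : ∀ i0 i1 i2 i3 i4 i5 j0 j1 j2 j3 j4 j5 : ℕ, (i0, j0) ∈ R0 → (i1, j1) ∈ R1 →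
      (i2, j2) ∈ R2 → (i3, j3) ∈ R3 → (i4, j4) ∈ R4 → (i5, j5) ∈ R5 →
      (i1 = 0 ∨ i3 = 0) → (i2 = 0 ∨ i3 = 0) → (i2 = 0 ∨ i4 = 0) →
      (i0 + i3 ≠ i1 + i4 ∨ i0 + i3 ≠ i2 + i5) → j3 + j4 + j5 ≠ j0 + j1 + j2)
    {i0 i1 i2 i3 i4 i5 j0 j1 j2 j3 j4 j5 n : ℕ} (m0 : (i0, j0) ∈ R0) (m1 : (i1, j1) ∈ R1)
    (m2 : (i2, j2) ∈ R2) (m3 : (i3, j3) ∈ R3) (m4 : (i4, j4) ∈ R4) (m5 : (i5, j5) ∈ R5)
    (o1 : i1 = 0 ∨ i3 = 0) (o2 : i2 = 0 ∨ i3 = 0) (o3 : i2 = 0 ∨ i4 = 0)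
    (hc : i0 + i3 ≠ i1 + i4 ∨ i0 + i3 ≠ i2 + i5) (hA : j0 + j1 + j2 = n)
    (hB : j3 + j4 + j5 = n + D) (hn : 3 * N ≤ n) : False := by
  obtain ⟨a0, b0, l0, c0, p0⟩ := g0.pump m0
  obtain ⟨a1, b1, l1, c1, p1⟩ := g1.pump m1
  obtain ⟨a2, b2, l2, c2, p2⟩ := g2.pump m2
  obtain ⟨a3, b3, l3, c3, p3⟩ := g3.pump m3
  obtain ⟨a4, b4, l4, c4, p4⟩ := g4.pump m4
  obtain ⟨a5, b5, l5, c5, p5⟩ := g5.pump m5
  have H := fun t0 t1 t2 t3 t4 t5 : ℕ => h _ _ _ _ _ _ _ _ _ _ _ _ (p0 t0) (p1 t1) (p2 t2)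
    (p3 t3) (p4 t4) (p5 t5) (ord_aux t1 t3 o1 l1 l3) (ord_aux t2 t3 o2 l2 l3)
    (ord_aux t2 t4 o3 l2 l4)
  clear h
  rcases (by omega : N ≤ j0 ∨ N ≤ j1 ∨ N ≤ j2) with k | k | k
  · obtain ⟨k1, k2⟩ := c0 k
    obtain ⟨d, hd⟩ := hD b0 k1 k2
    rw [mul_comm] at hd
    rcases (by omega : N ≤ j3 ∨ N ≤ j4 ∨ N ≤ j5) with k' | k' | k'
    · obtain ⟨k3, k4⟩ := c3 k'
      obtain ⟨e, he⟩ := hD b3 k3 k4
      rw [mul_comm] at he
      have H1 := H d 0 0 0 0 0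
      have H2 := H (d + d) 0 0 e 0 0
      simp only [add_mul, zero_mul, add_zero, ← hd, ← he] at H1 H2
      omega
    · obtain ⟨k3, k4⟩ := c4 k'
      obtain ⟨e, he⟩ := hD b4 k3 k4
      rw [mul_comm] at he
      have H1 := H d 0 0 0 0 0
      have H2 := H (d + d) 0 0 0 e 0
      simp only [add_mul, zero_mul, add_zero, ← hd, ← he] at H1 H2
      omega
    · obtain ⟨k3, k4⟩ := c5 k'
      obtain ⟨e, he⟩ := hD b5 k3 k4
      rw [mul_comm] at he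
      have H1 := H d 0 0 0 0 0
      have H2 := H (d + d) 0 0 0 0 e
      simp only [add_mul, zero_mul, add_zero, ← hd, ← he] at H1 H2
      omega
  · obtain ⟨k1, k2⟩ := c1 k
    obtain ⟨d, hd⟩ := hD b1 k1 k2
    rw [mul_comm] at hd
    rcases (by omega : N ≤ j3 ∨ N ≤ j4 ∨ N ≤ j5) with k' | k' | k'
    · obtain ⟨k3, k4⟩ := c3 k'
      obtain ⟨e, he⟩ := hD b3 k3 k4
      rw [mul_comm] at he
      have H1 := H 0 d 0 0 0 0
      have H2 := H 0 (d + d) 0 e 0 0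
      simp only [add_mul, zero_mul, add_zero, ← hd, ← he] at H1 H2
      omega
    · obtain ⟨k3, k4⟩ := c4 k'
      obtain ⟨e, he⟩ := hD b4 k3 k4
      rw [mul_comm] at he
      have H1 := H 0 d 0 0 0 0
      have H2 := H 0 (d + d) 0 0 e 0
      simp only [add_mul, zero_mul, add_zero, ← hd, ← he] at H1 H2
      omega
    · obtain ⟨k3, k4⟩ := c5 k'
      obtain ⟨e, he⟩ := hD b5 k3 k4
      rw [mul_comm] at he
      have H1 := H 0 d 0 0 0 0
      have H2 := H 0 (d + d) 0 0 0 e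
      simp only [add_mul, zero_mul, add_zero, ← hd, ← he] at H1 H2
      omega
  · obtain ⟨k1, k2⟩ := c2 k
    obtain ⟨d, hd⟩ := hD b2 k1 k2
    rw [mul_comm] at hd
    rcases (by omega : N ≤ j3 ∨ N ≤ j4 ∨ N ≤ j5) with k' | k' | k'
    · obtain ⟨k3, k4⟩ := c3 k'
      obtain ⟨e, he⟩ := hD b3 k3 k4
      rw [mul_comm] at he
      have H1 := H 0 0 d 0 0 0
      have H2 := H 0 0 (d + d) e 0 0
      simp only [add_mul, zero_mul, add_zero, ← hd, ← he] at H1 H2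
      omega
    · obtain ⟨k3, k4⟩ := c4 k'
      obtain ⟨e, he⟩ := hD b4 k3 k4
      rw [mul_comm] at he
      have H1 := H 0 0 d 0 0 0
      have H2 := H 0 0 (d + d) 0 e 0
      simp only [add_mul, zero_mul, add_zero, ← hd, ← he] at H1 H2
      omega
    · obtain ⟨k3, k4⟩ := c5 k'
      obtain ⟨e, he⟩ := hD b5 k3 k4
      rw [mul_comm] at he
      have H1 := H 0 0 d 0 0 0
      have H2 := H 0 0 (d + d) 0 0 e
      simp only [add_mul, zero_mul, add_zero, ← hd, ← he] at H1 H2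
      omega

/-! ### The languages -/

/-- `s_< = {a^m b^n | n ≤ m}` -/
def sLt : Language (Fin 2) := {w | ∃ m n, n ≤ m ∧ w = List.replicate m 0 ++ List.replicate n 1}

/-- `s_≠ = {a^m b^n | n ≠ m}` -/
def sNe : Language (Fin 2) := {w | ∃ m n, n ≠ m ∧ w = List.replicate m 0 ++ List.replicate n 1}

/-- `s_> = {a^m b^n | n ≥ m}` -/
def sGt : Language (Fin 2) := {w | ∃ m n, m ≤ n ∧ w = List.replicate m 0 ++ List.replicate n 1}

lemma w2_inj {m n m' n' : ℕ} (h : w2 m n = w2 m' n') : m = m' ∧ n = n' := by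
  have h0 := congrArg (List.count 0) h
  have h1 := congrArg (List.count 1) h
  simp only [w2, List.count_append, List.count_replicate] at h0 h1
  simpa using And.intro h0 h1

lemma w3_inj {x y z x' y' z' : ℕ} (h : w3 x y z = w3 x' y' z') : x = x' ∧ y = y' ∧ z = z' := by
  have h0 := congrArg (List.count 0) h
  have h1 := congrArg (List.count 1) h
  have h2 := congrArg (List.count 2) h
  simp only [w3, List.count_append, List.count_replicate] at h0 h1 h2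
  simp at h0 h1 h2
  exact ⟨h0, h1, h2⟩

/-- the set of the words `a^x b^y c^z` with `P x y z` -/
def Kof (P : ℕ → ℕ → ℕ → Prop) : Language (Fin 3) := {w | ∃ x y z, P x y z ∧ w = w3 x y z}

lemma mem_Kof {P : ℕ → ℕ → ℕ → Prop} {x y z : ℕ} : w3 x y z ∈ Kof P ↔ P x y z := by
  constructor
  · rintro ⟨x', y', z', h, e⟩
    obtain ⟨rfl, rfl, rfl⟩ := w3_inj e
    exact h
  · intro h; exact ⟨x, y, z, h, rfl⟩

/-- `s_<` is not an image of `{a^x b^y c^z | y ≤ x or z ≤ x}` -/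
lemma not_image_lt (T : Transducer (Fin 3) (Fin 2)) :
    sLt ≠ T.image (Kof fun x y z => y ≤ x ∨ z ≤ x) := by
  intro heq
  set N := Nat.card T.σ with hN
  set n := N * (2 * N + 1) + 2 * N with hn
  have h1 : w2 n n ∈ sLt := ⟨n, n, le_rfl, rfl⟩
  rw [heq] at h1
  obtain ⟨_, ⟨x, y, z, hP, rfl⟩, hrel⟩ := h1
  obtain ⟨R0, R1, R2, R3, R4, R5, g0, g1, g2, g3, g4, g5, ⟨i0, i1, i2, i3, i4, i5, j0, j1, j2,
    j3, j4, j5, m0, m1, m2, m3, m4, m5, o1, o2, o3, rfl, rfl, rfl, hm, hn'⟩, H⟩ := extract T hrel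
  refine core_lt g0 g3 g4 g5 ?_ m0 m1 m2 m3 m4 m5 o1 o2 o3 hP hm.symm hn'.symm le_rfl
  intro i0 i1 i2 i3 i4 i5 j0 j1 j2 j3 j4 j5 t0 t1 t2 t3 t4 t5 q1 q2 q3 hc
  have h2 := H _ _ _ _ _ _ _ _ _ _ _ _ t0 t1 t2 t3 t4 t5 q1 q2 q3
  have h3 : w2 (j0 + j1 + j2) (j3 + j4 + j5) ∈ sLt := by
    rw [heq]
    exact ⟨_, mem_Kof.2 hc, h2⟩
  obtain ⟨m', n', h4, h5⟩ := h3
  obtain ⟨h6, h7⟩ := w2_inj (m' := m') (n' := n') h5
  omega

/-- `s_>` is not an image of `{a^x b^y c^z | x ≤ z or y ≤ z}` -/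
lemma not_image_gt (T : Transducer (Fin 3) (Fin 2)) :
    sGt ≠ T.image (Kof fun x y z => x ≤ z ∨ y ≤ z) := by
  intro heq
  set N := Nat.card T.σ with hN
  set n := N * (2 * N + 1) + 2 * N with hn
  have h1 : w2 n n ∈ sGt := ⟨n, n, le_rfl, rfl⟩
  rw [heq] at h1
  obtain ⟨_, ⟨x, y, z, hP, rfl⟩, hrel⟩ := h1
  obtain ⟨R0, R1, R2, R3, R4, R5, g0, g1, g2, g3, g4, g5, ⟨i0, i1, i2, i3, i4, i5, j0, j1, j2,
    j3, j4, j5, m0, m1, m2, m3, m4, m5, o1, o2, o3, rfl, rfl, rfl, hm, hn'⟩, H⟩ := extract T hrel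
  refine core_lt (n := n) g5 g2 g1 g0 ?_ m5 m4 m3 m2 m1 m0 (by tauto) (by tauto) (by tauto)
    (by omega) (by omega) (by omega) le_rfl
  intro i5 i4 i3 i2 i1 i0 j5 j4 j3 j2 j1 j0 t5 t4 t3 t2 t1 t0 q1 q2 q3 hc
  have h2 := H _ _ _ _ _ _ _ _ _ _ _ _ t0 t1 t2 t3 t4 t5 (by tauto) (by tauto) (by tauto)
  have h3 : w2 (j0 + j1 + j2) (j3 + j4 + j5) ∈ sGt := by
    rw [heq]
    exact ⟨_, mem_Kof.2 (by omega), h2⟩
  obtain ⟨m', n', h4, h5⟩ := h3
  obtain ⟨h6, h7⟩ := w2_inj (m' := m') (n' := n') h5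
  omega

/-- `s_≠` is not an image of `{a^x b^y c^z | x ≠ y or x ≠ z}` -/
lemma not_image_ne (T : Transducer (Fin 3) (Fin 2)) :
    sNe ≠ T.image (Kof fun x y z => x ≠ y ∨ x ≠ z) := by
  intro heq
  set N := Nat.card T.σ with hN
  have hpos : 0 < N.factorial := Nat.factorial_pos N
  have h1 : w2 (3 * N) (3 * N + N.factorial) ∈ sNe := ⟨_, _, by omega, rfl⟩
  rw [heq] at h1
  obtain ⟨_, ⟨x, y, z, hP, rfl⟩, hrel⟩ := h1
  obtain ⟨R0, R1, R2, R3, R4, R5, g0, g1, g2, g3, g4, g5, ⟨i0, i1, i2, i3, i4, i5, j0, j1, j2,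
    j3, j4, j5, m0, m1, m2, m3, m4, m5, o1, o2, o3, rfl, rfl, rfl, hm, hn'⟩, H⟩ := extract T hrel
  refine core_ne (D := N.factorial) (fun b h1 h2 => Nat.dvd_factorial h1 h2) g0 g1 g2 g3 g4 g5 ?_
    m0 m1 m2 m3 m4 m5 o1 o2 o3 hP hm.symm hn'.symm le_rfl
  intro i0 i1 i2 i3 i4 i5 j0 j1 j2 j3 j4 j5 t0 t1 t2 t3 t4 t5 q1 q2 q3 hc
  have h2 := H _ _ _ _ _ _ _ _ _ _ _ _ t0 t1 t2 t3 t4 t5 q1 q2 q3
  have h3 : w2 (j0 + j1 + j2) (j3 + j4 + j5) ∈ sNe := by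
    rw [heq]
    exact ⟨_, mem_Kof.2 hc, h2⟩
  obtain ⟨m', n', h4, h5⟩ := h3
  obtain ⟨h6, h7⟩ := w2_inj (m' := m') (n' := n') h5
  omega

/-! ### non-regularity -/

lemma not_regular_of {L : Language (Fin 3)} (f g : ℕ → List (Fin 3))
    (h : ∀ m n, m < n → ¬ ((f m ++ g n ∈ L ↔ f n ++ g n ∈ L) ∧ (f m ++ g m ∈ L ↔ f n ++ g m ∈ L))) :
    ¬ L.IsRegular := by
  intro hL
  have hfin := hL.finite_range_leftQuotient
  have hinj : Function.Injective (fun n => L.leftQuotient (f n)) := by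
    intro m n hmn
    by_contra hne
    have key : ∀ m n, m < n → L.leftQuotient (f m) = L.leftQuotient (f n) → False := by
      intro m n hlt he
      apply h m n hlt
      constructor
      · change g n ∈ L.leftQuotient (f m) ↔ g n ∈ L.leftQuotient (f n)
        rw [he]
      · change g m ∈ L.leftQuotient (f m) ↔ g m ∈ L.leftQuotient (f n)
        rw [he]
    rcases lt_or_gt_of_ne hne with h1 | h1
    · exact key _ _ h1 hmn
    · exact key _ _ h1 hmn.symm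
  have : (Set.range (fun n => L.leftQuotient (f n))).Infinite := Set.infinite_range_of_injective hinj
  apply this
  apply hfin.subset
  rintro _ ⟨n, rfl⟩
  exact ⟨f n, rfl⟩

lemma w3_zero (n : ℕ) : w3 n 0 0 = List.replicate n 0 := by simp [w3]

lemma not_regular_lt : ¬ (Kof fun x y z => y ≤ x ∨ z ≤ x).IsRegular := by
  apply not_regular_of (fun n => w3 n 0 0) (fun n => w3 0 n n)
  intro m n hlt h
  simp only [w3_append (x2 := 0) (Or.inr rfl) (Or.inr rfl) (Or.inl rfl), mem_Kof] at h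
  omega

lemma not_regular_ne : ¬ (Kof fun x y z => x ≠ y ∨ x ≠ z).IsRegular := by
  apply not_regular_of (fun n => w3 n 0 0) (fun n => w3 0 n n)
  intro m n hlt h
  simp only [w3_append (x2 := 0) (Or.inr rfl) (Or.inr rfl) (Or.inl rfl), mem_Kof] at h
  omega

lemma not_regular_gt : ¬ (Kof fun x y z => x ≤ z ∨ y ≤ z).IsRegular := by
  apply not_regular_of (fun n => w3 n n 0) (fun n => w3 0 0 n)
  intro m n hlt h
  simp only [w3_append (x2 := 0) (y2 := 0) (Or.inr rfl) (Or.inr rfl) (Or.inl rfl), mem_Kof] at h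
  omega

/-! ### boundedness -/

lemma bounded_Kof (P : ℕ → ℕ → ℕ → Prop) {k : ℕ} (hk : 3 ≤ k) : BoundedDeg k (Kof P) := by
  obtain ⟨d, rfl⟩ : ∃ d, k = 3 + d := ⟨k - 3, by omega⟩
  refine ⟨Fin.append ![[0], [1], [2]] (fun _ => []), ?_⟩
  rintro _ ⟨x, y, z, _, rfl⟩
  refine ⟨Fin.append ![x, y, z] (fun _ => 0), ?_⟩
  rw [List.ofFn_add, List.flatten_append]
  have e2 : (List.ofFn fun i : Fin d => (List.replicate
      (Fin.append ![x, y, z] (fun _ => 0) (Fin.natAdd 3 i))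
      (Fin.append ![([0] : List (Fin 3)), [1], [2]] (fun _ => []) (Fin.natAdd 3 i))).flatten).flatten
      = [] := by
    rw [List.flatten_eq_nil_iff]
    intro l hl
    rw [List.mem_ofFn] at hl
    obtain ⟨i, rfl⟩ := hl
    rw [Fin.append_right, Fin.append_right]
    rfl
  rw [e2, List.append_nil]
  have e1 : ∀ (n : ℕ) (a : Fin 3), (List.replicate n [a]).flatten = List.replicate n a := by
    intro n a
    induction n with
    | zero => rfl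
    | succ n ih => rw [List.replicate_succ, List.flatten_cons, ih]; rfl
  have : (List.ofFn fun i : Fin 3 => (List.replicate
      (Fin.append ![x, y, z] (fun _ : Fin d => 0) (Fin.castAdd d i))
      (Fin.append ![([0] : List (Fin 3)), [1], [2]] (fun _ : Fin d => [])
        (Fin.castAdd d i))).flatten).flatten = w3 x y z := by
    simp only [Fin.append_left]
    simp only [List.ofFn_succ, List.ofFn_zero, Matrix.cons_val_zero, Matrix.cons_val_succ,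
      List.flatten_cons, List.flatten_nil, e1, List.append_nil]
    rfl
  exact this.symm

end Pool.Agent.R679.Tr
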