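import Pool.Agent.R679.Tr3

/-!
The three bounded languages belong to the respective cones.
-/

namespace Pool.Agent.R679.Tr

lemma fin3_cases : ∀ k : Fin 3, k = 0 ∨ k = 1 ∨ k = 2 := by decide

lemma fin2_cases : ∀ k : Fin 2, k = 0 ∨ k = 1 := by decide

/-- `x^n` for `x` a letter or the empty word -/
def rp {α : Type} (x : Option α) (n : ℕ) : List α := (List.replicate n x.toList).flatten

lemma rp_none {α : Type} (n : ℕ) : rp (none : Option α) n = [] := by
  unfold rp
  induction n with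
  | zero => rfl
  | succ n ih => rw [List.replicate_succ, List.flatten_cons, ih]; rfl

lemma rp_some {α : Type} (a : α) (n : ℕ) : rp (some a) n = List.replicate n a := by
  unfold rp
  induction n with
  | zero => rfl
  | succ n ih => rw [List.replicate_succ, List.flatten_cons, ih]; rfl

lemma rp_zero {α : Type} (x : Option α) : rp x 0 = [] := rfl

lemma rp_succ {α : Type} (x : Option α) (n : ℕ) : rp x (n + 1) = x.toList ++ rp x n := by
  unfold rp
  rw [List.replicate_succ, List.flatten_cons]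

/-- A transducer with two modes and three phases: in mode `μ` and phase `k` it reads
`lab μ k` and writes the letter `k`; it may move to the next phase at any time. -/
def phaseT (lab : Fin 2 → Fin 3 → Option (Fin 2)) : Transducer (Fin 2) (Fin 3) where
  σ := Fin 2 × Fin 3
  fin := inferInstance
  trans p x y q := p.1 = q.1 ∧ ((p.2 = q.2 ∧ x = lab p.1 p.2 ∧ y = some p.2) ∨
    ((p.2 : ℕ) + 1 = q.2 ∧ x = none ∧ y = none))
  start p := p.2 = 0
  final p := p.2 = 2

section

variable (lab : Fin 2 → Fin 3 → Option (Fin 2))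

lemma phase_loop (μ : Fin 2) (k : Fin 3) (n : ℕ) :
    Path (phaseT lab) (μ, k) (rp (lab μ k) n) (List.replicate n k) (μ, k) := by
  induction n with
  | zero => exact Path.nil (T := phaseT lab) (μ, k)
  | succ n ih =>
    have ht : (phaseT lab).trans (μ, k) (lab μ k) (some k) (μ, k) := ⟨rfl, Or.inl ⟨rfl, rfl, rfl⟩⟩
    have := Path.cons (T := phaseT lab) ht ih
    rw [rp_succ, List.replicate_succ]
    simpa using this

lemma phase_step (μ : Fin 2) (k k' : Fin 3) (h : (k : ℕ) + 1 = k') :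
    Path (phaseT lab) (μ, k) [] [] (μ, k') := by
  have ht : (phaseT lab).trans (μ, k) none none (μ, k') := ⟨rfl, Or.inr ⟨h, rfl, rfl⟩⟩
  have := Path.cons (T := phaseT lab) ht (Path.nil (T := phaseT lab) (μ, k'))
  simpa using this

lemma phase_complete (μ : Fin 2) (x y z : ℕ) : (phaseT lab).rel
    (rp (lab μ 0) x ++ (rp (lab μ 1) y ++ rp (lab μ 2) z)) (w3 x y z) := by
  refine ⟨(μ, 0), (μ, 2), rfl, rfl, ?_⟩
  have := (phase_loop lab μ 0 x).append ((phase_step lab μ 0 1 rfl).append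
    ((phase_loop lab μ 1 y).append ((phase_step lab μ 1 2 rfl).append (phase_loop lab μ 2 z))))
  simpa [w3] using this

lemma phase_sound {p q : (phaseT lab).σ} {u : List (Fin 2)} {v : List (Fin 3)}
    (h : Path (phaseT lab) p u v q) : p.1 = q.1 ∧ ∃ x y z, v = w3 x y z ∧
      u = rp (lab p.1 0) x ++ (rp (lab p.1 1) y ++ rp (lab p.1 2) z) ∧
      (0 < (p.2 : ℕ) → x = 0) ∧ (1 < (p.2 : ℕ) → y = 0) := by
  induction h with
  | nil p => exact ⟨rfl, 0, 0, 0, rfl, rfl, fun _ => rfl, fun _ => rfl⟩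
  | @cons p p' q a b u v ht _ ih =>
    obtain ⟨h1, x, y, z, rfl, rfl, h2, h3⟩ := ih
    obtain ⟨μ, k⟩ := p
    obtain ⟨μ', k'⟩ := p'
    obtain ⟨h4, ⟨h5, h6, h7⟩ | ⟨h5, h6, h7⟩⟩ := ht
    · simp only at h1 h2 h3 h4 h5 h6 h7 ⊢
      subst h4; subst h5; subst h6; subst h7
      refine ⟨h1, ?_⟩
      rcases (fin3_cases k) with rfl | rfl | rfl
      · refine ⟨x + 1, y, z, ?_, ?_, by simp, by simp⟩
        · simp [w3, List.replicate_succ]
        · rw [rp_succ]; simp
      · obtain rfl : x = 0 := h2 (by simp)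
        refine ⟨0, y + 1, z, ?_, ?_, by simp, by simp⟩
        · simp [w3, List.replicate_succ]
        · rw [rp_succ, rp_zero]; simp
      · obtain rfl : x = 0 := h2 (by simp)
        obtain rfl : y = 0 := h3 (by simp)
        refine ⟨0, 0, z + 1, ?_, ?_, by simp, by simp⟩
        · simp [w3, List.replicate_succ]
        · rw [rp_succ, rp_zero, rp_zero]; simp
    · simp only at h1 h2 h3 h4 h5 h6 h7 ⊢
      subst h4; subst h6; subst h7
      exact ⟨h1, x, y, z, rfl, rfl, fun h => h2 (by omega), fun h => h3 (by omega)⟩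

lemma phase_rel (u : List (Fin 2)) (v : List (Fin 3)) : (phaseT lab).rel u v ↔
    ∃ μ x y z, v = w3 x y z ∧ u = rp (lab μ 0) x ++ (rp (lab μ 1) y ++ rp (lab μ 2) z) := by
  constructor
  · rintro ⟨p, q, _, _, h⟩
    obtain ⟨_, x, y, z, h1, h2, _, _⟩ := phase_sound lab h
    exact ⟨p.1, x, y, z, h1, h2⟩
  · rintro ⟨μ, x, y, z, rfl, rfl⟩
    exact phase_complete lab μ x y z

end

/-- modes `a/a, ε/b, b/c` and `a/a, b/b, ε/c` -/
def labA : Fin 2 → Fin 3 → Option (Fin 2) :=
  ![![some 0, none, some 1], ![some 0, some 1, none]]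

/-- modes `a/a, ε/b, b/c` and `ε/a, a/b, b/c` -/
def labB : Fin 2 → Fin 3 → Option (Fin 2) :=
  ![![some 0, none, some 1], ![none, some 0, some 1]]

lemma image_labA (P : ℕ → ℕ → Prop) (L : Language (Fin 2))
    (hL : L = {w | ∃ m n, P m n ∧ w = w2 m n}) :
    (phaseT labA).image L = Kof fun x y z => P x z ∨ P x y := by
  subst hL
  ext v
  constructor
  · rintro ⟨u, ⟨m, n, hP, rfl⟩, hrel⟩
    rw [phase_rel] at hrel
    obtain ⟨μ, x, y, z, rfl, h⟩ := hrel
    rcases fin2_cases μ with rfl | rfl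
    · simp only [labA, Matrix.cons_val_zero, Matrix.cons_val_one, Matrix.cons_val, rp_none,
        rp_some, List.nil_append] at h
      obtain ⟨rfl, rfl⟩ := w2_inj (m' := x) (n' := z) h
      exact ⟨_, _, _, Or.inl hP, rfl⟩
    · simp only [labA, Matrix.cons_val_zero, Matrix.cons_val_one, Matrix.cons_val, rp_none,
        rp_some, List.append_nil] at h
      obtain ⟨rfl, rfl⟩ := w2_inj (m' := x) (n' := y) h
      exact ⟨_, _, _, Or.inr hP, rfl⟩
  · rintro ⟨x, y, z, hP | hP, rfl⟩
    · refine ⟨w2 x z, ⟨x, z, hP, rfl⟩, (phase_rel _ _ _).2 ⟨0, x, y, z, rfl, ?_⟩⟩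
      simp only [labA, Matrix.cons_val_zero, Matrix.cons_val_one, Matrix.cons_val, rp_none,
        rp_some, List.nil_append]
      rfl
    · refine ⟨w2 x y, ⟨x, y, hP, rfl⟩, (phase_rel _ _ _).2 ⟨1, x, y, z, rfl, ?_⟩⟩
      simp only [labA, Matrix.cons_val_zero, Matrix.cons_val_one, Matrix.cons_val, rp_none,
        rp_some, List.append_nil]
      rfl

lemma image_labB (P : ℕ → ℕ → Prop) (L : Language (Fin 2))
    (hL : L = {w | ∃ m n, P m n ∧ w = w2 m n}) :
    (phaseT labB).image L = Kof fun x y z => P x z ∨ P y z := by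
  subst hL
  ext v
  constructor
  · rintro ⟨u, ⟨m, n, hP, rfl⟩, hrel⟩
    rw [phase_rel] at hrel
    obtain ⟨μ, x, y, z, rfl, h⟩ := hrel
    rcases fin2_cases μ with rfl | rfl
    · simp only [labB, Matrix.cons_val_zero, Matrix.cons_val_one, Matrix.cons_val, rp_none,
        rp_some, List.nil_append] at h
      obtain ⟨rfl, rfl⟩ := w2_inj (m' := x) (n' := z) h
      exact ⟨_, _, _, Or.inl hP, rfl⟩
    · simp only [labB, Matrix.cons_val_zero, Matrix.cons_val_one, Matrix.cons_val, rp_none,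
        rp_some, List.nil_append] at h
      obtain ⟨rfl, rfl⟩ := w2_inj (m' := y) (n' := z) h
      exact ⟨_, _, _, Or.inr hP, rfl⟩
  · rintro ⟨x, y, z, hP | hP, rfl⟩
    · refine ⟨w2 x z, ⟨x, z, hP, rfl⟩, (phase_rel _ _ _).2 ⟨0, x, y, z, rfl, ?_⟩⟩
      simp only [labB, Matrix.cons_val_zero, Matrix.cons_val_one, Matrix.cons_val, rp_none,
        rp_some, List.nil_append]
      rfl
    · refine ⟨w2 y z, ⟨y, z, hP, rfl⟩, (phase_rel _ _ _).2 ⟨1, x, y, z, rfl, ?_⟩⟩
      simp only [labB, Matrix.cons_val_zero, Matrix.cons_val_one, Matrix.cons_val, rp_none,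
        rp_some, List.nil_append]
      rfl

/-- a criterion for non-minimality -/
lemma not_minimal {s : Language (Fin 2)} {P : ℕ → ℕ → ℕ → Prop} {k : ℕ} (hk : 3 ≤ k)
    (T : Transducer (Fin 2) (Fin 3)) (hT : T.image s = Kof P) (hreg : ¬ (Kof P).IsRegular)
    (hs : ∀ T : Transducer (Fin 3) (Fin 2), s ≠ T.image (Kof P)) : ¬ MinimalWrt k (gen s) := by
  intro hmin
  rcases hmin 3 (Kof P) ((mem_gen_iff s _).2 ⟨T, hT.symm⟩) (bounded_Kof P hk) with h | h
  · exact hreg h
  · have h1 : s ∈ gen s 2 := (mem_gen_iff s s).2 ⟨idT (Fin 2), (image_id s).symm⟩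
    rw [← h, mem_gen_iff] at h1
    obtain ⟨T', hT'⟩ := h1
    exact hs T' hT'

theorem not_minimal_lt {k : ℕ} (hk : 3 ≤ k) : ¬ MinimalWrt k (gen sLt) := by
  apply not_minimal hk (phaseT labA) (P := fun x y z => y ≤ x ∨ z ≤ x)
  · rw [image_labA (fun m n => n ≤ m) sLt rfl]
    congr 1
    funext x y z
    exact propext or_comm
  · exact not_regular_lt
  · exact not_image_lt

theorem not_minimal_ne {k : ℕ} (hk : 3 ≤ k) : ¬ MinimalWrt k (gen sNe) := by
  apply not_minimal hk (phaseT labA) (P := fun x y z => x ≠ y ∨ x ≠ z)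
  · rw [image_labA (fun m n => n ≠ m) sNe rfl]
    congr 1
    funext x y z
    apply propext
    constructor
    · rintro (h | h)
      · exact Or.inr (Ne.symm h)
      · exact Or.inl (Ne.symm h)
    · rintro (h | h)
      · exact Or.inr (Ne.symm h)
      · exact Or.inl (Ne.symm h)
  · exact not_regular_ne
  · exact not_image_ne

theorem not_minimal_gt {k : ℕ} (hk : 3 ≤ k) : ¬ MinimalWrt k (gen sGt) := by
  apply not_minimal hk (phaseT labB) (P := fun x y z => x ≤ z ∨ y ≤ z)
  · exact image_labB (fun m n => m ≤ n) sGt rfl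
  · exact not_regular_gt
  · exact not_image_gt

end Pool.Agent.R679.Tr
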