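import Pool.Agent.R679.Tr1

/-!
Closure properties of rational relations; images of regular languages are regular.
-/

namespace Pool.Agent.R679.Tr

variable {α β : Type}

/-- relations realized by transducers -/
def IsRat (R : List α → List β → Prop) : Prop := ∃ T : Transducer α β, ∀ u v, T.rel u v ↔ R u v

/-! ### single pairs -/

/-- the transducer for one pair `(x, y)` -/
def oneT (x : Option α) (y : Option β) : Transducer α β where
  σ := Bool
  fin := inferInstance
  trans p x' y' q := p = false ∧ q = true ∧ x' = x ∧ y' = y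
  start p := p = false
  final p := p = true

lemma isRat_one (x : Option α) (y : Option β) :
    IsRat (fun (u : List α) (v : List β) => u = x.toList ∧ v = y.toList) := by
  refine ⟨oneT x y, fun u v => ⟨?_, ?_⟩⟩
  · rintro ⟨p, q, hp, hq, h⟩
    have h1 : ∀ {p q : (oneT x y).σ} {u : List α} {v : List β}, Path (oneT x y) p u v q →
        p = true → u = [] ∧ v = [] := by
      intro p q u v h hp
      cases h with
      | nil => exact ⟨rfl, rfl⟩
      | cons ht _ =>
        have : p = false := ht.1
        rw [this] at hp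
        exact absurd hp Bool.false_ne_true
    cases h with
    | nil =>
      have hp' : p = false := hp
      have hq' : p = true := hq
      rw [hp'] at hq'
      exact absurd hq' Bool.false_ne_true
    | cons ht h' =>
      obtain ⟨_, h2, h3, h4⟩ := ht
      obtain ⟨h5, h6⟩ := h1 h' h2
      rw [h3, h4, h5, h6]
      simp
  · rintro ⟨rfl, rfl⟩
    refine ⟨false, true, rfl, rfl, ?_⟩
    have := Path.cons (T := oneT x y) (p := false) (p' := true) ⟨rfl, rfl, rfl, rfl⟩ (Path.nil _)
    simpa using this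

/-! ### products -/

/-- concatenation of transducers -/
def mulT (S T : Transducer α β) : Transducer α β where
  σ := S.σ ⊕ T.σ
  fin := by
    haveI := S.fin
    haveI := T.fin
    infer_instance
  trans p x y q := match p, q with
    | .inl p, .inl q => S.trans p x y q
    | .inr p, .inr q => T.trans p x y q
    | .inl p, .inr q => x = none ∧ y = none ∧ S.final p ∧ T.start q
    | .inr _, .inl _ => False
  start p := match p with
    | .inl p => S.start p
    | .inr _ => False
  final p := match p with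
    | .inl _ => False
    | .inr q => T.final q

lemma mulT_inl {S T : Transducer α β} {p q : S.σ} {u : List α} {v : List β}
    (h : Path S p u v q) : Path (mulT S T) (Sum.inl p) u v (Sum.inl q) := by
  induction h with
  | nil p => exact Path.nil (T := mulT S T) (Sum.inl p)
  | @cons p p' q x y u v ht _ ih =>
    exact Path.cons (T := mulT S T) (p := Sum.inl p) (p' := Sum.inl p') ht ih

lemma mulT_inr {S T : Transducer α β} {p q : T.σ} {u : List α} {v : List β}
    (h : Path T p u v q) : Path (mulT S T) (Sum.inr p) u v (Sum.inr q) := by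
  induction h with
  | nil p => exact Path.nil (T := mulT S T) (Sum.inr p)
  | @cons p p' q x y u v ht _ ih =>
    exact Path.cons (T := mulT S T) (p := Sum.inr p) (p' := Sum.inr p') ht ih

lemma mulT_sound {S T : Transducer α β} {P Q : (mulT S T).σ} {u : List α} {v : List β}
    (h : Path (mulT S T) P u v Q) : ∀ q, Q = Sum.inr q →
    (∀ p, P = Sum.inr p → Path T p u v q) ∧
    (∀ p, P = Sum.inl p → ∃ u1 u2 v1 v2 p' q', u = u1 ++ u2 ∧ v = v1 ++ v2 ∧ Path S p u1 v1 p' ∧
      S.final p' ∧ T.start q' ∧ Path T q' u2 v2 q) := by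
  induction h with
  | nil P =>
    intro q hq
    refine ⟨fun p hp => ?_, fun p hp => ?_⟩
    · rw [hp] at hq
      cases hq
      exact Path.nil _
    · rw [hp] at hq
      cases hq
  | @cons P P' Q x y u v ht _ ih =>
    intro q hq
    obtain ⟨ih1, ih2⟩ := ih q hq
    refine ⟨fun p hp => ?_, fun p hp => ?_⟩
    · subst hp
      cases P' with
      | inl p' => exact absurd ht id
      | inr p' => exact Path.cons ht (ih1 p' rfl)
    · subst hp
      cases P' with
      | inl p' =>
        obtain ⟨u1, u2, v1, v2, p1, q1, rfl, rfl, h1, h2, h3, h4⟩ := ih2 p' rfl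
        exact ⟨x.toList ++ u1, u2, y.toList ++ v1, v2, p1, q1, by simp, by simp,
          Path.cons ht h1, h2, h3, h4⟩
      | inr p' =>
        obtain ⟨rfl, rfl, h1, h2⟩ := ht
        exact ⟨[], u, [], v, p, p', by simp, by simp, Path.nil _, h1, h2, ih1 p' rfl⟩

lemma isRat_mul {R R' : List α → List β → Prop} (h : IsRat R) (h' : IsRat R') :
    IsRat (fun u v => ∃ u1 u2 v1 v2, u = u1 ++ u2 ∧ v = v1 ++ v2 ∧ R u1 v1 ∧ R' u2 v2) := by
  obtain ⟨S, hS⟩ := h
  obtain ⟨T, hT⟩ := h'
  refine ⟨mulT S T, fun u v => ⟨?_, ?_⟩⟩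
  · rintro ⟨P, Q, hP, hQ, h⟩
    cases P with
    | inr p => exact absurd hP id
    | inl p =>
      cases Q with
      | inl q => exact absurd hQ id
      | inr q =>
        obtain ⟨u1, u2, v1, v2, p', q', h1, h2, h3, h4, h5, h6⟩ := (mulT_sound h q rfl).2 p rfl
        exact ⟨u1, u2, v1, v2, h1, h2, (hS _ _).1 ⟨p, p', hP, h4, h3⟩,
          (hT _ _).1 ⟨q', q, h5, hQ, h6⟩⟩
  · rintro ⟨u1, u2, v1, v2, rfl, rfl, h1, h2⟩
    obtain ⟨p, p', hp, hp', h3⟩ := (hS _ _).2 h1
    obtain ⟨q', q, hq', hq, h4⟩ := (hT _ _).2 h2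
    refine ⟨Sum.inl p, Sum.inr q, hp, hq, ?_⟩
    have e := Path.cons (T := mulT S T) (p := Sum.inl p') (p' := Sum.inr q') (x := none)
      (y := none) ⟨rfl, rfl, hp', hq'⟩ (mulT_inr h4)
    have := (mulT_inl (T := T) h3).append e
    simpa using this

/-! ### star -/

/-- iteration of a transducer -/
def starT (T : Transducer α β) : Transducer α β where
  σ := Option T.σ
  fin := by
    haveI := T.fin
    infer_instance
  trans p x y q := match p, q with
    | none, none => False
    | none, some q => x = none ∧ y = none ∧ T.start q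
    | some p, none => x = none ∧ y = none ∧ T.final p
    | some p, some q => T.trans p x y q
  start p := p = none
  final p := p = none

lemma starT_some {T : Transducer α β} {p q : T.σ} {u : List α} {v : List β}
    (h : Path T p u v q) : Path (starT T) (some p) u v (some q) := by
  induction h with
  | nil p => exact Path.nil (T := starT T) (some p)
  | @cons p p' q x y u v ht _ ih =>
    exact Path.cons (T := starT T) (p := some p) (p' := some p') ht ih

lemma starT_sound {T : Transducer α β} {P Q : (starT T).σ} {u : List α} {v : List β}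
    (h : Path (starT T) P u v Q) : Q = none →
    (P = none → ∃ l : List (List α × List β), (∀ x ∈ l, T.rel x.1 x.2) ∧
      u = (l.map Prod.fst).flatten ∧ v = (l.map Prod.snd).flatten) ∧
    (∀ p, P = some p → ∃ u1 v1 p' , Path T p u1 v1 p' ∧ T.final p' ∧
      ∃ l : List (List α × List β), (∀ x ∈ l, T.rel x.1 x.2) ∧
      u = u1 ++ (l.map Prod.fst).flatten ∧ v = v1 ++ (l.map Prod.snd).flatten) := by
  induction h with
  | nil P =>
    intro hQ
    refine ⟨fun _ => ⟨[], by simp, rfl, rfl⟩, fun p hp => ?_⟩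
    rw [hp] at hQ
    cases hQ
  | @cons P P' Q x y u v ht _ ih =>
    intro hQ
    obtain ⟨ih1, ih2⟩ := ih hQ
    refine ⟨fun hP => ?_, fun p hp => ?_⟩
    · subst hP
      cases P' with
      | none => exact absurd ht id
      | some p' =>
        obtain ⟨rfl, rfl, hs⟩ := ht
        obtain ⟨u1, v1, p1, h1, h2, l, h3, rfl, rfl⟩ := ih2 p' rfl
        refine ⟨(u1, v1) :: l, ?_, by simp, by simp⟩
        intro x hx
        rcases List.mem_cons.1 hx with rfl | hx
        · exact ⟨p', p1, hs, h2, h1⟩
        · exact h3 x hx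
    · subst hp
      cases P' with
      | none =>
        obtain ⟨rfl, rfl, hf⟩ := ht
        obtain ⟨l, h3, rfl, rfl⟩ := ih1 rfl
        exact ⟨[], [], p, Path.nil _, hf, l, h3, by simp, by simp⟩
      | some p' =>
        obtain ⟨u1, v1, p1, h1, h2, l, h3, rfl, rfl⟩ := ih2 p' rfl
        exact ⟨x.toList ++ u1, y.toList ++ v1, p1, Path.cons ht h1, h2, l, h3, by simp, by simp⟩

lemma isRat_star {R : List α → List β → Prop} (h : IsRat R) :
    IsRat (fun u v => ∃ l : List (List α × List β), (∀ x ∈ l, R x.1 x.2) ∧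
      u = (l.map Prod.fst).flatten ∧ v = (l.map Prod.snd).flatten) := by
  obtain ⟨T, hT⟩ := h
  refine ⟨starT T, fun u v => ⟨?_, ?_⟩⟩
  · rintro ⟨P, Q, hP, hQ, h⟩
    obtain ⟨l, h1, h2, h3⟩ := (starT_sound h hQ).1 hP
    exact ⟨l, fun x hx => (hT _ _).1 (h1 x hx), h2, h3⟩
  · rintro ⟨l, hl, rfl, rfl⟩
    refine ⟨none, none, rfl, rfl, ?_⟩
    induction l with
    | nil => exact Path.nil (T := starT T) none
    | cons x l ih =>
      obtain ⟨p, q, hp, hq, h1⟩ := (hT _ _).2 (hl x List.mem_cons_self)
      have e1 := ih (fun y hy => hl y (List.mem_cons_of_mem _ hy))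
      have e2 := Path.cons (T := starT T) (p := some q) (p' := none) (x := none) (y := none)
        ⟨rfl, rfl, hq⟩ e1
      have e3 := (starT_some h1).append e2
      have e4 := Path.cons (T := starT T) (p := none) (p' := some p) (x := none) (y := none)
        ⟨rfl, rfl, hp⟩ e3
      simpa using e4

/-! ### words -/

lemma isRat_congr {R R' : List α → List β → Prop} (h : IsRat R) (h' : ∀ u v, R u v ↔ R' u v) :
    IsRat R' := by
  obtain ⟨T, hT⟩ := h
  exact ⟨T, fun u v => (hT u v).trans (h' u v)⟩

lemma isRat_word (w : List α) (w' : List β) :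
    IsRat (fun (u : List α) (v : List β) => u = w ∧ v = w') := by
  induction w with
  | nil =>
    induction w' with
    | nil => exact isRat_one none none
    | cons b w' ih =>
      refine isRat_congr (isRat_mul (isRat_one none (some b)) ih) fun u v => ⟨?_, ?_⟩
      · rintro ⟨u1, u2, v1, v2, rfl, rfl, ⟨rfl, rfl⟩, rfl, rfl⟩
        exact ⟨rfl, rfl⟩
      · rintro ⟨rfl, rfl⟩
        exact ⟨[], [], [b], w', rfl, rfl, ⟨rfl, rfl⟩, rfl, rfl⟩
  | cons a w ih =>
    refine isRat_congr (isRat_mul (isRat_one (some a) none) ih) fun u v => ⟨?_, ?_⟩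
    · rintro ⟨u1, u2, v1, v2, rfl, rfl, ⟨rfl, rfl⟩, rfl, rfl⟩
      exact ⟨rfl, rfl⟩
    · rintro ⟨rfl, rfl⟩
      exact ⟨[a], w, [], _, rfl, rfl, ⟨rfl, rfl⟩, rfl, rfl⟩

/-- `w^n` -/
def pw (w : List α) (n : ℕ) : List α := (List.replicate n w).flatten

lemma isRat_block (p w : List α) (w' : List β) :
    IsRat (fun (u : List α) (v : List β) => ∃ n, u = p ++ pw w n ∧ v = pw w' n) := by
  refine isRat_congr (isRat_mul (isRat_word p []) (isRat_star (isRat_word w w'))) fun u v =>
    ⟨?_, ?_⟩
  · rintro ⟨u1, u2, v1, v2, rfl, rfl, ⟨rfl, rfl⟩, l, hl, rfl, rfl⟩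
    have : l = List.replicate l.length (w, w') := by
      apply List.eq_replicate_of_mem
      intro x hx
      obtain ⟨h1, h2⟩ := hl x hx
      exact Prod.ext h1 h2
    rw [this]
    refine ⟨l.length, ?_, ?_⟩
    · simp [pw]
    · simp [pw]
  · rintro ⟨n, rfl, rfl⟩
    refine ⟨p, pw w n, [], pw w' n, rfl, rfl, ⟨rfl, rfl⟩, List.replicate n (w, w'), ?_, ?_, ?_⟩
    · intro x hx
      rw [List.eq_of_mem_replicate hx]
      exact ⟨rfl, rfl⟩
    · simp [pw]
    · simp [pw]

/-- products of `k` relations -/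
lemma isRat_prod : ∀ (k : ℕ) (R : Fin k → List α → List β → Prop), (∀ t, IsRat (R t)) →
    IsRat (fun u v => ∃ (f : Fin k → List α) (g : Fin k → List β), (∀ t, R t (f t) (g t)) ∧
      u = (List.ofFn f).flatten ∧ v = (List.ofFn g).flatten) := by
  intro k
  induction k with
  | zero =>
    intro R _
    refine isRat_congr (isRat_one none none) fun u v => ⟨?_, ?_⟩
    · rintro ⟨rfl, rfl⟩
      exact ⟨fun t => t.elim0, fun t => t.elim0, fun t => t.elim0, rfl, rfl⟩
    · rintro ⟨f, g, _, rfl, rfl⟩
      exact ⟨rfl, rfl⟩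
  | succ k ih =>
    intro R hR
    refine isRat_congr (isRat_mul (hR 0) (ih (fun t => R t.succ) (fun t => hR t.succ)))
      fun u v => ⟨?_, ?_⟩
    · rintro ⟨u1, u2, v1, v2, rfl, rfl, h1, f, g, h2, rfl, rfl⟩
      refine ⟨Fin.cons u1 f, Fin.cons v1 g, ?_, ?_, ?_⟩
      · intro t
        refine Fin.cases ?_ ?_ t
        · simpa using h1
        · intro t
          simpa using h2 t
      · rw [List.ofFn_succ]; simp
      · rw [List.ofFn_succ]; simp
    · rintro ⟨f, g, h, rfl, rfl⟩
      refine ⟨f 0, _, g 0, _, ?_, ?_, h 0, fun t => f t.succ, fun t => g t.succ,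
        fun t => h t.succ, rfl, rfl⟩
      · rw [List.ofFn_succ]; simp
      · rw [List.ofFn_succ]; simp

/-- the word `a_0^{x_0} a_1^{x_1} ⋯` over the alphabet `Fin k` -/
def wk {k : ℕ} (x : Fin k → ℕ) : List (Fin k) :=
  (List.ofFn fun t => List.replicate (x t) t).flatten

lemma pw_single (a : β) (n : ℕ) : pw [a] n = List.replicate n a := by
  unfold pw
  induction n with
  | zero => rfl
  | succ n ih => rw [List.replicate_succ, List.flatten_cons, ih]; rfl

/-- the relation `p₁ w₁^{x₁} p₂ w₂^{x₂} ⋯ ↦ a₁^{x₁} a₂^{x₂} ⋯` -/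
lemma isRat_B {k : ℕ} (p w : Fin k → List α) :
    IsRat (fun (u : List α) (v : List (Fin k)) => ∃ x : Fin k → ℕ,
      u = (List.ofFn fun t => p t ++ pw (w t) (x t)).flatten ∧ v = wk x) := by
  refine isRat_congr (isRat_prod k (fun t u v => ∃ n, u = p t ++ pw (w t) n ∧ v = pw [t] n)
    (fun t => isRat_block (p t) (w t) [t])) fun u v => ⟨?_, ?_⟩
  · rintro ⟨f, g, h, rfl, rfl⟩
    choose x hx using h
    refine ⟨x, ?_, ?_⟩
    · rw [show f = fun t => p t ++ pw (w t) (x t) from funext fun t => (hx t).1]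
    · unfold wk
      rw [show g = fun t => List.replicate (x t) t from funext fun t => by
        rw [(hx t).2, pw_single]]
  · rintro ⟨x, rfl, rfl⟩
    refine ⟨_, _, fun t => ⟨x t, rfl, rfl⟩, rfl, ?_⟩
    unfold wk
    congr 2
    funext t
    rw [pw_single]

/-! ### images of regular languages -/

/-- the product of a DFA and a transducer -/
def prodNFA {σ : Type} (A : DFA α σ) (T : Transducer α β) : εNFA β (σ × T.σ) where
  step p y := {q | ∃ x : Option α, T.trans p.2 x y q.2 ∧ q.1 = A.evalFrom p.1 x.toList}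
  start := {p | p.1 = A.start ∧ T.start p.2}
  accept := {p | p.1 ∈ A.accept ∧ T.final p.2}

lemma reduceOption_cons {y : Option β} {l : List (Option β)} :
    (y :: l).reduceOption = y.toList ++ l.reduceOption := by
  cases y <;> simp

lemma prodNFA_sound {σ : Type} (A : DFA α σ) (T : Transducer α β) {p q : σ × T.σ}
    {l : List (Option β)} (h : (prodNFA A T).IsPath p q l) :
    ∃ u, Path T p.2 u l.reduceOption q.2 ∧ q.1 = A.evalFrom p.1 u := by
  induction h with
  | nil p => exact ⟨[], Path.nil _, rfl⟩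
  | cons t p q y l ht _ ih =>
    obtain ⟨u, h1, h2⟩ := ih
    obtain ⟨x, h3, h4⟩ := ht
    refine ⟨x.toList ++ u, ?_, ?_⟩
    · rw [reduceOption_cons]
      exact Path.cons h3 h1
    · rw [h2, h4, ← DFA.evalFrom_of_append]

lemma prodNFA_complete {σ : Type} (A : DFA α σ) (T : Transducer α β) {p q : T.σ} {u : List α}
    {v : List β} (h : Path T p u v q) : ∀ s : σ, ∃ l : List (Option β), l.reduceOption = v ∧
      (prodNFA A T).IsPath (s, p) (A.evalFrom s u, q) l := by
  induction h with
  | nil p => intro s; exact ⟨[], rfl, εNFA.IsPath.nil _⟩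
  | @cons p p' q x y u v ht _ ih =>
    intro s
    obtain ⟨l, h1, h2⟩ := ih (A.evalFrom s x.toList)
    refine ⟨y :: l, ?_, ?_⟩
    · rw [reduceOption_cons, h1]
    · rw [DFA.evalFrom_of_append]
      exact εNFA.IsPath.cons (A.evalFrom s x.toList, p') _ _ _ _ ⟨x, ht, rfl⟩ h2

/-- the image of a regular language under a rational transduction is regular -/
lemma image_regular (T : Transducer α β) {L : Language α} (hL : L.IsRegular) :
    (T.image L).IsRegular := by
  classical
  obtain ⟨σ, _, A, rfl⟩ := hL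
  haveI := T.fin
  haveI := Fintype.ofFinite T.σ
  refine ⟨Set (σ × T.σ), inferInstance, (prodNFA A T).toNFA.toDFA, ?_⟩
  rw [NFA.toDFA_correct, εNFA.toNFA_correct]
  ext v
  rw [εNFA.mem_accepts_iff_exists_path]
  constructor
  · rintro ⟨p, q, l, hp, hq, rfl, h⟩
    obtain ⟨u, h1, h2⟩ := prodNFA_sound A T h
    refine ⟨u, ?_, p.2, q.2, hp.2, hq.2, h1⟩
    rw [DFA.mem_accepts]
    change A.evalFrom A.start u ∈ A.accept
    rw [← hp.1, ← h2]
    exact hq.1
  · rintro ⟨u, hu, p, q, hp, hq, h⟩
    obtain ⟨l, h1, h2⟩ := prodNFA_complete A T h A.start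
    exact ⟨(A.start, p), (A.eval u, q), l, ⟨rfl, hp⟩, ⟨hu, hq⟩, h1, h2⟩

/-- finite languages are regular -/
lemma finite_regular {L : Language α} (h : (L : Set (List α)).Finite) : L.IsRegular := by
  apply Language.IsRegular.of_finite_range_leftQuotient
  have hfin : {y : List α | ∃ w ∈ L, y <:+ w}.Finite := by
    have : {y : List α | ∃ w ∈ L, y <:+ w} = ⋃ w ∈ (L : Set (List α)), {y | y <:+ w} := by
      ext y; simp
    rw [this]
    apply h.biUnion
    intro w _
    apply (List.finite_toSet w.tails).subset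
    intro y hy
    exact (List.mem_tails _ _).2 hy
  apply hfin.finite_subsets.subset
  rintro _ ⟨x, rfl⟩ y hy
  exact ⟨x ++ y, hy, x, rfl⟩

end Pool.Agent.R679.Tr
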