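import Pool.Agent.R679.Tr5

/-!
Kleene's algorithm with weights in `ℕ × ℕ`; the semilinear structure of a rational relation
between `a_0^* ⋯ a_{k-1}^*` and `a_0^* ⋯ a_{k-1}^*`.
-/

namespace Pool.Agent.R679.Tr

open scoped Pointwise

/-! ### Kleene -/

section Kleene

variable {σ : Type} (W : σ → σ → Set (ℕ × ℕ))

/-- weights of nonempty paths with inner states in `Q` -/
inductive PQ (Q : Set σ) : σ → σ → ℕ × ℕ → Prop
  | single {p q : σ} {w : ℕ × ℕ} : w ∈ W p q → PQ Q p q w
  | cons {p r q : σ} {w m : ℕ × ℕ} : w ∈ W p r → r ∈ Q → PQ Q r q m → PQ Q p q (w + m)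

lemma PQ.mono {Q Q' : Set σ} (h : Q ⊆ Q') {p q : σ} {m : ℕ × ℕ} (hm : PQ W Q p q m) :
    PQ W Q' p q m := by
  induction hm with
  | single h1 => exact PQ.single h1
  | cons h1 h2 _ ih => exact PQ.cons h1 (h h2) ih

lemma PQ.trans {Q : Set σ} {p r q : σ} {m m' : ℕ × ℕ} (h : PQ W Q p r m) (hr : r ∈ Q)
    (h' : PQ W Q r q m') : PQ W Q p q (m + m') := by
  induction h with
  | single h1 => exact PQ.cons h1 hr h'
  | cons h1 h2 _ ih => rw [add_assoc]; exact PQ.cons h1 h2 (ih hr h')

lemma PQ_insert (Q : Set σ) (r p q : σ) : {m | PQ W (insert r Q) p q m} =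
    {m | PQ W Q p q m} ∪ ({m | PQ W Q p r m} +
      ((AddSubmonoid.closure {m | PQ W Q r r m} : Set (ℕ × ℕ)) + {m | PQ W Q r q m})) := by
  ext m
  constructor
  · intro h
    change PQ W (insert r Q) p q m at h
    induction h with
    | single h1 => exact Or.inl (PQ.single h1)
    | @cons p r' q w m h1 h2 _ ih =>
      rcases h2 with rfl | h2
      · right
        rcases ih with ih | ⟨a, ha, b, ⟨c, hc, d, hd, rfl⟩, rfl⟩
        · exact ⟨w, PQ.single h1, m, ⟨0, zero_mem _, m, ih, zero_add m⟩, rfl⟩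
        · exact ⟨w, PQ.single h1, _, ⟨a + c, add_mem (AddSubmonoid.subset_closure ha) hc, d, hd,
            rfl⟩, by simp only; rw [add_assoc a c d]⟩
      · rcases ih with ih | ⟨a, ha, b, hb, rfl⟩
        · exact Or.inl (PQ.cons h1 h2 ih)
        · exact Or.inr ⟨w + a, PQ.cons h1 h2 ha, b, hb, add_assoc w a b⟩
  · rintro (h | ⟨a, ha, b, ⟨c, hc, d, hd, rfl⟩, rfl⟩)
    · exact PQ.mono W (Set.subset_insert _ _) h
    · have hsub : Q ⊆ insert r Q := Set.subset_insert _ _
      have key : ∀ c ∈ AddSubmonoid.closure {m | PQ W Q r r m}, ∀ d, PQ W (insert r Q) r q d →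
          PQ W (insert r Q) r q (c + d) := by
        intro c hc
        induction hc using AddSubmonoid.closure_induction with
        | mem x hx => intro d hd; exact PQ.trans W (PQ.mono W hsub hx) (Or.inl rfl) hd
        | zero => intro d hd; rwa [zero_add]
        | add x y _ _ ihx ihy => intro d hd; rw [add_assoc]; exact ihx _ (ihy _ hd)
      exact PQ.trans W (PQ.mono W hsub ha) (Or.inl rfl) (key c hc d (PQ.mono W hsub hd))

lemma PQ_semilinear [Finite σ] (hW : ∀ p q, (W p q).Finite) (Q : Set σ) (p q : σ) :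
    IsSemilinearSet {m | PQ W Q p q m} := by
  classical
  induction Q, Set.toFinite Q using Set.Finite.induction_on generalizing p q with
  | empty =>
    have : {m | PQ W ∅ p q m} = W p q := by
      ext m
      constructor
      · intro h
        cases h with
        | single h => exact h
        | cons _ h _ => exact absurd h (Set.notMem_empty _)
      · intro h; exact PQ.single h
    rw [this]
    exact IsSemilinearSet.of_finite (hW p q)
  | insert _ _ ih =>
    rw [PQ_insert]
    exact (ih p q).union ((ih p _).add ((ih _ _).closure.add (ih _ q)))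

end Kleene

/-! ### homogeneous segments -/

variable {k : ℕ}

/-- `s^i`, or the empty word if `s` is not a letter -/
def rep (k : ℕ) (s i : ℕ) : List (Fin k) := if h : s < k then List.replicate i ⟨s, h⟩ else []

lemma rep_add (s i j : ℕ) : rep k s (i + j) = rep k s i ++ rep k s j := by
  unfold rep
  split_ifs
  · rw [List.replicate_add]
  · rfl

lemma rep_zero (s : ℕ) : rep k s 0 = [] := by
  unfold rep
  split_ifs <;> rfl

lemma rep_split {s i : ℕ} {u u' : List (Fin k)} (h : rep k s i = u ++ u')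
    (hi : (rep k s i).length = i) :
    u = rep k s u.length ∧ u' = rep k s u'.length ∧ u.length + u'.length = i := by
  have hl := congrArg List.length h
  rw [hi, List.length_append] at hl
  unfold rep at h ⊢
  split_ifs at h ⊢ with hs
  · have := List.append_eq_replicate_iff.1 h.symm
    exact ⟨this.2.1, this.2.2, hl.symm⟩
  · obtain ⟨rfl, rfl⟩ := List.append_eq_nil_iff.1 h.symm
    exact ⟨rfl, rfl, hl.symm⟩

/-- weights of the transitions in the homogeneous part `(s, t)` -/
def Wst (T : Transducer (Fin k) (Fin k)) (s t : ℕ) (p q : T.σ) : Set (ℕ × ℕ) :=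
  {w | ∃ x y, T.trans p x y q ∧ x.toList = rep k s w.1 ∧ y.toList = rep k t w.2 ∧
    x.toList.length = w.1 ∧ y.toList.length = w.2}

lemma Wst_finite (T : Transducer (Fin k) (Fin k)) (s t : ℕ) (p q : T.σ) :
    (Wst T s t p q).Finite := by
  apply (Set.finite_Iic ((1, 1) : ℕ × ℕ)).subset
  rintro ⟨a, b⟩ ⟨x, y, _, _, _, h1, h2⟩
  constructor
  · rw [← h1]; cases x <;> simp
  · rw [← h2]; cases y <;> simp

/-- pairs realized by homogeneous segments -/
def Rst (T : Transducer (Fin k) (Fin k)) (s t : ℕ) (p q : T.σ) : Set (ℕ × ℕ) :=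
  {w | Path T p (rep k s w.1) (rep k t w.2) q ∧ (rep k s w.1).length = w.1 ∧
    (rep k t w.2).length = w.2}

lemma Rst_of_PQ {T : Transducer (Fin k) (Fin k)} {s t : ℕ} {p q : T.σ} {m : ℕ × ℕ}
    (h : PQ (Wst T s t) Set.univ p q m) : m ∈ Rst T s t p q := by
  induction h with
  | single h =>
    obtain ⟨x, y, h1, h2, h3, h4, h5⟩ := h
    refine ⟨?_, by rw [← h2, h4], by rw [← h3, h5]⟩
    rw [← h2, ← h3]
    have := Path.cons h1 (Path.nil _)
    simpa using this
  | cons h _ _ ih =>
    obtain ⟨x, y, h1, h2, h3, h4, h5⟩ := h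
    obtain ⟨h6, h7, h8⟩ := ih
    refine ⟨?_, ?_, ?_⟩
    · simp only [Prod.fst_add, Prod.snd_add, rep_add]
      rw [← h2, ← h3]
      exact Path.cons h1 h6
    · simp only [Prod.fst_add, rep_add, List.length_append]
      rw [h7, ← h2, h4]
    · simp only [Prod.snd_add, rep_add, List.length_append]
      rw [h8, ← h3, h5]

lemma PQ_of_path {T : Transducer (Fin k) (Fin k)} {s t : ℕ} {p q : T.σ} {u v : List (Fin k)}
    (h : Path T p u v q) : ∀ i j, u = rep k s i → v = rep k t j → (rep k s i).length = i →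
      (rep k t j).length = j →
      (p = q ∧ i = 0 ∧ j = 0) ∨ PQ (Wst T s t) Set.univ p q (i, j) := by
  induction h with
  | nil p =>
    intro i j hu hv hi hj
    rw [← hu] at hi
    rw [← hv] at hj
    exact Or.inl ⟨rfl, by simpa using hi.symm, by simpa using hj.symm⟩
  | @cons p p' q x y u v ht _ ih =>
    intro i j hu hv hi hj
    obtain ⟨h1, h2, h3⟩ := rep_split hu.symm hi
    obtain ⟨h4, h5, h6⟩ := rep_split hv.symm hj
    right
    have hw : (x.toList.length, y.toList.length) ∈ Wst T s t p p' :=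
      ⟨x, y, ht, h1, h4, rfl, rfl⟩
    rcases ih u.length v.length h2 h5 (by rw [← h2]) (by rw [← h5]) with ⟨rfl, h7, h8⟩ | h7
    · have e : (i, j) = (x.toList.length, y.toList.length) := by
        ext <;> simp only <;> omega
      rw [e]
      exact PQ.single hw
    · have e : (i, j) = (x.toList.length, y.toList.length) + (u.length, v.length) := by
        ext
        · simp only [Prod.fst_add]; omega
        · simp only [Prod.snd_add]; omega
      rw [e]
      exact PQ.cons hw trivial h7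

lemma Rst_semilinear (T : Transducer (Fin k) (Fin k)) (s t : ℕ) (p q : T.σ) :
    IsSemilinearSet (Rst T s t p q) := by
  classical
  haveI := T.fin
  have h1 := PQ_semilinear (Wst T s t) (Wst_finite T s t) Set.univ p q
  by_cases hpq : p = q
  · have : Rst T s t p q = {(0, 0)} ∪ {m | PQ (Wst T s t) Set.univ p q m} := by
      ext ⟨i, j⟩
      constructor
      · rintro ⟨h2, h3, h4⟩
        rcases PQ_of_path h2 i j rfl rfl h3 h4 with ⟨_, rfl, rfl⟩ | h5
        · exact Or.inl rfl
        · exact Or.inr h5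
      · rintro (h | h)
        · have : (i, j) = (0, 0) := h
          rw [this, hpq]
          refine ⟨?_, ?_, ?_⟩
          · simp only [rep_zero]; exact Path.nil _
          · simp only [rep_zero]; rfl
          · simp only [rep_zero]; rfl
        · exact Rst_of_PQ h
    rw [this]
    exact (IsSemilinearSet.singleton _).union h1
  · have : Rst T s t p q = {m | PQ (Wst T s t) Set.univ p q m} := by
      ext ⟨i, j⟩
      constructor
      · rintro ⟨h2, h3, h4⟩
        rcases PQ_of_path h2 i j rfl rfl h3 h4 with ⟨h5, _⟩ | h5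
        · exact absurd h5 hpq
        · exact h5
      · exact fun h => Rst_of_PQ h
    rw [this]
    exact h1

/-! ### finite unions of linear sets with special generators -/

/-- pairs of vectors -/
abbrev MM (k : ℕ) : Type := (Fin k → ℕ) × (Fin k → ℕ)

/-- both components are supported in at most one coordinate -/
def IsGen (g : MM k) : Prop := ∃ s i t j, g = (Pi.single s i, Pi.single t j)

/-- the linear set with base `ρ.1` and generators `ρ.2` -/
def LinS (ρ : MM k × Finset (MM k)) : Set (MM k) :=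
  {m | ∃ c ∈ AddSubmonoid.closure (ρ.2 : Set (MM k)), m = ρ.1 + c}

/-- finite unions of linear sets with special generators -/
def GLU (A : Set (MM k)) : Prop :=
  ∃ l : List (MM k × Finset (MM k)), (∀ ρ ∈ l, ∀ g ∈ ρ.2, IsGen g) ∧
    A = {m | ∃ ρ ∈ l, m ∈ LinS ρ}

lemma GLU.empty : GLU (∅ : Set (MM k)) := ⟨[], by simp, by simp⟩

lemma GLU.zero : GLU ({0} : Set (MM k)) := by
  refine ⟨[(0, ∅)], by simp, ?_⟩
  ext m
  simp only [Set.mem_singleton_iff, List.mem_singleton, exists_eq_left, LinS,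
    Finset.coe_empty, AddSubmonoid.closure_empty, AddSubmonoid.mem_bot, Set.mem_setOf_eq,
    add_zero]

lemma GLU.union {A B : Set (MM k)} (hA : GLU A) (hB : GLU B) : GLU (A ∪ B) := by
  obtain ⟨l, h1, rfl⟩ := hA
  obtain ⟨l', h2, rfl⟩ := hB
  refine ⟨l ++ l', ?_, ?_⟩
  · intro ρ hρ
    rcases List.mem_append.1 hρ with h | h
    · exact h1 ρ h
    · exact h2 ρ h
  · ext m
    simp only [Set.mem_union, Set.mem_setOf_eq, List.mem_append]
    constructor
    · rintro (⟨ρ, h, h'⟩ | ⟨ρ, h, h'⟩)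
      · exact ⟨ρ, Or.inl h, h'⟩
      · exact ⟨ρ, Or.inr h, h'⟩
    · rintro ⟨ρ, h | h, h'⟩
      · exact Or.inl ⟨ρ, h, h'⟩
      · exact Or.inr ⟨ρ, h, h'⟩

lemma GLU.iUnion {ι : Type} [Finite ι] {A : ι → Set (MM k)} (hA : ∀ i, GLU (A i)) :
    GLU (⋃ i, A i) := by
  classical
  have : ∀ s : Set ι, s.Finite → GLU (⋃ i ∈ s, A i) := by
    intro s hs
    induction s, hs using Set.Finite.induction_on with
    | empty => simpa using GLU.empty
    | insert _ _ ih =>
      rw [Set.biUnion_insert]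
      exact (hA _).union ih
  have h := this Set.univ Set.finite_univ
  simpa using h

lemma GLU.add {A B : Set (MM k)} (hA : GLU A) (hB : GLU B) : GLU (A + B) := by
  classical
  obtain ⟨l, h1, rfl⟩ := hA
  obtain ⟨l', h2, rfl⟩ := hB
  refine ⟨(l ×ˢ l').map (fun x => (x.1.1 + x.2.1, x.1.2 ∪ x.2.2)), ?_, ?_⟩
  · intro ρ hρ g hg
    rw [List.mem_map] at hρ
    obtain ⟨⟨ρ1, ρ2⟩, h3, rfl⟩ := hρ
    rw [List.mem_product] at h3
    rcases Finset.mem_union.1 hg with h4 | h4
    · exact h1 _ h3.1 g h4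
    · exact h2 _ h3.2 g h4
  · ext m
    constructor
    · rintro ⟨a, ⟨ρ1, h3, c1, h4, rfl⟩, b, ⟨ρ2, h5, c2, h6, rfl⟩, rfl⟩
      refine ⟨(ρ1.1 + ρ2.1, ρ1.2 ∪ ρ2.2), ?_, c1 + c2, ?_, ?_⟩
      · rw [List.mem_map]
        exact ⟨(ρ1, ρ2), List.mem_product.2 ⟨h3, h5⟩, rfl⟩
      · simp only [Finset.coe_union, AddSubmonoid.closure_union]
        exact AddSubmonoid.add_mem_sup h4 h6
      · simp only
        abel
    · rintro ⟨ρ, hρ, c, hc, rfl⟩
      rw [List.mem_map] at hρ
      obtain ⟨⟨ρ1, ρ2⟩, h3, rfl⟩ := hρ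
      rw [List.mem_product] at h3
      simp only [Finset.coe_union, AddSubmonoid.closure_union] at hc
      obtain ⟨c1, h4, c2, h5, rfl⟩ := AddSubmonoid.mem_sup.1 hc
      refine ⟨ρ1.1 + c1, ⟨ρ1, h3.1, c1, h4, rfl⟩, ρ2.1 + c2, ⟨ρ2, h3.2, c2, h5, rfl⟩, ?_⟩
      simp only
      abel

/-- the vector `i e_s` (zero if `s` is not an index) -/
def sg (k : ℕ) (s i : ℕ) : Fin k → ℕ := fun a => if (a : ℕ) = s then i else 0

/-- the additive map `(i, j) ↦ (i e_s, j e_t)` -/
def emb (k : ℕ) (s t : ℕ) : ℕ × ℕ →+ MM k where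
  toFun w := (sg k s w.1, sg k t w.2)
  map_zero' := by
    ext a <;> simp [sg]
  map_add' x y := by
    ext a
    · simp only [sg, Prod.fst_add, Pi.add_apply]; split_ifs <;> rfl
    · simp only [sg, Prod.snd_add, Pi.add_apply]; split_ifs <;> rfl

lemma sg_single (s i : ℕ) (hk : 0 < k) : ∃ a j, sg k s i = Pi.single a j := by
  by_cases h : s < k
  · refine ⟨⟨s, h⟩, i, ?_⟩
    ext a
    by_cases ha : a = ⟨s, h⟩
    · subst ha; simp [sg]
    · rw [Pi.single_eq_of_ne ha]
      unfold sg
      rw [if_neg]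
      intro h'
      exact ha (Fin.ext h')
  · refine ⟨⟨0, hk⟩, 0, ?_⟩
    ext a
    simp only [sg, Pi.single_zero, Pi.zero_apply, ite_eq_right_iff]
    intro h'
    have := a.2
    omega

lemma isGen_emb (hk : 0 < k) (s t : ℕ) (w : ℕ × ℕ) : IsGen (emb k s t w) := by
  obtain ⟨a, i, h1⟩ := sg_single (k := k) s w.1 hk
  obtain ⟨b, j, h2⟩ := sg_single (k := k) t w.2 hk
  exact ⟨a, i, b, j, by change (sg k s w.1, sg k t w.2) = _; rw [h1, h2]⟩

lemma GLU.of_semilinear (hk : 0 < k) (s t : ℕ) {A : Set (ℕ × ℕ)} (hA : IsSemilinearSet A) :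
    GLU (emb k s t '' A) := by
  classical
  obtain ⟨S, hS, hlin, rfl⟩ := hA
  induction S, hS using Set.Finite.induction_on with
  | empty => simpa using GLU.empty
  | @insert B S _ _ ih =>
    rw [Set.sUnion_insert, Set.image_union]
    refine GLU.union ?_ (ih (fun C hC => hlin C (Set.mem_insert_of_mem _ hC)))
    obtain ⟨a, P, hP, rfl⟩ := hlin B (Set.mem_insert _ _)
    refine ⟨[(emb k s t a, (hP.image (emb k s t)).toFinset)], ?_, ?_⟩
    · intro ρ hρ g hg
      rw [List.mem_singleton] at hρ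
      subst hρ
      simp only [Set.Finite.mem_toFinset] at hg
      obtain ⟨w, _, rfl⟩ := hg
      exact isGen_emb hk s t w
    · ext m
      simp only [List.mem_singleton, exists_eq_left, LinS, Set.Finite.coe_toFinset,
        Set.mem_setOf_eq]
      rw [← AddMonoidHom.map_mclosure]
      constructor
      · rintro ⟨_, ⟨c, hc, rfl⟩, rfl⟩
        exact ⟨emb k s t c, ⟨c, hc, rfl⟩, by simp⟩
      · rintro ⟨_, ⟨c, hc, rfl⟩, rfl⟩
        exact ⟨a + c, ⟨c, hc, rfl⟩, by simp⟩

end Pool.Agent.R679.Tr
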