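import Pool.Agent.R679.Tr6

/-!
A rational relation between `a_0^* ⋯ a_{k-1}^*` and itself is a finite union of linear sets with
special generators.
-/

namespace Pool.Agent.R679.Tr

open scoped Pointwise

variable {k : ℕ}

/-- Parikh vector -/
def cnt (u : List (Fin k)) : Fin k → ℕ := fun a => u.count a

lemma cnt_append (u v : List (Fin k)) : cnt (u ++ v) = cnt u + cnt v := by
  funext a
  simp [cnt]

lemma cnt_rep {s i : ℕ} (h : (rep k s i).length = i) : cnt (rep k s i) = sg k s i := by
  funext a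
  unfold cnt sg
  unfold rep at h ⊢
  split_ifs at h ⊢ with h1 h2 h2
  · rw [List.count_replicate, if_pos]
    rw [beq_iff_eq]; exact Fin.ext h2.symm
  · rw [List.count_replicate, if_neg]
    rw [beq_iff_eq]; intro h3; exact h2 (by rw [← h3])
  · exfalso; have := a.2; omega
  · rfl

/-- all letters are `≥ s` -/
def GEl (s : ℕ) (u : List (Fin k)) : Prop := ∀ a ∈ u, s ≤ (a : ℕ)

lemma split_ge (s : ℕ) : ∀ u : List (Fin k), u.Pairwise (· ≤ ·) → GEl s u →
    ∃ i u', u = rep k s i ++ u' ∧ (rep k s i).length = i ∧ u'.Pairwise (· ≤ ·) ∧ GEl (s + 1) u' := by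
  intro u
  induction u with
  | nil =>
    intro _ _
    exact ⟨0, [], by rw [rep_zero]; rfl, by rw [rep_zero]; rfl, List.Pairwise.nil,
      fun a ha => absurd ha List.not_mem_nil⟩
  | cons a u ih =>
    intro hs hg
    rw [List.pairwise_cons] at hs
    have ha : s ≤ (a : ℕ) := hg a List.mem_cons_self
    by_cases has : (a : ℕ) = s
    · obtain ⟨i, u', h1, h2, h3, h4⟩ := ih hs.2 (fun b hb => hg b (List.mem_cons_of_mem _ hb))
      have hsk : s < k := has ▸ a.2
      have e : rep k s (i + 1) = a :: rep k s i := by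
        unfold rep
        rw [dif_pos hsk, dif_pos hsk, List.replicate_succ]
        congr 1
        exact Fin.ext has.symm
      refine ⟨i + 1, u', ?_, ?_, h3, h4⟩
      · rw [e, h1]; rfl
      · rw [e, List.length_cons, h2]
    · refine ⟨0, a :: u, by rw [rep_zero]; rfl, by rw [rep_zero]; rfl,
        List.pairwise_cons.2 hs, ?_⟩
      intro b hb
      rcases List.mem_cons.1 hb with rfl | hb
      · omega
      · have : (a : ℕ) ≤ b := hs.1 b hb
        omega

lemma GEl_nil {u : List (Fin k)} {s : ℕ} (hs : k ≤ s) (h : GEl s u) : u = [] := by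
  cases u with
  | nil => rfl
  | cons a u =>
    have := h a List.mem_cons_self
    have := a.2
    omega

lemma GEl_rep (s i : ℕ) : GEl s (rep k s i) := by
  intro a ha
  unfold rep at ha
  split_ifs at ha
  · rw [List.eq_of_mem_replicate ha]
  · exact absurd ha List.not_mem_nil

lemma le_rep {s i : ℕ} {a : Fin k} (ha : a ∈ rep k s i) : (a : ℕ) = s := by
  unfold rep at ha
  split_ifs at ha
  · rw [List.eq_of_mem_replicate ha]
  · exact absurd ha List.not_mem_nil

lemma sorted_rep_append {s i : ℕ} {u : List (Fin k)} (hu : u.Pairwise (· ≤ ·)) (hg : GEl s u) :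
    (rep k s i ++ u).Pairwise (· ≤ ·) := by
  rw [List.pairwise_append]
  refine ⟨?_, hu, ?_⟩
  · unfold rep
    split_ifs
    · exact List.pairwise_replicate.2 (Or.inr le_rfl)
    · exact List.Pairwise.nil
  · intro a ha b hb
    have h1 := le_rep ha
    have h2 := hg b hb
    change (a : ℕ) ≤ b
    omega

lemma GEl_append {s : ℕ} {u v : List (Fin k)} (h : GEl s u) (h' : GEl s v) : GEl s (u ++ v) := by
  intro a ha
  rcases List.mem_append.1 ha with ha | ha
  · exact h a ha
  · exact h' a ha

lemma GEl_mono {s s' : ℕ} {u : List (Fin k)} (hs : s' ≤ s) (h : GEl s u) : GEl s' u :=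
  fun a ha => hs.trans (h a ha)

/-- pairs of Parikh vectors of the sorted words with letters `≥ s`, `≥ t` on paths from `p` to
a final state -/
def VV (T : Transducer (Fin k) (Fin k)) (s t : ℕ) (p : T.σ) : Set (MM k) :=
  {m | ∃ u v q, u.Pairwise (· ≤ ·) ∧ v.Pairwise (· ≤ ·) ∧ GEl s u ∧ GEl t v ∧ T.final q ∧
    Path T p u v q ∧ m = (cnt u, cnt v)}

lemma VV_step_in {T : Transducer (Fin k) (Fin k)} {s t : ℕ} {p q : T.σ} {w : ℕ × ℕ} {m : MM k}
    (hw : w ∈ Rst T s t p q) (hm : m ∈ VV T (s + 1) t q ∨ m ∈ VV T s (t + 1) q) :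
    emb k s t w + m ∈ VV T s t p := by
  obtain ⟨u, v, r, h1, h2, h3, h4, h5, h6, rfl⟩ : m ∈ VV T s t q := by
    rcases hm with hm | hm
    · obtain ⟨u, v, r, h1, h2, h3, h4, h5, h6, rfl⟩ := hm
      exact ⟨u, v, r, h1, h2, GEl_mono (by omega) h3, h4, h5, h6, rfl⟩
    · obtain ⟨u, v, r, h1, h2, h3, h4, h5, h6, rfl⟩ := hm
      exact ⟨u, v, r, h1, h2, h3, GEl_mono (by omega) h4, h5, h6, rfl⟩
  obtain ⟨h7, h8, h9⟩ := hw
  refine ⟨rep k s w.1 ++ u, rep k t w.2 ++ v, r, sorted_rep_append h1 h3,
    sorted_rep_append h2 h4, GEl_append (GEl_rep _ _) h3, GEl_append (GEl_rep _ _) h4, h5,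
    h7.append h6, ?_⟩
  rw [cnt_append, cnt_append, cnt_rep h8, cnt_rep h9]
  rfl

lemma VV_eq (T : Transducer (Fin k) (Fin k)) {s t : ℕ} (hs : s ≤ k) (ht : t ≤ k) (p : T.σ) :
    VV T s t p = ⋃ q, (emb k s t '' Rst T s t p q) +
      (({m | s < k ∧ m ∈ VV T (s + 1) t q} ∪ {m | t < k ∧ m ∈ VV T s (t + 1) q}) ∪
        {m | s = k ∧ t = k ∧ T.final q ∧ m = 0}) := by
  ext m
  rw [Set.mem_iUnion]
  constructor
  · rintro ⟨u, v, r, h1, h2, h3, h4, h5, h6, rfl⟩
    by_cases hsk : s < k
    · obtain ⟨i, u', rfl, hi, hu', hgu'⟩ := split_ge s u h1 h3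
      by_cases htk : t < k
      · obtain ⟨q, v1, v2, hv, h7, h8⟩ := h6.split_in
        obtain ⟨j, v', hv', hj, hsv', hgv'⟩ := split_ge t v h2 h4
        rcases List.append_eq_append_iff.1 (hv.symm.trans hv') with ⟨e, h9, h10⟩ | ⟨e, h9, h10⟩
        · -- `t^j = v1 e`, `v2 = e v'`
          obtain ⟨h11, h12, h13⟩ := rep_split h9 hj
          refine ⟨q, emb k s t (i, v1.length), ⟨(i, v1.length), ⟨?_, hi, by rw [← h11]⟩, rfl⟩,
            (cnt u', cnt v2), Or.inl (Or.inl ⟨hsk, u', v2, r, hu', ?_, hgu', ?_, h5, h8, rfl⟩), ?_⟩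
          · simp only; rw [← h11]; exact h7
          · rw [hv] at h2; exact (List.pairwise_append.1 h2).2.1
          · intro a ha; exact h4 a (by rw [hv]; exact List.mem_append_right _ ha)
          · rw [hv, cnt_append, cnt_append, cnt_rep hi]
            have : cnt v1 = sg k t v1.length := by
              conv_lhs => rw [h11]
              exact cnt_rep (by rw [← h11])
            rw [this]
            rfl
        · -- `v1 = t^j e`, `v' = e v2`
          rw [h9] at h7
          obtain ⟨q', u1, u2, hu, h11, h12⟩ := h7.split_out rfl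
          obtain ⟨h13, h14, h15⟩ := rep_split hu hi
          refine ⟨q', emb k s t (u1.length, j), ⟨(u1.length, j), ⟨?_, by rw [← h13], hj⟩, rfl⟩,
            (cnt (u2 ++ u'), cnt (e ++ v2)), Or.inl (Or.inr ⟨htk, u2 ++ u', e ++ v2, r, ?_, ?_, ?_,
              ?_, h5, h12.append h8, rfl⟩), ?_⟩
          · simp only; rw [← h13]; exact h11
          · rw [h14]; exact sorted_rep_append hu' (GEl_mono (by omega) hgu')
          · rw [← h10]; exact hsv'
          · rw [h14]; exact GEl_append (GEl_rep _ _) (GEl_mono (by omega) hgu')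
          · rw [← h10]; exact hgv'
          · rw [hv', ← h10, cnt_append, cnt_append, cnt_append, cnt_rep hj, hu, cnt_append]
            have : cnt u1 = sg k s u1.length := by
              conv_lhs => rw [h13]
              exact cnt_rep (by rw [← h13])
            rw [this]
            ext a
            · simp only [emb, AddMonoidHom.coe_mk, ZeroHom.coe_mk, Prod.fst_add, Pi.add_apply]
              omega
            · simp only [emb, AddMonoidHom.coe_mk, ZeroHom.coe_mk, Prod.snd_add, Pi.add_apply]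
      · obtain rfl : t = k := by omega
        obtain rfl : v = [] := GEl_nil le_rfl h4
        obtain ⟨q, v1, v2, hv, h7, h8⟩ := h6.split_in
        obtain ⟨rfl, rfl⟩ := List.append_eq_nil_iff.1 hv.symm
        refine ⟨q, emb t s t (i, 0), ⟨(i, 0), ⟨?_, hi, by simp only [rep_zero]; rfl⟩, rfl⟩,
            (cnt u', cnt []), Or.inl (Or.inl ⟨hsk, u', [], r, hu', List.Pairwise.nil, hgu', ?_, h5,
              h8, rfl⟩), ?_⟩
        · simp only [rep_zero]; exact h7
        · intro a ha; exact absurd ha List.not_mem_nil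
        · rw [cnt_append, cnt_rep hi]
          ext a
          · rfl
          · simp only [emb, AddMonoidHom.coe_mk, ZeroHom.coe_mk, Prod.snd_add, Pi.add_apply]
            simp [sg]
    · obtain rfl : s = k := by omega
      obtain rfl : u = [] := GEl_nil le_rfl h3
      by_cases htk : t < s
      · obtain ⟨j, v', rfl, hj, hsv', hgv'⟩ := split_ge t v h2 h4
        obtain ⟨q, u1, u2, hu, h7, h8⟩ := h6.split_out rfl
        obtain ⟨rfl, rfl⟩ := List.append_eq_nil_iff.1 hu.symm
        refine ⟨q, emb s s t (0, j), ⟨(0, j), ⟨?_, by simp only [rep_zero]; rfl, hj⟩, rfl⟩,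
            (cnt [], cnt v'), Or.inl (Or.inr ⟨htk, [], v', r, List.Pairwise.nil, hsv', ?_, hgv', h5,
              h8, rfl⟩), ?_⟩
        · simp only [rep_zero]; exact h7
        · intro a ha; exact absurd ha List.not_mem_nil
        · rw [cnt_append, cnt_rep hj]
          ext a
          · simp only [emb, AddMonoidHom.coe_mk, ZeroHom.coe_mk, Prod.fst_add, Pi.add_apply]
            simp [sg]
          · rfl
      · obtain rfl : t = s := by omega
        obtain rfl : v = [] := GEl_nil le_rfl h4
        refine ⟨r, emb t t t (0, 0), ⟨(0, 0), ⟨?_, by simp only [rep_zero]; rfl,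
          by simp only [rep_zero]; rfl⟩, rfl⟩, 0, Or.inr ⟨rfl, rfl, h5, rfl⟩, ?_⟩
        · simp only [rep_zero]; exact h6
        · ext a
          · simp [emb, sg, cnt]
          · simp [emb, sg, cnt]
  · rintro ⟨q, _, ⟨w, hw, rfl⟩, m', (⟨_, hm'⟩ | ⟨_, hm'⟩) | ⟨rfl, rfl, hf, rfl⟩, rfl⟩
    · exact VV_step_in hw (Or.inl hm')
    · exact VV_step_in hw (Or.inr hm')
    · obtain ⟨h7, h8, h9⟩ := hw
      refine ⟨rep t t w.1, rep t t w.2, q, ?_, ?_, GEl_rep _ _, GEl_rep _ _, hf, h7, ?_⟩
      · have := sorted_rep_append (s := t) (i := w.1) (u := ([] : List (Fin t)))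
          List.Pairwise.nil (fun a ha => absurd ha List.not_mem_nil)
        simpa using this
      · have := sorted_rep_append (s := t) (i := w.2) (u := ([] : List (Fin t)))
          List.Pairwise.nil (fun a ha => absurd ha List.not_mem_nil)
        simpa using this
      · rw [cnt_rep h8, cnt_rep h9]
        simp only [add_zero]
        rfl

lemma GLU_and {P : Prop} {A : Set (MM k)} (h : P → GLU A) : GLU {m | P ∧ m ∈ A} := by
  by_cases hP : P
  · have : {m | P ∧ m ∈ A} = A := by ext m; simp [hP]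
    rw [this]; exact h hP
  · have : {m | P ∧ m ∈ A} = ∅ := by ext m; simp [hP]
    rw [this]; exact GLU.empty

lemma VV_GLU (T : Transducer (Fin k) (Fin k)) (hk : 0 < k) (n : ℕ) : ∀ s t, s ≤ k → t ≤ k →
    (k - s) + (k - t) = n → ∀ p, GLU (VV T s t p) := by
  haveI := T.fin
  induction n using Nat.strong_induction_on with
  | _ n ih =>
    intro s t hs ht hn p
    rw [VV_eq T hs ht p]
    apply GLU.iUnion
    intro q
    refine GLU.add (GLU.of_semilinear hk s t (Rst_semilinear T s t p q)) ?_
    refine GLU.union (GLU.union ?_ ?_) ?_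
    · exact GLU_and (fun h => ih ((k - (s + 1)) + (k - t)) (by omega) (s + 1) t (by omega) ht rfl q)
    · exact GLU_and (fun h => ih ((k - s) + (k - (t + 1))) (by omega) s (t + 1) hs (by omega) rfl q)
    · have : {m : MM k | s = k ∧ t = k ∧ T.final q ∧ m = 0} =
          {m | (s = k ∧ t = k ∧ T.final q) ∧ m ∈ ({0} : Set (MM k))} := by
        ext m; simp [and_assoc]
      rw [this]
      exact GLU_and (fun _ => GLU.zero)

/-! ### `wk` -/

lemma count_wk (x : Fin k → ℕ) (a : Fin k) : (wk x).count a = x a := by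
  unfold wk
  rw [List.count_flatten, List.map_ofFn, List.sum_ofFn]
  simp only [Function.comp_def, List.count_replicate]
  rw [Finset.sum_eq_single a]
  · simp
  · intro b _ hb
    rw [if_neg]
    simpa using hb
  · simp

lemma cnt_wk (x : Fin k → ℕ) : cnt (wk x) = x := funext fun a => count_wk x a

lemma sorted_wk (x : Fin k → ℕ) : (wk x).Pairwise (· ≤ ·) := by
  unfold wk
  rw [List.pairwise_flatten]
  refine ⟨?_, ?_⟩
  · intro l hl
    rw [List.mem_ofFn] at hl
    obtain ⟨a, rfl⟩ := hl
    exact List.pairwise_replicate.2 (Or.inr le_rfl)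
  · rw [List.pairwise_ofFn]
    intro i j hij a ha b hb
    rw [List.eq_of_mem_replicate ha, List.eq_of_mem_replicate hb]
    exact hij.le

lemma eq_wk {u : List (Fin k)} (hu : u.Pairwise (· ≤ ·)) : u = wk (cnt u) := by
  have hp : u.Perm (wk (cnt u)) := by
    rw [List.perm_iff_count]
    intro a
    rw [count_wk]
    rfl
  exact hp.eq_of_pairwise (fun a b _ _ h1 h2 => le_antisymm h1 h2) hu (sorted_wk _)

/-- pairs of exponent vectors related by a transducer -/
def RR (T : Transducer (Fin k) (Fin k)) : Set (MM k) := {m | T.rel (wk m.1) (wk m.2)}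

lemma RR_GLU (T : Transducer (Fin k) (Fin k)) (hk : 0 < k) : GLU (RR T) := by
  haveI := T.fin
  have : RR T = ⋃ p, {m | T.start p ∧ m ∈ VV T 0 0 p} := by
    ext m
    rw [Set.mem_iUnion]
    constructor
    · rintro ⟨p, q, hp, hq, h⟩
      refine ⟨p, hp, wk m.1, wk m.2, q, sorted_wk _, sorted_wk _, fun a _ => Nat.zero_le _,
        fun a _ => Nat.zero_le _, hq, h, ?_⟩
      rw [cnt_wk, cnt_wk]
    · rintro ⟨p, hp, u, v, q, h1, h2, _, _, hq, h, rfl⟩
      refine ⟨p, q, hp, hq, ?_⟩
      simp only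
      rw [← eq_wk h1, ← eq_wk h2]
      exact h
  rw [this]
  exact GLU.iUnion (fun p => GLU_and (fun _ => VV_GLU T hk _ 0 0 (by omega) (by omega) rfl p))

end Pool.Agent.R679.Tr
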