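import Pool.Agent.R679.Tr7

/-!
The arithmetic core of the minimality theorem.
-/

namespace Pool.Agent.R679.Tr

variable {k : ℕ}

/-- nonconstant vectors -/
def NC (n : Fin k → ℕ) : Prop := ∃ a b, n a ≠ n b

lemma not_NC {n : Fin k → ℕ} (h : ¬ NC n) (a b : Fin k) : n a = n b := by
  by_contra hne
  exact h ⟨a, b, hne⟩

/-- the vectors `x` related to some nonconstant vector -/
def Lx (l : List (MM k × Finset (MM k))) : Set (Fin k → ℕ) :=
  {x | ∃ n, NC n ∧ ∃ ρ ∈ l, (n, x) ∈ LinS ρ}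

lemma exists_bound (l : List (MM k × Finset (MM k))) : ∃ B : ℕ, ∀ ρ ∈ l,
    (∀ a, ρ.1.1 a ≤ B ∧ ρ.1.2 a ≤ B) ∧ ρ.2.card ≤ B ∧ ∀ g ∈ ρ.2, ∀ a, g.1 a ≤ B ∧ g.2 a ≤ B := by
  induction l with
  | nil => exact ⟨0, by simp⟩
  | cons ρ l ih =>
    obtain ⟨B, hB⟩ := ih
    let B' : ℕ := (∑ a, ρ.1.1 a) + (∑ a, ρ.1.2 a) + ρ.2.card + ∑ g ∈ ρ.2, ∑ a, (g.1 a + g.2 a)
    refine ⟨B + B', ?_⟩
    intro ρ' hρ'
    rcases List.mem_cons.1 hρ' with rfl | hρ'
    · refine ⟨fun a => ⟨?_, ?_⟩, ?_, ?_⟩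
      · have : ρ'.1.1 a ≤ ∑ a, ρ'.1.1 a := Finset.single_le_sum (fun _ _ => Nat.zero_le _)
          (Finset.mem_univ a)
        omega
      · have : ρ'.1.2 a ≤ ∑ a, ρ'.1.2 a := Finset.single_le_sum (fun _ _ => Nat.zero_le _)
          (Finset.mem_univ a)
        omega
      · omega
      · intro g hg a
        have h1 : ∑ a, (g.1 a + g.2 a) ≤ ∑ g ∈ ρ'.2, ∑ a, (g.1 a + g.2 a) :=
          Finset.single_le_sum (f := fun g : MM k => ∑ a, (g.1 a + g.2 a))
            (fun _ _ => Nat.zero_le _) hg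
        have h2 : g.1 a + g.2 a ≤ ∑ a, (g.1 a + g.2 a) :=
          Finset.single_le_sum (f := fun a => g.1 a + g.2 a) (fun _ _ => Nat.zero_le _)
            (Finset.mem_univ a)
        omega
    · obtain ⟨h1, h2, h3⟩ := hB ρ' hρ'
      refine ⟨fun a => ⟨?_, ?_⟩, by omega, fun g hg a => ?_⟩
      · have := (h1 a).1; omega
      · have := (h1 a).2; omega
      · have := h3 g hg a; omega

lemma gen_fst {g : MM k} (hg : IsGen g) {s : Fin k} (h : 1 ≤ g.1 s) :
    g.1 = Pi.single s (g.1 s) := by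
  obtain ⟨s', i, t', j, rfl⟩ := hg
  simp only at h ⊢
  by_cases hs : s = s'
  · subst hs; simp
  · rw [Pi.single_eq_of_ne hs] at h
    omega

lemma gen_snd {g : MM k} (hg : IsGen g) {t : Fin k} (h : 1 ≤ g.2 t) :
    g.2 = Pi.single t (g.2 t) := by
  obtain ⟨s', i, t', j, rfl⟩ := hg
  simp only at h ⊢
  by_cases hs : t = t'
  · subst hs; simp
  · rw [Pi.single_eq_of_ne hs] at h
    omega

lemma exists_third (hk : 3 ≤ k) (a b : Fin k) : ∃ c, c ≠ a ∧ c ≠ b := by
  by_contra hcon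
  push Not at hcon
  have h0 := hcon ⟨0, by omega⟩
  have h1 := hcon ⟨1, by omega⟩
  have h2 := hcon ⟨2, by omega⟩
  have e01 : (⟨0, by omega⟩ : Fin k) ≠ ⟨1, by omega⟩ := by
    intro h; exact absurd (Fin.mk.inj h) (by decide)
  have e02 : (⟨0, by omega⟩ : Fin k) ≠ ⟨2, by omega⟩ := by
    intro h; exact absurd (Fin.mk.inj h) (by decide)
  have e12 : (⟨1, by omega⟩ : Fin k) ≠ ⟨2, by omega⟩ := by
    intro h; exact absurd (Fin.mk.inj h) (by decide)
  by_cases g0 : (⟨0, by omega⟩ : Fin k) = a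
  · by_cases g1 : (⟨1, by omega⟩ : Fin k) = a
    · exact e01 (g0.trans g1.symm)
    · by_cases g2 : (⟨2, by omega⟩ : Fin k) = a
      · exact e02 (g0.trans g2.symm)
      · exact e12 ((h1 g1).trans (h2 g2).symm)
  · by_cases g1 : (⟨1, by omega⟩ : Fin k) = a
    · by_cases g2 : (⟨2, by omega⟩ : Fin k) = a
      · exact e12 (g1.trans g2.symm)
      · exact e02 ((h0 g0).trans (h2 g2).symm)
    · exact e01 ((h0 g0).trans (h1 g1).symm)

lemma LinS_add {ρ : MM k × Finset (MM k)} {m c : MM k} (hm : m ∈ LinS ρ)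
    (hc : c ∈ AddSubmonoid.closure (ρ.2 : Set (MM k))) : m + c ∈ LinS ρ := by
  obtain ⟨c', hc', rfl⟩ := hm
  exact ⟨c' + c, add_mem hc' hc, add_assoc _ _ _⟩

/-- structure of the linear sets that relate a long constant vector to a vector outside `Lx` -/
lemma structure_lemma (hk : 3 ≤ k) {l : List (MM k × Finset (MM k))}
    (hgen : ∀ ρ ∈ l, ∀ g ∈ ρ.2, IsGen g) {B : ℕ} (hB : ∀ ρ ∈ l,
    (∀ a, ρ.1.1 a ≤ B ∧ ρ.1.2 a ≤ B) ∧ ρ.2.card ≤ B ∧ ∀ g ∈ ρ.2, ∀ a, g.1 a ≤ B ∧ g.2 a ≤ B)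
    {ρ : MM k × Finset (MM k)} (hρ : ρ ∈ l) {y : Fin k → ℕ} (hy : y ∉ Lx l) {c : ℕ}
    (hc : B + B * (B * B) < c) (hcy : ((fun _ => c : Fin k → ℕ), y) ∈ LinS ρ) :
    ∃ (π : Fin k → Fin k) (i j : Fin k → ℕ), Function.Injective π ∧
      (∀ s, 1 ≤ i s ∧ i s ≤ B ∧ 1 ≤ j s ∧ j s ≤ B) ∧
      (∀ s, ((Pi.single s (i s), Pi.single (π s) (j s)) : MM k) ∈ ρ.2) ∧
      ∀ m ∈ LinS ρ, ∀ s, j s * m.1 s + i s * ρ.1.2 (π s) = i s * m.2 (π s) + j s * ρ.1.1 s := by
  classical
  obtain ⟨hB1, hB2, hB3⟩ := hB ρ hρ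
  have hgen' := hgen ρ hρ
  obtain ⟨c', hc', hcy'⟩ := hcy
  obtain ⟨M, hM, hMsum⟩ := AddSubmonoid.exists_multiset_of_mem_closure hc'
  -- any related vector is constant
  have hconst : ∀ n, (n, y) ∈ LinS ρ → ∀ a b, n a = n b := by
    intro n hn a b
    by_contra hne
    exact hy ⟨n, ⟨a, b, hne⟩, ρ, hρ, hn⟩
  have hmem : ∀ M' : Multiset (MM k), (∀ g ∈ M', g ∈ ρ.2) → ρ.1 + M'.sum ∈ LinS ρ :=
    fun M' hM' => ⟨M'.sum, AddSubmonoid.multiset_sum_mem _ _
      (fun g hg => AddSubmonoid.subset_closure (hM' g hg)), rfl⟩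
  have hc1 : ∀ a, c = ρ.1.1 a + M.sum.1 a := by
    intro a
    have := congrFun (congrArg Prod.fst hcy') a
    rw [hMsum]
    exact this
  have hy1 : y = ρ.1.2 + M.sum.2 := by
    have := congrArg Prod.snd hcy'
    rw [hMsum]
    exact this
  -- (a) no slack generators
  have ha : ∀ h ∈ ρ.2, h.2 = 0 → h.1 = 0 := by
    intro h hh h2
    by_contra h1
    obtain ⟨s, hs⟩ : ∃ s, 1 ≤ h.1 s := by
      by_contra hcon
      push Not at hcon
      apply h1
      funext s
      have := hcon s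
      change h.1 s = 0
      omega
    obtain ⟨b, hb, _⟩ := exists_third hk s s
    have h3 := gen_fst (hgen' h hh) hs
    have h4 : h.1 b = 0 := by rw [h3, Pi.single_eq_of_ne hb]
    have h5 := hmem (M + {h}) (by
      intro g hg
      rcases Multiset.mem_add.1 hg with hg | hg
      · exact hM g hg
      · rw [Multiset.mem_singleton] at hg; rw [hg]; exact hh)
    rw [Multiset.sum_add, Multiset.sum_singleton] at h5
    have h6 : ρ.1 + (M.sum + h) = (ρ.1.1 + M.sum.1 + h.1, y) := by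
      ext a
      · simp only [Prod.fst_add, Pi.add_apply]; omega
      · simp only [Prod.snd_add, Pi.add_apply, h2, hy1, Pi.zero_apply]; omega
    rw [h6] at h5
    have h7 := hconst _ h5 s b
    simp only [Pi.add_apply] at h7
    have h8 := hc1 s
    have h9 := hc1 b
    omega
  -- (b) frequent generators
  have hb : ∀ s, ∃ g ∈ ρ.2, 1 ≤ g.1 s ∧ B + 1 ≤ M.count g := by
    intro s
    by_contra hcon
    push Not at hcon
    have h1 : M.sum = ∑ g ∈ ρ.2, M.count g • g :=
      Finset.sum_multiset_count_of_subset M ρ.2 (fun g hg => hM g (Multiset.mem_toFinset.1 hg))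
    have h2 : M.sum.1 s = ∑ g ∈ ρ.2, M.count g * g.1 s := by
      rw [h1, Prod.fst_sum, Finset.sum_apply]
      rfl
    have h3 : ∑ g ∈ ρ.2, M.count g * g.1 s ≤ ∑ _g ∈ ρ.2, B * B := by
      apply Finset.sum_le_sum
      intro g hg
      by_cases h : 1 ≤ g.1 s
      · have := hcon g hg h
        exact Nat.mul_le_mul (by omega) (hB3 g hg s).1
      · have : g.1 s = 0 := by omega
        rw [this]; simp
    rw [Finset.sum_const, smul_eq_mul] at h3
    have h4 : ρ.2.card * (B * B) ≤ B * (B * B) := Nat.mul_le_mul_right _ hB2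
    have h5 := hc1 s
    have h6 := (hB1 s).1
    omega
  -- (c) exchange
  have hex : ∀ g ∈ ρ.2, ∀ h ∈ ρ.2, ∀ s t, 1 ≤ g.1 s → B + 1 ≤ M.count g → 1 ≤ g.2 t →
      1 ≤ h.2 t → ∀ a, h.2 t * g.1 a = g.2 t * h.1 a := by
    intro g hg h hh s t hgs hcount hgt hht
    have h1 : Multiset.replicate (h.2 t) g ≤ M := by
      rw [← Multiset.le_count_iff_replicate_le]
      have := (hB3 h hh t).2
      omega
    obtain ⟨M', hM'⟩ := Multiset.le_iff_exists_add.1 h1
    have h2 := hmem (Multiset.replicate (g.2 t) h + M') (by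
      intro x hx
      rcases Multiset.mem_add.1 hx with hx | hx
      · rw [Multiset.eq_of_mem_replicate hx]; exact hh
      · apply hM; rw [hM']; exact Multiset.mem_add.2 (Or.inr hx))
    rw [Multiset.sum_add, Multiset.sum_replicate] at h2
    have h3 : M.sum = h.2 t • g + M'.sum := by
      rw [hM', Multiset.sum_add, Multiset.sum_replicate]
    have eg := gen_snd (hgen' g hg) hgt
    have eh := gen_snd (hgen' h hh) hht
    have h4 : ρ.1 + (g.2 t • h + M'.sum) = (ρ.1.1 + (g.2 t • h.1 + M'.sum.1), y) := by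
      ext a
      · rfl
      · simp only [Prod.snd_add, Prod.smul_snd, Pi.add_apply, Pi.smul_apply, smul_eq_mul, hy1, h3]
        have : g.2 t * h.2 a = h.2 t * g.2 a := by
          by_cases hat : a = t
          · subst hat; ring
          · rw [eg, eh, Pi.single_eq_of_ne hat, Pi.single_eq_of_ne hat]; simp
        omega
    rw [h4] at h2
    have h5 := hconst _ h2
    obtain ⟨sh, hsh⟩ : ∃ sh, ∀ a, a ≠ sh → h.1 a = 0 := by
      by_cases hz : ∃ a, 1 ≤ h.1 a
      · obtain ⟨a, ha'⟩ := hz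
        refine ⟨a, fun b hb' => ?_⟩
        rw [gen_fst (hgen' h hh) ha', Pi.single_eq_of_ne hb']
      · push Not at hz
        exact ⟨s, fun b _ => by have := hz b; omega⟩
    obtain ⟨r, hr1, hr2⟩ := exists_third hk s sh
    have hgr : g.1 r = 0 := by rw [gen_fst (hgen' g hg) hgs, Pi.single_eq_of_ne hr1]
    have hhr : h.1 r = 0 := hsh r hr2
    intro a
    have e1 := h5 a r
    have e2 := hc1 a
    have e3 := hc1 r
    rw [h3] at e2 e3
    simp only [Prod.fst_add, Prod.smul_fst, Pi.add_apply, Pi.smul_apply, smul_eq_mul, hgr,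
      hhr] at e1 e2 e3
    omega
  -- choose the frequent generators
  choose g hg1 hg2 hg3 using hb
  have hg4 : ∀ s, ∃ t, 1 ≤ (g s).2 t := by
    intro s
    by_contra hcon
    push Not at hcon
    have h1 : (g s).2 = 0 := by
      funext t
      have := hcon t
      change (g s).2 t = 0
      omega
    have h2 := ha _ (hg1 s) h1
    have h3 := hg2 s
    rw [h2] at h3
    exact absurd h3 (by simp)
  choose π hπ using hg4
  have hfst : ∀ s, (g s).1 = Pi.single s ((g s).1 s) := fun s => gen_fst (hgen' _ (hg1 s)) (hg2 s)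
  have hsnd : ∀ s, (g s).2 = Pi.single (π s) ((g s).2 (π s)) :=
    fun s => gen_snd (hgen' _ (hg1 s)) (hπ s)
  have hinj : Function.Injective π := by
    intro s s' hss
    by_contra hne
    have h1 := hex (g s) (hg1 s) (g s') (hg1 s') s (π s) (hg2 s) (hg3 s) (hπ s)
      (by rw [hss]; exact hπ s') s
    have h2 : (g s').1 s = 0 := by rw [hfst s', Pi.single_eq_of_ne hne]
    rw [h2, mul_zero] at h1
    have h3 := hg2 s
    have h4 : 1 ≤ (g s').2 (π s) := by rw [hss]; exact hπ s'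
    have := Nat.mul_le_mul h4 h3
    omega
  have hsurj : Function.Surjective π := Finite.injective_iff_surjective.1 hinj
  refine ⟨π, fun s => (g s).1 s, fun s => (g s).2 (π s), hinj, fun s => ⟨hg2 s,
    (hB3 _ (hg1 s) s).1, hπ s, (hB3 _ (hg1 s) (π s)).2⟩, fun s => ?_, ?_⟩
  · rw [← hfst s, ← hsnd s]; exact hg1 s
  · -- tightness
    have htight : ∀ h ∈ ρ.2, ∀ s, (g s).2 (π s) * h.1 s = (g s).1 s * h.2 (π s) := by
      intro h hh s
      by_cases h1 : 1 ≤ h.2 (π s)
      · have := hex (g s) (hg1 s) h hh s (π s) (hg2 s) (hg3 s) (hπ s) h1 s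
        rw [← this]; ring
      · have h2 : h.2 (π s) = 0 := by omega
        rw [h2, mul_zero]
        by_contra hne
        have h3 : 1 ≤ h.1 s := by
          rcases Nat.eq_zero_or_pos (h.1 s) with h0 | h0
          · rw [h0, mul_zero] at hne; exact absurd rfl hne
          · exact h0
        obtain ⟨t, ht⟩ : ∃ t, 1 ≤ h.2 t := by
          by_contra hcon
          push Not at hcon
          have h4 : h.2 = 0 := by
            funext t
            have := hcon t
            change h.2 t = 0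
            omega
          have h5 := ha h hh h4
          rw [h5] at h3
          exact absurd h3 (by simp)
        obtain ⟨s', rfl⟩ := hsurj t
        have hne' : s ≠ s' := by rintro rfl; omega
        have h4 := hex (g s') (hg1 s') h hh s' (π s') (hg2 s') (hg3 s') (hπ s') ht s
        rw [hfst s', Pi.single_eq_of_ne hne', mul_zero] at h4
        have := Nat.mul_le_mul (hπ s') h3
        omega
    have hclos : ∀ m ∈ AddSubmonoid.closure (ρ.2 : Set (MM k)), ∀ s,
        (g s).2 (π s) * m.1 s = (g s).1 s * m.2 (π s) := by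
      intro m hm
      induction hm using AddSubmonoid.closure_induction with
      | mem x hx => exact htight x hx
      | zero => intro s; simp
      | add x y _ _ ihx ihy =>
        intro s
        simp only [Prod.fst_add, Prod.snd_add, Pi.add_apply, mul_add, ihx s, ihy s]
    rintro _ ⟨m, hm, rfl⟩ s
    have := hclos m hm s
    simp only [Prod.fst_add, Prod.snd_add, Pi.add_apply, mul_add, this]
    omega

end Pool.Agent.R679.Tr
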