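import Pool.Agent.R679.Tr8

/-!
The dichotomy: either only finitely many vectors outside `Lx` are related to a long constant
vector, or `Lx` contains an affine copy of the set of nonconstant vectors.
-/

namespace Pool.Agent.R679.Tr

variable {k : ℕ}

lemma dichotomy (hk : 3 ≤ k) {l : List (MM k × Finset (MM k))}
    (hgen : ∀ ρ ∈ l, ∀ g ∈ ρ.2, IsGen g) : ∃ C0 : ℕ,
    {x | x ∉ Lx l ∧ ∃ c, C0 < c ∧ ∃ ρ ∈ l, ((fun _ => c : Fin k → ℕ), x) ∈ LinS ρ}.Finite ∨
    ∃ z D : Fin k → ℕ, ∀ m : Fin k → ℕ, (fun t => z t + D t * m t) ∈ Lx l ↔ NC m := by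
  classical
  obtain ⟨B, hB⟩ := exists_bound l
  refine ⟨B + B * (B * B), ?_⟩
  by_cases hfin : {x | x ∉ Lx l ∧ ∃ c, B + B * (B * B) < c ∧ ∃ ρ ∈ l,
    ((fun _ => c : Fin k → ℕ), x) ∈ LinS ρ}.Finite
  · exact Or.inl hfin
  · right
    -- fix one linear set
    obtain ⟨ρ, hρ, hinf⟩ : ∃ ρ ∈ l, ¬ {x | x ∉ Lx l ∧ ∃ c, B + B * (B * B) < c ∧
        ((fun _ => c : Fin k → ℕ), x) ∈ LinS ρ}.Finite := by
      by_contra hcon
      push Not at hcon
      apply hfin
      have : {x | x ∉ Lx l ∧ ∃ c, B + B * (B * B) < c ∧ ∃ ρ ∈ l,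
          ((fun _ => c : Fin k → ℕ), x) ∈ LinS ρ} = ⋃ ρ ∈ {ρ | ρ ∈ l}, {x | x ∉ Lx l ∧ ∃ c,
          B + B * (B * B) < c ∧ ((fun _ => c : Fin k → ℕ), x) ∈ LinS ρ} := by
        ext x
        simp only [Set.mem_setOf_eq, Set.mem_iUnion]
        constructor
        · rintro ⟨h1, c, h2, ρ, h3, h4⟩
          exact ⟨ρ, h3, h1, c, h2, h4⟩
        · rintro ⟨ρ, h3, h1, c, h2, h4⟩
          exact ⟨h1, c, h2, ρ, h3, h4⟩
      rw [this]
      exact Set.Finite.biUnion (List.finite_toSet l) (fun ρ hρ => hcon ρ hρ)
    have hne : {x | x ∉ Lx l ∧ ∃ c, B + B * (B * B) < c ∧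
        ((fun _ => c : Fin k → ℕ), x) ∈ LinS ρ}.Nonempty := by
      rw [Set.nonempty_iff_ne_empty]
      intro h
      rw [h] at hinf
      exact hinf Set.finite_empty
    obtain ⟨y0, hy0, c0, hc0, hc0y⟩ := hne
    obtain ⟨π, i, j, hinj, hij, hgρ, htight⟩ := structure_lemma hk hgen hB hρ hy0 hc0 hc0y
    obtain ⟨hB1, hB2, hB3⟩ := hB ρ hρ
    have hbij : Function.Bijective π := Finite.injective_iff_bijective.1 hinj
    let e : Fin k ≃ Fin k := Equiv.ofBijective π hbij
    have he : ∀ s, e s = π s := fun s => rfl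
    have he' : ∀ s, e.symm (π s) = s := fun s => by rw [← he, Equiv.symm_apply_apply]
    -- the set of long constants
    set Cs : Set ℕ := {c | B + B * (B * B) < c ∧ ∃ x, x ∉ Lx l ∧
      ((fun _ => c : Fin k → ℕ), x) ∈ LinS ρ} with hCs
    have hCsinf : ¬ Cs.Finite := by
      intro hf
      apply hinf
      have : {x | x ∉ Lx l ∧ ∃ c, B + B * (B * B) < c ∧
          ((fun _ => c : Fin k → ℕ), x) ∈ LinS ρ} ⊆
          ⋃ c ∈ Cs, {x | ((fun _ => c : Fin k → ℕ), x) ∈ LinS ρ} := by
        rintro x ⟨h1, c, h2, h3⟩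
        simp only [Set.mem_iUnion]
        exact ⟨c, ⟨h2, x, h1, h3⟩, h3⟩
      refine (hf.biUnion fun c _ => ?_).subset this
      apply Set.Subsingleton.finite
      intro x hx x' hx'
      funext t
      obtain ⟨s, rfl⟩ := hbij.2 t
      have h1 := htight _ hx s
      have h2 := htight _ hx' s
      simp only at h1 h2
      have h3 : i s * x (π s) = i s * x' (π s) := by omega
      exact Nat.eq_of_mul_eq_mul_left (hij s).1 h3
    -- modulus
    set F : ℕ := B.factorial with hF
    have hFpos : 0 < F := Nat.factorial_pos B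
    have hCpos : 0 < F * F := Nat.mul_pos hFpos hFpos
    obtain ⟨r, hr⟩ : ∃ r, ¬ {c | c ∈ Cs ∧ c % (F * F) = r}.Finite := by
      by_contra hcon
      push Not at hcon
      apply hCsinf
      have : Cs ⊆ ⋃ r ∈ Set.Iio (F * F), {c | c ∈ Cs ∧ c % (F * F) = r} := by
        intro c hc
        simp only [Set.mem_iUnion]
        exact ⟨c % (F * F), Nat.mod_lt _ hCpos, hc, rfl⟩
      exact ((Set.finite_Iio _).biUnion fun r _ => hcon r).subset this
    have hunb : ∀ b : ℕ, ∃ c, b ≤ c ∧ c ∈ Cs ∧ c % (F * F) = r := by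
      intro b
      by_contra hcon
      push Not at hcon
      apply hr
      apply (Set.finite_Iio b).subset
      rintro c ⟨h1, h2⟩
      by_contra h3
      exact hcon c (not_lt.1 h3) h1 h2
    obtain ⟨cz, hcz1, ⟨hcz2, z, hz, hczz⟩, hcz3⟩ := hunb (B + B * (B + 1))
    -- the direction
    set D : Fin k → ℕ := fun t => F / i (e.symm t) * F * j (e.symm t) with hD
    have hidvd : ∀ s, i s * (F / i s) = F := fun s =>
      Nat.mul_div_cancel' (Nat.dvd_factorial (hij s).1 (hij s).2.1)
    have hDπ : ∀ s, D (π s) = F / i s * F * j s := by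
      intro s
      simp only [hD, he']
    have hiD : ∀ s, i s * D (π s) = F * F * j s := by
      intro s
      rw [hDπ]
      calc i s * (F / i s * F * j s) = (i s * (F / i s)) * F * j s := by ring
        _ = F * F * j s := by rw [hidvd]
    -- (e1)
    have e1 : ∀ m : Fin k → ℕ, ((fun s => cz + F * F * m (π s)), (fun t => z t + D t * m t)) ∈
        LinS ρ := by
      intro m
      have h1 : (∑ s, (F / i s * F * m (π s)) • ((Pi.single s (i s), Pi.single (π s) (j s)) :
          MM k)) ∈ AddSubmonoid.closure (ρ.2 : Set (MM k)) := by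
        apply AddSubmonoid.sum_mem
        intro s _
        exact AddSubmonoid.nsmul_mem _ (AddSubmonoid.subset_closure (hgρ s)) _
      have h2 := LinS_add hczz h1
      have h3 : (((fun _ => cz : Fin k → ℕ), z) : MM k) +
          (∑ s, (F / i s * F * m (π s)) • ((Pi.single s (i s), Pi.single (π s) (j s)) : MM k)) =
          ((fun s => cz + F * F * m (π s)), (fun t => z t + D t * m t)) := by
        ext a
        · simp only [Prod.fst_add, Pi.add_apply, Prod.fst_sum, Finset.sum_apply, Prod.smul_fst,
            Pi.smul_apply, smul_eq_mul]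
          rw [Finset.sum_eq_single a]
          · rw [Pi.single_eq_same]
            have := hidvd a
            calc cz + F / i a * F * m (π a) * i a
                = cz + (i a * (F / i a)) * F * m (π a) := by ring
              _ = cz + F * F * m (π a) := by rw [this]
          · intro b _ hb
            rw [Pi.single_eq_of_ne hb.symm]; simp
          · simp
        · simp only [Prod.snd_add, Pi.add_apply, Prod.snd_sum, Finset.sum_apply, Prod.smul_snd,
            Pi.smul_apply, smul_eq_mul]
          rw [Finset.sum_eq_single (e.symm a)]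
          · have hπa : π (e.symm a) = a := by rw [← he, Equiv.apply_symm_apply]
            rw [hπa, Pi.single_eq_same]
            simp only [hD]
            ring
          · intro b _ hb
            rw [Pi.single_eq_of_ne]
            · simp
            · rintro rfl
              exact hb (he' b).symm
          · simp
      rw [h3] at h2
      exact h2
    -- (e2) infinitely many points of the ray outside `Lx`
    have e2 : ∀ b : ℕ, ∃ μ, b ≤ μ ∧ (fun t => z t + D t * μ) ∉ Lx l := by
      intro b
      obtain ⟨c, hc1, ⟨hc2, x, hx, hcx⟩, hc3⟩ := hunb (cz + F * F * b)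
      obtain ⟨μ, hμ⟩ : ∃ μ, c = cz + F * F * μ := by
        have h1 : cz ≤ c := by
          have := Nat.zero_le (F * F * b)
          omega
        have h2 : F * F ∣ c - cz := (Nat.modEq_iff_dvd' h1).1 (by
          change cz % (F * F) = c % (F * F)
          rw [hc3, hcz3])
        obtain ⟨μ, hμ⟩ := h2
        exact ⟨μ, by omega⟩
      refine ⟨μ, ?_, ?_⟩
      · have : F * F * b ≤ F * F * μ := by omega
        exact Nat.le_of_mul_le_mul_left this hCpos
      · have : (fun t => z t + D t * μ) = x := by
          funext t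
          obtain ⟨s, rfl⟩ := hbij.2 t
          have h1 := htight _ hcx s
          have h2 := htight _ hczz s
          simp only at h1 h2
          have h3 : i s * (z (π s) + D (π s) * μ) = i s * x (π s) := by
            have h4 : i s * (z (π s) + D (π s) * μ) = i s * z (π s) + (i s * D (π s)) * μ := by ring
            have h5 : j s * c = j s * cz + (F * F * j s) * μ := by rw [hμ]; ring
            rw [h4, hiD]
            omega
          exact Nat.eq_of_mul_eq_mul_left (hij s).1 h3
        rw [this]
        exact hx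
    -- the coordinates of `z` are large
    have hzlarge : ∀ t, B < z t := by
      intro t
      obtain ⟨s, rfl⟩ := hbij.2 t
      by_contra hcon
      have h2 := htight _ hczz s
      simp only at h2
      have h3 : i s * z (π s) ≤ B * B := Nat.mul_le_mul (hij s).2.1 (by omega)
      have h4 : j s * (cz - B) ≤ i s * z (π s) := by
        have h5 : j s * ρ.1.1 s ≤ j s * B := Nat.mul_le_mul_left _ (hB1 s).1
        have h6 : j s * (cz - B) = j s * cz - j s * B := Nat.mul_sub (j s) cz B
        have h7 : 0 ≤ i s * ρ.1.2 (π s) := Nat.zero_le _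
        omega
      have h5 : cz - B ≤ j s * (cz - B) := Nat.le_mul_of_pos_left _ (hij s).2.2.1
      have h6 : B * (B + 1) = B * B + B := by ring
      have h7 : 1 ≤ B := (hij s).1.trans (hij s).2.1
      omega
    -- (f) the whole ray is outside `Lx`
    have e3 : ∀ m0 : ℕ, (fun t => z t + D t * m0) ∉ Lx l := by
      intro m0
      rintro ⟨n, hn, ρ', hρ', c', hc', hx'⟩
      obtain ⟨hB1', _, hB3'⟩ := hB ρ' hρ'
      have hex : ∀ t, ∃ g ∈ ρ'.2, 1 ≤ g.2 t := by
        intro t
        by_contra hcon
        push Not at hcon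
        have h1 : ∀ m ∈ AddSubmonoid.closure (ρ'.2 : Set (MM k)), m.2 t = 0 := by
          intro m hm
          induction hm using AddSubmonoid.closure_induction with
          | mem x hx => have := hcon x hx; omega
          | zero => rfl
          | add x y _ _ ihx ihy => simp only [Prod.snd_add, Pi.add_apply, ihx, ihy]
        have h2 := congrFun (congrArg Prod.snd hx') t
        simp only [Prod.snd_add, Pi.add_apply, h1 c' hc'] at h2
        have h3 := (hB1' t).2
        have h4 := hzlarge t
        omega
      choose g hg1 hg2 using hex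
      have hdvd : ∀ t, (g t).2 t ∣ D t := by
        intro t
        have h1 : (g t).2 t ∣ F := Nat.dvd_factorial (hg2 t) (hB3' _ (hg1 t) t).2
        simp only [hD]
        exact Dvd.dvd.mul_right (Dvd.dvd.mul_left h1 _) _
      choose q hq using hdvd
      set v : MM k := ∑ t, q t • g t with hv
      have hvmem : v ∈ AddSubmonoid.closure (ρ'.2 : Set (MM k)) := by
        apply AddSubmonoid.sum_mem
        intro t _
        exact AddSubmonoid.nsmul_mem _ (AddSubmonoid.subset_closure (hg1 t)) _
      have hv2 : ∀ t, v.2 t = D t := by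
        intro t
        rw [hv, Prod.snd_sum, Finset.sum_apply, Finset.sum_eq_single t]
        · simp only [Prod.smul_snd, Pi.smul_apply, smul_eq_mul]
          rw [hq t]; ring
        · intro b _ hb
          simp only [Prod.smul_snd, Pi.smul_apply, smul_eq_mul]
          rw [gen_snd (hgen ρ' hρ' _ (hg1 b)) (hg2 b), Pi.single_eq_of_ne hb.symm, mul_zero]
        · simp
      have hray : ∀ m, ((fun a => n a + m * v.1 a), (fun t => z t + D t * (m0 + m))) ∈
          LinS ρ' := by
        intro m
        have h1 := LinS_add (m := (n, fun t => z t + D t * m0)) ⟨c', hc', hx'⟩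
          (AddSubmonoid.nsmul_mem _ hvmem m)
        have h2 : (n, fun t => z t + D t * m0) + m • v =
            ((fun a => n a + m * v.1 a), (fun t => z t + D t * (m0 + m))) := by
          ext a
          · rfl
          · simp only [Prod.snd_add, Pi.add_apply, Prod.smul_snd, Pi.smul_apply, smul_eq_mul,
              hv2]
            ring
        rw [h2] at h1
        exact h1
      obtain ⟨μ1, hμ1, hK1⟩ := e2 m0
      obtain ⟨μ2, hμ2, hK2⟩ := e2 (μ1 + 1)
      have c1 : ¬ NC (fun a => n a + (μ1 - m0) * v.1 a) := by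
        intro h
        apply hK1
        refine ⟨_, h, ρ', hρ', ?_⟩
        have := hray (μ1 - m0)
        rw [show m0 + (μ1 - m0) = μ1 by omega] at this
        exact this
      have c2 : ¬ NC (fun a => n a + (μ2 - m0) * v.1 a) := by
        intro h
        apply hK2
        refine ⟨_, h, ρ', hρ', ?_⟩
        have := hray (μ2 - m0)
        rw [show m0 + (μ2 - m0) = μ2 by omega] at this
        exact this
      obtain ⟨a, b, hab⟩ := hn
      have d1 := not_NC c1 a b
      have d2 := not_NC c2 a b
      obtain ⟨δ, hδ⟩ : ∃ δ, μ2 - m0 = (μ1 - m0) + δ ∧ 1 ≤ δ := ⟨μ2 - μ1, by omega, by omega⟩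
      rw [hδ.1, add_mul, add_mul] at d2
      have d3 : δ * v.1 a = δ * v.1 b := by omega
      have d4 : v.1 a = v.1 b := Nat.eq_of_mul_eq_mul_left hδ.2 d3
      rw [d4] at d1
      omega
    refine ⟨z, D, fun m => ⟨?_, ?_⟩⟩
    · intro h
      by_contra hnc
      have hk0 : 0 < k := by omega
      have : m = fun _ => m ⟨0, hk0⟩ := funext fun a => not_NC hnc a _
      apply e3 (m ⟨0, hk0⟩)
      rw [this] at h
      exact h
    · rintro ⟨a, b, hab⟩
      refine ⟨_, ?_, ρ, hρ, e1 m⟩
      obtain ⟨s, rfl⟩ := hbij.2 a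
      obtain ⟨s', rfl⟩ := hbij.2 b
      refine ⟨s, s', ?_⟩
      simp only
      intro h
      apply hab
      have h1 : F * F * m (π s) = F * F * m (π s') := by omega
      exact Nat.eq_of_mul_eq_mul_left hCpos h1

end Pool.Agent.R679.Tr
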